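import Pool.Agent.MP_67f0e4_gt.K.Alg

/-! Calculus rules for the Levi form. -/

open Set Filter Topology
open scoped ContDiff

noncomputable section

namespace Pool.Agent.MP_67f0e4_gt.K

theorem two_le_inf : (2 : WithTop ℕ∞) ≤ ∞ := WithTop.coe_le_coe.2 (le_top (a := (2 : ℕ∞)))
theorem one_le_inf : (1 : WithTop ℕ∞) ≤ ∞ := by exact_mod_cast le_top

section gen
variable {E : Type} [NormedAddCommGroup E] [NormedSpace ℝ E] {f g : E → ℝ} {x : E}

theorem D_congr (h : f =ᶠ[𝓝 x] g) (v : E) : D v f x = D v g x := by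
  simp only [D, h.fderiv_eq]

theorem D_congr_ev (h : f =ᶠ[𝓝 x] g) (v : E) : D v f =ᶠ[𝓝 x] D v g :=
  h.eventuallyEq_nhds.mono fun _ hy => D_congr hy v

theorem D_cd {m n : WithTop ℕ∞} (h : ContDiffAt ℝ n f x) (hm : m + 1 ≤ n) (v : E) :
    ContDiffAt ℝ m (D v f) x := (h.fderiv_right hm).clm_apply contDiffAt_const

theorem D_smooth (h : ContDiffAt ℝ ∞ f x) (v : E) : ContDiffAt ℝ ∞ (D v f) x :=
  D_cd h (by exact_mod_cast le_top) v

theorem D_smoothOn {U : Set E} (hU : IsOpen U) (h : ContDiffOn ℝ ∞ f U) (v : E) :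
    ContDiffOn ℝ ∞ (D v f) U := fun _ hy =>
  (D_smooth (h.contDiffAt (hU.mem_nhds hy)) v).contDiffWithinAt

theorem D_diff (h : ContDiffAt ℝ 2 f x) (v : E) : DifferentiableAt ℝ (D v f) x :=
  (D_cd (m := 1) h (by norm_num) v).differentiableAt (by norm_num)

theorem ev_diff (h : ContDiffAt ℝ 2 f x) : ∀ᶠ y in 𝓝 x, DifferentiableAt ℝ f y :=
  (h.eventually (by simp)).mono fun _ hy => hy.differentiableAt (by norm_num)

theorem D_of_has {p : E →L[ℝ] ℝ} (h : HasFDerivAt f p x) (v : E) : D v f x = p v := by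
  rw [D, h.fderiv]

theorem D_const (c : ℝ) (v : E) : D v (fun _ : E => c) = fun _ => 0 := by
  funext y; simp [D]

theorem D_add (hf : DifferentiableAt ℝ f x) (hg : DifferentiableAt ℝ g x) (v : E) :
    D v (fun y => f y + g y) x = D v f x + D v g x :=
  D_of_has (hf.hasFDerivAt.add hg.hasFDerivAt) v

theorem D_sub (hf : DifferentiableAt ℝ f x) (hg : DifferentiableAt ℝ g x) (v : E) :
    D v (fun y => f y - g y) x = D v f x - D v g x :=
  D_of_has (hf.hasFDerivAt.sub hg.hasFDerivAt) v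

theorem D_mul (hf : DifferentiableAt ℝ f x) (hg : DifferentiableAt ℝ g x) (v : E) :
    D v (fun y => f y * g y) x = f x * D v g x + g x * D v f x :=
  D_of_has (hf.hasFDerivAt.mul hg.hasFDerivAt) v

theorem D_add_const (c : ℝ) (v : E) : D v (fun y => f y + c) = D v f := by
  funext y; simp only [D, fderiv_add_const]

theorem D_const_mul (c : ℝ) (v : E) : D v (fun y => c * f y) = fun y => c * D v f y := by
  funext y
  have : (fun y => c * f y) = c • f := rfl
  simp only [D, this, fderiv_const_smul_field, Pi.smul_apply, smul_apply, smul_eq_mul]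

theorem D_comp {u : ℝ → ℝ} {u' : ℝ} (hu : HasDerivAt u u' (f x)) (hf : DifferentiableAt ℝ f x)
    (v : E) : D v (fun y => u (f y)) x = u' * D v f x :=
  D_of_has (hu.comp_hasFDerivAt x hf.hasFDerivAt) v

theorem D_sum {ι : Type} (s : Finset ι) {F : ι → E → ℝ}
    (h : ∀ i ∈ s, DifferentiableAt ℝ (F i) x) (v : E) :
    D v (fun y => ∑ i ∈ s, F i y) x = ∑ i ∈ s, D v (F i) x := by
  rw [D_of_has (HasFDerivAt.fun_sum fun i hi => (h i hi).hasFDerivAt) v]
  simp only [D, FunLike.coe_sum, Finset.sum_apply]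

theorem DD_eq (h : ContDiffAt ℝ 2 f x) (v w : E) :
    D v (D w f) x = fderiv ℝ (fderiv ℝ f) x v w := by
  have h1 : DifferentiableAt ℝ (fderiv ℝ f) x :=
    (h.fderiv_right (m := 1) (by norm_num)).differentiableAt (by norm_num)
  refine (D_of_has (h1.hasFDerivAt.clm_apply (hasFDerivAt_const w x)) v).trans ?_
  simp

theorem DD_symm (h : ContDiffAt ℝ 2 f x) (v w : E) : D v (D w f) x = D w (D v f) x := by
  rw [DD_eq h, DD_eq h]
  exact (h.isSymmSndFDerivAt (by simp)).eq v w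

theorem DD_add (hf : ContDiffAt ℝ 2 f x) (hg : ContDiffAt ℝ 2 g x) (v w : E) :
    D v (D w fun y => f y + g y) x = D v (D w f) x + D v (D w g) x := by
  rw [← D_add (D_diff hf w) (D_diff hg w)]
  exact D_congr (((ev_diff hf).and (ev_diff hg)).mono fun y hy => D_add hy.1 hy.2 w) v

theorem DD_mul (hf : ContDiffAt ℝ 2 f x) (hg : ContDiffAt ℝ 2 g x) (v w : E) :
    D v (D w fun y => f y * g y) x = f x * D v (D w g) x + g x * D v (D w f) x +
      (D v f x * D w g x + D w f x * D v g x) := by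
  have f1 := hf.differentiableAt (by norm_num)
  have g1 := hg.differentiableAt (by norm_num)
  rw [D_congr (g := fun y => f y * D w g y + g y * D w f y)
    (((ev_diff hf).and (ev_diff hg)).mono fun y hy => D_mul hy.1 hy.2 w) v,
    D_add (f1.fun_mul (D_diff hg w)) (g1.fun_mul (D_diff hf w)), D_mul f1 (D_diff hg w),
    D_mul g1 (D_diff hf w)]
  ring

theorem DD_comp {u u' : ℝ → ℝ} {u'' : ℝ} (hu : ∀ᶠ s in 𝓝 (f x), HasDerivAt u (u' s) s)
    (hu' : HasDerivAt u' u'' (f x)) (hf : ContDiffAt ℝ 2 f x) (v w : E) :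
    D v (D w fun y => u (f y)) x = u' (f x) * D v (D w f) x + u'' * (D v f x * D w f x) := by
  have f1 := hf.differentiableAt (by norm_num)
  have e := f1.continuousAt.eventually hu
  rw [D_congr (g := fun y => u' (f y) * D w f y)
    (((ev_diff hf).and e).mono fun y hy => D_comp hy.2 hy.1 w) v,
    D_mul (f := fun y => u' (f y)) (hu'.differentiableAt.comp x f1) (D_diff hf w), D_comp hu' f1]
  ring

/-- at a local maximum the second derivative is nonpositive -/
theorem DD_max (hf : ContDiffAt ℝ 2 f x) (h : IsLocalMax f x) (v : E) : D v (D v f) x ≤ 0 := by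
  have hl : ∀ t : ℝ, HasDerivAt (fun t : ℝ => x + t • v) v t := fun t => by
    simpa using ((hasDerivAt_id t).smul_const v).const_add x
  have c0 : Tendsto (fun t : ℝ => x + t • v) (𝓝 0) (𝓝 x) := by
    simpa using (hl 0).continuousAt.tendsto
  set φ : ℝ → ℝ := fun t => f (x + t • v) with hφ
  have m : IsLocalMax φ 0 := by
    have := c0.eventually h
    simpa [IsLocalMax, IsMaxFilter, hφ] using this
  have d1 : deriv φ =ᶠ[𝓝 0] fun t => D v f (x + t • v) :=
    (c0.eventually (ev_diff hf)).mono fun t ht => (ht.hasFDerivAt.comp_hasDerivAt t (hl t)).deriv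
  have d2 : deriv (deriv φ) 0 = D v (D v f) x := by
    rw [d1.deriv_eq]
    have a : HasFDerivAt (D v f) (fderiv ℝ (D v f) x) (x + (0 : ℝ) • v) := by
      simpa using (D_diff hf v).hasFDerivAt
    exact (a.comp_hasDerivAt 0 (hl 0)).deriv
  by_contra hp
  rw [not_le, ← d2] at hp
  have cφ : ContinuousAt φ 0 := by
    have a : ContinuousAt f (x + (0 : ℝ) • v) := by simpa using hf.continuousAt
    exact ContinuousAt.comp (f := fun t : ℝ => x + t • v) a (hl 0).continuousAt
  have m' := isLocalMin_of_deriv_deriv_pos hp m.deriv_eq_zero cφ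
  have e : φ =ᶠ[𝓝 0] fun _ => φ 0 := (m.and m').mono fun t ht => le_antisymm ht.1 ht.2
  rw [e.deriv.deriv_eq] at hp
  simp at hp

theorem lev_congr [SMul ℂ E] (h : f =ᶠ[𝓝 x] g) (v w : E) : lev f x v w = lev g x v w := by
  simp only [lev, D_congr (D_congr_ev h _)]

end gen

section hol
variable {E F : Type} [NormedAddCommGroup E] [NormedSpace ℝ E] [NormedSpace ℂ E]
  [IsScalarTower ℝ ℂ E] [NormedAddCommGroup F] [NormedSpace ℝ F] [NormedSpace ℂ F]
  [IsScalarTower ℝ ℂ F] {T : E → F} {f : F → ℝ} {x : E}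

theorem D_hol (hT : DifferentiableAt ℂ T x) (hf : DifferentiableAt ℝ f (T x)) (v : E) :
    D v (f ∘ T) x = D (fderiv ℂ T x v) f (T x) :=
  D_of_has (hf.hasFDerivAt.comp x (hT.hasFDerivAt.restrictScalars ℝ)) v

theorem DD_hol (hT : ContDiffAt ℂ 2 T x) (hf : ContDiffAt ℝ 2 f (T x)) (v w : E) :
    D v (D w (f ∘ T)) x = D (fderiv ℂ T x v) (D (fderiv ℂ T x w) f) (T x) +
      fderiv ℝ f (T x) (fderiv ℂ (fderiv ℂ T) x v w) := by
  have T1 := hT.differentiableAt (by norm_num)
  have T2 : DifferentiableAt ℂ (fderiv ℂ T) x :=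
    (hT.fderiv_right (m := 1) (by norm_num)).differentiableAt (by norm_num)
  have f2 : DifferentiableAt ℝ (fderiv ℝ f) (T x) :=
    (hf.fderiv_right (m := 1) (by norm_num)).differentiableAt (by norm_num)
  have e1 : ∀ᶠ y in 𝓝 x, DifferentiableAt ℂ T y :=
    (hT.eventually (by simp)).mono fun _ hy => hy.differentiableAt (by norm_num)
  have e2 := T1.continuousAt.eventually (ev_diff hf)
  have a := (f2.hasFDerivAt.comp x (T1.hasFDerivAt.restrictScalars ℝ)).clm_apply
    ((T2.hasFDerivAt.clm_apply (hasFDerivAt_const w x)).restrictScalars ℝ)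
  rw [D_congr (g := fun y => fderiv ℝ f (T y) (fderiv ℂ T y w))
    ((e1.and e2).mono fun y hy => D_hol hy.1 hy.2 w) v, DD_eq hf]
  have := D_of_has a v
  simp only [Function.comp] at this
  rw [this]
  simp [add_comm]

/-- the Levi form under a holomorphic map -/
theorem lev_hol (hT : ContDiffAt ℂ 2 T x) (hf : ContDiffAt ℝ 2 f (T x)) (v w : E) :
    lev (f ∘ T) x v w = lev f (T x) (fderiv ℂ T x v) (fderiv ℂ T x w) := by
  rw [lev, lev, DD_hol hT hf, DD_hol hT hf]
  simp only [map_smul, smul_apply, smul_smul, Complex.I_mul_I, neg_smul, one_smul, map_neg]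
  ring

end hol

variable {f g : V → ℝ} {x : V}

theorem lv_congr (h : f =ᶠ[𝓝 x] g) : lv f x = lv g x := by simp only [lv, lev_congr h]

theorem lv_congr_ev (h : f =ᶠ[𝓝 x] g) : lv f =ᶠ[𝓝 x] lv g :=
  h.eventuallyEq_nhds.mono fun _ hy => lv_congr hy

theorem rk_congr (h : f =ᶠ[𝓝 x] g) : rk f x = rk g x := by simp only [rk, D_congr h]

theorem DL_congr_ev (h : f =ᶠ[𝓝 x] g) (l : List (Fin 4)) : DL l f =ᶠ[𝓝 x] DL l g := by
  induction l with
  | nil => exact h
  | cons i l ih => exact D_congr_ev ih _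

theorem DL_smooth (h : ContDiffAt ℝ ∞ f x) (l : List (Fin 4)) : ContDiffAt ℝ ∞ (DL l f) x := by
  induction l with
  | nil => exact h
  | cons i l ih => exact D_smooth ih _

theorem lev_smooth (h : ContDiffAt ℝ ∞ f x) (v w : V) :
    ContDiffAt ℝ ∞ (fun y => lev f y v w) x :=
  (D_smooth (D_smooth h _) _).add (D_smooth (D_smooth h _) _)

theorem lv_smooth (h : ContDiffAt ℝ ∞ f x) : ContDiffAt ℝ ∞ (lv f) x := by
  refine contDiffAt_pi.2 fun α => ?_
  fin_cases α <;> exact lev_smooth h _ _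

theorem rk_smooth (h : ContDiffAt ℝ ∞ f x) : ContDiffAt ℝ ∞ (rk f) x := by
  have a := fun i => D_smooth h (e i)
  refine contDiffAt_pi.2 fun α => ?_
  fin_cases α
  exacts [((a 0).pow 2).add ((a 1).pow 2), ((a 2).pow 2).add ((a 3).pow 2),
    ((a 0).mul (a 2)).add ((a 1).mul (a 3)), ((a 0).mul (a 3)).sub ((a 1).mul (a 2))]

theorem hdet_smooth : ContDiff ℝ ∞ hdet := by
  unfold hdet
  fun_prop

theorem hmix_smooth : ContDiff ℝ ∞ fun q : Hm × Hm => hmix q.1 q.2 := by
  unfold hmix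
  fun_prop

/-- the Levi form is the form with entries `lv` -/
theorem bf_lv (h : ContDiffAt ℝ 2 f x) (v w : V) : bf (lv f x) v w = lev f x v w := by
  have hs := fun a b => (h.isSymmSndFDerivAt (by simp)).eq a b
  simp only [lv, lev, DD_eq h, I_e0, I_e2, I_e3, map_neg]
  generalize fderiv ℝ (fderiv ℝ f) x = B at hs
  have hB : ∀ a b : V, B a b = a.1.re * B (e 0) b + a.1.im * B (e 1) b + a.2.re * B (e 2) b +
      a.2.im * B (e 3) b := fun a b => cov_eq (B.flip b) a
  rw [hB v, hB (Complex.I • v)]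
  simp only [cov_eq _ w, cov_eq _ (Complex.I • w), hs (e 1) (e 0), hs (e 2) (e 0), hs (e 3) (e 0),
    hs (e 2) (e 1), hs (e 3) (e 1), hs (e 3) (e 2)]
  generalize B (e 0) (e 0) = b00, B (e 0) (e 1) = b01, B (e 0) (e 2) = b02, B (e 0) (e 3) = b03,
    B (e 1) (e 1) = b11, B (e 1) (e 2) = b12, B (e 1) (e 3) = b13, B (e 2) (e 2) = b22,
    B (e 2) (e 3) = b23, B (e 3) (e 3) = b33
  simp [bf]
  ring

theorem qf_lv (h : ContDiffAt ℝ 2 f x) (v : V) : qf (lv f x) v = lev f x v v := bf_lv h v v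

theorem lv_const (c : ℝ) (x : V) : lv (fun _ => c) x = 0 := by
  refine Hm_ext ?_ ?_ ?_ ?_ <;> simp [lv, lev, D_const]

theorem lv_add_const (f : V → ℝ) (c : ℝ) (x : V) : lv (fun y => f y + c) x = lv f x := by
  simp only [lv, lev, D_add_const]

theorem lv_sub_const (f : V → ℝ) (c : ℝ) (x : V) : lv (fun y => f y - c) x = lv f x := by
  simp only [sub_eq_add_neg, lv_add_const]

theorem lv_const_mul (c : ℝ) (f : V → ℝ) (x : V) : lv (fun y => c * f y) x = c • lv f x := by
  refine Hm_ext ?_ ?_ ?_ ?_ <;>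
    simp only [lv, lev, D_const_mul, Matrix.cons_val, Pi.smul_apply, smul_eq_mul] <;> ring

theorem lv_neg (f : V → ℝ) (x : V) : lv (fun y => -f y) x = -lv f x := by
  simpa using lv_const_mul (-1) f x

theorem lv_add (hf : ContDiffAt ℝ 2 f x) (hg : ContDiffAt ℝ 2 g x) :
    lv (fun y => f y + g y) x = lv f x + lv g x := by
  refine Hm_ext ?_ ?_ ?_ ?_ <;>
    simp only [lv, lev, DD_add hf hg, Matrix.cons_val, Pi.add_apply] <;> ring

theorem lv_sub (hf : ContDiffAt ℝ 2 f x) (hg : ContDiffAt ℝ 2 g x) :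
    lv (fun y => f y - g y) x = lv f x - lv g x := by
  simp only [sub_eq_add_neg]
  rw [lv_add hf hg.neg, lv_neg]

theorem lv_sum {ι : Type} (s : Finset ι) {F : ι → V → ℝ}
    (h : ∀ i ∈ s, ContDiffAt ℝ 2 (F i) x) :
    lv (fun y => ∑ i ∈ s, F i y) x = ∑ i ∈ s, lv (F i) x := by
  classical
  induction s using Finset.induction_on with
  | empty => simpa using lv_const 0 x
  | insert i s hi ih =>
    have h' := fun j hj => h j (Finset.mem_insert_of_mem hj)
    simp only [Finset.sum_insert hi]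
    rw [lv_add (h i (Finset.mem_insert_self _ _)) (ContDiffAt.sum h'), ih h']

theorem lv_mul (hf : ContDiffAt ℝ 2 f x) (hg : ContDiffAt ℝ 2 g x) :
    lv (fun y => f y * g y) x =
      f x • lv g x + g x • lv f x + (2 : ℝ) • rk2 (fderiv ℝ f x) (fderiv ℝ g x) := by
  refine qf_ext fun v => ?_
  simp only [qf_add, qf_smul, qf_lv hf, qf_lv hg, qf_lv (hf.mul hg), qf_rk2, lev, DD_mul hf hg]
  simp only [D]
  ring

/-- the chain rule `lv (u ∘ f) = u' lv f + u'' rk f` -/
theorem lv_comp {u u' : ℝ → ℝ} {u'' : ℝ} (hu : ∀ᶠ s in 𝓝 (f x), HasDerivAt u (u' s) s)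
    (hu' : HasDerivAt u' u'' (f x)) (hf : ContDiffAt ℝ 2 f x) :
    lv (fun y => u (f y)) x = u' (f x) • lv f x + u'' • rk f x := by
  refine Hm_ext ?_ ?_ ?_ ?_ <;>
    simp only [lv, rk, lev, DD_comp hu hu' hf, Matrix.cons_val, Pi.add_apply, Pi.smul_apply,
      smul_eq_mul, I_e0, I_e2, I_e3]
  · ring
  · ring
  · ring
  · have : D (-e 2) f x = -D (e 2) f x := by simp only [D, map_neg]
    rw [this]
    ring

theorem lv_comp_deriv {u : ℝ → ℝ} (hu : ContDiffAt ℝ 2 u (f x)) (hf : ContDiffAt ℝ 2 f x) :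
    lv (fun y => u (f y)) x = deriv u (f x) • lv f x + deriv (deriv u) (f x) • rk f x :=
  lv_comp ((ev_diff hu).mono fun _ hs => hs.hasDerivAt)
    (((hu.fderiv_right (m := 1) (by norm_num)).clm_apply contDiffAt_const).differentiableAt
      (by norm_num)).hasDerivAt hf

theorem rk_comp {u : ℝ → ℝ} {u' : ℝ} (hu : HasDerivAt u u' (f x)) (hf : DifferentiableAt ℝ f x) :
    rk (fun y => u (f y)) x = u' ^ 2 • rk f x :=
  qf_ext fun v => by rw [qf_smul, qf_rk, qf_rk, D_comp hu hf, D_comp hu hf]; ring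

theorem rk_log (hf : DifferentiableAt ℝ f x) (h0 : f x ≠ 0) :
    rk (fun y => Real.log (f y)) x = (f x)⁻¹ ^ 2 • rk f x :=
  rk_comp (Real.hasDerivAt_log h0) hf

theorem lv_log (hf : ContDiffAt ℝ 2 f x) (h0 : f x ≠ 0) :
    lv (fun y => Real.log (f y)) x = (f x)⁻¹ • lv f x - (f x)⁻¹ ^ 2 • rk f x := by
  rw [lv_comp (u := Real.log) (u' := fun s => s⁻¹)
    ((eventually_ne_nhds h0).mono fun s hs => Real.hasDerivAt_log hs) (hasDerivAt_inv h0) hf,
    neg_smul, inv_pow, sub_eq_add_neg]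

theorem rk_add_const (f : V → ℝ) (c : ℝ) (x : V) : rk (fun y => f y + c) x = rk f x := by
  simp only [rk, D_add_const]

theorem rk_sub_const (f : V → ℝ) (c : ℝ) (x : V) : rk (fun y => f y - c) x = rk f x := by
  simp only [sub_eq_add_neg, rk_add_const]

/-- the Levi form under a holomorphic change of coordinates -/
theorem lv_hol {T : V → V} (hT : ContDiffAt ℂ 2 T x) (hf : ContDiffAt ℝ 2 f (T x)) :
    lv (f ∘ T) x = pb (fderiv ℂ T x) (lv f (T x)) := by
  simp only [pb, bf_lv hf, ← lev_hol hT hf]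
  rfl

theorem rk_hol {T : V → V} (hT : DifferentiableAt ℂ T x) (hf : DifferentiableAt ℝ f (T x)) :
    rk (f ∘ T) x = pb (fderiv ℂ T x) (rk f (T x)) :=
  qf_ext fun v => by rw [qf_pb, qf_rk, qf_rk, D_hol hT hf, D_hol hT hf, map_smul]

theorem lv_affine (A : V →L[ℂ] V) (b : V) (hf : ContDiffAt ℝ 2 f (b + A x)) :
    lv (fun y => f (b + A y)) x = pb A (lv f (b + A x)) := by
  have := lv_hol (T := fun y => b + A y) (contDiffAt_const.add A.contDiff.contDiffAt) hf
  rwa [(A.hasFDerivAt.const_add b).fderiv] at this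

/-- maximum principle at a point -/
theorem qf_max (hf : ContDiffAt ℝ 2 f x) (h : IsLocalMax f x) (v : V) : qf (lv f x) v ≤ 0 := by
  rw [qf_lv hf]
  exact add_nonpos (DD_max hf h _) (DD_max hf h _)

theorem hmix_max {b : Hm} (hb : NN b) (hf : ContDiffAt ℝ 2 f x) (h : IsLocalMax f x) :
    hmix b (lv f x) ≤ 0 := by
  have := hmix_mono hb (g := lv f x) (h := 0) fun v => by rw [qf_zero]; exact qf_max hf h v
  rwa [hmix_zero_right] at this

end Pool.Agent.MP_67f0e4_gt.K
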