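import Pool.Agent.MP_67f0e4_gt.K.Base

/-! Pointwise algebra of Hermitian forms on `V`. -/

open Set

noncomputable section

namespace Pool.Agent.MP_67f0e4_gt.K

@[simp] theorem e0 : e 0 = (1, 0) := rfl
@[simp] theorem e1 : e 1 = (Complex.I, 0) := rfl
@[simp] theorem e2 : e 2 = (0, 1) := rfl
@[simp] theorem e3 : e 3 = (0, Complex.I) := rfl

theorem I_e0 : Complex.I • e 0 = e 1 := by simp
theorem I_e1 : Complex.I • e 1 = -e 0 := by simp
theorem I_e2 : Complex.I • e 2 = e 3 := by simp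
theorem I_e3 : Complex.I • e 3 = -e 2 := by simp

theorem norm_e (i : Fin 4) : ‖e i‖ = 1 := by
  fin_cases i <;> simp [e, Prod.norm_def]

/-- real coordinates -/
theorem V_eq (v : V) : v = v.1.re • e 0 + v.1.im • e 1 + v.2.re • e 2 + v.2.im • e 3 := by
  ext <;> simp

/-- complex coordinates -/
theorem V_eqc (v : V) : v = v.1 • e 0 + v.2 • e 2 := by
  ext <;> simp

theorem Hm_ext {g h : Hm} (h0 : g 0 = h 0) (h1 : g 1 = h 1) (h2 : g 2 = h 2) (h3 : g 3 = h 3) :
    g = h := by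
  funext i
  fin_cases i
  exacts [h0, h1, h2, h3]

@[simp] theorem one0 : one 0 = 1 := rfl
@[simp] theorem one1 : one 1 = 1 := rfl
@[simp] theorem one2 : one 2 = 0 := rfl
@[simp] theorem one3 : one 3 = 0 := rfl

/-! ### the bilinear form -/

theorem bf_comm (g : Hm) (v w : V) : bf g v w = bf g w v := by simp only [bf]; ring

theorem bf_add_left (g : Hm) (u v w : V) : bf g (u + v) w = bf g u w + bf g v w := by
  simp only [bf, Prod.fst_add, Prod.snd_add, Complex.add_re, Complex.add_im]; ring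

theorem bf_add_right (g : Hm) (u v w : V) : bf g u (v + w) = bf g u v + bf g u w := by
  simp only [bf, Prod.fst_add, Prod.snd_add, Complex.add_re, Complex.add_im]; ring

theorem bf_smul_left (g : Hm) (c : ℝ) (v w : V) : bf g (c • v) w = c * bf g v w := by
  simp [bf]; ring

theorem bf_smul_right (g : Hm) (c : ℝ) (v w : V) : bf g v (c • w) = c * bf g v w := by
  simp [bf]; ring

theorem bf_neg_left (g : Hm) (v w : V) : bf g (-v) w = -bf g v w := by simp [bf]; ring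

theorem bf_neg_right (g : Hm) (v w : V) : bf g v (-w) = -bf g v w := by simp [bf]; ring

theorem bf_I (g : Hm) (v w : V) : bf g (Complex.I • v) (Complex.I • w) = bf g v w := by
  simp [bf]; ring

theorem bf_I_self (g : Hm) (v : V) : bf g v (Complex.I • v) = 0 := by
  simp [bf]; ring

theorem bf_add (g h : Hm) (v w : V) : bf (g + h) v w = bf g v w + bf h v w := by
  simp only [bf, Pi.add_apply]; ring

theorem bf_sub (g h : Hm) (v w : V) : bf (g - h) v w = bf g v w - bf h v w := by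
  simp only [bf, Pi.sub_apply]; ring

theorem bf_smul (c : ℝ) (g : Hm) (v w : V) : bf (c • g) v w = c * bf g v w := by
  simp only [bf, Pi.smul_apply, smul_eq_mul]; ring

theorem bf_zero (v w : V) : bf 0 v w = 0 := by simp [bf]

theorem bf00 (g : Hm) : bf g (e 0) (e 0) = g 0 := by simp [bf]
theorem bf22 (g : Hm) : bf g (e 2) (e 2) = g 1 := by simp [bf]
theorem bf02 (g : Hm) : bf g (e 0) (e 2) = g 2 := by simp [bf]
theorem bf03 (g : Hm) : bf g (e 0) (e 3) = g 3 := by simp [bf]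

theorem qf_add (g h : Hm) (v : V) : qf (g + h) v = qf g v + qf h v := bf_add ..
theorem qf_sub (g h : Hm) (v : V) : qf (g - h) v = qf g v - qf h v := bf_sub ..
theorem qf_smul (c : ℝ) (g : Hm) (v : V) : qf (c • g) v = c * qf g v := bf_smul ..
theorem qf_zero (v : V) : qf 0 v = 0 := bf_zero ..
theorem qf_neg (g : Hm) (v : V) : qf (-g) v = -qf g v := by
  simp only [qf, bf, Pi.neg_apply]; ring
theorem qf_zero_vec (g : Hm) : qf g 0 = 0 := by simp [qf, bf]

theorem qf_csmul (g : Hm) (c : ℂ) (v : V) : qf g (c • v) = ‖c‖ ^ 2 * qf g v := by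
  rw [Complex.sq_norm, Complex.normSq_apply]
  simp [qf, bf]; ring

theorem qf_rsmul (g : Hm) (c : ℝ) (v : V) : qf g (c • v) = c ^ 2 * qf g v := by
  rw [qf, bf_smul_left, bf_smul_right, qf]; ring

theorem qf_add_vec (g : Hm) (v w : V) : qf g (v + w) = qf g v + 2 * bf g v w + qf g w := by
  simp only [qf, bf_add_left, bf_add_right, bf_comm g w v]; ring

theorem qf_one (v : V) : qf one v = ‖v.1‖ ^ 2 + ‖v.2‖ ^ 2 := by
  rw [Complex.sq_norm, Complex.sq_norm, Complex.normSq_apply, Complex.normSq_apply]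
  simp [qf, bf]

theorem qf_one_ge (v : V) : ‖v‖ ^ 2 ≤ qf one v := by
  rw [qf_one, Prod.norm_def]
  rcases le_total ‖v.1‖ ‖v.2‖ with h | h
  · rw [max_eq_right h]; nlinarith [sq_nonneg ‖v.1‖]
  · rw [max_eq_left h]; nlinarith [sq_nonneg ‖v.2‖]

theorem qf_one_le (v : V) : qf one v ≤ 2 * ‖v‖ ^ 2 := by
  have h1 := pow_le_pow_left₀ (norm_nonneg _) (norm_fst_le v) 2
  have h2 := pow_le_pow_left₀ (norm_nonneg _) (norm_snd_le v) 2
  rw [qf_one]; linarith

theorem qf_ext {g h : Hm} (H : ∀ v, qf g v = qf h v) : g = h := by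
  have h0 := H (e 0)
  have h1 := H (e 2)
  have h2 := H (e 0 + e 2)
  have h3 := H (e 0 + e 3)
  simp [qf, bf] at h0 h1 h2 h3
  exact Hm_ext h0 h1 (by linarith) (by linarith)

/-- the form is bounded by the sup norm of its entries -/
theorem abs_bf_le (g : Hm) (v w : V) : |bf g v w| ≤ 6 * ‖g‖ * ‖v‖ * ‖w‖ := by
  have hg : ∀ i, |g i| ≤ ‖g‖ := fun i => by
    rw [← Real.norm_eq_abs]; exact norm_le_pi_norm g i
  have key : ∀ a b : ℂ, ‖a‖ ≤ ‖v‖ → ‖b‖ ≤ ‖w‖ → |a.re * b.re + a.im * b.im| ≤ ‖v‖ * ‖w‖ ∧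
      |a.re * b.im - a.im * b.re| ≤ ‖v‖ * ‖w‖ := by
    intro a b ha hb
    have h1 : ‖(starRingEnd ℂ) a * b‖ ≤ ‖v‖ * ‖w‖ := by
      rw [norm_mul, Complex.norm_conj]
      exact mul_le_mul ha hb (norm_nonneg _) (norm_nonneg _)
    constructor
    · refine le_trans (le_of_eq ?_) ((Complex.abs_re_le_norm _).trans h1)
      simp
    · refine le_trans (le_of_eq ?_) ((Complex.abs_im_le_norm _).trans h1)
      simp [sub_eq_add_neg]
  have a11 := (key v.1 w.1 (norm_fst_le v) (norm_fst_le w)).1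
  have a22 := (key v.2 w.2 (norm_snd_le v) (norm_snd_le w)).1
  have a12 := key v.1 w.2 (norm_fst_le v) (norm_snd_le w)
  have a21 := key v.2 w.1 (norm_snd_le v) (norm_fst_le w)
  have m : ∀ (i : Fin 4) (t : ℝ), |t| ≤ ‖v‖ * ‖w‖ → |g i * t| ≤ ‖g‖ * (‖v‖ * ‖w‖) := fun i t ht => by
    rw [abs_mul]
    exact mul_le_mul (hg i) ht (abs_nonneg _) (norm_nonneg _)
  have b0 := abs_le.1 (m 0 _ a11)
  have b1 := abs_le.1 (m 1 _ a22)
  have b2 := abs_le.1 (m 2 _ a12.1)
  have b3 := abs_le.1 (m 2 _ a21.1)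
  have b4 := abs_le.1 (m 3 _ a12.2)
  have b5 := abs_le.1 (m 3 _ a21.2)
  rw [bf, abs_le]
  constructor <;> nlinarith [b0.1, b0.2, b1.1, b1.2, b2.1, b2.2, b3.1, b3.2, b4.1, b4.2, b5.1, b5.2]

theorem abs_qf_le (g : Hm) (v : V) : |qf g v| ≤ 6 * ‖g‖ * ‖v‖ ^ 2 := by
  have := abs_bf_le g v v
  rw [qf]
  linarith [this, show 6 * ‖g‖ * ‖v‖ * ‖v‖ = 6 * ‖g‖ * ‖v‖ ^ 2 by ring]

/-- the entries are bounded by the quadratic form -/
theorem norm_le_of_qf {g : Hm} {M : ℝ} (H : ∀ v : V, |qf g v| ≤ M * ‖v‖ ^ 2) : ‖g‖ ≤ 2 * M := by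
  have h0 := abs_le.1 (H (e 0))
  have h1 := abs_le.1 (H (e 2))
  have h2 := abs_le.1 (H (e 0 + e 2))
  have h3 := abs_le.1 (H (e 0 + e 3))
  simp [qf, bf, Prod.norm_def] at h0 h1 h2 h3
  have hM : 0 ≤ M := by linarith [h0.1, h0.2]
  refine (pi_norm_le_iff_of_nonneg (by positivity)).2 fun i => ?_
  rw [Real.norm_eq_abs, abs_le]
  fin_cases i <;> simp <;> constructor <;> linarith [h0.1, h0.2, h1.1, h1.2, h2.1, h2.2, h3.1, h3.2]

/-! ### determinant and mixed determinant -/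

theorem hmix_comm (g h : Hm) : hmix g h = hmix h g := by simp only [hmix]; ring
theorem hmix_self (g : Hm) : hmix g g = 2 * hdet g := by simp only [hmix, hdet]; ring
theorem hmix_add_right (g h k : Hm) : hmix g (h + k) = hmix g h + hmix g k := by
  simp only [hmix, Pi.add_apply]; ring
theorem hmix_sub_right (g h k : Hm) : hmix g (h - k) = hmix g h - hmix g k := by
  simp only [hmix, Pi.sub_apply]; ring
theorem hmix_smul_right (g : Hm) (c : ℝ) (h : Hm) : hmix g (c • h) = c * hmix g h := by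
  simp only [hmix, Pi.smul_apply, smul_eq_mul]; ring
theorem hmix_neg_right (g h : Hm) : hmix g (-h) = -hmix g h := by
  simp only [hmix, Pi.neg_apply]; ring
theorem hmix_add_left (g h k : Hm) : hmix (g + h) k = hmix g k + hmix h k := by
  simp only [hmix, Pi.add_apply]; ring
theorem hmix_sub_left (g h k : Hm) : hmix (g - h) k = hmix g k - hmix h k := by
  simp only [hmix, Pi.sub_apply]; ring
theorem hmix_smul_left (c : ℝ) (g h : Hm) : hmix (c • g) h = c * hmix g h := by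
  simp only [hmix, Pi.smul_apply, smul_eq_mul]; ring
theorem hmix_zero_right (g : Hm) : hmix g 0 = 0 := by simp [hmix]
theorem hmix_one (h : Hm) : hmix one h = h 0 + h 1 := by simp [hmix]; ring
theorem hdet_one : hdet one = 1 := by simp [hdet]
theorem hdet_add (g h : Hm) : hdet (g + h) = hdet g + hmix g h + hdet h := by
  simp only [hmix, hdet, Pi.add_apply]; ring
theorem hdet_sub (g h : Hm) : hdet (g - h) = hdet g - hmix g h + hdet h := by
  simp only [hmix, hdet, Pi.sub_apply]; ring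
theorem hdet_smul (c : ℝ) (g : Hm) : hdet (c • g) = c ^ 2 * hdet g := by
  simp only [hdet, Pi.smul_apply, smul_eq_mul]; ring

theorem abs_hmix_le (g h : Hm) : |hmix g h| ≤ 6 * ‖g‖ * ‖h‖ := by
  have hg : ∀ i j, |g i * h j| ≤ ‖g‖ * ‖h‖ := fun i j => by
    rw [abs_mul, ← Real.norm_eq_abs, ← Real.norm_eq_abs]
    exact mul_le_mul (norm_le_pi_norm g i) (norm_le_pi_norm h j) (norm_nonneg _) (norm_nonneg _)
  have a := abs_le.1 (hg 0 1)
  have b := abs_le.1 (hg 1 0)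
  have c := abs_le.1 (hg 2 2)
  have d := abs_le.1 (hg 3 3)
  rw [hmix, abs_le]
  constructor <;> nlinarith [a.1, a.2, b.1, b.2, c.1, c.2, d.1, d.2]

/-! ### positivity -/

theorem qf_sq (g : Hm) (v : V) : g 0 * qf g v =
    (g 0 * v.1.re + g 2 * v.2.re + g 3 * v.2.im) ^ 2 +
      (g 0 * v.1.im + g 2 * v.2.im - g 3 * v.2.re) ^ 2 + hdet g * (v.2.re ^ 2 + v.2.im ^ 2) := by
  simp only [qf, bf, hdet]; ring

theorem qf_test (g : Hm) : qf g ((⟨-g 2, g 3⟩ : ℂ), (g 0 : ℂ)) = g 0 * hdet g := by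
  simp [qf, bf, hdet]; ring

theorem qf_test' (g : Hm) : qf g ((g 1 : ℂ), (⟨-g 2, -g 3⟩ : ℂ)) = g 1 * hdet g := by
  simp [qf, bf, hdet]; ring

theorem pos_iff {g : Hm} : Pos g ↔ 0 < g 0 ∧ 0 < hdet g := by
  constructor
  · intro h
    have h0 : 0 < g 0 := by
      have := h (e 0) (by simp)
      rwa [qf, bf00] at this
    refine ⟨h0, ?_⟩
    have := h ((⟨-g 2, g 3⟩ : ℂ), (g 0 : ℂ)) (by simp [h0.ne'])
    rw [qf_test] at this
    exact (mul_pos_iff_of_pos_left h0).1 this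
  · rintro ⟨h0, h1⟩ v hv
    refine (mul_pos_iff_of_pos_left h0).1 ?_
    rw [qf_sq]
    by_cases h2 : v.2 = 0
    · have h3 : v.1 ≠ 0 := fun h => hv (Prod.ext h h2)
      have h4 : 0 < v.1.re * v.1.re + v.1.im * v.1.im := Complex.normSq_pos.2 h3
      simp only [h2, Complex.zero_re, Complex.zero_im]
      nlinarith [mul_pos (mul_pos h0 h0) h4]
    · have h4 : 0 < v.2.re * v.2.re + v.2.im * v.2.im := Complex.normSq_pos.2 h2
      have : 0 < hdet g * (v.2.re ^ 2 + v.2.im ^ 2) := mul_pos h1 (by nlinarith)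
      positivity

theorem Pos.g0 {g : Hm} (h : Pos g) : 0 < g 0 := (pos_iff.1 h).1
theorem Pos.det {g : Hm} (h : Pos g) : 0 < hdet g := (pos_iff.1 h).2
theorem Pos.g1 {g : Hm} (h : Pos g) : 0 < g 1 := by
  have := h (e 2) (by simp)
  rwa [qf, bf22] at this

theorem Pos.nn {g : Hm} (h : Pos g) : NN g := fun v => by
  by_cases hv : v = 0
  · rw [hv, qf_zero_vec]
  · exact (h v hv).le

theorem nn_iff {g : Hm} : NN g ↔ 0 ≤ g 0 ∧ 0 ≤ g 1 ∧ 0 ≤ hdet g := by
  constructor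
  · intro h
    have h0 : 0 ≤ g 0 := by simpa [qf, bf] using h (e 0)
    have h1 : 0 ≤ g 1 := by simpa [qf, bf] using h (e 2)
    refine ⟨h0, h1, ?_⟩
    have a := h ((⟨-g 2, g 3⟩ : ℂ), (g 0 : ℂ))
    have b := h ((g 1 : ℂ), (⟨-g 2, -g 3⟩ : ℂ))
    rw [qf_test] at a
    rw [qf_test'] at b
    rcases h0.eq_or_lt with e0 | e0
    · rcases h1.eq_or_lt with e1 | e1
      · have c := h ((⟨-g 2, g 3⟩ : ℂ), 1)
        simp [qf, bf, ← e0, ← e1] at c
        rw [hdet, ← e0]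
        nlinarith
      · exact (mul_nonneg_iff_of_pos_left e1).1 b
    · exact (mul_nonneg_iff_of_pos_left e0).1 a
  · rintro ⟨h0, h1, h2⟩ v
    rcases h0.eq_or_lt with e0 | e0
    · rw [hdet, ← e0] at h2
      have a2 : g 2 = 0 := by nlinarith [sq_nonneg (g 2), sq_nonneg (g 3)]
      have a3 : g 3 = 0 := by nlinarith [sq_nonneg (g 2), sq_nonneg (g 3)]
      simp only [qf, bf, ← e0, a2, a3]
      nlinarith [mul_nonneg h1 (add_nonneg (mul_self_nonneg v.2.re) (mul_self_nonneg v.2.im))]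
    · refine (mul_nonneg_iff_of_pos_left e0).1 ?_
      rw [qf_sq]
      positivity

theorem NN.det {g : Hm} (h : NN g) : 0 ≤ hdet g := (nn_iff.1 h).2.2
theorem pos_one : Pos one := pos_iff.2 ⟨by simp, by simp [hdet_one]⟩
theorem nn_zero : NN 0 := fun v => by rw [qf_zero]
theorem NN.add {g h : Hm} (hg : NN g) (hh : NN h) : NN (g + h) := fun v => by
  rw [qf_add]; exact add_nonneg (hg v) (hh v)
theorem NN.smul {g : Hm} (hg : NN g) {c : ℝ} (hc : 0 ≤ c) : NN (c • g) := fun v => by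
  rw [qf_smul]; exact mul_nonneg hc (hg v)
theorem Pos.add_nn {g h : Hm} (hg : Pos g) (hh : NN h) : Pos (g + h) := fun v hv => by
  rw [qf_add]; exact add_pos_of_pos_of_nonneg (hg v hv) (hh v)
theorem Pos.smul {g : Hm} (hg : Pos g) {c : ℝ} (hc : 0 < c) : Pos (c • g) := fun v hv => by
  rw [qf_smul]; exact mul_pos hc (hg v hv)
theorem Pos.mono {g h : Hm} (hg : Pos g) (hh : ∀ v, qf g v ≤ qf h v) : Pos h := fun v hv =>
  (hg v hv).trans_le (hh v)

/-- the eigenvalues of `h` with respect to a positive form are real -/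
theorem hmix_sq {g : Hm} (hg : NN g) (h : Hm) : 4 * hdet g * hdet h ≤ hmix g h ^ 2 := by
  obtain ⟨h0, h1, h2⟩ := nn_iff.1 hg
  rcases h0.eq_or_lt with e0 | e0
  · have : hdet g = 0 := by
      refine le_antisymm ?_ h2
      rw [hdet, ← e0]
      nlinarith [sq_nonneg (g 2), sq_nonneg (g 3)]
    rw [this]
    nlinarith [sq_nonneg (hmix g h)]
  · refine le_of_mul_le_mul_left ?_ (mul_pos e0 e0)
    have : g 0 * g 0 * hmix g h ^ 2 - g 0 * g 0 * (4 * hdet g * hdet h) =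
        (g 0 * hmix g h - 2 * h 0 * hdet g) ^ 2 +
          4 * hdet g * ((g 0 * h 2 - h 0 * g 2) ^ 2 + (g 0 * h 3 - h 0 * g 3) ^ 2) := by
      simp only [hmix, hdet]; ring
    have h3 : 0 ≤ 4 * hdet g * ((g 0 * h 2 - h 0 * g 2) ^ 2 + (g 0 * h 3 - h 0 * g 3) ^ 2) := by
      positivity
    nlinarith [sq_nonneg (g 0 * hmix g h - 2 * h 0 * hdet g)]

theorem hmix_nonneg {g h : Hm} (hg : NN g) (hh : NN h) : 0 ≤ hmix g h := by
  obtain ⟨g0, g1, g2⟩ := nn_iff.1 hg
  obtain ⟨h0, h1, h2⟩ := nn_iff.1 hh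
  rw [hdet] at g2 h2
  have a : (2 * (g 2 * h 2 + g 3 * h 3)) ^ 2 ≤ (g 0 * h 1 + g 1 * h 0) ^ 2 := by
    have b : (g 2 * h 2 + g 3 * h 3) ^ 2 ≤ (g 2 ^ 2 + g 3 ^ 2) * (h 2 ^ 2 + h 3 ^ 2) := by
      nlinarith [sq_nonneg (g 2 * h 3 - g 3 * h 2)]
    have c : (g 2 ^ 2 + g 3 ^ 2) * (h 2 ^ 2 + h 3 ^ 2) ≤ (g 0 * g 1) * (h 0 * h 1) :=
      mul_le_mul (by linarith) (by linarith) (by positivity) (by positivity)
    nlinarith [sq_nonneg (g 0 * h 1 - g 1 * h 0)]
  have := (abs_le_of_sq_le_sq' a (by positivity)).2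
  rw [hmix]
  linarith

/-- the trace is monotone -/
theorem hmix_mono {b g h : Hm} (hb : NN b) (H : ∀ v, qf g v ≤ qf h v) : hmix b g ≤ hmix b h := by
  have := hmix_nonneg hb (h := h - g) fun v => by rw [qf_sub]; exact sub_nonneg.2 (H v)
  rw [hmix_sub_right] at this
  linarith

theorem hdet_mono {g h : Hm} (hg : NN g) (H : ∀ v, qf g v ≤ qf h v) : hdet g ≤ hdet h := by
  have h1 : NN (h - g) := fun v => by rw [qf_sub]; exact sub_nonneg.2 (H v)
  have := hdet_add g (h - g)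
  rw [add_sub_cancel] at this
  linarith [hmix_nonneg hg h1, h1.det]

/-- concavity of `log det` -/
theorem log_hdet_le {g h : Hm} (hg : Pos g) (hh : Pos h) :
    Real.log (hdet h) ≤ Real.log (hdet g) + hmix ((hdet g)⁻¹ • g) (h - g) := by
  have g0 := hg.det
  have h0 := hh.det
  have m0 := hmix_nonneg hg.nn hh.nn
  set x := hmix g h / (2 * hdet g) with hx
  have h1 : hdet h / hdet g ≤ x ^ 2 := by
    rw [hx, div_pow, div_le_div_iff₀ g0 (by positivity)]
    nlinarith [mul_le_mul_of_nonneg_right (hmix_sq hg.nn h) g0.le]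
  have h2 : 0 < hdet h / hdet g := div_pos h0 g0
  have x0 : 0 < x := by
    have : 0 ≤ x := by positivity
    refine lt_of_le_of_ne this fun e => ?_
    rw [← e] at h1
    linarith
  have h3 := Real.log_le_log h2 h1
  rw [Real.log_div h0.ne' g0.ne', Real.log_pow] at h3
  have h4 := Real.log_le_sub_one_of_pos x0
  have h5 : hmix ((hdet g)⁻¹ • g) (h - g) = 2 * (x - 1) := by
    rw [hmix_smul_left, hmix_sub_right, hmix_self, hx]
    field_simp
  rw [h5]
  push_cast at h3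
  linarith

/-! ### pull-back -/

theorem clm_eq (A : V →L[ℂ] V) (v : V) : A v = v.1 • A (e 0) + v.2 • A (e 2) := by
  conv_lhs => rw [V_eqc v]
  rw [map_add, map_smul, map_smul]

theorem clm_e3 (A : V →L[ℂ] V) : A (e 3) = Complex.I • A (e 2) := by rw [← I_e2, map_smul]
theorem clm_e1 (A : V →L[ℂ] V) : A (e 1) = Complex.I • A (e 0) := by rw [← I_e0, map_smul]

theorem bf_pb (A : V →L[ℂ] V) (g : Hm) (v w : V) : bf (pb A g) v w = bf g (A v) (A w) := by
  rw [clm_eq A v, clm_eq A w, pb, clm_e3]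
  generalize A (e 0) = a
  generalize A (e 2) = b
  simp [bf]
  ring

theorem qf_pb (A : V →L[ℂ] V) (g : Hm) (v : V) : qf (pb A g) v = qf g (A v) := bf_pb ..

theorem pb_comp (A B : V →L[ℂ] V) (g : Hm) : pb (A.comp B) g = pb B (pb A g) :=
  qf_ext fun v => by simp only [qf_pb, ContinuousLinearMap.comp_apply]

theorem pb_id (g : Hm) : pb (ContinuousLinearMap.id ℂ V) g = g :=
  qf_ext fun v => by simp only [qf_pb, ContinuousLinearMap.id_apply]

theorem pb_add (A : V →L[ℂ] V) (g h : Hm) : pb A (g + h) = pb A g + pb A h :=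
  qf_ext fun v => by simp only [qf_pb, qf_add]

theorem pb_sub (A : V →L[ℂ] V) (g h : Hm) : pb A (g - h) = pb A g - pb A h :=
  qf_ext fun v => by simp only [qf_pb, qf_sub]

theorem pb_smul (A : V →L[ℂ] V) (c : ℝ) (g : Hm) : pb A (c • g) = c • pb A g :=
  qf_ext fun v => by simp only [qf_pb, qf_smul]

theorem pb_zero (A : V →L[ℂ] V) : pb A 0 = 0 := qf_ext fun v => by simp only [qf_pb, qf_zero]

theorem pb_csmul (c : ℂ) (A : V →L[ℂ] V) (g : Hm) : pb (c • A) g = ‖c‖ ^ 2 • pb A g :=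
  qf_ext fun v => by rw [qf_pb, qf_smul, qf_pb, smul_apply, qf_csmul]

/-- the complex determinant -/
def cdet (A : V →L[ℂ] V) : ℂ := (A (e 0)).1 * (A (e 2)).2 - (A (e 0)).2 * (A (e 2)).1

theorem hmix_pb (A : V →L[ℂ] V) (g h : Hm) :
    hmix (pb A g) (pb A h) = ‖cdet A‖ ^ 2 * hmix g h := by
  rw [Complex.sq_norm, Complex.normSq_apply, cdet, pb, pb, clm_e3]
  generalize A (e 0) = a
  generalize A (e 2) = b
  simp [hmix, bf]
  ring

theorem hdet_pb (A : V →L[ℂ] V) (g : Hm) : hdet (pb A g) = ‖cdet A‖ ^ 2 * hdet g := by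
  have := hmix_pb A g g
  rw [hmix_self, hmix_self] at this
  linarith

theorem cdet_ne {A : V →L[ℂ] V} : cdet A ≠ 0 ↔ Function.Injective A := by
  rw [injective_iff_map_eq_zero]
  constructor
  · intro h v hv
    rw [clm_eq] at hv
    have h1 := congrArg Prod.fst hv
    have h2 := congrArg Prod.snd hv
    simp only [Prod.fst_add, Prod.snd_add, Prod.smul_fst, Prod.smul_snd, smul_eq_mul,
      Prod.fst_zero, Prod.snd_zero] at h1 h2
    refine Prod.ext (mul_left_cancel₀ h ?_) (mul_left_cancel₀ h ?_)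
    · rw [cdet, Prod.fst_zero]
      linear_combination (A (e 2)).2 * h1 - (A (e 2)).1 * h2
    · rw [cdet, Prod.snd_zero]
      linear_combination (A (e 0)).1 * h2 - (A (e 0)).2 * h1
  · intro h h0
    rw [cdet] at h0
    have a1 := h ((A (e 2)).2, -(A (e 0)).2) (by
      rw [clm_eq]
      refine Prod.ext ?_ ?_ <;> simp only [Prod.fst_add, Prod.snd_add, Prod.smul_fst,
        Prod.smul_snd, smul_eq_mul, Prod.fst_zero, Prod.snd_zero]
      · linear_combination h0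
      · ring)
    have a2 := h ((A (e 2)).1, -(A (e 0)).1) (by
      rw [clm_eq]
      refine Prod.ext ?_ ?_ <;> simp only [Prod.fst_add, Prod.snd_add, Prod.smul_fst,
        Prod.smul_snd, smul_eq_mul, Prod.fst_zero, Prod.snd_zero]
      · ring
      · linear_combination -h0)
    have b1 : (A (e 2)).2 = 0 := congrArg Prod.fst a1
    have b2 : (A (e 2)).1 = 0 := congrArg Prod.fst a2
    have := h (e 2) (Prod.ext b2 b1)
    simp at this

theorem surj_of_inj {A : V →L[ℂ] V} (h : Function.Injective A) : Function.Surjective A :=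
  (LinearMap.injective_iff_surjective (f := (A : V →ₗ[ℂ] V))).1 h

theorem NN.pb {g : Hm} (hg : NN g) (A : V →L[ℂ] V) : NN (pb A g) := fun v => by
  rw [qf_pb]; exact hg _

theorem Pos.pb {g : Hm} (hg : Pos g) {A : V →L[ℂ] V} (hA : Function.Injective A) :
    Pos (pb A g) := fun v hv => by
  rw [qf_pb]
  exact hg _ fun h => hv ((injective_iff_map_eq_zero A).1 hA v h)

theorem Pos.of_pb {g : Hm} {A : V →L[ℂ] V} (hA : Function.Injective A) (hg : Pos (K.pb A g)) :
    Pos g := fun v hv => by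
  obtain ⟨w, rfl⟩ := surj_of_inj hA v
  rw [← qf_pb]
  exact hg w fun h => hv (by rw [h, map_zero])

theorem NN.of_pb {g : Hm} {A : V →L[ℂ] V} (hA : Function.Injective A) (hg : NN (K.pb A g)) :
    NN g := fun v => by
  obtain ⟨w, rfl⟩ := surj_of_inj hA v
  rw [← qf_pb]
  exact hg w

theorem Cl.pb {d : ℝ} {g h : Hm} (H : Cl d g h) (A : V →L[ℂ] V) : Cl d (pb A g) (pb A h) :=
  fun v => by rw [qf_pb, qf_pb]; exact H _

theorem Cl.of_pb {d : ℝ} {g h : Hm} {A : V →L[ℂ] V} (hA : Function.Injective A)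
    (H : Cl d (K.pb A g) (K.pb A h)) : Cl d g h := fun v => by
  obtain ⟨w, rfl⟩ := surj_of_inj hA v
  rw [← qf_pb, ← qf_pb]
  exact H w

/-- the trace of `h` with respect to `g` is invariant -/
theorem tr_pb {A : V →L[ℂ] V} (hA : Function.Injective A) (g h : Hm) :
    hmix (pb A g) (pb A h) / hdet (pb A g) = hmix g h / hdet g := by
  rw [hmix_pb, hdet_pb]
  exact mul_div_mul_left _ _ (pow_ne_zero 2 (norm_ne_zero_iff.2 (cdet_ne.2 hA)))

theorem log_pb {A : V →L[ℂ] V} (hA : Function.Injective A) {g h : Hm} (hg : hdet g ≠ 0)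
    (hh : hdet h ≠ 0) : Real.log (hdet (pb A g)) - Real.log (hdet (pb A h)) =
      Real.log (hdet g) - Real.log (hdet h) := by
  have h0 : ‖cdet A‖ ^ 2 ≠ 0 := pow_ne_zero 2 (norm_ne_zero_iff.2 (cdet_ne.2 hA))
  rw [hdet_pb, hdet_pb, Real.log_mul h0 hg, Real.log_mul h0 hh]
  ring

/-- the linear map with columns `a`, `b` -/
def cols (a b : V) : V →L[ℂ] V :=
  (ContinuousLinearMap.fst ℂ ℂ ℂ).smulRight a + (ContinuousLinearMap.snd ℂ ℂ ℂ).smulRight b

theorem cols_apply (a b v : V) : cols a b v = v.1 • a + v.2 • b := rfl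

/-- Cholesky: a positive form is the pull-back of the Euclidean form -/
theorem Pos.chol {g : Hm} (hg : Pos g) : ∃ A : V ≃L[ℂ] V, K.pb (A : V →L[ℂ] V) one = g ∧
    K.pb (A.symm : V →L[ℂ] V) g = one := by
  have h0 := hg.g0
  have h1 := hg.det
  set s := √(g 0) with hs
  set t := √(hdet g) with ht
  have s0 : 0 < s := Real.sqrt_pos.2 h0
  have t0 : 0 < t := Real.sqrt_pos.2 h1
  have s2 : s ^ 2 = g 0 := Real.sq_sqrt h0.le
  have t2 : t ^ 2 = hdet g := Real.sq_sqrt h1.le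
  set B := cols ((s : ℂ), 0) ((⟨g 2 / s, -g 3 / s⟩ : ℂ), ((t / s : ℝ) : ℂ)) with hB
  have hp : K.pb B one = g := by
    refine qf_ext fun v => mul_left_cancel₀ h0.ne' ?_
    rw [qf_pb, qf_sq g, ← t2, ← s2, hB, cols_apply]
    simp [qf, bf]
    field_simp
    ring
  have hi : Function.Injective B := by
    rw [← cdet_ne]
    intro h
    have := hdet_pb B one
    rw [hp, h] at this
    simp at this
    exact h1.ne' this
  let A : V ≃L[ℂ] V := (LinearEquiv.ofBijective (B : V →ₗ[ℂ] V)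
    ⟨hi, surj_of_inj hi⟩).toContinuousLinearEquiv
  have hA : (A : V →L[ℂ] V) = B := by ext <;> rfl
  refine ⟨A, by rw [hA, hp], ?_⟩
  rw [← hp, ← pb_comp, ← hA]
  simp [pb_id]

/-! ### ellipticity and closeness -/

theorem EllH.pos {Λ : ℝ} {g : Hm} (h : EllH Λ g) : 0 < Λ := h.1

theorem EllH.one_le {Λ : ℝ} {g : Hm} (h : EllH Λ g) : 1 ≤ Λ := by
  have a := (h.2 (e 0)).1
  have b := (h.2 (e 0)).2
  have c := h.1
  rw [norm_e] at a b
  nlinarith

theorem EllH.isPos {Λ : ℝ} {g : Hm} (h : EllH Λ g) : Pos g := fun v hv => by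
  have a := (h.2 v).1
  have : 0 < ‖v‖ ^ 2 := by positivity
  exact (mul_pos_iff_of_pos_left h.1).1 (this.trans_le a)

theorem EllH.mono {Λ Λ' : ℝ} {g : Hm} (h : EllH Λ g) (hΛ : Λ ≤ Λ') : EllH Λ' g :=
  ⟨h.1.trans_le hΛ, fun v => ⟨(h.2 v).1.trans (mul_le_mul_of_nonneg_right hΛ (h.isPos.nn v)),
    (h.2 v).2.trans (mul_le_mul_of_nonneg_right hΛ (by positivity))⟩⟩

theorem EllH.norm_le {Λ : ℝ} {g : Hm} (h : EllH Λ g) : ‖g‖ ≤ 2 * Λ :=
  norm_le_of_qf fun v => by rw [abs_of_nonneg (h.isPos.nn v)]; exact (h.2 v).2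

theorem EllH.det_ge {Λ : ℝ} {g : Hm} (h : EllH Λ g) : (4 * Λ ^ 2)⁻¹ ≤ hdet g := by
  have c := h.1
  have := hdet_mono (g := (2 * Λ)⁻¹ • one) (h := g) (pos_one.nn.smul (by positivity)) fun v => by
    rw [qf_smul, inv_mul_le_iff₀ (by positivity)]
    linarith [qf_one_le v, (h.2 v).1]
  rw [hdet_smul, hdet_one] at this
  refine le_trans (le_of_eq ?_) this
  field_simp
  norm_num

theorem EllH.det_le {Λ : ℝ} {g : Hm} (h : EllH Λ g) : hdet g ≤ Λ ^ 2 := by
  have := hdet_mono (g := g) (h := Λ • one) h.isPos.nn fun v => by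
    rw [qf_smul]
    exact (h.2 v).2.trans (mul_le_mul_of_nonneg_left (qf_one_ge v) h.1.le)
  rwa [hdet_smul, hdet_one, mul_one] at this

/-- the coefficient form of the Laplacian of an elliptic form is bounded -/
theorem EllH.inv_le {Λ : ℝ} {g : Hm} (h : EllH Λ g) : ‖(hdet g)⁻¹ • g‖ ≤ 8 * Λ ^ 3 := by
  have c := h.1
  have d := h.isPos.det
  rw [norm_smul, Real.norm_eq_abs, abs_of_pos (inv_pos.2 d)]
  have : (hdet g)⁻¹ ≤ 4 * Λ ^ 2 := inv_le_of_inv_le₀ (by positivity) h.det_ge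
  calc _ ≤ (4 * Λ ^ 2) * (2 * Λ) := mul_le_mul this h.norm_le (norm_nonneg _) (by positivity)
    _ = _ := by ring

theorem ellH_one : EllH 2 one := ⟨two_pos, fun v =>
  ⟨by linarith [qf_one_ge v, pos_one.nn v], qf_one_le v⟩⟩

theorem Pos.inv_nn {g : Hm} (h : Pos g) : NN ((hdet g)⁻¹ • g) := h.nn.smul (inv_pos.2 h.det).le

theorem Cl.le {d : ℝ} {g h : Hm} (H : Cl d g h) (v : V) : qf g v ≤ (1 + d) * qf h v := by
  linarith [(abs_le.1 (H v)).2]

theorem Cl.ge {d : ℝ} {g h : Hm} (H : Cl d g h) (v : V) : (1 - d) * qf h v ≤ qf g v := by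
  linarith [(abs_le.1 (H v)).1]

theorem cl_of {d : ℝ} {g h : Hm} (h1 : ∀ v, (1 - d) * qf h v ≤ qf g v)
    (h2 : ∀ v, qf g v ≤ (1 + d) * qf h v) : Cl d g h := fun v =>
  abs_le.2 ⟨by linarith [h1 v], by linarith [h2 v]⟩

theorem Cl.mono {d d' : ℝ} {g h : Hm} (H : Cl d g h) (hh : NN h) (hd : d ≤ d') : Cl d' g h :=
  fun v => (H v).trans (mul_le_mul_of_nonneg_right hd (hh v))

theorem Cl.isPos {d : ℝ} {g h : Hm} (H : Cl d g h) (hh : Pos h) (hd : d < 1) : Pos g :=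
  (hh.smul (sub_pos.2 hd)).mono fun v => by rw [qf_smul]; exact H.ge v

theorem Cl.smul {d : ℝ} {g h : Hm} (H : Cl d g h) {c : ℝ} (hc : 0 ≤ c) :
    Cl d (c • g) (c • h) := fun v => by
  rw [qf_smul, qf_smul, ← mul_sub, abs_mul, abs_of_nonneg hc, mul_left_comm]
  exact mul_le_mul_of_nonneg_left (H v) hc

theorem Cl.trans {d d' : ℝ} {g h k : Hm} (H : Cl d g h) (H' : Cl d' h k) (hd : 0 ≤ d) :
    Cl (d + d' + d * d') g k := fun v => by
  have a := H v
  have b := H' v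
  have c := mul_le_mul_of_nonneg_left (H'.le v) hd
  have := abs_sub_le (qf g v) (qf h v) (qf k v)
  nlinarith

theorem Cl.ell {d Λ : ℝ} {g h : Hm} (H : Cl d g h) (hh : EllH Λ h) (hd : d ≤ 1 / 2) :
    EllH (2 * Λ) g := ⟨by linarith [hh.1], fun v => by
  have a := H.le v
  have b := H.ge v
  have c := hh.2 v
  have n := hh.isPos.nn v
  have p := hh.1
  have d0 := mul_le_mul_of_nonneg_right hd n
  constructor
  · nlinarith [c.1]
  · nlinarith [c.2]⟩

theorem Cl.det_le {d : ℝ} {g h : Hm} (H : Cl d g h) (hg : NN g) :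
    hdet g ≤ (1 + d) ^ 2 * hdet h := by
  rw [← hdet_smul]
  exact hdet_mono hg fun v => by rw [qf_smul]; exact H.le v

theorem Cl.det_ge {d : ℝ} {g h : Hm} (H : Cl d g h) (hh : NN h) (hd : d ≤ 1) :
    (1 - d) ^ 2 * hdet h ≤ hdet g := by
  rw [← hdet_smul]
  exact hdet_mono (hh.smul (sub_nonneg.2 hd)) fun v => by rw [qf_smul]; exact H.ge v

/-- closeness from the size of the entries -/
theorem cl_of_norm {Λ ε : ℝ} {g h : Hm} (hh : EllH Λ h) (H : ‖g - h‖ ≤ ε) :
    Cl (6 * ε * Λ) g h := fun v => by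
  rw [← qf_sub]
  have ε0 : 0 ≤ ε := (norm_nonneg _).trans H
  calc _ ≤ 6 * ‖g - h‖ * ‖v‖ ^ 2 := abs_qf_le _ _
    _ ≤ 6 * ε * (Λ * qf h v) := mul_le_mul (by linarith) (hh.2 v).1 (by positivity) (by positivity)
    _ = _ := by ring

theorem Cl.norm_le {d Λ : ℝ} {g h : Hm} (H : Cl d g h) (hh : EllH Λ h) (hd : 0 ≤ d) :
    ‖g - h‖ ≤ 2 * (d * Λ) :=
  norm_le_of_qf fun v => by
    rw [qf_sub, mul_assoc]
    exact (H v).trans (mul_le_mul_of_nonneg_left (hh.2 v).2 hd)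

/-- a nonnegative form is bounded by its trace -/
theorem qf_le_tr {g h : Hm} (hg : Pos g) (hh : NN h) (v : V) :
    qf h v ≤ hmix g h / hdet g * qf g v := by
  obtain ⟨A, -, hA⟩ := hg.chol
  have hi : Function.Injective (A.symm : V →L[ℂ] V) := A.symm.injective
  obtain ⟨w, rfl⟩ := surj_of_inj hi v
  rw [← tr_pb hi, ← qf_pb, ← qf_pb, hA, hdet_one, div_one, hmix_one]
  have hk := hh.pb (A.symm : V →L[ℂ] V)
  generalize K.pb (A.symm : V →L[ℂ] V) h = k at hk
  have := hk (-(starRingEnd ℂ) w.2, (starRingEnd ℂ) w.1)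
  simp [qf, bf] at this ⊢
  nlinarith

/-! ### rank one forms -/

/-- the polarised rank one form of two covectors -/
def rk2 (p q : V →L[ℝ] ℝ) : Hm :=
  ![p (e 0) * q (e 0) + p (e 1) * q (e 1), p (e 2) * q (e 2) + p (e 3) * q (e 3),
    (p (e 0) * q (e 2) + p (e 1) * q (e 3) + q (e 0) * p (e 2) + q (e 1) * p (e 3)) / 2,
    (p (e 0) * q (e 3) - p (e 1) * q (e 2) + q (e 0) * p (e 3) - q (e 1) * p (e 2)) / 2]

theorem rk_eq (f : V → ℝ) (x : V) : rk f x = rk2 (fderiv ℝ f x) (fderiv ℝ f x) := by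
  refine Hm_ext ?_ ?_ ?_ ?_ <;> simp only [rk, rk2, D, Matrix.cons_val] <;> ring

theorem cov_eq (p : V →L[ℝ] ℝ) (v : V) :
    p v = v.1.re * p (e 0) + v.1.im * p (e 1) + v.2.re * p (e 2) + v.2.im * p (e 3) := by
  conv_lhs => rw [V_eq v]
  simp only [map_add, map_smul, smul_eq_mul]

theorem bf_rk2 (p q : V →L[ℝ] ℝ) (v w : V) : bf (rk2 p q) v w =
    (p v * q w + p w * q v + p (Complex.I • v) * q (Complex.I • w) +
      p (Complex.I • w) * q (Complex.I • v)) / 2 := by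
  rw [cov_eq p v, cov_eq q v, cov_eq p w, cov_eq q w, cov_eq p (Complex.I • v),
    cov_eq q (Complex.I • v), cov_eq p (Complex.I • w), cov_eq q (Complex.I • w), rk2]
  generalize p (e 0) = p0, p (e 1) = p1, p (e 2) = p2, p (e 3) = p3, q (e 0) = q0, q (e 1) = q1,
    q (e 2) = q2, q (e 3) = q3
  simp [bf]
  ring

theorem qf_rk2 (p q : V →L[ℝ] ℝ) (v : V) :
    qf (rk2 p q) v = p v * q v + p (Complex.I • v) * q (Complex.I • v) := by
  rw [qf, bf_rk2]; ring

theorem qf_rk (f : V → ℝ) (x v : V) :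
    qf (rk f x) v = D v f x ^ 2 + D (Complex.I • v) f x ^ 2 := by
  rw [rk_eq, qf_rk2, D, D]; ring

theorem nn_rk (f : V → ℝ) (x : V) : NN (rk f x) := fun v => by rw [qf_rk]; positivity

theorem hdet_rk (f : V → ℝ) (x : V) : hdet (rk f x) = 0 := by
  simp only [rk, hdet, Matrix.cons_val]; ring

theorem rk2_comm (p q : V →L[ℝ] ℝ) : rk2 p q = rk2 q p :=
  qf_ext fun v => by rw [qf_rk2, qf_rk2]; ring

theorem rk2_smul (a b : ℝ) (p q : V →L[ℝ] ℝ) : rk2 (a • p) (b • q) = (a * b) • rk2 p q :=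
  qf_ext fun v => by simp only [qf_rk2, qf_smul, smul_apply, smul_eq_mul]; ring

theorem pb_rk2 (A : V →L[ℂ] V) (p q : V →L[ℝ] ℝ) : pb A (rk2 p q) =
    rk2 (p.comp (A.restrictScalars ℝ)) (q.comp (A.restrictScalars ℝ)) :=
  qf_ext fun v => by
    simp only [qf_pb, qf_rk2, ContinuousLinearMap.comp_apply,
      ContinuousLinearMap.coe_restrictScalars', map_smul]

/-- determinant and trace for `a g + b r` with `r` of rank one -/
theorem hdet_lin (a b : ℝ) (g : Hm) {r : Hm} (hr : hdet r = 0) :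
    hdet (a • g + b • r) = a ^ 2 * hdet g + a * b * hmix g r := by
  rw [hdet_add, hdet_smul, hdet_smul, hr, hmix_smul_left, hmix_smul_right]; ring

theorem hmix_lin (a b c d : ℝ) (g : Hm) {r : Hm} (hr : hdet r = 0) :
    hmix (a • g + b • r) (c • g + d • r) = 2 * a * c * hdet g + (a * d + b * c) * hmix g r := by
  simp only [hmix_add_left, hmix_add_right, hmix_smul_left, hmix_smul_right, hmix_self, hr,
    hmix_comm r g]
  ring

end Pool.Agent.MP_67f0e4_gt.K
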