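import Pool.Agent.MP_67f0e4_gt.H.Iface
import Pool.Agent.MP_67f0e4_gt.R48.Defs

/-! Master specification: the statements of the analytic blocks. -/

open Set Metric Filter Topology
open scoped ContDiff

noncomputable section

namespace Pool.Agent.MP_67f0e4_gt.K

open R48 (Rad zz p0 th0 lam)

/-! ### Local estimates -/

/-- interior estimates for a flow that is close to a constant form -/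
def BERN : Prop :=
  ∃ δ > 0, ∀ Λ : ℝ, ∀ r > 0, ∀ (k : ℕ) (M : ℝ), ∃ C : ℝ, ∀ (G0 : Hm) (φ : ℝ → V → ℝ) (w0 : V → ℝ)
    (t0 t1 : ℝ), EllH Λ G0 → t0 < t1 → t1 ≤ t0 + r ^ 2 → PFlow (Icc t0 t1) (ball 0 r) φ w0 →
    (∀ t ∈ Icc t0 t1, ∀ x ∈ ball (0 : V) r, Cl δ (lv (φ t) x) G0) →
    (t1 = t0 + r ^ 2 ∨ LB k M (φ t0) (ball 0 r)) → LB k C (φ t1) (ball 0 (r / 4))

/-- interpolation -/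
def INT : Prop :=
  ∀ r > 0, ∀ M : ℝ, ∃ C : ℝ, ∀ (v : V → ℝ) (ε : ℝ), ContDiffOn ℝ ∞ v (ball 0 r) →
    LB 4 M v (ball 0 r) → (∀ x ∈ ball (0 : V) r, |v x - v 0| ≤ ε) → ‖lv v 0‖ ^ 3 ≤ C * ε ^ 2

/-! ### The radial flow -/

/-- `s`-derivatives -/
def UJ (u : ℝ → ℝ → ℝ) (i : ℕ) (s t : ℝ) : ℝ := iteratedDeriv i (fun s => u s t) s

/-- the scale of the tip -/
def cc (U : ℕ → ℝ → ℝ → ℝ) (t : ℝ) : ℝ := ⨆ s, U 1 s t * Real.exp (-s)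

/-- `sqrt (p / Θ)` -/
def kap (U : ℕ → ℝ → ℝ → ℝ) (s t : ℝ) : ℝ := √(U 1 s t / U 2 s t)

/-- estimates with constants that do not depend on the solution -/
structure Est (C : ℝ) (θf : ℝ → ℝ) (Kf : ℝ → ℝ → ℝ) (τ : ℝ) (U : ℕ → ℝ → ℝ → ℝ) : Prop where
  pos : ∀ s, ∀ t ∈ Icc 0 τ, 0 < U 2 s t ∧ U 2 s t ≤ U 1 s t ∧ 0 < zz U s t
  yle : ∀ s, ∀ t ∈ Icc 0 τ, U 3 s t / U 2 s t ≤ U 2 s t / U 1 s t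
  yab : ∀ s, ∀ t ∈ Icc 0 τ, |U 3 s t| * kap U s t ≤ C * U 2 s t
  Ple : ∀ s, ∀ t ∈ Icc 0 τ, 6 * U 2 s t ≤ zz U s t ^ 2
  Qle : ∀ s, ∀ t ∈ Icc 0 τ, 1 / U 2 s t - 1 / U 1 s t ≤ C / zz U s t ^ 2
  p5 : ∀ s, ∀ t ∈ Icc 0 τ, U 1 s t ≤ C * Real.exp s * zz U s t ^ 5
  kle : ∀ s, ∀ t ∈ Icc 0 τ, kap U s t ≤ C * (1 + max s 0)
  cpos : ∀ t ∈ Icc 0 τ, 0 < cc U t ∧ cc U t ≤ Real.exp (-1 / (1 - 2 * t))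
  cup : ∀ s, ∀ t ∈ Icc 0 τ, U 1 s t ≤ cc U t * Real.exp s
  tip : ∀ s, ∀ t ∈ Icc 0 τ, ∀ th : ℝ, th ≤ 1 / 4 → cc U t * Real.exp s ≤ th * (1 - 2 * t) ^ 2 →
    (1 - C * th) * (cc U t * Real.exp s) ≤ U 2 s t
  out : ∀ s, ∀ t ∈ Icc 0 τ, ∀ th : ℝ, 0 ≤ th → C * th ≤ 1 / 4 →
    th * (1 - 2 * t) ^ 2 ≤ cc U t * Real.exp s → th * (1 - 2 * t) ^ 2 / 2 ≤ U 1 s t
  clip : ∀ t ∈ Icc 0 τ, ∀ t' ∈ Icc 0 τ, t' ≤ t →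
    |Real.log (cc U t) - Real.log (cc U t')| ≤ C * (t - t') / (1 - 2 * t) ^ 2
  osc : ∀ ε > 0, ∀ s s', ∀ t ∈ Icc 0 τ, ∀ t' ∈ Icc 0 τ, |s' - s| ≤ θf ε * kap U s t →
    |t' - t| ≤ θf ε ^ 2 * U 1 s t →
    |U 2 s' t' - U 2 s t| ≤ ε * U 2 s t ∧ |U 1 s' t' - U 1 s t| ≤ ε * U 1 s t
  lo : ∀ t1 s0, τ ≤ t1 → t1 < 1 / 2 → ∀ t ∈ Icc 0 τ, 1 ≤ Kf t1 s0 * cc U t ∧
    ∀ s, s0 ≤ s → 1 ≤ Kf t1 s0 * U 1 s t ∧ U 2 s t * (1 + max s 0) ^ 2 ≤ Kf t1 s0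

/-- admissible constants -/
def Cst (C : ℝ) (θf : ℝ → ℝ) (Kf : ℝ → ℝ → ℝ) : Prop :=
  1 ≤ C ∧ (∀ ε > 0, 0 < θf ε) ∧ ∀ t s, 1 ≤ Kf t s

def REST : Prop :=
  ∃ C θf Kf, Cst C θf Kf ∧ ∀ τ ∈ Ioo (0 : ℝ) (1 / 2), ∀ U, Rad 6 τ U → Est C θf Kf τ U

/-- a smooth radial solution on `[0,τ]` with the estimates -/
structure ROn (C : ℝ) (θf : ℝ → ℝ) (Kf : ℝ → ℝ → ℝ) (τ : ℝ) (u : ℝ → ℝ → ℝ) : Prop where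
  sm : ContDiffOn ℝ ∞ (fun q : ℝ × ℝ => u q.1 q.2) (univ ×ˢ Icc 0 τ)
  rad : Rad 6 τ (UJ u)
  est : Est C θf Kf τ (UJ u)

/-- profile bounds of all orders for a convex function of `s` -/
structure PB (Cj : ℕ → ℝ) (g : ℝ → ℝ) : Prop where
  sm : ContDiff ℝ ∞ g
  pos : ∀ s, 0 < iteratedDeriv 2 g s ∧ iteratedDeriv 2 g s ≤ iteratedDeriv 1 g s
  bd : ∀ j s, |iteratedDeriv (j + 2) g s| * √(iteratedDeriv 1 g s / iteratedDeriv 2 g s) ^ j ≤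
    Cj j * iteratedDeriv 2 g s

/-- the initial profile -/
def INITB : Prop :=
  ∃ Cj, ∀ g : ℝ → ℝ, ContDiff ℝ ∞ g → (∀ s, deriv g s = p0 6 s) → PB Cj g

/-- the initial potential is smooth across the origin -/
def INIT : Prop :=
  ∃ U0 : ℝ → ℝ, ContDiffOn ℝ ∞ U0 (Ioi (-1 / 2)) ∧ 0 < deriv U0 0 ∧
    ∀ s, HasDerivAt (fun s => U0 (Real.exp s)) (p0 6 s) s

/-- the radial solution on `[0,1/2)` -/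
structure Prof (C : ℝ) (θf : ℝ → ℝ) (Kf : ℝ → ℝ → ℝ) (Cj : ℕ → ℝ) (u : ℝ → ℝ → ℝ) : Prop where
  cst : Cst C θf Kf
  on : ∀ τ ∈ Ioo (0 : ℝ) (1 / 2), ROn C θf Kf τ u
  pb : ∀ t ∈ Ico (0 : ℝ) (1 / 2), PB Cj (fun s => u s t)
  cd : ∀ t ∈ Ioo (0 : ℝ) (1 / 2), ∃ c', HasDerivAt (cc (UJ u)) c' t ∧
    |c'| ≤ C * cc (UJ u) t / (1 - 2 * t) ^ 2

/-! ### Geometry of the potential -/

/-- `σ = log ψ` in a chart whose first variable is stretched by `κ` -/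
structure Nice (M : ℕ → ℝ) (κ ρ : ℝ) (σ : V → ℝ) : Prop where
  sm : ContDiffOn ℝ ∞ σ (ball 0 ρ)
  d1 : ∀ l : List (Fin 4), 1 ≤ l.length → ∀ x ∈ ball (0 : V) ρ, |DL l σ x| ≤ M l.length * κ
  d2 : ∀ k, LB k (M k) σ (ball 0 ρ)
  nn : ∀ x ∈ ball (0 : V) ρ, NN (lv σ x)
  ell : ∀ x ∈ ball (0 : V) ρ, ∀ v : V, ‖v‖ ^ 2 ≤ M 0 * (qf (rk σ x) v / κ ^ 2 + qf (lv σ x) v)

variable {X : Set C3}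

def Fam.N1 (F : Fam X) (ψ : C3 → ℝ) : Prop :=
  ∀ r1 > 0, ∃ (M : ℕ → ℝ) (ρ K : ℝ), 0 < ρ ∧ ρ ≤ 1 / 2 ∧ ∀ i, ∀ x ∈ ball (0 : V) 1,
    r1 ≤ ψ (F.Φ i x) → ∃ κ > 0, Nice M κ ρ (fun y => Real.log (ψ (F.Φ i (x + y)))) ∧
      (∀ y ∈ ball (0 : V) ρ, 0 < ψ (F.Φ i (x + y))) ∧
      κ ≤ K * (1 + max (Real.log (ψ (F.Φ i x))) 0) ∧
      1 + max (Real.log (ψ (F.Φ i x))) 0 ≤ K * κ

def N2 (X : Set C3) (ψ : C3 → ℝ) : Prop :=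
  ∀ K : ℝ, ∃ (M : ℕ → ℝ) (ρ : ℝ), 0 < ρ ∧ ∀ p ∈ X, 1 ≤ ψ p → ∀ κ : ℝ, 1 ≤ κ →
    κ ≤ K * (1 + Real.log (ψ p)) → ∃ N, Par X N (ball 0 ρ) ∧ N 0 = p ∧
      Nice M κ ρ (fun y => Real.log (ψ (N y))) ∧ ∀ y ∈ ball (0 : V) ρ, 0 < ψ (N y)

/-- `1 - Cq / ψ ≤ q ≤ 1` for `q = |dψ|^2 / ψ` -/
def QB (X : Set C3) (ψ : C3 → ℝ) : Prop :=
  ∃ Cq : ℝ, ∀ N U, Par X N U → ∀ x ∈ U,
    (ψ (N x) - Cq) * hdet (lv (ψ ∘ N) x) ≤ hmix (lv (ψ ∘ N) x) (rk (ψ ∘ N) x) ∧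
    hmix (lv (ψ ∘ N) x) (rk (ψ ∘ N) x) ≤ ψ (N x) * hdet (lv (ψ ∘ N) x)

/-- what block D proves about the potential -/
structure Pot (X : Set C3) (ψ : C3 → ℝ) : Prop where
  rf : RFlat X ψ
  qb : QB X ψ
  nn : ∀ p ∈ X, 0 ≤ ψ p
  pr : ∀ c, IsCompact {p ∈ X | ψ p ≤ c}

/-- the error term on the cover -/
def ERR {n : ℕ} (a : Fin n → ℂ) : Prop :=
  ContDiff ℝ ∞ (err a) ∧ (∀ q, 0 < psi a (cov a q)) ∧ (∀ p ∈ Xs a, psi a (swap p) = psi a p) ∧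
    ∀ (C0 Ξ : ℝ) (l : List (Fin 4)), ∃ M, ∀ q : V, -C0 ≤ q.1.re → ‖q.2‖ ≤ Ξ →
      |DL l (err a) q| ≤ M * Real.exp (-2 * q.1.re)

structure Geo (X : Set C3) (ψ : C3 → ℝ) (F : Fam X) : Prop where
  surf : Surf X
  pot : Pot X ψ
  mpx : F.MPX
  cont : F.CONT ψ
  cpt : F.CPT
  n1 : F.N1 ψ
  n2 : N2 X ψ
  far : ∃ R, ∀ i, R ≤ ψ (F.Φ i 0) → ∀ x ∈ ball (0 : V) (3 / 2), 1 ≤ ψ (F.Φ i x)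

/-- the comparison family -/
def FF (ψ : C3 → ℝ) (u : ℝ → ℝ → ℝ) (b t : ℝ) (p : C3) : ℝ :=
  u (Real.log (ψ p) - b) t - 2 * b * t

/-- the scale of the bubble -/
def ct (u : ℝ → ℝ → ℝ) (b t : ℝ) : ℝ := cc (UJ u) t * Real.exp (-b)

/-- holomorphic self map preserving the potential -/
def Aut (X : Set C3) (ψ : C3 → ℝ) (σ : C3 → C3) : Prop :=
  MapsTo σ X X ∧ (∀ N U, Par X N U → Par X (σ ∘ N) U) ∧ ∀ p ∈ X, ψ (σ p) = ψ p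

def SYM : Prop :=
  ∀ (X : Set C3) (ψ : C3 → ℝ) (F : Fam X) (τ : ℝ) (φ : ℝ → C3 → ℝ) (σ : C3 → C3), 0 < τ →
    F.MPX → RFlat X ψ → F.GFlow ψ τ φ → Aut X ψ σ → (∀ p ∈ X, φ 0 (σ p) = φ 0 p) →
    ∀ t ∈ Icc 0 τ, ∀ p ∈ X, φ t (σ p) ≤ φ t p

/-- oscillation of the comparison metric on a parabolic cylinder of size `r^2 p` -/
def OSC : Prop :=
  ∀ C θf Kf, Cst C θf Kf → ∀ (M : ℕ → ℝ) (ρ : ℝ), 0 < ρ → ∃ Λ : ℝ, ∀ ε > 0, ∃ r0 ∈ Ioo 0 ρ,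
    ∀ (τ : ℝ) (u : ℝ → ℝ → ℝ) (σ : V → ℝ) (b : ℝ), ROn C θf Kf τ u → ∀ t ∈ Icc 0 τ,
      Nice M (kap (UJ u) (σ 0 - b) t) ρ σ →
      EllH Λ ((UJ u 1 (σ 0 - b) t)⁻¹ • lv (fun y => u (σ y - b) t) 0) ∧
      ∀ x ∈ ball (0 : V) r0, ∀ t' ∈ Icc 0 τ, |t' - t| ≤ r0 ^ 2 * UJ u 1 (σ 0 - b) t →
        Cl ε (lv (fun y => u (σ y - b) t') x) (lv (fun y => u (σ y - b) t) 0)

/-- derivatives of the comparison metric -/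
def DER : Prop :=
  ∀ (M Cj : ℕ → ℝ) (ρ : ℝ), 0 < ρ → ∃ r0 ∈ Ioo 0 ρ, ∃ Λ : ℝ, ∀ k : ℕ, ∃ B : ℝ,
    ∀ (g : ℝ → ℝ) (σ : V → ℝ), PB Cj g →
      Nice M √(iteratedDeriv 1 g (σ 0) / iteratedDeriv 2 g (σ 0)) ρ σ →
      LB k (B * iteratedDeriv 1 g (σ 0)) (g ∘ σ) (ball 0 r0) ∧
      ∀ x ∈ ball (0 : V) r0, EllH Λ ((iteratedDeriv 1 g (σ 0))⁻¹ • lv (g ∘ σ) x)

/-- lemma U: a flow close to the comparison family has bounded derivatives at the scale `p` -/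
def LU : Prop :=
  ∃ d > 0, ∀ C θf Kf, Cst C θf Kf → ∀ (M : ℕ → ℝ) (ρ : ℝ), 0 < ρ → ∃ r0 ∈ Ioo 0 ρ, ∀ k : ℕ,
    ∃ B : ℝ, ∀ (τ : ℝ) (u : ℝ → ℝ → ℝ) (σ : V → ℝ) (b : ℝ) (φ : ℝ → V → ℝ) (w0 : V → ℝ),
      0 < τ → ROn C θf Kf τ u → Nice M (kap (UJ u) (σ 0 - b) τ) ρ σ →
      PFlow (Icc 0 τ) (ball 0 ρ) φ w0 → (∀ x ∈ ball (0 : V) ρ, φ 0 x = u (σ x - b) 0) →
      (∀ t ∈ Icc 0 τ, ∀ x ∈ ball (0 : V) ρ, Cl d (lv (φ t) x) (lv (fun y => u (σ y - b) t) x)) →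
      LB k (B * UJ u 1 (σ 0 - b) τ) (φ τ) (ball 0 r0)

/-- the setting of the bootstrap -/
structure Run (X : Set C3) (ψ : C3 → ℝ) (F : Fam X) (u : ℝ → ℝ → ℝ) (b τ : ℝ)
    (φ : ℝ → C3 → ℝ) : Prop where
  b0 : 0 ≤ b
  τ0 : τ ∈ Ioo (0 : ℝ) (1 / 2)
  gf : F.GFlow ψ τ φ
  init : ∀ p ∈ X, φ 0 p = FF ψ u b 0 p

/-- the bootstrap assumption -/
def BS (X : Set C3) (ψ : C3 → ℝ) (u : ℝ → ℝ → ℝ) (b d τ : ℝ) (φ : ℝ → C3 → ℝ) : Prop :=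
  ∀ t ∈ Icc 0 τ, ∀ p ∈ X, XCl X d (φ t) (FF ψ u b t) p

/-- the standing assumptions on the surface and the profile -/
structure Ctx (X : Set C3) (ψ : C3 → ℝ) (F : Fam X) (C : ℝ) (θf : ℝ → ℝ) (Kf : ℝ → ℝ → ℝ)
    (Cj : ℕ → ℝ) (u : ℝ → ℝ → ℝ) : Prop where
  geo : Geo X ψ F
  one : ∀ p ∈ X, 1 ≤ ψ p
  prof : Prof C θf Kf Cj u

/-- a statement that holds in every context -/
def InCtx (P : ∀ (X : Set C3) (_ : C3 → ℝ) (_ : Fam X) (_ : ℝ → ℝ → ℝ), Prop) : Prop :=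
  ∀ (X : Set C3) (ψ : C3 → ℝ) (F : Fam X) C θf Kf Cj u, Ctx X ψ F C θf Kf Cj u → P X ψ F u

/-- the comparison family in the quasi-charts -/
def pFCH (X : Set C3) (ψ : C3 → ℝ) (F : Fam X) (u : ℝ → ℝ → ℝ) : Prop :=
  ∀ b, 0 ≤ b → ∀ τ ∈ Ioo (0 : ℝ) (1 / 2), XSm X (Icc 0 τ) (FF ψ u b) ∧
    (∀ t ∈ Icc 0 τ, ∀ N U, Par X N U → ∀ x ∈ U, Pos (lv (FF ψ u b t ∘ N) x)) ∧
    (∃ Λ, ∀ t ∈ Icc 0 τ, F.Ell Λ (FF ψ u b t)) ∧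
    ∀ k, ∃ M, ∀ t ∈ Icc 0 τ, F.Bnd k M (FF ψ u b t)

/-- section 3 -/
def pCMP (X : Set C3) (ψ : C3 → ℝ) (F : Fam X) (u : ℝ → ℝ → ℝ) : Prop :=
  ∃ C1 b0 : ℝ, ∀ b τ φ, b0 ≤ b → Run X ψ F u b τ φ → ∀ t ∈ Icc 0 τ, ∀ p ∈ X,
    0 ≤ φ t p - FF ψ u b t p ∧ φ t p - FF ψ u b t p ≤ C1 * Real.exp (-b) * (1 - 2 * t) ^ 3

/-- the outer estimate -/
def pOUT (X : Set C3) (ψ : C3 → ℝ) (F : Fam X) (u : ℝ → ℝ → ℝ) : Prop :=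
  ∃ d1 > 0, ∀ ε > 0, ∃ η > 0, ∀ b τ φ, Run X ψ F u b τ φ → BS X ψ u b d1 τ φ → ∀ p ∈ X,
    (∀ p' ∈ X, |φ τ p' - FF ψ u b τ p'| ≤ η * UJ u 1 (Real.log (ψ p) - b) τ) →
    XCl X ε (φ τ) (FF ψ u b τ) p

/-- the comparison family on the inner ball -/
def FCL : Prop :=
  ∀ C θf Kf, Cst C θf Kf → ∃ C2 : ℝ, 1 ≤ C2 ∧ ∀ (X : Set C3) (ψ : C3 → ℝ) (τ : ℝ)
    (u : ℝ → ℝ → ℝ) (b : ℝ), Pot X ψ → ROn C θf Kf τ u → ∀ t ∈ Icc 0 τ, ∀ th : ℝ, 0 < th →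
    C2 * th ≤ 1 →
    (∀ p ∈ X, 0 < ψ p → ct u b t * ψ p ≤ th * (1 - 2 * t) ^ 2 →
      XCl X (C2 * th) (FF ψ u b t) (fun q => ct u b t * ψ q) p) ∧
    ∀ p ∈ X, ∀ p' ∈ X, 0 < ψ p → 0 < ψ p' → ct u b t * ψ p ≤ th * (1 - 2 * t) ^ 2 →
      ct u b t * ψ p' ≤ th * (1 - 2 * t) ^ 2 →
      |(FF ψ u b t p - ct u b t * ψ p) - (FF ψ u b t p' - ct u b t * ψ p')| ≤
        C2 * th * (th * (1 - 2 * t) ^ 2)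

/-- `|log (MA f / MA ψ) - 2 log c| ≤ ε` at `p` -/
def YB (X : Set C3) (ψ : C3 → ℝ) (ε : ℝ) (f : C3 → ℝ) (c : ℝ) (p : C3) : Prop :=
  ∀ N U, Par X N U → ∀ x ∈ U, N x = p →
    |Real.log (hdet (lv (f ∘ N) x)) - Real.log (hdet (lv (ψ ∘ N) x)) - 2 * Real.log c| ≤ ε

/-- section 4, I (i) -/
def pI1 (X : Set C3) (ψ : C3 → ℝ) (F : Fam X) (u : ℝ → ℝ → ℝ) : Prop :=
  ∃ C3' : ℝ, 1 ≤ C3' ∧ ∀ b τ φ, Run X ψ F u b τ φ → BS X ψ u b (1 / 4) τ φ →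
    ∀ th ε A t0 : ℝ, 0 < th → C3' * th ≤ 1 → 0 ≤ ε → 0 ≤ A → t0 ∈ Ico 0 τ →
    (∀ t ∈ Icc t0 τ, ∀ p ∈ X, ct u b t * ψ p = th * (1 - 2 * t) ^ 2 →
      YB X ψ ε (φ t) (ct u b t) p) →
    (∀ p ∈ X, ct u b t0 * ψ p ≤ th * (1 - 2 * t0) ^ 2 → YB X ψ A (φ t0) (ct u b t0) p) →
    ∀ p ∈ X, ct u b τ * ψ p ≤ th * (1 - 2 * τ) ^ 2 →
      YB X ψ (C3' * (th + ε + A * Real.exp (-((1 / (1 - 2 * τ) - 1 / (1 - 2 * t0)) / (C3' * th)))))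
        (φ τ) (ct u b τ) p

/-- a normalised chart at the scale `ψ p` -/
def Nrm (X : Set C3) (ψ f : C3 → ℝ) (Λ M : ℝ) (p : C3) : Prop :=
  ∃ N, Par X N (ball 0 1) ∧ N 0 = p ∧ EllH Λ ((ψ p)⁻¹ • lv (ψ ∘ N) 0) ∧
    LB 3 M (fun y => (ψ p)⁻¹ * (f (N y) - ψ (N y))) (ball 0 1) ∧
    ∀ y ∈ ball (0 : V) 1, ψ (N y) ≤ 2 * ψ p

/-- section 4, I (ii) and (iii), for functions invariant under a set `S` of symmetries -/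
def I23 (X : Set C3) (ψ : C3 → ℝ) (S : Set (C3 → C3)) : Prop :=
  ∀ Λ M : ℝ, ∃ d0 > 0, ∃ ρ1 : ℝ, ∀ δ > 0, ∃ ε > 0, ∀ (f : C3 → ℝ) (ρ0 : ℝ), ρ1 ≤ ρ0 → XSm0 X f →
    (∀ σ ∈ S, ∀ p ∈ X, f (σ p) = f p) →
    (∀ p ∈ X, ψ p ≤ ρ0 → XCl X d0 f ψ p) →
    (∀ p ∈ X, ρ0 / 2 ≤ ψ p → ψ p ≤ ρ0 → XCl X δ f ψ p) →
    (∀ p ∈ X, ψ p ≤ ρ0 → YB X ψ ε f 1 p) →
    (∀ p ∈ X, ∀ q ∈ X, ψ p ≤ ρ0 → ψ q ≤ ρ0 → (f p - ψ p) - (f q - ψ q) ≤ ε * ρ0) →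
    (∀ p ∈ X, ψ p ≤ ρ0 / 2 → Nrm X ψ f Λ M p) →
    ∀ p ∈ X, ψ p ≤ ρ0 → XCl X δ f ψ p

/-- a set of invertible symmetries for which `I23` holds -/
def HasSym (X : Set C3) (ψ : C3 → ℝ) : Prop :=
  ∃ S : Set (C3 → C3), (∀ σ ∈ S, Aut X ψ σ ∧ ∃ σ', Aut X ψ σ' ∧ ∀ p ∈ X, σ' (σ p) = p) ∧ I23 X ψ S

/-- the inner estimate at the final time -/
def pINNER (X : Set C3) (ψ : C3 → ℝ) (F : Fam X) (u : ℝ → ℝ → ℝ) : Prop :=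
  HasSym X ψ → ∃ d1 > 0, ∀ ε > 0, ∃ η > 0, ∀ b τ φ, Run X ψ F u b τ φ → BS X ψ u b d1 τ φ →
    ∀ th : ℝ, 0 < th → th ≤ η → ct u b τ ≤ η * (th * (1 - 2 * τ) ^ 2) →
    (∀ p ∈ X, ct u b τ * ψ p ≤ th * (1 - 2 * τ) ^ 2 → YB X ψ η (φ τ) (ct u b τ) p) →
    (∀ p ∈ X, |φ τ p - FF ψ u b τ p| ≤ η * (th * (1 - 2 * τ) ^ 2)) →
    (∀ p ∈ X, th * (1 - 2 * τ) ^ 2 / 2 ≤ ct u b τ * ψ p →
      ct u b τ * ψ p ≤ th * (1 - 2 * τ) ^ 2 → XCl X η (φ τ) (FF ψ u b τ) p) →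
    ∀ p ∈ X, ct u b τ * ψ p ≤ th * (1 - 2 * τ) ^ 2 →
      XCl X ε (φ τ) (fun q => ct u b τ * ψ q) p

/-- closeness moves slowly in time -/
def pTLIP (X : Set C3) (ψ : C3 → ℝ) (F : Fam X) (u : ℝ → ℝ → ℝ) : Prop :=
  ∀ b τ φ, Run X ψ F u b τ φ → ∃ L : ℝ, ∀ t ∈ Icc 0 τ, ∀ t' ∈ Icc 0 τ, ∀ d ∈ Icc (0 : ℝ) 1,
    ∀ p ∈ X, XCl X d (φ t) (FF ψ u b t) p → XCl X (d + L * |t' - t|) (φ t') (FF ψ u b t') p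

/-- the bootstrap closes -/
def pBOOT (X : Set C3) (ψ : C3 → ℝ) (F : Fam X) (u : ℝ → ℝ → ℝ) : Prop :=
  HasSym X ψ → ∀ d > 0, ∃ b0 : ℝ, ∀ b τ φ, b0 ≤ b → Run X ψ F u b τ φ → BS X ψ u b d τ φ

/-- a priori bounds in the quasi-charts -/
def pCHB (X : Set C3) (ψ : C3 → ℝ) (F : Fam X) (u : ℝ → ℝ → ℝ) : Prop :=
  ∃ d > 0, ∀ b, 0 ≤ b → ∀ t1 < 1 / 2, ∀ k, ∃ Λ M, ∀ τ φ, τ ≤ t1 → Run X ψ F u b τ φ →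
    BS X ψ u b d τ φ → F.Ell Λ (φ τ) ∧ F.Bnd k M (φ τ)

/-- the static limit in `C^0` -/
def pLIM (X : Set C3) (ψ : C3 → ℝ) (F : Fam X) (u : ℝ → ℝ → ℝ) : Prop :=
  HasSym X ψ → ∃ d > 0, ∃ b0 : ℝ, ∀ b φ, b0 ≤ b →
    (∀ τ ∈ Ioo (0 : ℝ) (1 / 2), Run X ψ F u b τ φ ∧ BS X ψ u b d τ φ) →
    ∀ R : ℝ, ∀ ε > 0, ∀ᶠ t in 𝓝[<] (1 / 2 : ℝ), ∀ p ∈ X, ψ p ≤ R →
      XCl X ε (φ t) (fun q => ct u b t * ψ q) p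

/-- derivative bounds of the rescaled metrics -/
def LIMB : Prop :=
  ∀ (X : Set C3) (ψ : C3 → ℝ) (T : ℝ) (φ : ℝ → C3 → ℝ) (c : ℝ → ℝ), 0 < T → RFlat X ψ →
    XFlow X ψ (Ico 0 T) φ → (∀ t ∈ Ioo 0 T, 0 < c t) →
    Tendsto (fun t => c t / (T - t)) (𝓝[<] T) (𝓝 0) →
    (∀ S ε : ℝ, 0 < ε → ∀ᶠ t in 𝓝[<] T, ∀ s ∈ Icc (-S) S, |c (t + s * c t) - c t| ≤ ε * c t) →
    (∀ K : Set C3, IsCompact K → K ⊆ X → ∀ d : ℝ, 0 < d → ∀ᶠ t in 𝓝[<] T, ∀ p ∈ K,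
      XCl X d (φ t) (fun q => c t * ψ q) p) →
    ∀ N U, Par X N U → ∀ x ∈ U, ∃ r : ℝ, 0 < r ∧ ∀ k : ℕ, ∃ M : ℝ, ∀ᶠ t in 𝓝[<] T,
      LB k (M * c t) (φ t ∘ N) (ball x r)

def EXHS : Prop :=
  ∀ (X : Set C3) (ψ : C3 → ℝ) (F : Fam X), Geo X ψ F → (∀ p ∈ X, 1 ≤ ψ p) → F.EXH

/-! ### The concrete surfaces -/

/-- the roots of unity -/
def an (n : ℕ) : Fin n → ℂ := fun j => Complex.exp (2 * Real.pi * Complex.I * (j : ℕ) / n)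

/-- one centre at the origin -/
def a0 : Fin 1 → ℂ := fun _ => 0

def SURF : Prop := ∀ (n : ℕ) (a : Fin n → ℂ), 1 ≤ n → Function.Injective a → Surf (Xs a)

/-- blocks A and A3 -/
def ATL : Prop :=
  ∀ (n : ℕ) (a : Fin n → ℂ), 1 ≤ n → Function.Injective a → Surf (Xs a) → RFlat (Xs a) (psi a) →
    ∃ ρ ∈ Ioc (0 : ℝ) (1 / 8), ∃ (Ξ : ℝ) (F : Fam (Xs a)), Fam.Shape a F ρ Ξ ∧ F.CPT ∧ F.MPX ∧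
      F.CONT (psi a)

/-- block D1 -/
def POT : Prop :=
  ∀ (n : ℕ) (a : Fin n → ℂ), 1 ≤ n → Function.Injective a → Surf (Xs a) →
    Pot (Xs a) (psi a) ∧ ERR a

def PSI1 : Prop := ∀ p ∈ Xs a0, psi a0 p = ‖p.1‖ ^ 2 + ‖p.2.1‖ ^ 2

def NICE1 : Prop :=
  ∀ (n : ℕ) (a : Fin n → ℂ), 1 ≤ n → Surf (Xs a) → Pot (Xs a) (psi a) → ERR a →
    ∀ ρ ∈ Ioc (0 : ℝ) (1 / 8), ∀ (Ξ : ℝ) (F : Fam (Xs a)), Fam.Shape a F ρ Ξ → F.CPT →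
      F.N1 (psi a) ∧
      ∃ R, ∀ i, R ≤ psi a (F.Φ i 0) → ∀ x ∈ ball (0 : V) (3 / 2), 1 ≤ psi a (F.Φ i x)

def NICE2 : Prop :=
  ∀ (n : ℕ) (a : Fin n → ℂ), 1 ≤ n → Surf (Xs a) → Pot (Xs a) (psi a) → ERR a →
    ∀ F : Fam (Xs a), F.N1 (psi a) → N2 (Xs a) (psi a)

/-- block I (ii), (iii) on the concrete surface -/
def HSYM : Prop :=
  ∀ n : ℕ, 3 ≤ n → ∀ F : Fam (Xs (an n)), Geo (Xs (an n)) (psi (an n)) F →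
    HasSym (Xs (an n)) (psi (an n))

/-- block D2 -/
def ALE : Prop :=
  ∀ n : ℕ, 3 ≤ n → Surf (Xs (an n)) → Pot (Xs (an n)) (psi (an n)) →
    H.AleData (H.surf n) (psi (an n)) n ∧ ConnectedSpace (H.surf n) ∧
      IsEmpty (H.surf n ≃ₜ H.tangentS2) ∧ ∀ p ∈ Xs (an n), 1 ≤ psi (an n) p

def ROOTS : Prop := ∀ n : ℕ, 1 ≤ n → Function.Injective (an n) ∧ Xs (an n) = H.surf n

/-! ### The radial flow from the flow on the plane -/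

/-- the radial profile of a flow on the plane -/
def ru (φ : ℝ → C3 → ℝ) (s t : ℝ) : ℝ := φ t ((Real.exp (s / 2) : ℝ), 0, 0)

/-- the properties of the initial potential -/
def Ini (U0 : ℝ → ℝ) : Prop :=
  ContDiffOn ℝ ∞ U0 (Ioi (-1 / 2)) ∧ 0 < deriv U0 0 ∧
    ∀ s, HasDerivAt (fun s => U0 (Real.exp s)) (p0 6 s) s

/-- the setting on the plane -/
structure Ctx0 (F : Fam (Xs a0)) (U0 : ℝ → ℝ) : Prop where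
  geo : Geo (Xs a0) (psi a0) F
  shape : ∃ ρ ∈ Ioc (0 : ℝ) (1 / 8), ∃ Ξ, Fam.Shape a0 F ρ Ξ
  psi1 : PSI1
  ini : Ini U0

/-- flows on the plane are radial -/
def RAD1 : Prop :=
  ∀ F U0, Ctx0 F U0 → ∀ τ ∈ Ioo (0 : ℝ) (1 / 2), ∀ φ, F.GFlow (psi a0) τ φ →
    (∀ p ∈ Xs a0, φ 0 p = U0 (psi a0 p)) →
    ContDiffOn ℝ ∞ (fun q : ℝ × ℝ => ru φ q.1 q.2) (univ ×ˢ Icc 0 τ) ∧ Rad 6 τ (UJ (ru φ)) ∧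
      ∀ t ∈ Icc 0 τ, ∀ p ∈ Xs a0, 0 < psi a0 p → φ t p = ru φ (Real.log (psi a0 p)) t

/-- the initial data on the plane -/
def CHB0 : Prop :=
  ∀ F U0, Ctx0 F U0 → XSm0 (Xs a0) (fun p => U0 (psi a0 p)) ∧
    (∃ Λ, F.Ell Λ (fun p => U0 (psi a0 p))) ∧ ∀ k, ∃ M, F.Bnd k M (fun p => U0 (psi a0 p))

/-- a priori bounds on the plane -/
def CHB1 : Prop :=
  ∀ F U0, Ctx0 F U0 → ∀ t1 < (1 / 2 : ℝ), ∀ k, ∃ Λ M, ∀ τ ∈ Ioc 0 t1, ∀ φ : ℝ → C3 → ℝ,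
    (∀ p ∈ Xs a0, φ 0 p = U0 (psi a0 p)) → F.GFlow (psi a0) τ φ → F.Ell Λ (φ τ) ∧ F.Bnd k M (φ τ)

/-- profile bounds of all orders -/
def HIGH : Prop :=
  ∀ F U0, Ctx0 F U0 → ∀ φ : ℝ → C3 → ℝ, (∀ p ∈ Xs a0, φ 0 p = U0 (psi a0 p)) →
    (∀ τ ∈ Ioo (0 : ℝ) (1 / 2), F.GFlow (psi a0) τ φ) → ∃ C θf Kf Cj, Prof C θf Kf Cj (ru φ)

/-! ### Rows: each statement with the statements it may use -/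

def rLU : Prop := BERN → OSC → DER → INITB → LU
def rFCH : Prop := DER → InCtx pFCH
def rCMP : Prop := InCtx pFCH → InCtx pCMP
def rOUT : Prop := LU → DER → INT → InCtx pOUT
def rI1 : Prop := FCL → InCtx pI1
def rINNER : Prop := LU → DER → FCL → SYM → InCtx pINNER
def rTLIP : Prop := InCtx pFCH → InCtx pTLIP
def rBOOT : Prop :=
  FCL → InCtx pCMP → InCtx pOUT → InCtx pI1 → InCtx pINNER → InCtx pTLIP → InCtx pBOOT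
def rCHB : Prop := LU → InCtx pFCH → InCtx pCHB
def rLIM : Prop := FCL → InCtx pCMP → InCtx pOUT → InCtx pI1 → InCtx pINNER → InCtx pLIM
def rLIMB : Prop := BERN → LIMB
def rRAD1 : Prop := SYM → CHB0 → RAD1
def rCHB0 : Prop := DER → INITB → CHB0
def rCHB1 : Prop := BERN → LU → OSC → FCL → REST → RAD1 → CHB0 → CHB1
def rHIGH : Prop := LU → INITB → REST → RAD1 → HIGH

end Pool.Agent.MP_67f0e4_gt.K
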