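import Mathlib

/-! Shared coordinates and interface predicates for the Kaehler-Ricci flow on `x y = P(z)`. -/

open Set Metric Filter Topology
open scoped ContDiff

noncomputable section

namespace Pool.Agent.MP_67f0e4_gt.K

abbrev V := ℂ × ℂ
abbrev C3 := ℂ × ℂ × ℂ
/-- a Hermitian form on `V`: entries `g(e0,e0), g(e2,e2), g(e0,e2), g(e0,e3)` -/
abbrev Hm := Fin 4 → ℝ

/-- the real basis of `V` -/
def e : Fin 4 → V := ![(1, 0), (Complex.I, 0), (0, 1), (0, Complex.I)]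

section gen
variable {E : Type} [NormedAddCommGroup E] [NormedSpace ℝ E]

/-- directional derivative -/
def D (v : E) (f : E → ℝ) : E → ℝ := fun x => fderiv ℝ f x v

/-- Levi form, `4 Re ddbar f` -/
def lev [SMul ℂ E] (f : E → ℝ) (x v w : E) : ℝ :=
  D v (D w f) x + D (Complex.I • v) (D (Complex.I • w) f) x
end gen

/-- iterated coordinate derivative along a word -/
def DL : List (Fin 4) → (V → ℝ) → V → ℝ
  | [], f => f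
  | i :: l, f => D (e i) (DL l f)

/-- the entries of the Levi form -/
def lv (f : V → ℝ) (x : V) : Hm :=
  ![lev f x (e 0) (e 0), lev f x (e 2) (e 2), lev f x (e 0) (e 2), lev f x (e 0) (e 3)]

/-- the real symmetric bilinear form with entries `g` -/
def bf (g : Hm) (v w : V) : ℝ :=
  g 0 * (v.1.re * w.1.re + v.1.im * w.1.im) + g 1 * (v.2.re * w.2.re + v.2.im * w.2.im) +
    g 2 * (v.1.re * w.2.re + v.1.im * w.2.im + v.2.re * w.1.re + v.2.im * w.1.im) +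
    g 3 * (v.1.re * w.2.im - v.1.im * w.2.re + v.2.im * w.1.re - v.2.re * w.1.im)

def qf (g : Hm) (v : V) : ℝ := bf g v v

/-- the Euclidean form -/
def one : Hm := ![1, 1, 0, 0]

def hdet (g : Hm) : ℝ := g 0 * g 1 - g 2 ^ 2 - g 3 ^ 2

/-- polarisation of `hdet`; `hmix g h / hdet g` is the trace of `h` with respect to `g` -/
def hmix (g h : Hm) : ℝ := g 0 * h 1 + g 1 * h 0 - 2 * g 2 * h 2 - 2 * g 3 * h 3

/-- pull-back of a form by a complex linear map -/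
def pb (A : V →L[ℂ] V) (g : Hm) : Hm :=
  ![bf g (A (e 0)) (A (e 0)), bf g (A (e 2)) (A (e 2)), bf g (A (e 0)) (A (e 2)),
    bf g (A (e 0)) (A (e 3))]

/-- the rank one form `v ↦ (df v)^2 + (df (i v))^2` -/
def rk (f : V → ℝ) (x : V) : Hm :=
  ![D (e 0) f x ^ 2 + D (e 1) f x ^ 2, D (e 2) f x ^ 2 + D (e 3) f x ^ 2,
    D (e 0) f x * D (e 2) f x + D (e 1) f x * D (e 3) f x,
    D (e 0) f x * D (e 3) f x - D (e 1) f x * D (e 2) f x]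

def Pos (g : Hm) : Prop := ∀ v : V, v ≠ 0 → 0 < qf g v

def NN (g : Hm) : Prop := ∀ v : V, 0 ≤ qf g v

def EllH (Λ : ℝ) (g : Hm) : Prop :=
  0 < Λ ∧ ∀ v : V, ‖v‖ ^ 2 ≤ Λ * qf g v ∧ qf g v ≤ Λ * ‖v‖ ^ 2

/-- `(1 - d) g0 ≤ g ≤ (1 + d) g0` -/
def Cl (d : ℝ) (g g0 : Hm) : Prop := ∀ v : V, |qf g v - qf g0 v| ≤ d * qf g0 v

/-- all derivatives of order at most `k` of the Levi form of `f` are bounded by `M` on `U` -/
def LB (k : ℕ) (M : ℝ) (f : V → ℝ) (U : Set V) : Prop :=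
  ∀ l : List (Fin 4), l.length ≤ k → ∀ α : Fin 4, ∀ x ∈ U, |DL l (fun y => lv f y α) x| ≤ M

/-- joint smoothness -/
def Sm (S : Set ℝ) (U : Set V) (f : ℝ → V → ℝ) : Prop :=
  ContDiffOn ℝ ∞ (fun q : ℝ × V => f q.1 q.2) (S ×ˢ U)

/-- the potential flow in a chart -/
structure PFlow (S : Set ℝ) (U : Set V) (φ : ℝ → V → ℝ) (w0 : V → ℝ) : Prop where
  sm : Sm S U φ
  om : ContDiffOn ℝ ∞ w0 U
  ph : ∀ x ∈ U, lv w0 x = 0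
  pos : ∀ t ∈ S, ∀ x ∈ U, Pos (lv (φ t) x)
  eq : ∀ t ∈ S, ∀ x ∈ U,
    HasDerivWithinAt (fun s => φ s x) (Real.log (hdet (lv (φ t) x)) - w0 x) S t

/-- holomorphic local parametrisation of `X` -/
structure Par (X : Set C3) (N : V → C3) (U : Set V) : Prop where
  op : IsOpen U
  hol : ContDiffOn ℂ ∞ N U
  mem : MapsTo N U X
  inj : ∀ x ∈ U, Function.Injective (fderiv ℂ N x)

/-- `X` is a closed smooth complex surface: parametrisations have holomorphic local inverses -/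
def Surf (X : Set C3) : Prop :=
  IsClosed X ∧ ∀ N U, Par X N U → ∀ a ∈ U, ∃ R : C3 → V, ContDiffAt ℂ ∞ R (N a) ∧
    (∀ᶠ x in 𝓝 a, R (N x) = x) ∧ ∀ᶠ p in 𝓝[X] (N a), N (R p) = p

/-- smooth function on `X` -/
def XSm0 (X : Set C3) (f : C3 → ℝ) : Prop :=
  ∀ N U, Par X N U → ContDiffOn ℝ ∞ (f ∘ N) U

/-- jointly smooth time dependent function on `X` -/
def XSm (X : Set C3) (S : Set ℝ) (f : ℝ → C3 → ℝ) : Prop :=
  ∀ N U, Par X N U → Sm S U (fun t => f t ∘ N)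

/-- `ψ` is a Ricci flat Kaehler potential -/
def RFlat (X : Set C3) (ψ : C3 → ℝ) : Prop :=
  XSm0 X ψ ∧ ∀ N U, Par X N U → ∀ x ∈ U, Pos (lv (ψ ∘ N) x) ∧
    lv (fun y => Real.log (hdet (lv (ψ ∘ N) y))) x = 0

/-- the flow `φ_t = log (MA φ / MA ψ)` on `X` -/
def XFlow (X : Set C3) (ψ : C3 → ℝ) (S : Set ℝ) (φ : ℝ → C3 → ℝ) : Prop :=
  ∀ N U, Par X N U →
    PFlow S U (fun t => φ t ∘ N) (fun y => Real.log (hdet (lv (ψ ∘ N) y)))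

/-- `(1 - d) H(g) ≤ H(f) ≤ (1 + d) H(g)` at the point `p` -/
def XCl (X : Set C3) (d : ℝ) (f g : C3 → ℝ) (p : C3) : Prop :=
  ∀ N U, Par X N U → ∀ x ∈ U, N x = p → Cl d (lv (f ∘ N) x) (lv (g ∘ N) x)

/-- a family of quasi-charts, defined on `ball 0 2`, one centred at every point -/
structure Fam (X : Set C3) where
  ι : Type
  Φ : ι → V → C3
  par : ∀ i, Par X (Φ i) (ball 0 2)
  sur : ∀ p ∈ X, ∃ i, Φ i 0 = p

variable {X : Set C3}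

def Fam.Ell (F : Fam X) (Λ : ℝ) (f : C3 → ℝ) : Prop :=
  ∀ i, ∀ x ∈ ball (0 : V) 1, EllH Λ (lv (f ∘ F.Φ i) x)

def Fam.Bnd (F : Fam X) (k : ℕ) (M : ℝ) (f : C3 → ℝ) : Prop :=
  ∀ i, LB k M (f ∘ F.Φ i) (ball 0 1)

/-- a flow on `[0,τ]` with uniform bounds in the quasi-charts -/
def Fam.GFlow (F : Fam X) (ψ : C3 → ℝ) (τ : ℝ) (φ : ℝ → C3 → ℝ) : Prop :=
  XFlow X ψ (Icc 0 τ) φ ∧ (∃ Λ, ∀ t ∈ Icc 0 τ, F.Ell Λ (φ t)) ∧
    ∀ k, ∃ M, ∀ t ∈ Icc 0 τ, F.Bnd k M (φ t)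

/-- short time existence, `τ` depends only on ellipticity and finitely many derivatives -/
def Fam.EXIST (F : Fam X) (ψ : C3 → ℝ) : Prop :=
  ∃ k0 : ℕ, ∀ Λ M : ℝ, ∃ τ > 0, ∀ f : C3 → ℝ, XSm0 X f → F.Ell Λ f → F.Bnd k0 M f →
    (∀ k, ∃ M', F.Bnd k M' f) → ∃ φ : ℝ → C3 → ℝ, (∀ p ∈ X, φ 0 p = f p) ∧ F.GFlow ψ τ φ

/-- smooth exhaustion with bounded first and second derivatives in the quasi-charts -/
def Fam.EXH (F : Fam X) : Prop :=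
  ∃ (E : C3 → ℝ) (M : ℝ), XSm0 X E ∧ (∀ p ∈ X, 0 ≤ E p) ∧ (∀ c, IsCompact {p ∈ X | E p ≤ c}) ∧
    ∀ i, ∀ l : List (Fin 4), 1 ≤ l.length → l.length ≤ 2 → |DL l (E ∘ F.Φ i) 0| ≤ M

/-- linear maximum principle on `X` -/
def Fam.MPX (F : Fam X) : Prop :=
  ∀ (t0 t1 Λ B : ℝ) (Z : ℝ → C3 → ℝ), t0 < t1 → XSm X (Icc t0 t1) Z →
    (∀ t ∈ Icc t0 t1, ∀ p ∈ X, Z t p ≤ B) → (∀ p ∈ X, Z t0 p ≤ 0) →
    (∀ t ∈ Ioc t0 t1, ∀ i, 0 < Z t (F.Φ i 0) → ∃ (b : Hm) (d : ℝ), NN b ∧ ‖b‖ ≤ Λ ∧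
      HasDerivWithinAt (fun s => Z s (F.Φ i 0)) d (Icc t0 t1) t ∧
      d ≤ hmix b (lv (Z t ∘ F.Φ i) 0)) →
    ∀ t ∈ Icc t0 t1, ∀ p ∈ X, Z t p ≤ 0

/-- continuation: a priori bounds give a flow on `[0,T)` -/
def Fam.CONT (F : Fam X) (ψ : C3 → ℝ) : Prop :=
  ∀ (T : ℝ) (f : C3 → ℝ), 0 < T → XSm0 X f → (∃ Λ, F.Ell Λ f) → (∀ k, ∃ M, F.Bnd k M f) →
    (∀ t1 < T, ∀ k, ∃ Λ M, ∀ τ ∈ Ioc 0 t1, ∀ φ : ℝ → C3 → ℝ, (∀ p ∈ X, φ 0 p = f p) →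
      F.GFlow ψ τ φ → F.Ell Λ (φ τ) ∧ F.Bnd k M (φ τ)) →
    ∃ φ : ℝ → C3 → ℝ, (∀ p ∈ X, φ 0 p = f p) ∧ XFlow X ψ (Ico 0 T) φ ∧
      ∀ τ ∈ Ioo 0 T, F.GFlow ψ τ φ

/-- quasi-charts centred in a compact part of `X` form a compact family: smooth functions have
uniformly bounded derivatives there, and Kaehler potentials are uniformly elliptic -/
def Fam.CPT (F : Fam X) : Prop :=
  ∀ (K : Set C3) (t0 t1 : ℝ) (f : ℝ → C3 → ℝ), IsCompact K → K ⊆ X → t0 < t1 →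
    XSm X (Icc t0 t1) f →
    (∀ l : List (Fin 4), ∃ M, ∀ i, F.Φ i 0 ∈ K → ∀ t ∈ Icc t0 t1, ∀ x ∈ ball (0 : V) (3 / 2),
      |DL l (f t ∘ F.Φ i) x| ≤ M) ∧
    ((∀ t ∈ Icc t0 t1, ∀ N U, Par X N U → ∀ x ∈ U, Pos (lv (f t ∘ N) x)) →
      ∃ Λ, ∀ i, F.Φ i 0 ∈ K → ∀ t ∈ Icc t0 t1, ∀ x ∈ ball (0 : V) (3 / 2),
        EllH Λ (lv (f t ∘ F.Φ i) x))

section GH
variable {n : ℕ}

def Pz (a : Fin n → ℂ) (z : ℂ) : ℂ := ∏ j, (z - a j)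

/-- the surface `x y = P(z)` -/
def Xs (a : Fin n → ℂ) : Set C3 := {p | p.1 * p.2.1 = Pz a p.2.2}

def rr (a : Fin n → ℂ) (j : Fin n) (m : ℝ) (z : ℂ) : ℝ := √(m ^ 2 + ‖z - a j‖ ^ 2)

/-- the moment map -/
def mu (a : Fin n → ℂ) (p : C3) : ℝ :=
  Classical.epsilon fun m : ℝ =>
    ∏ j, (rr a j m p.2.2 + m) - ∏ j, (rr a j m p.2.2 - m) = ‖p.1‖ ^ 2 - ‖p.2.1‖ ^ 2

/-- the Gibbons-Hawking potential -/
def psi (a : Fin n → ℂ) (p : C3) : ℝ := 2 * ∑ j, rr a j (mu a p) p.2.2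

/-- the cover of `x ≠ 0` -/
def cov (a : Fin n → ℂ) (q : V) : C3 :=
  (Complex.exp (n * q.1), Pz a (q.2 * Complex.exp (2 * q.1)) * Complex.exp (-(n * q.1)),
    q.2 * Complex.exp (2 * q.1))

def swap (p : C3) : C3 := (p.2.1, p.1, p.2.2)

/-- the error term of `log ψ` on the cover -/
def err (a : Fin n → ℂ) (q : V) : ℝ :=
  Real.log (psi a (cov a q)) - 2 * q.1.re - Real.log (n * (1 + ‖q.2‖ ^ 2))

/-- outside a compact set every quasi-chart is a scaled piece of one of the two covers -/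
def Fam.Shape (a : Fin n → ℂ) (F : Fam (Xs a)) (ρ Ξ : ℝ) : Prop :=
  ∃ K : Set C3, IsCompact K ∧ K ⊆ Xs a ∧ ∀ i, F.Φ i 0 ∈ K ∨ ∃ w ξ : ℂ, 1 ≤ w.re ∧ ‖ξ‖ ≤ Ξ ∧
    ((∀ y : V, F.Φ i y = cov a (w + (ρ * w.re : ℝ) * y.1, ξ + ρ * y.2)) ∨
      ∀ y : V, F.Φ i y = swap (cov a (w + (ρ * w.re : ℝ) * y.1, ξ + ρ * y.2)))

end GH

end Pool.Agent.MP_67f0e4_gt.K
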