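import Pool.Agent.MP_67f0e4_gt.K.Chain

/-! Change of charts on a complex surface. -/

open Set Filter Topology Metric
open scoped ContDiff

noncomputable section

namespace Pool.Agent.MP_67f0e4_gt.K

variable {X : Set C3} {N N' : V → C3} {U U' : Set V} {x x' : V} {f g : C3 → ℝ}

theorem Par.at (P : Par X N U) (hx : x ∈ U) : ContDiffAt ℂ ∞ N x :=
  P.hol.contDiffAt (P.op.mem_nhds hx)

theorem Par.atR (P : Par X N U) (hx : x ∈ U) : ContDiffAt ℝ ∞ N x := (P.at hx).restrict_scalars ℝ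

theorem Par.tendsto (P : Par X N U) (hx : x ∈ U) : Tendsto N (𝓝 x) (𝓝[X] (N x)) :=
  tendsto_nhdsWithin_iff.2 ⟨(P.at hx).continuousAt,
    (P.op.eventually_mem hx).mono fun _ hy => P.mem hy⟩

theorem Par.mono (P : Par X N U) (hU : IsOpen U') (h : U' ⊆ U) : Par X N U' :=
  ⟨hU, P.hol.mono h, P.mem.mono_left h, fun y hy => P.inj y (h hy)⟩

/-- composition with a local biholomorphism -/
theorem Par.comp (P : Par X N U) {T : V → V} (hU : IsOpen U') (hT : ContDiffOn ℂ ∞ T U')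
    (hm : MapsTo T U' U) (hi : ∀ y ∈ U', Function.Injective (fderiv ℂ T y)) :
    Par X (N ∘ T) U' := by
  refine ⟨hU, P.hol.comp hT hm, P.mem.comp hm, fun y hy => ?_⟩
  rw [fderiv_comp y ((P.at (hm hy)).differentiableAt (by simp))
    ((hT.contDiffAt (hU.mem_nhds hy)).differentiableAt (by simp))]
  exact (P.inj _ (hm hy)).comp (hi y hy)

/-- composition with an injective affine map -/
theorem Par.affine (P : Par X N U) (A : V →L[ℂ] V) (b : V) (hA : Function.Injective A)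
    (hU : IsOpen U') (hm : ∀ y ∈ U', b + A y ∈ U) : Par X (fun y => N (b + A y)) U' :=
  P.comp (T := fun y => b + A y) hU (contDiff_const.add A.contDiff).contDiffOn hm fun y _ => by
    rwa [(A.hasFDerivAt.const_add b).fderiv]

theorem XSm0.at (hf : XSm0 X f) (P : Par X N U) (hx : x ∈ U) : ContDiffAt ℝ ∞ (f ∘ N) x :=
  (hf N U P).contDiffAt (P.op.mem_nhds hx)

theorem XSm0.at2 (hf : XSm0 X f) (P : Par X N U) (hx : x ∈ U) : ContDiffAt ℝ 2 (f ∘ N) x :=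
  (hf.at P hx).of_le two_le_inf

theorem Sm.slice {S : Set ℝ} {φ : ℝ → V → ℝ} (h : Sm S U φ) {t : ℝ} (ht : t ∈ S) :
    ContDiffOn ℝ ∞ (φ t) U :=
  ContDiffOn.comp (g := fun q : ℝ × V => φ q.1 q.2) (f := fun y : V => (t, y)) h
    (contDiff_const.prodMk contDiff_id).contDiffOn fun _ hy => ⟨ht, hy⟩

theorem Sm.at {S : Set ℝ} {φ : ℝ → V → ℝ} (h : Sm S U φ) (hU : IsOpen U) {t : ℝ} (ht : t ∈ S)
    (hx : x ∈ U) : ContDiffAt ℝ ∞ (φ t) x := (h.slice ht).contDiffAt (hU.mem_nhds hx)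

theorem Sm.time {S : Set ℝ} {φ : ℝ → V → ℝ} (h : Sm S U φ) (hx : x ∈ U) :
    ContDiffOn ℝ ∞ (fun t => φ t x) S :=
  ContDiffOn.comp (g := fun q : ℝ × V => φ q.1 q.2) (f := fun t : ℝ => (t, x)) h
    (contDiff_id.prodMk contDiff_const).contDiffOn fun _ ht => ⟨ht, hx⟩

theorem Sm.mono {S S' : Set ℝ} {φ : ℝ → V → ℝ} (h : Sm S U φ) (hS : S' ⊆ S) (hU : U' ⊆ U) :
    Sm S' U' φ := ContDiffOn.mono h (prod_mono hS hU)

theorem XSm.slice {S : Set ℝ} {φ : ℝ → C3 → ℝ} (h : XSm X S φ) {t : ℝ} (ht : t ∈ S) :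
    XSm0 X (φ t) := fun N U P => (h N U P).slice ht

theorem XSm.mono {S S' : Set ℝ} {φ : ℝ → C3 → ℝ} (h : XSm X S φ) (hS : S' ⊆ S) : XSm X S' φ :=
  fun N U P => (h N U P).mono hS Subset.rfl

theorem XSm0.toXSm (hf : XSm0 X f) (S : Set ℝ) : XSm X S fun _ => f := fun N U P =>
  ContDiffOn.comp (g := f ∘ N) (f := fun q : ℝ × V => q.2) (hf N U P) contDiff_snd.contDiffOn
    fun _ hq => hq.2

theorem XFlow.xsm {ψ : C3 → ℝ} {S : Set ℝ} {φ : ℝ → C3 → ℝ} (h : XFlow X ψ S φ) : XSm X S φ :=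
  fun N U P => (h N U P).sm

theorem PFlow.mono {S S' : Set ℝ} {φ : ℝ → V → ℝ} {w0 : V → ℝ} (h : PFlow S U φ w0)
    (hS : S' ⊆ S) (hU : U' ⊆ U) : PFlow S' U' φ w0 :=
  ⟨h.sm.mono hS hU, h.om.mono hU, fun y hy => h.ph y (hU hy),
    fun t ht y hy => h.pos t (hS ht) y (hU hy),
    fun t ht y hy => (h.eq t (hS ht) y (hU hy)).mono hS⟩

theorem XFlow.mono {ψ : C3 → ℝ} {S S' : Set ℝ} {φ : ℝ → C3 → ℝ} (h : XFlow X ψ S φ)
    (hS : S' ⊆ S) : XFlow X ψ S' φ := fun N U P => (h N U P).mono hS Subset.rfl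

/-- a function that is smooth in the ambient space is smooth on `X` -/
theorem XSm0.of_amb (h : ∀ p ∈ X, ContDiffAt ℝ ∞ f p) : XSm0 X f := fun _ _ P _ hy =>
  ((h _ (P.mem hy)).comp _ (P.atR hy)).contDiffWithinAt

theorem XSm0.congr (hf : XSm0 X f) (h : ∀ p ∈ X, g p = f p) : XSm0 X g := fun N U P =>
  (hf N U P).congr fun _ hy => h _ (P.mem hy)

theorem XSm.congr {S : Set ℝ} {φ χ : ℝ → C3 → ℝ} (hf : XSm X S φ)
    (h : ∀ t ∈ S, ∀ p ∈ X, χ t p = φ t p) : XSm X S χ := fun N U P =>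
  ContDiffOn.congr (hf N U P) fun _ hq => h _ hq.1 _ (P.mem hq.2)

/-- functions that agree on `X` have the same Levi forms in charts -/
theorem Par.ev (P : Par X N U) (hx : x ∈ U) (h : ∀ p ∈ X, f p = g p) : f ∘ N =ᶠ[𝓝 x] g ∘ N :=
  (P.op.eventually_mem hx).mono fun _ hy => h _ (P.mem hy)

theorem Par.lv_congr (P : Par X N U) (hx : x ∈ U) (h : ∀ p ∈ X, f p = g p) :
    lv (f ∘ N) x = lv (g ∘ N) x := K.lv_congr (P.ev hx h)

/-- the transition map -/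
theorem Surf.map (hX : Surf X) (P : Par X N U) (P' : Par X N' U') (hx : x ∈ U) (hx' : x' ∈ U')
    (h : N x = N' x') : ∃ T : V → V, ContDiffAt ℂ ∞ T x ∧ T x = x' ∧ N' ∘ T =ᶠ[𝓝 x] N ∧
      Function.Injective (fderiv ℂ T x) := by
  obtain ⟨R, h1, h2, h3⟩ := hX.2 N' U' P' x' hx'
  have a1 : ContDiffAt ℂ ∞ (R ∘ N) x := (h ▸ h1).comp x (P.at hx)
  have a2 : (R ∘ N) x = x' := by rw [Function.comp, h, h2.self_of_nhds]
  have a3 : N' ∘ (R ∘ N) =ᶠ[𝓝 x] N := by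
    rw [← h] at h3
    exact ((P.tendsto hx).eventually h3).mono fun _ hy => hy
  refine ⟨R ∘ N, a1, a2, a3, ?_⟩
  have a4 := P.inj x hx
  rw [← a3.fderiv_eq, fderiv_comp x (a2 ▸ (P'.at hx').differentiableAt (by simp))
    (a1.differentiableAt (by simp))] at a4
  exact Function.Injective.of_comp a4

/-- Levi forms and gradients in two charts differ by one linear pull-back -/
theorem Surf.trans (hX : Surf X) (P : Par X N U) (P' : Par X N' U') (hx : x ∈ U) (hx' : x' ∈ U')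
    (h : N x = N' x') : ∃ A : V →L[ℂ] V, Function.Injective A ∧
      ∀ f : C3 → ℝ, ContDiffAt ℝ 2 (f ∘ N') x' →
        lv (f ∘ N) x = pb A (lv (f ∘ N') x') ∧ rk (f ∘ N) x = pb A (rk (f ∘ N') x') := by
  obtain ⟨T, h1, rfl, h3, h4⟩ := hX.map P P' hx hx' h
  refine ⟨_, h4, fun f hf => ?_⟩
  have e : f ∘ N =ᶠ[𝓝 x] (f ∘ N') ∘ T := h3.mono fun y hy => congrArg f hy.symm
  exact ⟨(lv_congr e).trans (lv_hol (h1.of_le two_le_inf) hf), (rk_congr e).trans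
    (rk_hol (h1.differentiableAt (by simp)) (hf.differentiableAt (by norm_num)))⟩

/-- smoothness at a point does not depend on the chart -/
theorem Surf.smooth (hX : Surf X) (P : Par X N U) (P' : Par X N' U') (hx : x ∈ U) (hx' : x' ∈ U')
    (h : N x = N' x') {n : WithTop ℕ∞} (hn : n ≤ ∞) (hf : ContDiffAt ℝ n (f ∘ N') x') :
    ContDiffAt ℝ n (f ∘ N) x := by
  obtain ⟨T, h1, rfl, h3, -⟩ := hX.map P P' hx hx' h
  exact (hf.comp x ((h1.restrict_scalars ℝ).of_le hn)).congr_of_eventuallyEq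
    (h3.mono fun y hy => congrArg f hy.symm)

theorem XCl_of_at (hX : Surf X) {d : ℝ} (P : Par X N U) (hx : x ∈ U)
    (hf : ContDiffAt ℝ 2 (f ∘ N) x) (hg : ContDiffAt ℝ 2 (g ∘ N) x)
    (H : Cl d (lv (f ∘ N) x) (lv (g ∘ N) x)) : XCl X d f g (N x) := fun _ _ P' _ hy h => by
  obtain ⟨A, -, hA⟩ := hX.trans P' P hy hx h
  rw [(hA f hf).1, (hA g hg).1]
  exact H.pb A

theorem XCl_of_chart (hX : Surf X) (hf : XSm0 X f) (hg : XSm0 X g) {d : ℝ} (P : Par X N U)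
    (hx : x ∈ U) (H : Cl d (lv (f ∘ N) x) (lv (g ∘ N) x)) : XCl X d f g (N x) :=
  XCl_of_at hX P hx (hf.at2 P hx) (hg.at2 P hx) H

/-- positivity does not depend on the chart -/
theorem Surf.pos (hX : Surf X) (P : Par X N U) (P' : Par X N' U') (hx : x ∈ U) (hx' : x' ∈ U')
    (h : N x = N' x') (hf : ContDiffAt ℝ 2 (f ∘ N') x') (H : Pos (lv (f ∘ N') x')) :
    Pos (lv (f ∘ N) x) := by
  obtain ⟨A, hi, hA⟩ := hX.trans P P' hx hx' h
  rw [(hA f hf).1]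
  exact H.pb hi

/-- the Monge-Ampere ratio does not depend on the chart -/
theorem Surf.log_eq (hX : Surf X) (P : Par X N U) (P' : Par X N' U') (hx : x ∈ U) (hx' : x' ∈ U')
    (h : N x = N' x') (hf : ContDiffAt ℝ 2 (f ∘ N') x') (hg : ContDiffAt ℝ 2 (g ∘ N') x')
    (Hf : hdet (lv (f ∘ N') x') ≠ 0) (Hg : hdet (lv (g ∘ N') x') ≠ 0) :
    Real.log (hdet (lv (f ∘ N) x)) - Real.log (hdet (lv (g ∘ N) x)) =
      Real.log (hdet (lv (f ∘ N') x')) - Real.log (hdet (lv (g ∘ N') x')) := by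
  obtain ⟨A, hi, hA⟩ := hX.trans P P' hx hx' h
  rw [(hA f hf).1, (hA g hg).1, log_pb hi Hf Hg]

/-- smoothness can be checked in one chart at every point -/
theorem XSm0.of_cover (hX : Surf X)
    (h : ∀ p ∈ X, ∃ N U x, Par X N U ∧ x ∈ U ∧ N x = p ∧ ContDiffAt ℝ ∞ (f ∘ N) x) :
    XSm0 X f := fun _ _ P y hy => by
  obtain ⟨N', U', x', P', hx', e, hf⟩ := h _ (P.mem hy)
  exact (hX.smooth P P' hy hx' e.symm le_rfl hf).contDiffWithinAt

theorem XSm.of_cover (hX : Surf X) {S : Set ℝ} {φ : ℝ → C3 → ℝ}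
    (h : ∀ p ∈ X, ∃ N U x, Par X N U ∧ x ∈ U ∧ N x = p ∧ Sm S U fun t => φ t ∘ N) :
    XSm X S φ := fun N U P q hq => by
  obtain ⟨N', U', x', P', hx', e, hf⟩ := h _ (P.mem hq.2)
  obtain ⟨T, h1, rfl, h3, -⟩ := hX.map P P' hq.2 hx' e.symm
  have a1 : ContDiffAt ℝ ∞ (fun r : ℝ × V => (r.1, T r.2)) q :=
    contDiffAt_fst.prodMk ((h1.restrict_scalars ℝ).comp q contDiffAt_snd)
  have a2 : Tendsto (fun r : ℝ × V => r.2) (𝓝[S ×ˢ U] q) (𝓝 q.2) :=
    continuous_snd.continuousAt.tendsto.mono_left nhdsWithin_le_nhds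
  have a3 : (fun r : ℝ × V => (r.1, T r.2)) ⁻¹' (S ×ˢ U') ∈ 𝓝[S ×ˢ U] q := by
    filter_upwards [self_mem_nhdsWithin,
      a2.eventually (h1.continuousAt.eventually (P'.op.eventually_mem hx'))] with r r1 r2
    exact ⟨r1.1, r2⟩
  have a4 := (hf (q.1, T q.2) ⟨hq.1, hx'⟩).comp_of_preimage_mem_nhdsWithin q
    a1.contDiffWithinAt a3
  refine a4.congr_of_eventuallyEq ?_ ?_
  · exact (a2.eventually h3).mono fun r hr => congrArg (φ r.1) hr.symm
  · exact congrArg (φ q.1) h3.self_of_nhds.symm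

theorem Surf.cwa (hX : Surf X) (P : Par X N U) (hx : x ∈ U) (hf : ContinuousAt (f ∘ N) x) :
    ContinuousWithinAt f X (N x) := by
  obtain ⟨R, h1, h2, h3⟩ := hX.2 N U P x hx
  have a : ContinuousAt ((f ∘ N) ∘ R) (N x) :=
    ContinuousAt.comp (by rwa [h2.self_of_nhds]) h1.continuousAt
  refine a.continuousWithinAt.congr_of_eventuallyEq (h3.mono fun p hp => congrArg f hp.symm) ?_
  simp only [Function.comp, h2.self_of_nhds]

theorem Fam.zero_mem : (0 : V) ∈ ball (0 : V) 2 := mem_ball_self two_pos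

theorem XSm0.continuousOn (hX : Surf X) (F : Fam X) (hf : XSm0 X f) : ContinuousOn f X := by
  intro p hp
  obtain ⟨i, rfl⟩ := F.sur p hp
  exact hX.cwa (F.par i) Fam.zero_mem (hf.at (F.par i) Fam.zero_mem).continuousAt

/-- joint continuity -/
theorem XSm.continuousOn (hX : Surf X) (F : Fam X) {S : Set ℝ} {φ : ℝ → C3 → ℝ}
    (hf : XSm X S φ) : ContinuousOn (fun q : ℝ × C3 => φ q.1 q.2) (S ×ˢ X) := by
  rintro ⟨t, p⟩ ⟨ht, hp⟩
  obtain ⟨i, rfl⟩ := F.sur p hp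
  obtain ⟨R, h1, h2, h3⟩ := hX.2 _ _ (F.par i) 0 Fam.zero_mem
  have r0 := h2.self_of_nhds
  have a2 : Tendsto (fun r : ℝ × C3 => r.2) (𝓝[S ×ˢ X] (t, F.Φ i 0)) (𝓝[X] (F.Φ i 0)) :=
    continuous_snd.continuousWithinAt.tendsto_nhdsWithin fun _ hr => hr.2
  have a1 : ContinuousAt (fun r : ℝ × C3 => (r.1, R r.2)) (t, F.Φ i 0) :=
    continuousAt_fst.prodMk (ContinuousAt.comp (f := fun r : ℝ × C3 => r.2) h1.continuousAt
      continuousAt_snd)
  have a3 : (fun r : ℝ × C3 => (r.1, R r.2)) ⁻¹' (S ×ˢ ball 0 2) ∈ 𝓝[S ×ˢ X] (t, F.Φ i 0) := by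
    have b : ∀ᶠ p in 𝓝 (F.Φ i 0), R p ∈ ball (0 : V) 2 :=
      h1.continuousAt.eventually (isOpen_ball.eventually_mem (by rw [r0]; exact Fam.zero_mem))
    filter_upwards [self_mem_nhdsWithin, a2.eventually (b.filter_mono nhdsWithin_le_nhds)]
      with r r1 r2
    exact ⟨r1.1, r2⟩
  have a5 := (hf _ _ (F.par i)).continuousOn (t, R (F.Φ i 0)) ⟨ht, by rw [r0]; exact Fam.zero_mem⟩
  have a4 := ContinuousWithinAt.comp_of_preimage_mem_nhdsWithin
    (f := fun r : ℝ × C3 => (r.1, R r.2)) (x := (t, F.Φ i 0)) a5 a1.continuousWithinAt a3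
  refine a4.congr_of_eventuallyEq ((a2.eventually h3).mono fun r hr => congrArg (φ r.1) hr.symm) ?_
  simp only [Function.comp, r0]

theorem XCl.mono {d d' : ℝ} {p : C3} (H : XCl X d f g p) (hd : d ≤ d')
    (hg : ∀ N U, Par X N U → ∀ x ∈ U, N x = p → NN (lv (g ∘ N) x)) : XCl X d' f g p :=
  fun N U P x hx h => (H N U P x hx h).mono (hg N U P x hx h) hd

theorem XCl.congr {d : ℝ} {p : C3} {f' g' : C3 → ℝ} (H : XCl X d f g p)
    (hf : ∀ q ∈ X, f' q = f q) (hg : ∀ q ∈ X, g' q = g q) : XCl X d f' g' p :=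
  fun N U P x hx h => by
    rw [P.lv_congr hx hf, P.lv_congr hx hg]
    exact H N U P x hx h

end Pool.Agent.MP_67f0e4_gt.K
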