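import Pool.Agent.MP_67f0e4_gt.K.Spec
import Pool.Agent.MP_67f0e4_gt.K.Chart

/-! Row CHB: a priori bounds in the quasi-charts. -/

open Set Metric Filter Topology
open scoped ContDiff

noncomputable section

namespace Pool.Agent.MP_67f0e4_gt.K

theorem rchb_D (v x : V) (g : V → ℝ) : D v (fun y => g (x + y)) = fun y => D v g (x + y) := by
  funext y
  simp only [D, fderiv_comp_add_left]

theorem rchb_DL (x : V) (l : List (Fin 4)) (g : V → ℝ) :
    DL l (fun y => g (x + y)) = fun y => DL l g (x + y) := by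
  induction l with
  | nil => rfl
  | cons i l ih => simp only [DL, ih, rchb_D]

theorem rchb_lv (x : V) (g : V → ℝ) (y : V) : lv (fun y => g (x + y)) y = lv g (x + y) := by
  simp only [lv, lev, rchb_D]

theorem rchb_nice {M : ℕ → ℝ} {κ κ' ρ A : ℝ} {σ : V → ℝ} (h : Nice M κ ρ σ) (h0 : 0 < κ)
    (h0' : 0 < κ') (hA : 1 ≤ A) (h1 : κ ≤ A * κ') (h2 : κ' ≤ A * κ) :
    Nice (fun j => |M j| * A ^ 2) κ' ρ σ := by
  have hA2 : A ≤ A ^ 2 := by nlinarith
  have hM : ∀ j, M j ≤ |M j| * A ^ 2 := fun j =>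
    (le_abs_self _).trans (le_mul_of_one_le_right (abs_nonneg _) (hA.trans hA2))
  refine ⟨h.sm, fun l hl x hx => ?_, fun k l hl α x hx => (h.d2 k l hl α x hx).trans (hM k),
    h.nn, fun x hx v => ?_⟩
  · refine (h.d1 l hl x hx).trans ?_
    calc M l.length * κ ≤ |M l.length| * κ := mul_le_mul_of_nonneg_right (le_abs_self _) h0.le
      _ ≤ |M l.length| * (A ^ 2 * κ') := mul_le_mul_of_nonneg_left
          (h1.trans (mul_le_mul_of_nonneg_right hA2 h0'.le)) (abs_nonneg _)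
      _ = |M l.length| * A ^ 2 * κ' := by ring
  · refine (h.ell x hx v).trans ?_
    have a := nn_rk σ x v
    have b := h.nn x hx v
    have c : qf (rk σ x) v / κ ^ 2 ≤ A ^ 2 * (qf (rk σ x) v / κ' ^ 2) := by
      rw [← mul_div_assoc, div_le_div_iff₀ (by positivity) (by positivity)]
      have := pow_le_pow_left₀ h0'.le h2 2
      nlinarith
    have d : qf (lv σ x) v ≤ A ^ 2 * qf (lv σ x) v := le_mul_of_one_le_left b (hA.trans hA2)
    calc M 0 * (qf (rk σ x) v / κ ^ 2 + qf (lv σ x) v)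
        ≤ |M 0| * (qf (rk σ x) v / κ ^ 2 + qf (lv σ x) v) :=
          mul_le_mul_of_nonneg_right (le_abs_self _) (by positivity)
      _ ≤ |M 0| * (A ^ 2 * (qf (rk σ x) v / κ' ^ 2) + A ^ 2 * qf (lv σ x) v) :=
          mul_le_mul_of_nonneg_left (add_le_add c d) (abs_nonneg _)
      _ = |M 0| * A ^ 2 * (qf (rk σ x) v / κ' ^ 2 + qf (lv σ x) v) := by ring

theorem rchb_lo {p q K a : ℝ} (hq : 0 < q) (hK : 1 ≤ K) (ha : 0 ≤ a) (h1 : 1 ≤ K * p)
    (h2 : q * a ^ 2 ≤ K) : a ≤ K * √(p / q) := by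
  have hK0 : 0 < K := by linarith
  have h3 : (a / K) ^ 2 ≤ p / q := by
    rw [div_pow, div_le_div_iff₀ (by positivity) hq]
    nlinarith
  have h4 : a / K ≤ √(p / q) := Real.le_sqrt_of_sq_le h3
  rwa [div_le_iff₀ hK0, mul_comm] at h4

theorem rchb : rCHB := by
  rintro ⟨d, hd, hLU⟩ hF X ψ F C θf Kf Cj u hc
  refine ⟨min d (1 / 2), lt_min hd (by norm_num), fun b hb t1 ht1 k => ?_⟩
  have ht2 : max t1 (1 / 4) ∈ Ioo (0 : ℝ) (1 / 2) :=
    ⟨lt_of_lt_of_le (by norm_num) (le_max_right _ _), max_lt ht1 (by norm_num)⟩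
  obtain ⟨-, hpos, ⟨Λ, hΛ⟩, -⟩ := hF X ψ F C θf Kf Cj u hc b hb _ ht2
  obtain ⟨M, ρ, K, hρ, hρ1, hN⟩ := hc.geo.n1 1 one_pos
  set K1 := Kf (max t1 (1 / 4)) (-b) with hK1
  have hK11 : 1 ≤ K1 := hc.prof.cst.2.2 _ _
  set A := 1 + |C * K| + |K * (1 + b) * K1| with hAdef
  have hA : 1 ≤ A := by
    have := abs_nonneg (C * K)
    have := abs_nonneg (K * (1 + b) * K1)
    linarith
  obtain ⟨r0, hr0, hB⟩ := hLU C θf Kf hc.prof.cst (fun j => |M j| * A ^ 2) ρ hρ
  obtain ⟨B, hB⟩ := hB k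
  refine ⟨2 * Λ, |B|, fun τ φ hτ hr hbs => ⟨fun i x hx => ?_, fun i l hl α x hx => ?_⟩⟩
  · have hx2 : x ∈ ball (0 : V) 2 := ball_subset_ball (by norm_num) hx
    have hτ0 : τ ∈ Icc 0 τ := ⟨hr.τ0.1.le, le_rfl⟩
    exact (hbs τ hτ0 _ ((F.par i).mem hx2) _ _ (F.par i) x hx2 rfl).ell
      (hΛ τ ⟨hr.τ0.1.le, hτ.trans (le_max_left _ _)⟩ i x hx) (min_le_right _ _)
  · have hx2 : x ∈ ball (0 : V) 2 := ball_subset_ball (by norm_num) hx
    have hτ0 : τ ∈ Icc 0 τ := ⟨hr.τ0.1.le, le_rfl⟩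
    have h1 : 1 ≤ ψ (F.Φ i x) := hc.one _ ((F.par i).mem hx2)
    obtain ⟨κ, hκ, hn, -, k1, k2⟩ := hN i x hx h1
    have hL : 0 ≤ Real.log (ψ (F.Φ i x)) := Real.log_nonneg h1
    rw [max_eq_left hL] at k1 k2
    set L := Real.log (ψ (F.Φ i x)) with hLdef
    have hon := hc.prof.on τ hr.τ0
    have E := hon.est
    obtain ⟨p2, p21, pz⟩ := E.pos (L - b) τ hτ0
    have hk0 : 0 < kap (UJ u) (L - b) τ := Real.sqrt_pos.2 (div_pos (p2.trans_le p21) p2)
    have hK0 : 0 < K := by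
      by_contra hK
      have : K * κ ≤ 0 := mul_nonpos_of_nonpos_of_nonneg (not_lt.1 hK) hκ.le
      linarith
    have hC := hc.prof.cst.1
    have u1 : kap (UJ u) (L - b) τ ≤ A * κ := by
      have a1 := E.kle (L - b) τ hτ0
      have a2 : max (L - b) 0 ≤ L := max_le (by linarith) hL
      have a3 : C * K ≤ A := by
        have := le_abs_self (C * K)
        have := abs_nonneg (K * (1 + b) * K1)
        linarith
      calc kap (UJ u) (L - b) τ ≤ C * (1 + L) :=
            a1.trans (mul_le_mul_of_nonneg_left (by linarith) (by linarith))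
        _ ≤ C * (K * κ) := mul_le_mul_of_nonneg_left k2 (by linarith)
        _ = C * K * κ := by ring
        _ ≤ A * κ := mul_le_mul_of_nonneg_right a3 hκ.le
    have u2 : κ ≤ A * kap (UJ u) (L - b) τ := by
      obtain ⟨a1, a2⟩ := (E.lo (max t1 (1 / 4)) (-b) (hτ.trans (le_max_left _ _)) ht2.2 τ hτ0).2
        (L - b) (by linarith)
      have a0 : 0 ≤ max (L - b) 0 := le_max_right _ _
      have a3 : 1 + max (L - b) 0 ≤ K1 * kap (UJ u) (L - b) τ :=
        rchb_lo p2 hK11 (by linarith) a1 a2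
      have a4 : 1 + L ≤ (1 + b) * (1 + max (L - b) 0) := by
        have := le_max_left (L - b) 0
        nlinarith
      have a5 : K * (1 + b) * K1 ≤ A := by
        have := le_abs_self (K * (1 + b) * K1)
        have := abs_nonneg (C * K)
        linarith
      calc κ ≤ K * ((1 + b) * (1 + max (L - b) 0)) :=
            k1.trans (mul_le_mul_of_nonneg_left a4 hK0.le)
        _ ≤ K * ((1 + b) * (K1 * kap (UJ u) (L - b) τ)) :=
            mul_le_mul_of_nonneg_left (mul_le_mul_of_nonneg_left a3 (by linarith)) hK0.le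
        _ = K * (1 + b) * K1 * kap (UJ u) (L - b) τ := by ring
        _ ≤ A * kap (UJ u) (L - b) τ := mul_le_mul_of_nonneg_right a5 hk0.le
    have hP : Par X (fun y => F.Φ i (x + y)) (ball 0 ρ) :=
      (F.par i).affine (ContinuousLinearMap.id ℂ V) x (fun _ _ h => h) isOpen_ball fun y hy => by
        rw [mem_ball_zero_iff] at hx hy ⊢
        have := norm_add_le x y
        simp only [ContinuousLinearMap.id_apply]
        linarith
    have hs0 : Real.log (ψ (F.Φ i (x + 0))) = L := by simp [hLdef]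
    have key := hB τ u (fun y => Real.log (ψ (F.Φ i (x + y)))) b
      (fun t => φ t ∘ fun y => F.Φ i (x + y)) _ hr.τ0.1 hon
      (by rw [hs0]; exact rchb_nice hn hκ hk0 hA u2 u1) (hr.gf.1 _ _ hP)
      (fun y hy => by
        have := hr.init _ (hP.mem hy)
        simpa [FF] using this)
      (fun t ht y hy => by
        have c1 := hbs t ht _ (hP.mem hy) _ _ hP y hy rfl
        have c2 := (hpos t ⟨ht.1, ht.2.trans (hτ.trans (le_max_left _ _))⟩ _ _ hP y hy).nn
        have c3 := c1.mono c2 (min_le_left _ _)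
        have c4 : lv (FF ψ u b t ∘ fun y => F.Φ i (x + y)) y =
            lv (fun y => u (Real.log (ψ (F.Φ i (x + y))) - b) t) y :=
          lv_sub_const (fun y => u (Real.log (ψ (F.Φ i (x + y))) - b) t) (2 * b * t) y
        rwa [c4] at c3)
      l hl α 0 (mem_ball_self hr0.1)
    rw [hs0] at key
    have e1 : (fun y => lv (φ τ ∘ fun y => F.Φ i (x + y)) y α) =
        fun y => (fun w => lv (φ τ ∘ F.Φ i) w α) (x + y) := by
      funext y
      exact congrFun (rchb_lv x (φ τ ∘ F.Φ i) y) α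
    rw [e1, rchb_DL x l (fun w => lv (φ τ ∘ F.Φ i) w α)] at key
    simp only [add_zero] at key
    refine key.trans ?_
    have b1 : UJ u 1 (L - b) τ ≤ 1 := by
      have := hr.τ0.1
      simp only [R48.zz] at pz
      linarith
    calc B * UJ u 1 (L - b) τ ≤ |B| * UJ u 1 (L - b) τ :=
          mul_le_mul_of_nonneg_right (le_abs_self _) (p2.trans_le p21).le
      _ ≤ |B| := mul_le_of_le_one_right (abs_nonneg _) b1

end Pool.Agent.MP_67f0e4_gt.K
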