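import Pool.Agent.MP_67f0e4_gt.K.Spec
import Pool.Agent.MP_67f0e4_gt.K.Chart

/-! The initial data on the plane. -/

open Set Metric Filter Topology
open scoped ContDiff

noncomputable section

namespace Pool.Agent.MP_67f0e4_gt.K

open R48 (p0 th0 lam sg)

theorem rchb0_D_shift (f : V → ℝ) (x v : V) :
    D v (fun y => f (x + y)) = fun y => D v f (x + y) := by
  funext y
  simp only [D, fderiv_comp_add_left]

theorem rchb0_DL_shift (f : V → ℝ) (x : V) (l : List (Fin 4)) :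
    DL l (fun y => f (x + y)) = fun y => DL l f (x + y) := by
  induction l with
  | nil => rfl
  | cons i l ih => simp only [DL, ih, rchb0_D_shift]

theorem rchb0_lv_shift (f : V → ℝ) (x : V) :
    lv (fun y => f (x + y)) = fun y => lv f (x + y) := by
  funext y
  simp only [lv, lev, rchb0_D_shift]

theorem rchb0_DL_append (f : V → ℝ) (l l' : List (Fin 4)) : DL l (DL l' f) = DL (l ++ l') f := by
  induction l with
  | nil => rfl
  | cons i l ih => simp only [DL, List.cons_append, ih]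

theorem rchb0_DL_add {f g : V → ℝ} {U : Set V} (hU : IsOpen U) (hf : ContDiffOn ℝ ∞ f U)
    (hg : ContDiffOn ℝ ∞ g U) (c : ℝ) (l : List (Fin 4)) :
    ∀ x ∈ U, DL l (fun y => f y + c * g y) x = DL l f x + c * DL l g x := by
  induction l with
  | nil => exact fun _ _ => rfl
  | cons i l ih =>
    intro x hx
    have a := (DL_smooth (hf.contDiffAt (hU.mem_nhds hx)) l).differentiableAt (by simp)
    have b := (DL_smooth (hg.contDiffAt (hU.mem_nhds hx)) l).differentiableAt (by simp)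
    have h : DL l (fun y => f y + c * g y) =ᶠ[𝓝 x] fun y => DL l f y + c * DL l g y :=
      (hU.eventually_mem hx).mono ih
    simp only [DL]
    rw [D_congr h, D_add a (b.const_mul c), D_const_mul]

theorem rchb0_lv_eq (f : V → ℝ) (α : Fin 4) : ∃ (l l' : List (Fin 4)) (c : ℝ),
    l.length = 2 ∧ l'.length = 2 ∧ |c| = 1 ∧
      (fun y => lv f y α) = fun y => DL l f y + c * DL l' f y := by
  have n2 : D (-e 2) f = fun y => -1 * D (e 2) f y := by
    funext y
    simp only [D, map_neg, neg_mul, one_mul]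
  fin_cases α
  · exact ⟨[0, 0], [1, 1], 1, rfl, rfl, abs_one, funext fun y => by simp [lv, lev, DL]⟩
  · exact ⟨[2, 2], [3, 3], 1, rfl, rfl, abs_one, funext fun y => by simp [lv, lev, DL]⟩
  · exact ⟨[0, 2], [1, 3], 1, rfl, rfl, abs_one, funext fun y => by simp [lv, lev, DL]⟩
  · refine ⟨[0, 3], [1, 2], -1, rfl, rfl, by simp, funext fun y => ?_⟩
    show lev f y (e 0) (e 3) = _
    rw [lev, I_e0, I_e3, n2, D_const_mul]
    rfl

/-- bounds on all words give bounds on the Levi form, uniformly in a family -/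
theorem rchb0_LB {ι : Type} {f : ι → V → ℝ} {p : ι → Prop} {U W : Set V} (hU : IsOpen U)
    (hW : W ⊆ U) (hf : ∀ i, ContDiffOn ℝ ∞ (f i) U)
    (H : ∀ l : List (Fin 4), ∃ M, ∀ i, p i → ∀ x ∈ W, |DL l (f i) x| ≤ M) (k : ℕ) :
    ∃ M, ∀ i, p i → LB k M (f i) W := by
  choose m hm using H
  obtain ⟨M, hM⟩ := ((List.finite_length_le (Fin 4) (k + 2)).image m).bddAbove
  refine ⟨M + M, fun i hi l hl α x hx => ?_⟩
  obtain ⟨a, b, c, ha, hb, hc, h⟩ := rchb0_lv_eq (f i) α
  have s : ∀ a, ContDiffOn ℝ ∞ (DL a (f i)) U := fun a y hy =>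
    (DL_smooth ((hf i).contDiffAt (hU.mem_nhds hy)) a).contDiffWithinAt
  have t : ∀ a : List (Fin 4), a.length = 2 → |DL (l ++ a) (f i) x| ≤ M := fun a ha =>
    (hm _ i hi x hx).trans (hM ⟨l ++ a, by simp [ha, hl], rfl⟩)
  rw [h, rchb0_DL_add hU (s a) (s b) c l x (hW hx), rchb0_DL_append, rchb0_DL_append]
  refine (abs_add_le _ _).trans (add_le_add (t a ha) ?_)
  rw [abs_mul, hc, one_mul]
  exact t b hb

theorem rchb0_nice {M : ℕ → ℝ} {κ κ' ρ A : ℝ} {σ : V → ℝ} (h : Nice M κ ρ σ) (hA : 1 ≤ A)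
    (k0 : 0 < κ) (k1 : 0 < κ') (h1 : κ ≤ A * κ') (h2 : κ' ≤ A * κ) :
    Nice (fun j => A ^ 2 * |M j|) κ' ρ σ := by
  have a2 : A ≤ A ^ 2 := by nlinarith
  have m : ∀ j, |M j| ≤ A ^ 2 * |M j| := fun j => le_mul_of_one_le_left (abs_nonneg _) (by linarith)
  refine ⟨h.sm, fun l hl x hx => (h.d1 l hl x hx).trans ?_,
    fun k l hl α x hx => (h.d2 k l hl α x hx).trans ((le_abs_self _).trans (m k)), h.nn,
    fun x hx v => (h.ell x hx v).trans ?_⟩
  · calc M l.length * κ ≤ |M l.length| * (A ^ 2 * κ') :=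
        mul_le_mul (le_abs_self _) (h1.trans (mul_le_mul_of_nonneg_right a2 k1.le)) k0.le
          (abs_nonneg _)
      _ = _ := by ring
  · have r := nn_rk σ x v
    have g := h.nn x hx v
    have e1 : qf (rk σ x) v / κ ^ 2 ≤ A ^ 2 * (qf (rk σ x) v / κ' ^ 2) := by
      rw [← mul_div_assoc, div_le_div_iff₀ (by positivity) (by positivity)]
      have := mul_le_mul_of_nonneg_left (pow_le_pow_left₀ k1.le h2 2) r
      nlinarith
    have e2 : qf (lv σ x) v ≤ A ^ 2 * qf (lv σ x) v := le_mul_of_one_le_left g (by linarith)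
    calc _ ≤ |M 0| * (A ^ 2 * (qf (rk σ x) v / κ' ^ 2) + A ^ 2 * qf (lv σ x) v) :=
        mul_le_mul (le_abs_self _) (add_le_add e1 e2) (by positivity) (abs_nonneg _)
      _ = _ := by ring

theorem rchb0_prof {s : ℝ} (hs : 0 ≤ s) : 1 / 13 ≤ p0 6 s ∧ p0 6 s ≤ 1 ∧
    √(p0 6 s / th0 6 s) ≤ 2 * (1 + s) ∧ 1 + s ≤ 8 * √(p0 6 s / th0 6 s) := by
  have e1 : 1 ≤ Real.exp s := Real.one_le_exp hs
  have g1 : 1 / 2 ≤ sg s := by
    rw [sg, le_div_iff₀ (by linarith)]
    linarith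
  have g2 := R48.sg_lt_one s
  have l1 := R48.sg_le_lam s
  have l2 := R48.le_lam s
  have l3 : lam s ≤ s + 1 := by
    have := R48.lam_neg s
    have h2 := R48.lam_le_exp (-s)
    have h3 : Real.exp (-s) ≤ 1 := Real.exp_le_one_iff.2 (by linarith)
    linarith
  have q : p0 6 s / th0 6 s = lam s * (lam s + 6) / (6 * sg s) := by
    have : lam s + 6 ≠ 0 := by linarith
    have : sg s ≠ 0 := by linarith
    rw [p0, th0]
    field_simp
  refine ⟨?_, ?_, ?_, ?_⟩
  · rw [p0, le_div_iff₀ (by linarith)]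
    linarith
  · rw [p0, div_le_one (by linarith)]
    linarith
  · rw [q, Real.sqrt_le_left (by linarith), div_le_iff₀ (by linarith)]
    have : lam s * (lam s + 6) ≤ (s + 1) * (s + 7) :=
      mul_le_mul l3 (by linarith) (by linarith) (by linarith)
    have h2 : (2 * (1 + s)) ^ 2 * 3 ≤ (2 * (1 + s)) ^ 2 * (6 * sg s) :=
      mul_le_mul_of_nonneg_left (by linarith) (by positivity)
    nlinarith
  · rw [← div_le_iff₀' (by norm_num), q]
    refine Real.le_sqrt_of_sq_le ?_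
    rw [le_div_iff₀ (by linarith)]
    have h1 : (1 + s) ^ 2 ≤ (3 * lam s) ^ 2 := pow_le_pow_left₀ (by linarith) (by linarith) 2
    have h2 : ((1 + s) / 8) ^ 2 * (6 * sg s) ≤ ((1 + s) / 8) ^ 2 * 6 :=
      mul_le_mul_of_nonneg_left (by linarith) (by positivity)
    nlinarith

theorem rchb0_gen (der : DER) (ib : INITB) {X : Set C3} {ψ : C3 → ℝ} {F : Fam X}
    (G : Geo X ψ F) {U0 : ℝ → ℝ} (I : Ini U0) : XSm0 X (fun p => U0 (ψ p)) ∧
    (∃ Λ, F.Ell Λ (fun p => U0 (ψ p))) ∧ ∀ k, ∃ M, F.Bnd k M (fun p => U0 (ψ p)) := by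
  obtain ⟨u1, u2, u3⟩ := I
  obtain ⟨Cj, hCj⟩ := ib
  have ua : ∀ r : ℝ, 0 ≤ r → ContDiffAt ℝ ∞ U0 r := fun r hr =>
    u1.contDiffAt (Ioi_mem_nhds (by linarith))
  set g : ℝ → ℝ := fun s => U0 (Real.exp s) with hg
  have gs : ContDiff ℝ ∞ g := contDiff_iff_contDiffAt.2 fun s =>
    (ua _ (Real.exp_pos s).le).comp s Real.contDiff_exp.contDiffAt
  have g1 : deriv g = p0 6 := funext fun s => (u3 s).deriv
  have pb := hCj g gs fun s => by rw [g1]
  have i1 : iteratedDeriv 1 g = p0 6 := by rw [iteratedDeriv_one, g1]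
  have i2 : iteratedDeriv 2 g = th0 6 := by
    rw [iteratedDeriv_succ, i1]
    exact funext fun s => (R48.d_p0 (by norm_num) s).deriv
  have sm : XSm0 X fun p => U0 (ψ p) := fun N U P x hx =>
    ((ua _ (G.pot.nn _ (P.mem hx))).comp x (G.pot.rf.1.at P hx)).contDiffWithinAt
  have pos : ∀ N U, Par X N U → ∀ x ∈ U, Pos (lv ((fun p => U0 (ψ p)) ∘ N) x) := by
    intro N U P x hx
    have s2 := G.pot.rf.1.at2 P hx
    have s1 := s2.differentiableAt (by norm_num)
    have gp := (G.pot.rf.2 N U P x hx).1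
    rcases (G.pot.nn _ (P.mem hx)).eq_or_lt with h0 | h0
    · have mn : IsLocalMin (ψ ∘ N) x := (P.op.eventually_mem hx).mono fun y hy => by
        show ψ (N x) ≤ ψ (N y)
        rw [← h0]
        exact G.pot.nn _ (P.mem hy)
      have r0 : rk (ψ ∘ N) x = 0 := qf_ext fun v => by
        simp [qf_rk, qf_zero, D, mn.fderiv_eq_zero]
      have := lv_comp_deriv (u := U0) (f := ψ ∘ N) (x := x)
        ((ua _ (G.pot.nn _ (P.mem hx))).of_le two_le_inf) s2
      rw [r0, smul_zero, add_zero] at this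
      have e0 : (ψ ∘ N) x = 0 := h0.symm
      rw [e0] at this
      exact this ▸ gp.smul u2
    · have h0' : (ψ ∘ N) x ≠ 0 := h0.ne'
      have ev : (fun p => U0 (ψ p)) ∘ N =ᶠ[𝓝 x] fun y => g (Real.log ((ψ ∘ N) y)) :=
        (s2.continuousAt.eventually (Ioi_mem_nhds h0)).mono fun y hy => by
          simp only [hg, Function.comp] at hy ⊢
          rw [Real.exp_log hy]
      rw [lv_congr ev, lv_comp (u := g) (u' := p0 6) (f := fun y => Real.log ((ψ ∘ N) y))
        (Eventually.of_forall u3) (R48.d_p0 (by norm_num) _) (s2.log h0'), lv_log s2 h0',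
        rk_log s1 h0']
      intro v hv
      obtain ⟨Cq, hq⟩ := G.pot.qb
      have b1 := qf_le_tr gp (nn_rk (ψ ∘ N) x) v
      have b2 : hmix (lv (ψ ∘ N) x) (rk (ψ ∘ N) x) / hdet (lv (ψ ∘ N) x) ≤ ψ (N x) :=
        (div_le_iff₀ gp.det).2 (hq N U P x hx).2
      have b3 := gp v hv
      have b4 := b1.trans (mul_le_mul_of_nonneg_right b2 b3.le)
      have b5 := pb.pos (Real.log ((ψ ∘ N) x))
      rw [i1, i2] at b5
      simp only [qf_add, qf_smul, qf_sub]
      have e : (ψ ∘ N) x = ψ (N x) := rfl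
      rw [e] at b5 ⊢
      generalize p0 6 _ = p at b5 ⊢
      generalize th0 6 _ = t at b5 ⊢
      generalize qf (lv (ψ ∘ N) x) v = a at b3 b4 ⊢
      generalize qf (rk (ψ ∘ N) x) v = b at b4 ⊢
      generalize ψ (N x) = r at h0 b4 ⊢
      have : p * (r⁻¹ * a - r⁻¹ ^ 2 * b) + t * (r⁻¹ ^ 2 * b) =
          r⁻¹ ^ 2 * ((p - t) * (r * a - b) + t * (r * a)) := by
        field_simp
        ring
      rw [this]
      exact mul_pos (by positivity) (add_pos_of_nonneg_of_pos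
        (mul_nonneg (sub_nonneg.2 b5.2) (sub_nonneg.2 b4)) (mul_pos b5.1 (mul_pos h0 b3)))
  obtain ⟨R, hR⟩ := G.far
  obtain ⟨c1, c2⟩ := G.cpt {p ∈ X | ψ p ≤ R} 0 1 (fun _ => fun p => U0 (ψ p)) (G.pot.pr R)
    (fun _ hp => hp.1) one_pos (sm.toXSm _)
  obtain ⟨Λ1, c2⟩ := c2 fun _ _ => pos
  have sb : ball (0 : V) 1 ⊆ ball 0 (3 / 2) := ball_subset_ball (by norm_num)
  have z1 : (0 : ℝ) ∈ Icc (0 : ℝ) 1 := ⟨le_rfl, zero_le_one⟩
  have mem : ∀ i, ψ (F.Φ i 0) ≤ R → F.Φ i 0 ∈ {p ∈ X | ψ p ≤ R} := fun i hi =>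
    ⟨(F.par i).mem Fam.zero_mem, hi⟩
  obtain ⟨M, ρ, K, ρ0, -, n1⟩ := G.n1 1 one_pos
  obtain ⟨r0, hr0, Λ2, dk⟩ := der (fun j => (8 * |K| + 1) ^ 2 * |M j|) Cj ρ ρ0
  have far : ∀ k, ∃ B, ∀ i, R ≤ ψ (F.Φ i 0) → ∀ x ∈ ball (0 : V) 1,
      EllH (13 * Λ2) (lv ((fun p => U0 (ψ p)) ∘ F.Φ i) x) ∧ ∀ l : List (Fin 4), l.length ≤ k →
        ∀ α : Fin 4, |DL l (fun y => lv ((fun p => U0 (ψ p)) ∘ F.Φ i) y α) x| ≤ B := by
    intro k
    obtain ⟨B, hB⟩ := dk k
    refine ⟨|B|, fun i hi x hx => ?_⟩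
    have o1 := hR i hi x (sb hx)
    obtain ⟨κ, k0, nc, ps, k1, k2⟩ := n1 i x hx o1
    have s0 := Real.log_nonneg o1
    rw [max_eq_left s0] at k1 k2
    obtain ⟨q1, q2, q3, q4⟩ := rchb0_prof s0
    have aK := le_abs_self K
    have aK0 := abs_nonneg K
    have kp : 0 < √(p0 6 (Real.log (ψ (F.Φ i x))) / th0 6 (Real.log (ψ (F.Φ i x)))) := by
      linarith
    have nc' := rchb0_nice (A := 8 * |K| + 1) nc (by linarith) k0 kp
      (by
        have := mul_le_mul aK q4 (by linarith) aK0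
        nlinarith)
      (by
        have := mul_le_mul_of_nonneg_right aK k0.le
        nlinarith [mul_nonneg aK0 k0.le])
    obtain ⟨d1, d2⟩ := hB g (fun y => Real.log (ψ (F.Φ i (x + y)))) pb
      (by simpa only [i1, i2, add_zero] using nc')
    simp only [i1, add_zero] at d1 d2
    have z0 : (0 : V) ∈ ball (0 : V) r0 := mem_ball_self hr0.1
    have ev : g ∘ (fun y => Real.log (ψ (F.Φ i (x + y)))) =ᶠ[𝓝 0]
        fun y => ((fun p => U0 (ψ p)) ∘ F.Φ i) (x + y) :=
      (isOpen_ball.eventually_mem (mem_ball_self ρ0)).mono fun y hy => by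
        simp only [hg, Function.comp]
        rw [Real.exp_log (ps y hy)]
    constructor
    · have el := d2 0 z0
      rw [lv_congr ev, rchb0_lv_shift] at el
      simp only [add_zero] at el
      generalize lv ((fun p => U0 (ψ p)) ∘ F.Φ i) x = H at el ⊢
      generalize p0 6 _ = p at q1 q2 el
      have p0' : 0 < p := by linarith
      have L0 := el.1
      refine ⟨by linarith, fun v => ?_⟩
      obtain ⟨a, b⟩ := el.2 v
      have c := el.isPos.nn v
      rw [qf_smul] at a b c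
      have e : qf H v = p * (p⁻¹ * qf H v) := by field_simp
      generalize p⁻¹ * qf H v = w at a b c e
      rw [e]
      have n2 : 0 ≤ Λ2 * ‖v‖ ^ 2 := by positivity
      constructor
      · nlinarith [mul_nonneg (mul_nonneg L0.le c) (sub_nonneg.2 q1)]
      · nlinarith [mul_nonneg c (sub_nonneg.2 q2)]
    · intro l hl α
      have b := d1 l hl α 0 z0
      have ev2 : (fun y => lv (g ∘ fun y => Real.log (ψ (F.Φ i (x + y)))) y α) =ᶠ[𝓝 0]
          fun y => (fun y => lv ((fun p => U0 (ψ p)) ∘ F.Φ i) y α) (x + y) :=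
        (lv_congr_ev ev).mono fun y hy => by
          simp only [hy, rchb0_lv_shift]
      rw [(DL_congr_ev ev2 l).self_of_nhds,
        rchb0_DL_shift (fun y => lv ((fun p => U0 (ψ p)) ∘ F.Φ i) y α)] at b
      simp only [add_zero] at b
      refine b.trans ?_
      have := mul_le_mul (le_abs_self B) q2 (by linarith) (abs_nonneg B)
      linarith
  refine ⟨sm, ⟨max Λ1 (13 * Λ2), fun i x hx => ?_⟩, fun k => ?_⟩
  · rcases le_total (ψ (F.Φ i 0)) R with hi | hi
    · exact (c2 i (mem i hi) 0 z1 x (sb hx)).mono (le_max_left _ _)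
    · obtain ⟨B, hB⟩ := far 0
      exact (hB i hi x hx).1.mono (le_max_right _ _)
  · obtain ⟨B, hB⟩ := far k
    obtain ⟨M1, hM⟩ := rchb0_LB (f := fun i => (fun p => U0 (ψ p)) ∘ F.Φ i)
      (p := fun i => ψ (F.Φ i 0) ≤ R) (W := ball 0 1) isOpen_ball
      (ball_subset_ball one_le_two) (fun i => sm _ _ (F.par i))
      (fun l => (c1 l).imp fun _ h i hi x hx => h i (mem i hi) 0 z1 x (sb hx)) k
    refine ⟨max M1 B, fun i l hl α x hx => ?_⟩
    rcases le_total (ψ (F.Φ i 0)) R with hi | hi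
    · exact (hM i hi l hl α x hx).trans (le_max_left _ _)
    · exact ((hB i hi x hx).2 l hl α).trans (le_max_right _ _)

theorem rchb0 : rCHB0 := fun der ib _ _ C => rchb0_gen der ib C.geo C.ini

end Pool.Agent.MP_67f0e4_gt.K
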