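import Pool.Agent.MP_67f0e4_gt.K.RCHB1a

/-! Row CHB1: a priori bounds on the plane. -/

open Set Metric Filter Topology
open scoped ContDiff

noncomputable section

namespace Pool.Agent.MP_67f0e4_gt.K

/-- the bounds at one point -/
def rchb1_Gd (k : ℕ) (Λ M : ℝ) (f : V → ℝ) (x : V) : Prop :=
  EllH Λ (lv f x) ∧ ∀ l : List (Fin 4), l.length ≤ k → ∀ α, |DL l (fun y => lv f y α) x| ≤ M

theorem rchb1_gd {k : ℕ} {Λ M r : ℝ} {f : V → ℝ} {x : V} (hr : 0 < r)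
    (h1 : EllH Λ (lv (fun y => f (x + y)) 0)) (h2 : LB k M (fun y => f (x + y)) (ball 0 r)) :
    rchb1_Gd k Λ M f x := by
  refine ⟨by simpa only [rchb1_lv, add_zero] using h1, fun l hl α => ?_⟩
  simpa only [rchb1_DLlv, add_zero] using h2 l hl α 0 (mem_ball_self hr)

variable {X : Set C3} {ψ : C3 → ℝ} {F : Fam X} {C : ℝ} {θf : ℝ → ℝ} {Kf : ℝ → ℝ → ℝ} {t1 : ℝ}

theorem rchb1_a (hLU : LU) (hO : OSC) (n1 : F.N1 ψ) (cst : Cst C θf Kf) (ht1 : t1 < 1 / 2)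
    {r2 : ℝ} (hr : 0 < r2) (k : ℕ) : ∃ Λ M : ℝ, ∀ τ ∈ Ioc 0 t1,
    ∀ (φ : ℝ → C3 → ℝ) (u : ℝ → ℝ → ℝ), XFlow X ψ (Icc 0 τ) φ → ROn C θf Kf τ u →
      (∀ t ∈ Icc 0 τ, ∀ p ∈ X, 0 < ψ p → φ t p = u (Real.log (ψ p)) t) →
      ∀ i, ∀ x ∈ ball (0 : V) 1, r2 ≤ ψ (F.Φ i x) → rchb1_Gd k Λ M (φ τ ∘ F.Φ i) x := by
  obtain ⟨d, hd, hLU⟩ := hLU
  obtain ⟨M, ρ, K, hρ, hρ2, hN⟩ := n1 r2 hr
  have hK0 := cst.2.2 t1 (Real.log r2)
  have hC := cst.1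
  generalize hk : Kf t1 (Real.log r2) = K0 at hK0
  have hL : 1 ≤ (|K| + 1) * (K0 + C) := by nlinarith [abs_nonneg K]
  obtain ⟨r0, hr0, hB⟩ := hLU C θf Kf cst (fun n => |M n| * ((|K| + 1) * (K0 + C)) ^ 2) ρ hρ
  obtain ⟨B, hB⟩ := hB k
  obtain ⟨Λ, hΛ⟩ := hO C θf Kf cst (fun n => |M n| * ((|K| + 1) * (K0 + C)) ^ 2) ρ hρ
  obtain ⟨r0', -, hΛ⟩ := hΛ 1 one_pos
  refine ⟨Λ * K0, |B|, fun τ hτ φ u hX hR hu i x hx hψ => ?_⟩
  obtain ⟨κ, hκ, nice, pos, k1, k2⟩ := hN i x hx hψ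
  obtain ⟨-, P⟩ := rchb1_par F i hx hρ2
  have hτ' : τ ∈ Icc 0 τ := ⟨hτ.1.le, le_rfl⟩
  have es : Real.log (ψ (F.Φ i (x + 0))) - 0 = Real.log (ψ (F.Φ i x)) := by rw [add_zero, sub_zero]
  obtain ⟨l1, l2⟩ := (hR.est.lo t1 (Real.log r2) hτ.2 ht1 τ hτ').2 _ (Real.log_le_log hr hψ)
  obtain ⟨p1, p2, p3⟩ := hR.est.pos (Real.log (ψ (F.Φ i x))) τ hτ'
  have p4 := hR.est.kle (Real.log (ψ (F.Φ i x))) τ hτ'
  rw [hk] at l1 l2
  have p5 : UJ u 1 (Real.log (ψ (F.Φ i x))) τ ≤ 1 := by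
    unfold R48.zz at p3
    linarith [hτ.1]
  have p6 := p1.trans_le p2
  have s0 : 0 < 1 + max (Real.log (ψ (F.Φ i x))) 0 := by positivity
  have p7 : 1 + max (Real.log (ψ (F.Φ i x))) 0 ≤ K0 * kap (UJ u) (Real.log (ψ (F.Φ i x))) τ := by
    rw [← div_le_iff₀' (by linarith)]
    refine Real.le_sqrt_of_sq_le ?_
    rw [div_pow, div_le_div_iff₀ (by positivity) p1]
    nlinarith
  have p8 : 0 < kap (UJ u) (Real.log (ψ (F.Φ i x))) τ := Real.sqrt_pos.2 (div_pos p6 p1)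
  have nice' := rchb1_nice nice hκ p8 hL (by
      have a := mul_le_mul_of_nonneg_right (le_abs_self K) s0.le
      have b := mul_le_mul_of_nonneg_left p7 (abs_nonneg K)
      have c : |K| * K0 ≤ (|K| + 1) * (K0 + C) := by nlinarith [abs_nonneg K]
      have := mul_le_mul_of_nonneg_right c p8.le
      nlinarith) (by
      have a := mul_le_mul_of_nonneg_right (le_abs_self K) hκ.le
      have b := mul_le_mul_of_nonneg_left (k2.trans a) (zero_le_one.trans hC)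
      have c : C * |K| ≤ (|K| + 1) * (K0 + C) := by nlinarith [abs_nonneg K]
      have := mul_le_mul_of_nonneg_right c hκ.le
      nlinarith)
  rw [← es] at nice'
  have e1 : ∀ t ∈ Icc 0 τ, ∀ y ∈ ball (0 : V) ρ, (φ t ∘ fun y => F.Φ i (x + y)) y =
      u (Real.log (ψ (F.Φ i (x + y))) - 0) t := fun t ht y hy => by
    rw [sub_zero]
    exact hu t ht _ (P.mem hy) (pos y hy)
  have e2 : ∀ t ∈ Icc 0 τ, ∀ y ∈ ball (0 : V) ρ, lv (φ t ∘ fun y => F.Φ i (x + y)) y =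
      lv (fun y => u (Real.log (ψ (F.Φ i (x + y))) - 0) t) y := fun t ht y hy =>
    lv_congr ((isOpen_ball.eventually_mem hy).mono (e1 t ht))
  have b1 := hB τ u (fun y => Real.log (ψ (F.Φ i (x + y)))) 0 _ _ hτ.1 hR nice' (hX _ _ P)
    (e1 0 ⟨le_rfl, hτ.1.le⟩) fun t ht y hy v => by
    rw [← e2 t ht y hy, sub_self, abs_zero]
    exact mul_nonneg hd.le (((hX _ _ P).pos t ht y hy).nn v)
  have b2 := (hΛ τ u (fun y => Real.log (ψ (F.Φ i (x + y)))) 0 hR τ hτ' nice').1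
  rw [← e2 τ hτ' 0 (mem_ball_self hρ), es] at b2
  rw [es] at b1
  have b3 := rchb1_ell b2 l1 (p5.trans hK0) p6
  rw [smul_smul, mul_inv_cancel₀ p6.ne', one_smul] at b3
  refine rchb1_gd hr0.1 b3 fun l hl α y hy => (b1 l hl α y hy).trans ?_
  exact (mul_le_mul_of_nonneg_right (le_abs_self B) p6.le).trans
    (mul_le_of_le_one_right (abs_nonneg B) p5)

theorem rchb1_b (hB : BERN) (hF : FCL) (geo : Geo X ψ F) (cst : Cst C θf Kf) (ht0 : 0 < t1)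
    (ht1 : t1 < 1 / 2) {f0 : C3 → ℝ} (hf0 : XSm0 X f0) : ∃ r2 : ℝ, 0 < r2 ∧ ∀ k : ℕ, ∃ Λ M : ℝ,
    ∀ τ ∈ Ioc 0 t1, ∀ (φ : ℝ → C3 → ℝ) (u : ℝ → ℝ → ℝ), XFlow X ψ (Icc 0 τ) φ → ROn C θf Kf τ u →
      (∀ t ∈ Icc 0 τ, ∀ p ∈ X, 0 < ψ p → φ t p = u (Real.log (ψ p)) t) → (∀ p ∈ X, φ 0 p = f0 p) →
      ∀ i, ∀ x ∈ ball (0 : V) 1, ψ (F.Φ i x) < r2 → rchb1_Gd k Λ M (φ τ ∘ F.Φ i) x := by
  obtain ⟨δ, hδ, hB⟩ := hB
  obtain ⟨C2, hC2, hF⟩ := hF C θf Kf cst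
  obtain ⟨R, hfar⟩ := geo.far
  have hψ := geo.pot.rf.1
  have hK := geo.pot.pr R
  have hKX : {p ∈ X | ψ p ≤ R} ⊆ X := sep_subset _ _
  obtain ⟨Λ, hΛ⟩ := (geo.cpt _ 0 1 (fun _ => ψ) hK hKX one_pos (hψ.toXSm _)).2
    fun _ _ N U P x hx => (geo.pot.rf.2 N U P x hx).1
  obtain ⟨Mψ, hMψ, hM⟩ := rchb1_cpt geo.cpt hK hKX hψ (1 + 2)
  obtain ⟨η, η0, η1, η2⟩ : ∃ η : ℝ, 0 < η ∧ 7 * η ≤ δ ∧ 7 * η ≤ 1 / 2 :=
    ⟨min δ (1 / 2) / 7, by positivity, by linarith [min_le_left δ (1 / 2)],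
      by linarith [min_le_right δ (1 / 2)]⟩
  have c0 : 0 < C2 := by linarith
  have a0 : 0 < 1 - 2 * t1 := by linarith
  have a1 : (1 - 2 * t1) ^ 2 ≤ 1 := by nlinarith
  have th0 : 0 < η / C2 := by positivity
  have th1 : C2 * (η / C2) = η := mul_div_cancel₀ _ c0.ne'
  have th2 : η / C2 ≤ 1 := (div_le_self η0.le hC2).trans (by linarith)
  have r20 : 0 < η / C2 * (1 - 2 * t1) ^ 2 / 2 := by positivity
  have r21 : η / C2 * (1 - 2 * t1) ^ 2 / 2 ≤ 1 := by nlinarith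
  refine ⟨_, r20, fun k => ?_⟩
  obtain ⟨M0, -, hM0⟩ := rchb1_cpt geo.cpt hK hKX hf0 (k + 2)
  obtain ⟨r, ⟨⟨⟨q1, q2⟩, q3⟩, q4⟩, r0⟩ := (((((rchb1_ev 1 one_half_pos).and
    (rchb1_ev (4 * Mψ) r20)).and (rchb1_ev (48 * Mψ * Λ) η0)).and
    (rchb1_ev C (show 0 < η / 2 * (1 - 2 * t1) ^ 2 by positivity))).and self_mem_nhdsWithin).exists
  have r0 : 0 < r := r0
  rw [one_mul] at q1
  have hK0 := cst.2.2 t1 0
  obtain ⟨Cb, hCb⟩ := hB (Λ * Kf t1 0) r r0 k (2 * M0)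
  refine ⟨2 * (Λ * Kf t1 0), Cb, fun τ hτ φ u hX hR hu h0 i x hx hx2 => ?_⟩
  obtain ⟨hb, P⟩ := rchb1_par F i hx q1
  have b32 : ball (0 : V) (3 / 2) ⊆ ball 0 2 := ball_subset_ball (by norm_num)
  have x32 : x ∈ ball (0 : V) (3 / 2) := ball_subset_ball (by norm_num) hx
  have hi : F.Φ i 0 ∈ {p ∈ X | ψ p ≤ R} := ⟨(F.par i).mem Fam.zero_mem, by
    by_contra h
    linarith [hfar i (not_le.1 h).le x x32]⟩
  have sm : ∀ z ∈ ball (0 : V) (3 / 2), ContDiffAt ℝ ∞ (ψ ∘ F.Φ i) z := fun z hz =>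
    hψ.at (F.par i) (b32 hz)
  have el := hΛ i hi 0 ⟨le_rfl, zero_le_one⟩
  have hτ' : τ ∈ Icc 0 τ := ⟨hτ.1.le, le_rfl⟩
  have ny : ∀ y ∈ ball (0 : V) r, ‖x + y - x‖ ≤ r := fun y hy => by
    rw [add_sub_cancel_left]
    exact (mem_ball_zero_iff.1 hy).le
  have cp : ∀ t ∈ Icc 0 τ, 0 < cc (UJ u) t ∧ cc (UJ u) t ≤ 1 := fun t ht =>
    ⟨(hR.est.cpos t ht).1, (hR.est.cpos t ht).2.trans (Real.exp_le_one_iff.2
      (div_nonpos_of_nonpos_of_nonneg (by norm_num) (by linarith [ht.2, hτ.2])))⟩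
  have s1 : ∀ y ∈ ball (0 : V) r, ψ (F.Φ i (x + y)) ≤ η / C2 * (1 - 2 * t1) ^ 2 := fun y hy => by
    have a := rchb1_lip (g := ψ ∘ F.Φ i) (fun z hz => (sm z hz).differentiableAt (by simp))
      (fun z hz j => hM i hi [j] (by simp) z hz) x32 (hb y hy)
    have b := mul_le_mul_of_nonneg_left (ny y hy) (show 0 ≤ 4 * Mψ by positivity)
    have c := (abs_le.1 a).2
    simp only [Function.comp] at c
    linarith
  have s2 : ∀ t ∈ Icc 0 τ, ∀ y ∈ ball (0 : V) r, Cl η (lv (φ t ∘ fun y => F.Φ i (x + y)) y)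
      (cc (UJ u) t • lv (ψ ∘ fun y => F.Φ i (x + y)) y) := fun t ht y hy => by
    refine rchb1_dense isOpen_ball hy ((hX _ _ P).sm.at isOpen_ball ht hy) (hψ.at P hy)
      (geo.pot.rf.2 _ _ P y hy).1 (fun z hz => geo.pot.nn _ (P.mem hz)) fun z hz hp => ?_
    have ec : ct u 0 t = cc (UJ u) t := by rw [ct, neg_zero, Real.exp_zero, mul_one]
    have a := (hF X ψ τ u 0 geo.pot hR t ht _ th0 (by linarith)).1 _ (P.mem hz) hp (by
      rw [ec]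
      refine (mul_le_of_le_one_left hp.le (cp t ht).2).trans ((s1 z hz).trans ?_)
      exact mul_le_mul_of_nonneg_left (pow_le_pow_left₀ a0.le (by linarith [ht.2, hτ.2]) 2) th0.le)
      _ _ P z hz rfl
    have e1 : (φ t ∘ fun y => F.Φ i (x + y)) =ᶠ[𝓝 z] FF ψ u 0 t ∘ fun y => F.Φ i (x + y) := by
      filter_upwards [isOpen_ball.eventually_mem hz,
        (hψ.at P hz).continuousAt.eventually (lt_mem_nhds hp)] with w w1 w2
      simp only [Function.comp, FF, sub_zero, mul_zero, zero_mul]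
      exact hu t ht _ (P.mem w1) w2
    rw [th1, ec] at a
    rw [lv_congr e1, ← lv_const_mul]
    exact a
  have s3 : ∀ y ∈ ball (0 : V) r, Cl η (lv (ψ ∘ F.Φ i) (x + y)) (lv (ψ ∘ F.Φ i) x) := fun y hy => by
    have L := rchb1_LB_of isOpen_ball sm (hM i hi)
    have a : ‖lv (ψ ∘ F.Φ i) (x + y) - lv (ψ ∘ F.Φ i) x‖ ≤ 4 * (2 * Mψ) * r := by
      refine (pi_norm_le_iff_of_nonneg (by positivity)).2 fun α => ?_
      refine (rchb1_lip (g := fun z => lv (ψ ∘ F.Φ i) z α) (fun z hz =>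
        (contDiffAt_pi.1 (lv_smooth (sm z hz)) α).differentiableAt (by simp))
        (fun z hz j => L [j] le_rfl α z hz) x32 (hb y hy)).trans ?_
      exact mul_le_mul_of_nonneg_left (ny y hy) (by positivity)
    exact (cl_of_norm (el x x32) a).mono (el x x32).isPos.nn (by linarith)
  have g0 : EllH (Λ * Kf t1 0) (cc (UJ u) τ • lv (ψ ∘ F.Φ i) x) :=
    rchb1_ell (el x x32) (hR.est.lo t1 0 hτ.2 ht1 τ hτ').1 ((cp τ hτ').2.trans hK0) (cp τ hτ').1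
  have sub : Icc (max (τ - r ^ 2) 0) τ ⊆ Icc 0 τ := Icc_subset_Icc_left (le_max_right _ _)
  have s4 : ∀ t ∈ Icc (max (τ - r ^ 2) 0) τ, ∀ y ∈ ball (0 : V) r,
      Cl (7 * η) (lv (φ t ∘ fun y => F.Φ i (x + y)) y) (cc (UJ u) τ • lv (ψ ∘ F.Φ i) x) := by
    intro t ht y hy
    have a := s2 t (sub ht) y hy
    rw [show lv (ψ ∘ fun y => F.Φ i (x + y)) y = lv (ψ ∘ F.Φ i) (x + y) from
      rchb1_lv x (ψ ∘ F.Φ i) y] at a
    have b : |Real.log (cc (UJ u) t) - Real.log (cc (UJ u) τ)| ≤ η / 2 := by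
      rw [abs_sub_comm]
      refine (hR.est.clip τ hτ' t (sub ht) ht.2).trans ?_
      have c1 : τ - t ≤ r := by nlinarith [(le_max_left _ _).trans ht.1]
      have c2 : (1 - 2 * t1) ^ 2 ≤ (1 - 2 * τ) ^ 2 :=
        pow_le_pow_left₀ a0.le (by linarith [hτ.2]) 2
      rw [div_le_iff₀ ((pow_pos a0 2).trans_le c2)]
      have c3 := mul_le_mul_of_nonneg_left c1 (zero_le_one.trans cst.1)
      have c4 := mul_le_mul_of_nonneg_left c2 (show 0 ≤ η / 2 by positivity)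
      linarith
    have c := rchb1_scale (el _ (hb y hy)).isPos.nn (cp t (sub ht)).1 (cp τ hτ').1 (by linarith) b
    refine ((a.trans c η0.le).trans ((s3 y hy).smul (cp τ hτ').1.le) (by positivity)).mono
      g0.isPos.nn ?_
    have d1 : η * η ≤ η := by nlinarith
    nlinarith
  have t0 : max (τ - r ^ 2) 0 < τ := max_lt (by nlinarith) hτ.1
  refine rchb1_gd (show 0 < r / 4 by positivity)
    ((s4 τ ⟨t0.le, le_rfl⟩ 0 (mem_ball_self r0)).ell g0 η2)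
    (hCb _ _ _ _ τ g0 t0 (by linarith [le_max_left (τ - r ^ 2) 0])
      ((hX _ _ P).mono sub Subset.rfl) (fun t ht y hy => (s4 t ht y hy).mono g0.isPos.nn η1) ?_)
  rcases le_total (τ - r ^ 2) 0 with h | h
  · rw [max_eq_right h]
    refine Or.inr (rchb1_LB_congr (f := fun y => (f0 ∘ F.Φ i) (x + y)) isOpen_ball
      (fun y hy => h0 _ (P.mem hy)) fun l hl α y hy => ?_)
    rw [rchb1_DLlv]
    exact rchb1_LB_of isOpen_ball (fun z hz => hf0.at (F.par i) (b32 hz)) (hM0 i hi) l hl α _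
      (hb y hy)
  · rw [max_eq_left h]
    exact Or.inl (by ring)

theorem rchb1 : rCHB1 := by
  intro hB hLU hO hF hR h1 h0 F U0 ctx t1 ht1 k
  rcases le_or_gt t1 0 with ht0 | ht0
  · exact ⟨0, 0, fun τ hτ => absurd (hτ.1.trans_le hτ.2) (not_lt.2 ht0)⟩
  obtain ⟨C, θf, Kf, cst, hR⟩ := hR
  obtain ⟨r2, hr, hb⟩ := rchb1_b hB hF ctx.geo cst ht0 ht1 (h0 F U0 ctx).1
  obtain ⟨Λ, M, hb⟩ := hb k
  obtain ⟨Λ', M', ha⟩ := rchb1_a hLU hO ctx.geo.n1 cst ht1 hr k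
  refine ⟨max Λ Λ', max M M', fun τ hτ φ hi hg => ?_⟩
  have hτ' : τ ∈ Ioo (0 : ℝ) (1 / 2) := ⟨hτ.1, hτ.2.trans_lt ht1⟩
  obtain ⟨a1, a2, a3⟩ := h1 F U0 ctx τ hτ' φ hg hi
  have on : ROn C θf Kf τ (ru φ) := ⟨a1, a2, hR τ hτ' _ a2⟩
  have key : ∀ i, ∀ x ∈ ball (0 : V) 1, rchb1_Gd k (max Λ Λ') (max M M') (φ τ ∘ F.Φ i) x := by
    intro i x hx
    rcases lt_or_ge (psi a0 (F.Φ i x)) r2 with h | h
    · obtain ⟨b1, b2⟩ := hb τ hτ φ _ hg.1 on a3 hi i x hx h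
      exact ⟨b1.mono (le_max_left _ _), fun l hl α => (b2 l hl α).trans (le_max_left _ _)⟩
    · obtain ⟨b1, b2⟩ := ha τ hτ φ _ hg.1 on a3 i x hx h
      exact ⟨b1.mono (le_max_right _ _), fun l hl α => (b2 l hl α).trans (le_max_right _ _)⟩
  exact ⟨fun i x hx => (key i x hx).1, fun i l hl α x hx => (key i x hx).2 l hl α⟩

end Pool.Agent.MP_67f0e4_gt.K
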