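import Pool.Agent.MP_67f0e4_gt.K.Kit
import Pool.Agent.MP_67f0e4_gt.R48.Jets

/-! The `C^0` comparison. -/

open Set Filter Topology Metric
open scoped ContDiff

noncomputable section

namespace Pool.Agent.MP_67f0e4_gt.K

open R48 (Rad zz E1)

theorem ds_sm {τ : ℝ} (hτ : 0 < τ) {W : ℝ × ℝ → ℝ} (h : ContDiffOn ℝ ∞ W (univ ×ˢ Icc 0 τ)) :
    ContDiffOn ℝ ∞ (fun q : ℝ × ℝ => deriv (fun s => W (s, q.2)) q.1) (univ ×ˢ Icc 0 τ) := by
  have hu : UniqueDiffOn ℝ ((univ : Set ℝ) ×ˢ Icc 0 τ) :=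
    uniqueDiffOn_univ.prod (uniqueDiffOn_Icc hτ)
  have h1 := (h.fderivWithin (m := ∞) hu (by exact_mod_cast le_top)).clm_apply
    (contDiffOn_const (c := ((1, 0) : ℝ × ℝ)))
  refine h1.congr fun q hq => ?_
  have a := (h.differentiableOn (by simp) q hq).hasFDerivWithinAt
  have b : HasDerivWithinAt (fun s : ℝ => (s, q.2)) ((1, 0) : ℝ × ℝ) univ q.1 :=
    ((hasDerivAt_id q.1).prodMk (hasDerivAt_const q.1 q.2)).hasDerivWithinAt
  exact (hasDerivWithinAt_univ.1 (HasFDerivWithinAt.comp_hasDerivWithinAt (l := W) q.1 a b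
    fun s _ => mk_mem_prod (mem_univ _) hq.2)).deriv

/-- the `s`-derivatives of the profile are jointly smooth -/
theorem uj_sm {τ : ℝ} (hτ : 0 < τ) {u : ℝ → ℝ → ℝ}
    (h : ContDiffOn ℝ ∞ (fun q : ℝ × ℝ => u q.1 q.2) (univ ×ˢ Icc 0 τ)) (i : ℕ) :
    ContDiffOn ℝ ∞ (fun q : ℝ × ℝ => UJ u i q.1 q.2) (univ ×ˢ Icc 0 τ) := by
  induction i with
  | zero => simpa only [UJ, iteratedDeriv_zero] using h
  | succ i ih => simpa only [UJ, iteratedDeriv_succ] using ds_sm hτ ih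

theorem cmp_eta {ψ d p Θ m q H : ℝ} (hψ : 0 < ψ) (hd : 0 < d) (hΘ : 0 < Θ) (hp : Θ ≤ p)
    (h1 : (ψ - q) * d ≤ m) (h2 : m ≤ ψ * d)
    (hH : H = p ^ 2 * (ψ⁻¹ ^ 2 * d - ψ⁻¹ ^ 3 * m) + p * Θ * (ψ⁻¹ ^ 3 * m)) :
    0 ≤ Real.log H - Real.log d - (Real.log (p * Θ) - 2 * Real.log ψ) ∧
      Real.log H - Real.log d - (Real.log (p * Θ) - 2 * Real.log ψ) ≤
        q * (p * (1 / Θ - 1 / p)) / ψ := by
  have p0 : 0 < p := hΘ.trans_le hp
  set x := 1 + (p - Θ) * (ψ * d - m) / (Θ * ψ * d) with hx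
  have a : 0 ≤ (p - Θ) * (ψ * d - m) / (Θ * ψ * d) :=
    div_nonneg (mul_nonneg (by linarith) (by linarith)) (by positivity)
  have x1 : 1 ≤ x := by linarith
  have e : H = p * Θ * d * ψ⁻¹ ^ 2 * x := by
    rw [hH, hx]
    field_simp
    ring
  have l : Real.log H - Real.log d - (Real.log (p * Θ) - 2 * Real.log ψ) = Real.log x := by
    rw [e, Real.log_mul (by positivity) (by positivity), Real.log_mul (by positivity)
      (by positivity), Real.log_mul (by positivity) hd.ne', Real.log_pow, Real.log_inv]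
    push_cast
    ring
  rw [l]
  refine ⟨Real.log_nonneg x1, (Real.log_le_sub_one_of_pos (by linarith)).trans ?_⟩
  have b : q * (p * (1 / Θ - 1 / p)) / ψ = (p - Θ) * (q * d) / (Θ * ψ * d) := by field_simp
  rw [b, hx, add_sub_cancel_left]
  exact div_le_div_of_nonneg_right (mul_le_mul_of_nonneg_left (by linarith) (by linarith))
    (by positivity)

/-- the Laplacian of a radial function is at most the radial Laplacian -/
theorem cmp_lap {L R : Hm} {p Θ g1 g2 : ℝ} (hL : 0 ≤ hdet L) (hR : hdet R = 0) (hp : 0 < p)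
    (hΘ : 0 < Θ) (hB : 0 < hdet (p • L + Θ • R)) (hg : g1 / p ≤ g2 / Θ) :
    hmix ((hdet (p • L + Θ • R))⁻¹ • (p • L + Θ • R)) (g1 • L + g2 • R) ≤ g1 / p + g2 / Θ := by
  rw [hmix_smul_left, inv_mul_le_iff₀ hB, hmix_lin _ _ _ _ _ hR, hdet_lin _ _ _ hR]
  have : (p ^ 2 * hdet L + p * Θ * hmix L R) * (g1 / p + g2 / Θ) -
      (2 * p * g1 * hdet L + (p * g2 + Θ * g1) * hmix L R) =
      p ^ 2 * (g2 / Θ - g1 / p) * hdet L := by
    field_simp
    ring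
  have h2 : 0 ≤ p ^ 2 * (g2 / Θ - g1 / p) * hdet L :=
    mul_nonneg (mul_nonneg (sq_nonneg _) (sub_nonneg.2 hg)) hL
  linarith

theorem cmp_rad {p Θ z w : ℝ} (hΘ : 0 < Θ) (hz : 0 < z) (h : w / Θ ≤ Θ / p) :
    -3 * (z ^ 2 * Θ) / p ≤ (6 * z * Θ ^ 2 - 3 * z ^ 2 * w) / Θ := by
  have a : (6 * z * Θ ^ 2 - 3 * z ^ 2 * w) / Θ = 6 * z * Θ - 3 * z ^ 2 * (w / Θ) := by field_simp
  have b : -3 * (z ^ 2 * Θ) / p = -(3 * z ^ 2 * (Θ / p)) := by ring
  rw [a, b]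
  nlinarith [mul_le_mul_of_nonneg_left h (show 0 ≤ 3 * z ^ 2 by positivity), mul_pos hz hΘ]

theorem cmp_box {ε x p Θ z w η : ℝ} (hε : 0 ≤ ε) (hx : 1 ≤ x) (hp : 0 < p) (hΘ : 0 < Θ)
    (hz : 0 < z) (h6 : 6 * Θ ≤ z ^ 2) (hη : η ≤ ε * z ^ 3) :
    η - (ε * (x * 2) * z ^ 3 + ε * x * (3 * z ^ 2 * (-2 - (Θ / p + w / Θ - 2)))) ≤
      -(ε * x * (-3 * (z ^ 2 * Θ) / p + (6 * z * Θ ^ 2 - 3 * z ^ 2 * w) / Θ)) := by
  have a : (ε * (x * 2) * z ^ 3 + ε * x * (3 * z ^ 2 * (-2 - (Θ / p + w / Θ - 2)))) -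
      ε * x * (-3 * (z ^ 2 * Θ) / p + (6 * z * Θ ^ 2 - 3 * z ^ 2 * w) / Θ) =
      ε * x * (2 * z ^ 3 - z * (6 * Θ)) := by
    field_simp
    ring
  have b : z ^ 3 ≤ 2 * z ^ 3 - z * (6 * Θ) := by nlinarith [mul_le_mul_of_nonneg_left h6 hz.le]
  have c : ε * z ^ 3 ≤ ε * x * (2 * z ^ 3 - z * (6 * Θ)) :=
    mul_le_mul (le_mul_of_one_le_right hε hx) b (by positivity) (by positivity)
  linarith

variable {X : Set C3} {ψ : C3 → ℝ} {N : V → C3} {U : Set V} {x : V}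

theorem sig_sm (hψ : XSm0 X ψ) (P : Par X N U) (hx : x ∈ U) (h0 : 0 < ψ (N x)) (b : ℝ) :
    ContDiffAt ℝ ∞ (fun y => Real.log (ψ (N y)) - b) x :=
  ((hψ.at P hx).log h0.ne').sub contDiffAt_const

theorem sig_lv (hψ : XSm0 X ψ) (P : Par X N U) (hx : x ∈ U) (h0 : 0 < ψ (N x)) (b : ℝ) :
    lv (fun y => Real.log (ψ (N y)) - b) x =
        (ψ (N x))⁻¹ • lv (ψ ∘ N) x + (-(ψ (N x))⁻¹ ^ 2) • rk (ψ ∘ N) x ∧
      rk (fun y => Real.log (ψ (N y)) - b) x = (ψ (N x))⁻¹ ^ 2 • rk (ψ ∘ N) x := by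
  constructor
  · rw [lv_sub_const (fun y => Real.log (ψ (N y))), neg_smul, ← sub_eq_add_neg]
    exact lv_log (hψ.at2 P hx) h0.ne'
  · rw [rk_sub_const (fun y => Real.log (ψ (N y)))]
    exact rk_log ((hψ.at2 P hx).differentiableAt (by norm_num)) h0.ne'

/-- the Levi form of the comparison function -/
theorem FF_lv {τ : ℝ} {u : ℝ → ℝ → ℝ} (R : Rad 6 τ (UJ u)) (hψ : XSm0 X ψ) (P : Par X N U)
    (hx : x ∈ U) (h0 : 0 < ψ (N x)) (b : ℝ) {t : ℝ} (ht : t ∈ Icc 0 τ) :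
    lv (FF ψ u b t ∘ N) x =
      UJ u 1 (Real.log (ψ (N x)) - b) t • lv (fun y => Real.log (ψ (N y)) - b) x +
        UJ u 2 (Real.log (ψ (N x)) - b) t • rk (fun y => Real.log (ψ (N y)) - b) x := by
  refine (lv_sub_const (fun y => u (Real.log (ψ (N y)) - b) t) _ x).trans ?_
  exact lv_comp (u := fun s => u s t) (u' := fun s => UJ u 1 s t)
    (Eventually.of_forall fun s => R.ds 0 (by norm_num) s t ht) (R.ds 1 (by norm_num) _ t ht)
    ((sig_sm hψ P hx h0 b).of_le two_le_inf)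

theorem rcmp : rCMP := by
  intro fch X ψ F C θf Kf Cj u ctx
  obtain ⟨q, hq⟩ := ctx.geo.pot.qb
  have C1 := ctx.prof.cst.1
  refine ⟨3 * (|q| * C ^ 2), 0, fun b τ φ _ run => ?_⟩
  obtain ⟨Fs, -, ⟨Λ2, F2⟩, -⟩ := fch X ψ F C θf Kf Cj u ctx b run.b0 τ run.τ0
  obtain ⟨fl, ⟨Λ1, F1⟩, -⟩ := run.gf
  obtain ⟨usm, R, E⟩ := ctx.prof.on τ run.τ0
  have τ0 := run.τ0.1
  have hψ := ctx.geo.pot.rf.1
  have z1 : (0 : V) ∈ ball (0 : V) 1 := mem_ball_self one_pos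
  have ψ0 : ∀ {p}, p ∈ X → 0 < ψ p := fun hp => one_pos.trans_le (ctx.one _ hp)
  have cX : ∀ i, F.Φ i 0 ∈ X := fun i => (F.par i).mem Fam.zero_mem
  obtain ⟨J0, J1, -⟩ := R.jets (by norm_num) τ0.le
  set ε := |q| * C ^ 2 * Real.exp (-b) with hε
  have ε0 : 0 ≤ ε := by positivity
  set s : C3 → ℝ := fun p => Real.log (ψ p) - b with hs
  set η : ℝ → F.ι → ℝ := fun t i => Real.log (hdet (lv (FF ψ u b t ∘ F.Φ i) 0)) -
    Real.log (hdet (lv (ψ ∘ F.Φ i) 0)) - (Real.log (UJ u 1 (s (F.Φ i 0)) t *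
      UJ u 2 (s (F.Φ i 0)) t) - 2 * Real.log (ψ (F.Φ i 0))) with hη
  have zle : ∀ r, ∀ t ∈ Icc 0 τ, zz (UJ u) r t ≤ 1 - 2 * t := fun r t ht => by
    have := E.pos r t ht
    rw [zz]
    linarith [this.1, this.2.1]
  have Lnn : ∀ i, 0 ≤ hdet (lv (fun y => Real.log (ψ (F.Φ i y)) - b) 0) := fun i => by
    have a := (hq _ _ (F.par i) 0 Fam.zero_mem).2
    have c := ψ0 (cX i)
    rw [(sig_lv hψ (F.par i) Fam.zero_mem c b).1, hdet_lin _ _ _ (hdet_rk _ _)]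
    have : (ψ (F.Φ i 0))⁻¹ ^ 2 * hdet (lv (ψ ∘ F.Φ i) 0) + (ψ (F.Φ i 0))⁻¹ *
        -(ψ (F.Φ i 0))⁻¹ ^ 2 * hmix (lv (ψ ∘ F.Φ i) 0) (rk (ψ ∘ F.Φ i) 0) = (ψ (F.Φ i 0))⁻¹ ^ 3 *
        (ψ (F.Φ i 0) * hdet (lv (ψ ∘ F.Φ i) 0) - hmix (lv (ψ ∘ F.Φ i) 0) (rk (ψ ∘ F.Φ i) 0)) := by
      field_simp
      ring
    rw [this]
    exact mul_nonneg (by positivity) (sub_nonneg.2 a)
  have hη1 : ∀ t ∈ Icc 0 τ, ∀ i, 0 ≤ η t i ∧ η t i ≤ ε * zz (UJ u) (s (F.Φ i 0)) t ^ 3 := by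
    intro t ht i
    have c := ψ0 (cX i)
    have a := hq _ _ (F.par i) 0 Fam.zero_mem
    have g := (ctx.geo.pot.rf.2 _ _ (F.par i) 0 Fam.zero_mem).1.det
    obtain ⟨e1, e2, e3⟩ := E.pos (s (F.Φ i 0)) t ht
    have k := cmp_eta (q := |q|) (H := hdet (lv (FF ψ u b t ∘ F.Φ i) 0)) c g e1 e2
      (le_trans (mul_le_mul_of_nonneg_right (by linarith [le_abs_self q]) g.le) a.1) a.2 (by
        obtain ⟨l1, l2⟩ := sig_lv hψ (F.par i) Fam.zero_mem c b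
        rw [FF_lv R hψ (F.par i) Fam.zero_mem c b ht, hdet_lin _ _ _ (hdet_rk _ _), l1, l2,
          hdet_lin _ _ _ (hdet_rk _ _), hmix_smul_right, hmix_add_left, hmix_smul_left,
          hmix_smul_left, hmix_self, hdet_rk]
        ring)
    refine ⟨k.1, k.2.trans ?_⟩
    have m : UJ u 1 (s (F.Φ i 0)) t * (1 / UJ u 2 (s (F.Φ i 0)) t - 1 / UJ u 1 (s (F.Φ i 0)) t) ≤
        (C * Real.exp (s (F.Φ i 0)) * zz (UJ u) (s (F.Φ i 0)) t ^ 5) *
          (C / zz (UJ u) (s (F.Φ i 0)) t ^ 2) :=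
      mul_le_mul (E.p5 _ t ht) (E.Qle _ t ht)
        (sub_nonneg.2 (one_div_le_one_div_of_le e1 e2)) (by positivity)
    rw [div_le_iff₀ c]
    refine (mul_le_mul_of_nonneg_left m (abs_nonneg q)).trans (le_of_eq ?_)
    have ex : Real.exp (s (F.Φ i 0)) = ψ (F.Φ i 0) * Real.exp (-b) := by
      simp only [hs]
      rw [sub_eq_add_neg, Real.exp_add, Real.exp_log c]
    rw [ex, hε]
    field_simp
  have dW : ∀ t ∈ Icc 0 τ, ∀ i, HasDerivWithinAt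
      (fun r => φ r (F.Φ i 0) - FF ψ u b r (F.Φ i 0))
      (Real.log (hdet (lv (φ t ∘ F.Φ i) 0)) - Real.log (hdet (lv (FF ψ u b t ∘ F.Φ i) 0)) + η t i)
      (Icc 0 τ) t := fun t ht i => by
    have a := (fl _ _ (F.par i)).eq t ht 0 Fam.zero_mem
    have c := (J0.dt (s (F.Φ i 0)) t ht).sub
      ((hasDerivAt_id t).const_mul (2 * b)).hasDerivWithinAt
    refine (a.sub c).congr_deriv ?_
    simp only [hη, hs]
    ring
  have bW : ∀ t ∈ Icc 0 τ, ∀ p ∈ X, |φ t p - FF ψ u b t p| ≤ (4 * Λ1 + 4 * Λ2 + ε) * τ := by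
    intro t ht p hp
    obtain ⟨i, rfl⟩ := F.sur p hp
    have k := norm_image_sub_le_of_norm_deriv_le_segment' (C := 4 * Λ1 + 4 * Λ2 + ε)
      (fun r hr => dW r hr i) (fun r hr => by
        have hr := Ico_subset_Icc_self hr
        have a := abs_le.1 (F1 r hr i 0 z1).log
        have c := abs_le.1 (F2 r hr i 0 z1).log
        have d := hη1 r hr i
        have e : zz (UJ u) (s (F.Φ i 0)) r ^ 3 ≤ 1 :=
          pow_le_one₀ (E.pos _ r hr).2.2.le ((zle _ r hr).trans (by linarith [hr.1]))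
        have e' := mul_le_mul_of_nonneg_left e ε0
        rw [Real.norm_eq_abs, abs_le]
        constructor <;> linarith [a.1, a.2, c.1, c.2, d.1, d.2]) t ht
    rw [run.init _ hp, sub_self, sub_zero, sub_zero, Real.norm_eq_abs] at k
    refine k.trans (mul_le_mul_of_nonneg_left ht.2 ?_)
    linarith [(F1 t ht i 0 z1).1, (F2 t ht i 0 z1).1]
  have sφ := fl.xsm
  have low := ctx.geo.mpx 0 τ (8 * Λ1 ^ 3) ((4 * Λ1 + 4 * Λ2 + ε) * τ)
    (fun t p => -(φ t p - FF ψ u b t p)) τ0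
    (fun N U P => ContDiffOn.neg (ContDiffOn.sub (sφ N U P) (Fs N U P)))
    (fun t ht p hp => (neg_le_abs _).trans (bW t ht p hp))
    (fun p hp => by rw [run.init p hp, sub_self, neg_zero]) fun t ht i _ => by
      have ht := Ioc_subset_Icc_self ht
      have A := F1 t ht i 0 z1
      refine ⟨_, _, A.isPos.inv_nn, A.inv_le, (dW t ht i).neg, ?_⟩
      have e : lv ((fun p => -(φ t p - FF ψ u b t p)) ∘ F.Φ i) 0 =
          lv (FF ψ u b t ∘ F.Φ i) 0 - lv (φ t ∘ F.Φ i) 0 := by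
        rw [← lv_sub ((Fs.slice ht).at2 (F.par i) Fam.zero_mem)
          ((sφ.slice ht).at2 (F.par i) Fam.zero_mem)]
        congr 1
        funext y
        simp
      rw [e]
      linarith [log_hdet_le A.isPos (F2 t ht i 0 z1).isPos, (hη1 t ht i).1]
  have sz : XSm X (Icc 0 τ) fun t p => ε * Real.exp (2 * t) * zz (UJ u) (s p) t ^ 3 := by
    intro N U P
    have a : ContDiffOn ℝ ∞ (fun r : ℝ × V => (s (N r.2), r.1)) (Icc 0 τ ×ˢ U) :=
      ContDiffOn.prodMk (fun r hr => ((sig_sm hψ P hr.2 (ψ0 (P.mem hr.2)) b).comp r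
        contDiffAt_snd).contDiffWithinAt) contDiffOn_fst
    have c := (uj_sm τ0 usm 1).comp a fun r hr => ⟨mem_univ _, hr.1⟩
    exact (contDiffOn_const.mul (contDiffOn_const.mul contDiffOn_fst).exp).mul
      (((contDiffOn_const.sub (contDiffOn_const.mul contDiffOn_fst)).sub c).pow 3)
  have zp : ∀ t ∈ Icc 0 τ, ∀ p, 0 ≤ ε * Real.exp (2 * t) * zz (UJ u) (s p) t ^ 3 := fun t ht p =>
    mul_nonneg (by positivity) (pow_nonneg (E.pos _ t ht).2.2.le 3)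
  have upp := ctx.geo.mpx 0 τ (8 * Λ2 ^ 3) ((4 * Λ1 + 4 * Λ2 + ε) * τ)
    (fun t p => φ t p - FF ψ u b t p - ε * Real.exp (2 * t) * zz (UJ u) (s p) t ^ 3) τ0
    (fun N U P => ContDiffOn.sub (ContDiffOn.sub (sφ N U P) (Fs N U P)) (sz N U P))
    (fun t ht p hp => by linarith [le_abs_self (φ t p - FF ψ u b t p), bW t ht p hp, zp t ht p])
    (fun p hp => by
      rw [run.init p hp]
      linarith [zp 0 ⟨le_rfl, τ0.le⟩ p]) fun t ht i _ => by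
      have ht := Ioc_subset_Icc_self ht
      have A := F1 t ht i 0 z1
      have B := F2 t ht i 0 z1
      have c := ψ0 (cX i)
      obtain ⟨e1, e2, e3⟩ := E.pos (s (F.Φ i 0)) t ht
      have dz : HasDerivWithinAt (fun r => zz (UJ u) (s (F.Φ i 0)) r)
          (-2 - E1 (UJ u) (s (F.Φ i 0)) t) (Icc 0 τ) t :=
        ((((hasDerivAt_id t).const_mul 2).const_sub 1).hasDerivWithinAt.sub
          (J1.dt _ t ht)).congr_deriv (by ring)
      have de : HasDerivWithinAt (fun r => ε * Real.exp (2 * r)) (ε * (Real.exp (2 * t) * 2))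
          (Icc 0 τ) t :=
        ((((hasDerivAt_id t).const_mul 2).exp.const_mul ε).congr_deriv (by simp)).hasDerivWithinAt
      refine ⟨_, _, B.isPos.inv_nn, B.inv_le, (dW t ht i).sub (de.mul (dz.pow 3)), ?_⟩
      have g1 : ∀ r, HasDerivAt (fun r => zz (UJ u) r t) (-UJ u 2 r t) r := fun r =>
        (R.ds 1 (by norm_num) r t ht).const_sub _
      have lg := lv_comp (u := fun r => zz (UJ u) r t ^ 3)
        (u' := fun r => -3 * (zz (UJ u) r t ^ 2 * UJ u 2 r t))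
        (f := fun y => Real.log (ψ (F.Φ i y)) - b) (x := 0)
        (Eventually.of_forall fun r => ((g1 r).pow 3).congr_deriv (by push_cast; ring))
        (u'' := 6 * zz (UJ u) (s (F.Φ i 0)) t * UJ u 2 (s (F.Φ i 0)) t ^ 2 -
          3 * zz (UJ u) (s (F.Φ i 0)) t ^ 2 * UJ u 3 (s (F.Φ i 0)) t)
        (((((g1 _).pow 2).mul (R.ds 2 (by norm_num) _ t ht)).const_mul (-3)).congr_deriv (by
          simp only [Pi.pow_apply, hs]
          push_cast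
          ring))
        ((sig_sm hψ (F.par i) Fam.zero_mem c b).of_le two_le_inf)
      have e : lv ((fun p => φ t p - FF ψ u b t p - ε * Real.exp (2 * t) *
          zz (UJ u) (s p) t ^ 3) ∘ F.Φ i) 0 = lv (φ t ∘ F.Φ i) 0 - lv (FF ψ u b t ∘ F.Φ i) 0 -
          (ε * Real.exp (2 * t)) • lv (fun y => zz (UJ u) (s (F.Φ i y)) t ^ 3) 0 := by
        have a1 := (sφ.slice ht).at2 (F.par i) Fam.zero_mem
        have a2 := (Fs.slice ht).at2 (F.par i) Fam.zero_mem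
        rw [← lv_sub a1 a2, ← lv_const_mul]
        exact lv_sub (a1.sub a2) ((sz.slice ht).at2 (F.par i) Fam.zero_mem)
      have k1 := log_hdet_le B.isPos A.isPos
      have k2 := (hη1 t ht i).2
      have hB := B.isPos.det
      rw [e, hmix_sub_right, hmix_smul_right, lg]
      have fl' := FF_lv R hψ (F.par i) Fam.zero_mem c b ht
      have y := E.yle (s (F.Φ i 0)) t ht
      have P6 := E.Ple (s (F.Φ i 0)) t ht
      have p0 := e1.trans_le e2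
      have k3 := cmp_lap (Lnn i) (hdet_rk (fun y => Real.log (ψ (F.Φ i y)) - b) 0) p0 e1
        (fl' ▸ hB) (g1 := -3 * (zz (UJ u) (s (F.Φ i 0)) t ^ 2 * UJ u 2 (s (F.Φ i 0)) t))
        (g2 := 6 * zz (UJ u) (s (F.Φ i 0)) t * UJ u 2 (s (F.Φ i 0)) t ^ 2 -
          3 * zz (UJ u) (s (F.Φ i 0)) t ^ 2 * UJ u 3 (s (F.Φ i 0)) t) (cmp_rad e1 e3 y)
      rw [← fl'] at k3
      have k4 := mul_le_mul_of_nonneg_left k3 (mul_nonneg ε0 (Real.exp_pos (2 * t)).le)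
      have k5 := cmp_box ε0 (Real.one_le_exp (x := 2 * t) (by linarith [ht.1])) p0 e1 e3 P6 k2
        (w := UJ u 3 (s (F.Φ i 0)) t)
      simp only [E1]
      push_cast
      simp only [hs] at k4 k5 ⊢
      linarith
  intro t ht p hp
  refine ⟨by linarith [low t ht p hp], ?_⟩
  have a := upp t ht p hp
  have c : zz (UJ u) (s p) t ^ 3 ≤ (1 - 2 * t) ^ 3 :=
    pow_le_pow_left₀ (E.pos _ t ht).2.2.le (zle _ t ht) 3
  have d : Real.exp (2 * t) ≤ 3 :=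
    (Real.exp_le_exp.2 (by linarith [ht.2, run.τ0.2])).trans Real.exp_one_lt_three.le
  have e := mul_le_mul (mul_le_mul_of_nonneg_left d ε0) c (pow_nonneg (E.pos _ t ht).2.2.le 3)
    (by positivity)
  calc _ ≤ ε * 3 * (1 - 2 * t) ^ 3 := by linarith
    _ = _ := by rw [hε]; ring

end Pool.Agent.MP_67f0e4_gt.K
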