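import Pool.Agent.MP_67f0e4_gt.D1.Main
import Pool.Agent.MP_67f0e4_gt.D1.RCEN
import Pool.Agent.MP_67f0e4_gt.D1.RCH2
import Pool.Agent.MP_67f0e4_gt.D1.RCURV
import Pool.Agent.MP_67f0e4_gt.D1.RERR
import Pool.Agent.MP_67f0e4_gt.D1.RLOG
import Pool.Agent.MP_67f0e4_gt.D1.RPAR2
import Pool.Agent.MP_67f0e4_gt.D1.RSM2

/-! Block D of the master specification. -/

namespace Pool.Agent.MP_67f0e4_gt.K

theorem pot : POT := by
  refine D1.pot_main (fun n hn => ?_) D1.serr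
  have hmu := D1.smu n hn
  have hps := D1.sps n hn hmu
  have hks := D1.sks n hn hmu
  exact D1.srf2 n hn D1.sch2 (D1.ssm n hn hmu hps hks (D1.scen n hn hmu)) (D1.sden2 n hn).1
    (D1.sden2 n hn).2 (D1.spar2 n hn hks D1.sch2 (D1.slog n hn hks))

theorem psi1 : PSI1 := D1.psi1_main

theorem roots : ROOTS := D1.roots_main

theorem ale : ALE := D1.ale_main D1.sgrad D1.ssx D1.scurv

end Pool.Agent.MP_67f0e4_gt.K
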