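import Pool.Agent.MP_67f0e4_gt.K.Spec
import Pool.Agent.MP_67f0e4_gt.K.Chart

/-! Translations, scalings, restrictions. -/

open Set Filter Topology Metric
open scoped ContDiff

noncomputable section

namespace Pool.Agent.MP_67f0e4_gt.K

variable {f g : V → ℝ} {x : V} {U U' : Set V}

/-! ### derivatives under translation, scaling, constants -/

theorem D_shift (f : V → ℝ) (a v : V) : D v (fun y => f (a + y)) = fun y => D v f (a + y) := by
  funext y
  simp only [D, fderiv_comp_add_left]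

theorem DL_shift (l : List (Fin 4)) (f : V → ℝ) (a : V) :
    DL l (fun y => f (a + y)) = fun y => DL l f (a + y) := by
  induction l with
  | nil => rfl
  | cons i l ih => simp only [DL, ih, D_shift]

theorem lv_shift (f : V → ℝ) (a y : V) : lv (fun y => f (a + y)) y = lv f (a + y) := by
  simp only [lv, lev, D_shift]

theorem rk_shift (f : V → ℝ) (a y : V) : rk (fun y => f (a + y)) y = rk f (a + y) := by
  simp only [rk, D_shift]

theorem DL_const_mul (l : List (Fin 4)) (c : ℝ) (f : V → ℝ) :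
    DL l (fun y => c * f y) = fun y => c * DL l f y := by
  induction l with
  | nil => rfl
  | cons i l ih => simp only [DL, ih, D_const_mul]

theorem D_scale (f : V → ℝ) (r : ℝ) (v : V) :
    D v (fun y => f (r • y)) = fun y => r * D v f (r • y) := by
  funext y
  simp only [D, fderiv_comp_smul, smul_apply, smul_eq_mul]

theorem DL_scale (l : List (Fin 4)) (f : V → ℝ) (r : ℝ) :
    DL l (fun y => f (r • y)) = fun y => r ^ l.length * DL l f (r • y) := by
  induction l with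
  | nil => simp [DL]
  | cons i l ih =>
    simp only [DL, ih, D_const_mul, D_scale, List.length_cons, pow_succ, mul_assoc]

theorem lv_scale (f : V → ℝ) (r : ℝ) (y : V) :
    lv (fun y => f (r • y)) y = r ^ 2 • lv f (r • y) := by
  refine Hm_ext ?_ ?_ ?_ ?_ <;>
    simp only [lv, lev, D_scale, D_const_mul, Matrix.cons_val, Pi.smul_apply, smul_eq_mul] <;> ring

theorem rk_scale (f : V → ℝ) (r : ℝ) (y : V) :
    rk (fun y => f (r • y)) y = r ^ 2 • rk f (r • y) := by
  refine Hm_ext ?_ ?_ ?_ ?_ <;>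
    simp only [rk, D_scale, Matrix.cons_val, Pi.smul_apply, smul_eq_mul] <;> ring

theorem rk_const_mul (c : ℝ) (f : V → ℝ) (y : V) : rk (fun y => c * f y) y = c ^ 2 • rk f y := by
  refine Hm_ext ?_ ?_ ?_ ?_ <;>
    simp only [rk, D_const_mul, Matrix.cons_val, Pi.smul_apply, smul_eq_mul] <;> ring

theorem DL_add_const {l : List (Fin 4)} (hl : 1 ≤ l.length) (f : V → ℝ) (c : ℝ) :
    DL l (fun y => f y + c) = DL l f := by
  induction l with
  | nil => simp at hl
  | cons i l ih =>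
    cases l with
    | nil => exact D_add_const c _
    | cons j l => simp only [DL] at ih ⊢; rw [ih (by simp)]

theorem DL_sub_const {l : List (Fin 4)} (hl : 1 ≤ l.length) (f : V → ℝ) (c : ℝ) :
    DL l (fun y => f y - c) = DL l f := by
  simp only [sub_eq_add_neg, DL_add_const hl]

theorem DL_congr (h : f =ᶠ[𝓝 x] g) (l : List (Fin 4)) : DL l f x = DL l g x :=
  (DL_congr_ev h l).self_of_nhds

theorem DL_add (hf : ContDiffAt ℝ ∞ f x) (hg : ContDiffAt ℝ ∞ g x) (l : List (Fin 4)) :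
    DL l (fun y => f y + g y) x = DL l f x + DL l g x := by
  suffices H : DL l (fun y => f y + g y) =ᶠ[𝓝 x] fun y => DL l f y + DL l g y from H.self_of_nhds
  induction l with
  | nil => exact EventuallyEq.rfl
  | cons i l ih =>
    refine (D_congr_ev ih _).trans ?_
    filter_upwards [ev_diff ((DL_smooth hf l).of_le two_le_inf),
      ev_diff ((DL_smooth hg l).of_le two_le_inf)] with y h1 h2
    exact D_add h1 h2 _

theorem DL_sub (hf : ContDiffAt ℝ ∞ f x) (hg : ContDiffAt ℝ ∞ g x) (l : List (Fin 4)) :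
    DL l (fun y => f y - g y) x = DL l f x - DL l g x := by
  have := DL_add hf (contDiffAt_const (c := (-1 : ℝ)).mul hg) l
  rw [DL_const_mul] at this
  simpa [sub_eq_add_neg] using this

theorem DL_append (l l' : List (Fin 4)) (f : V → ℝ) : DL (l ++ l') f = DL l (DL l' f) := by
  induction l with
  | nil => rfl
  | cons i l ih => simp only [List.cons_append, DL, ih]

theorem lv_entry (hf : ContDiffAt ℝ ∞ f x) (α : Fin 4) : ContDiffAt ℝ ∞ (fun y => lv f y α) x :=
  contDiffAt_pi.1 (lv_smooth hf) α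

/-! ### bounds -/

theorem LB.mono {k k' : ℕ} {M M' : ℝ} (h : LB k M f U) (hk : k' ≤ k) (hM : M ≤ M')
    (hU : U' ⊆ U) : LB k' M' f U' := fun l hl α y hy => (h l (hl.trans hk) α y (hU hy)).trans hM

theorem LB.nonneg {k : ℕ} {M : ℝ} (h : LB k M f U) (hx : x ∈ U) : 0 ≤ M :=
  (abs_nonneg _).trans (h [] (Nat.zero_le _) 0 x hx)

theorem LB.congr {k : ℕ} {M : ℝ} (h : LB k M f U) (e : ∀ y ∈ U, g =ᶠ[𝓝 y] f) : LB k M g U :=
  fun l hl α y hy => by
    rw [DL_congr (g := fun y => lv f y α) ((lv_congr_ev (e y hy)).mono fun z hz => by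
      simp only [hz])]
    exact h l hl α y hy

theorem LB.congr_on {k : ℕ} {M : ℝ} (h : LB k M f U) (hU : IsOpen U) (e : ∀ y ∈ U, g y = f y) :
    LB k M g U := h.congr fun _ hy => (hU.eventually_mem hy).mono e

/-- the Levi forms agree near the points of `U` -/
theorem LB.congr_lv {k : ℕ} {M : ℝ} (h : LB k M f U) (e : ∀ y ∈ U, lv g =ᶠ[𝓝 y] lv f) :
    LB k M g U := fun l hl α y hy => by
  rw [DL_congr (g := fun y => lv f y α) ((e y hy).mono fun z hz => by simp only [hz])]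
  exact h l hl α y hy

theorem LB.shift {k : ℕ} {M : ℝ} (h : LB k M f U) (a : V) (hU : ∀ y ∈ U', a + y ∈ U) :
    LB k M (fun y => f (a + y)) U' := fun l hl α y hy => by
  simp only [lv_shift]
  rw [DL_shift l (fun y => lv f y α) a]
  exact h l hl α _ (hU y hy)

/-- from the translated function back to the function -/
theorem LB.unshift {k : ℕ} {M : ℝ} {a : V} (h : LB k M (fun y => f (a + y)) U')
    (hU : ∀ y ∈ U, y - a ∈ U') : LB k M f U := by
  have := h.shift (U' := U) (-a) fun y hy => by rw [neg_add_eq_sub]; exact hU y hy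
  simpa using this

theorem LB.add_const {k : ℕ} {M : ℝ} (h : LB k M f U) (c : ℝ) : LB k M (fun y => f y + c) U := by
  simpa only [LB, lv_add_const] using h

theorem LB.sub_const {k : ℕ} {M : ℝ} (h : LB k M f U) (c : ℝ) : LB k M (fun y => f y - c) U := by
  simpa only [LB, lv_sub_const] using h

theorem LB.const_mul {k : ℕ} {M : ℝ} (h : LB k M f U) (c : ℝ) :
    LB k (|c| * M) (fun y => c * f y) U := fun l hl α y hy => by
  simp only [lv_const_mul, Pi.smul_apply, smul_eq_mul]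
  rw [DL_const_mul l c (fun y => lv f y α), abs_mul]
  exact mul_le_mul_of_nonneg_left (h l hl α y hy) (abs_nonneg c)

/-- scaling of the variable by `r`; `R` bounds the powers `|r| ^ j`, `j ≤ k` -/
theorem LB.scale {k : ℕ} {M r R : ℝ} (h : LB k M f U) (hR : ∀ j ≤ k, |r| ^ j ≤ R)
    (hU : ∀ y ∈ U', r • y ∈ U) : LB k (r ^ 2 * R * M) (fun y => f (r • y)) U' :=
  fun l hl α y hy => by
    simp only [lv_scale, Pi.smul_apply, smul_eq_mul]
    rw [DL_const_mul l (r ^ 2) (fun y => lv f (r • y) α), DL_scale l (fun y => lv f y α) r,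
      abs_mul, abs_mul, abs_pow, abs_pow, sq_abs, mul_assoc]
    exact mul_le_mul_of_nonneg_left (mul_le_mul (hR _ hl) (h l hl α _ (hU y hy)) (abs_nonneg _)
      ((pow_nonneg (abs_nonneg _) _).trans (hR _ hl))) (sq_nonneg r)

theorem LB.add {k : ℕ} {M M' : ℝ} (hf : LB k M f U) (hg : LB k M' g U)
    (sf : ∀ y ∈ U, ContDiffAt ℝ ∞ f y) (sg : ∀ y ∈ U, ContDiffAt ℝ ∞ g y) :
    LB k (M + M') (fun y => f y + g y) U := fun l hl α y hy => by
  have e : (fun z => lv (fun y => f y + g y) z α) =ᶠ[𝓝 y] fun z => lv f z α + lv g z α := by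
    filter_upwards [((sf y hy).of_le two_le_inf).eventually (by simp),
      ((sg y hy).of_le two_le_inf).eventually (by simp)] with z h1 h2
    rw [lv_add h1 h2, Pi.add_apply]
  rw [DL_congr e, DL_add (lv_entry (sf y hy) α) (lv_entry (sg y hy) α)]
  exact (abs_add_le _ _).trans (add_le_add (hf l hl α y hy) (hg l hl α y hy))

theorem LB.sub {k : ℕ} {M M' : ℝ} (hf : LB k M f U) (hg : LB k M' g U)
    (sf : ∀ y ∈ U, ContDiffAt ℝ ∞ f y) (sg : ∀ y ∈ U, ContDiffAt ℝ ∞ g y) :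
    LB k (M + M') (fun y => f y - g y) U := by
  have := hf.add (hg.const_mul (-1)) sf fun y hy => contDiffAt_const.mul (sg y hy)
  simpa [sub_eq_add_neg] using this

theorem LB.norm_le {k : ℕ} {M : ℝ} (h : LB k M f U) (hx : x ∈ U) : ‖lv f x‖ ≤ M :=
  (pi_norm_le_iff_of_nonneg (h.nonneg hx)).2 fun α => h [] (Nat.zero_le _) α x hx

/-- derivatives along a linear map -/
theorem DL_lin (A : V →L[ℝ] V) (l : List (Fin 4)) : ∀ {f : V → ℝ} {M : ℝ} {x : V},
    ContDiffAt ℝ ∞ f (A x) → (∀ l' : List (Fin 4), l'.length = l.length → |DL l' f (A x)| ≤ M) →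
      |DL l (fun y => f (A y)) x| ≤ (4 * ‖A‖) ^ l.length * M := by
  induction l using List.reverseRecOn with
  | nil => intro f M x _ h; simpa [DL] using h [] rfl
  | append_singleton l i ih =>
    intro f M x hf h
    have c : ∀ j, ContDiffAt ℝ ∞ (fun y => D (e j) f (A y)) x := fun j =>
      (D_smooth hf _).comp x A.contDiff.contDiffAt
    have e1 : DL [i] (fun y => f (A y)) =ᶠ[𝓝 x] fun y =>
        (A (e i)).1.re * D (e 0) f (A y) + (A (e i)).1.im * D (e 1) f (A y) +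
          (A (e i)).2.re * D (e 2) f (A y) + (A (e i)).2.im * D (e 3) f (A y) := by
      filter_upwards [A.continuous.continuousAt.eventually (ev_diff (hf.of_le two_le_inf))]
        with y hy
      exact (D_of_has (hy.hasFDerivAt.comp y A.hasFDerivAt) _).trans
        (cov_eq (fderiv ℝ f (A y)) (A (e i)))
    have b : ∀ j, |DL l (fun y => D (e j) f (A y)) x| ≤ (4 * ‖A‖) ^ l.length * M := fun j =>
      ih (D_smooth hf _) fun l' hl' => by
        have := h (l' ++ [j]) (by simp [hl'])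
        rwa [DL_append] at this
    have n : ‖A (e i)‖ ≤ ‖A‖ := by simpa [norm_e] using A.le_opNorm (e i)
    have m : ∀ (t : ℝ) (j : Fin 4), |t| ≤ ‖A‖ →
        |DL l (fun y => t * D (e j) f (A y)) x| ≤ ‖A‖ * ((4 * ‖A‖) ^ l.length * M) := by
      intro t j ht
      rw [DL_const_mul, abs_mul]
      exact mul_le_mul ht (b j) (abs_nonneg _) (norm_nonneg _)
    have m0 := abs_le.1 (m _ 0 ((Complex.abs_re_le_norm _).trans ((norm_fst_le _).trans n)))
    have m1 := abs_le.1 (m _ 1 ((Complex.abs_im_le_norm _).trans ((norm_fst_le _).trans n)))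
    have m2 := abs_le.1 (m _ 2 ((Complex.abs_re_le_norm _).trans ((norm_snd_le _).trans n)))
    have m3 := abs_le.1 (m _ 3 ((Complex.abs_im_le_norm _).trans ((norm_snd_le _).trans n)))
    have k := fun (t : ℝ) (j : Fin 4) => (contDiffAt_const (c := t)).mul (c j)
    rw [DL_append, DL_congr e1, DL_add (((k _ 0).add (k _ 1)).add (k _ 2)) (k _ 3),
      DL_add ((k _ 0).add (k _ 1)) (k _ 2), DL_add (k _ 0) (k _ 1), List.length_append,
      List.length_singleton, pow_succ, abs_le]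
    constructor <;> nlinarith [m0.1, m0.2, m1.1, m1.2, m2.1, m2.2, m3.1, m3.2]

/-! ### forms -/

theorem EllH.smul {Λ c K : ℝ} {G : Hm} (h : EllH Λ G) (hc : 0 < c) (h1 : c ≤ K)
    (h2 : 1 ≤ K * c) : EllH (K * Λ) (c • G) := by
  have K0 : 0 < K := hc.trans_le h1
  refine ⟨mul_pos K0 h.1, fun v => ?_⟩
  have a := h.2 v
  have n := h.isPos.nn v
  have p := h.1
  rw [qf_smul]
  constructor
  · nlinarith [a.1, mul_le_mul_of_nonneg_right h2 (mul_nonneg p.le n)]
  · nlinarith [mul_le_mul_of_nonneg_left a.2 K0.le, mul_le_mul_of_nonneg_right h1 n]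

/-- from `c⁻¹ • G` to `G` -/
theorem EllH.of_inv_smul {Λ c K : ℝ} {G : Hm} (h : EllH Λ (c⁻¹ • G)) (hc : 0 < c) (h1 : c ≤ K)
    (h2 : 1 ≤ K * c) : EllH (K * Λ) G := by
  have := h.smul hc h1 h2
  rwa [smul_smul, mul_inv_cancel₀ hc.ne', one_smul] at this

theorem Cl.refl (G : Hm) : Cl 0 G G := fun v => by simp

theorem Cl.symm {d : ℝ} {G H : Hm} (h : Cl d G H) (hH : NN H) (h0 : 0 ≤ d) (hd : d ≤ 1 / 2) :
    Cl (2 * d) H G := fun v => by
  have a := h.ge v
  have b := hH v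
  rw [abs_sub_comm]
  refine (h v).trans ?_
  nlinarith [mul_le_mul_of_nonneg_left a h0, mul_nonneg h0 b,
    mul_le_mul_of_nonneg_right hd (mul_nonneg h0 b)]

theorem Cl.log {d : ℝ} {G H : Hm} (h : Cl d G H) (hH : Pos H) (h0 : 0 ≤ d) (hd : d ≤ 1 / 2) :
    |Real.log (hdet G) - Real.log (hdet H)| ≤ 4 * d := by
  have hG := h.isPos hH (by linarith)
  have a := Real.log_le_log hG.det (h.det_le hG.nn)
  have p : 0 < 1 - d := by linarith
  have b := Real.log_le_log (mul_pos (pow_pos p 2) hH.det) (h.det_ge hH.nn (by linarith))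
  rw [Real.log_mul (by positivity) hH.det.ne', Real.log_pow] at a b
  have c := Real.log_le_sub_one_of_pos (show 0 < 1 + d by linarith)
  have e := Real.one_sub_inv_le_log_of_pos p
  have k : (1 - d)⁻¹ ≤ 1 + 2 * d := by
    rw [inv_le_iff_one_le_mul₀ p]
    nlinarith
  push_cast at a b
  rw [abs_le]
  constructor <;> linarith

theorem EllH.log {Λ : ℝ} {G : Hm} (h : EllH Λ G) : |Real.log (hdet G)| ≤ 4 * Λ := by
  have p := h.1
  have a := Real.log_le_log h.isPos.det h.det_le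
  have b := Real.log_le_log (by positivity) h.det_ge
  rw [Real.log_inv, show 4 * Λ ^ 2 = (2 * Λ) ^ 2 by ring] at b
  rw [Real.log_pow] at a b
  have c := Real.log_le_sub_one_of_pos p
  have e := Real.log_le_sub_one_of_pos (show 0 < 2 * Λ by positivity)
  push_cast at a b
  rw [abs_le]
  constructor <;> linarith

/-! ### the predicate `Nice` -/

theorem Nice.sub_const {M : ℕ → ℝ} {κ ρ : ℝ} {σ : V → ℝ} (h : Nice M κ ρ σ) (b : ℝ) :
    Nice M κ ρ fun y => σ y - b :=
  ⟨h.sm.sub contDiffOn_const, fun l hl y hy => by rw [DL_sub_const hl]; exact h.d1 l hl y hy,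
    fun k => (h.d2 k).sub_const b, fun y hy => by rw [lv_sub_const]; exact h.nn y hy,
    fun y hy v => by rw [lv_sub_const, rk_sub_const]; exact h.ell y hy v⟩

theorem Nice.nonneg {M : ℕ → ℝ} {κ ρ : ℝ} {σ : V → ℝ} (h : Nice M κ ρ σ) (hρ : 0 < ρ) (k : ℕ) :
    0 ≤ M k := (h.d2 k).nonneg (mem_ball_self hρ)

theorem Nice.comparable {M : ℕ → ℝ} {κ κ' ρ K : ℝ} {σ : V → ℝ} (h : Nice M κ ρ σ) (hρ : 0 < ρ)
    (hK : 1 ≤ K) (k0 : 0 < κ) (k0' : 0 < κ') (h1 : κ ≤ K * κ') (h2 : κ' ≤ K * κ) :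
    Nice (fun k => K ^ 2 * M k) κ' ρ σ := by
  have K2 : 1 ≤ K ^ 2 := one_le_pow₀ hK
  have M0 := h.nonneg hρ
  refine ⟨h.sm, fun l hl y hy => (h.d1 l hl y hy).trans ?_, fun k => (h.d2 k).mono le_rfl
    (le_mul_of_one_le_left (M0 k) K2) Subset.rfl, h.nn, fun y hy v => (h.ell y hy v).trans ?_⟩
  · have : K * κ' ≤ K ^ 2 * κ' := by nlinarith [mul_pos (one_pos.trans_le hK) k0']
    nlinarith [mul_le_mul_of_nonneg_left (h1.trans this) (M0 l.length)]
  · rw [mul_comm (K ^ 2), mul_assoc]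
    refine mul_le_mul_of_nonneg_left ?_ (M0 0)
    have a : qf (rk σ y) v / κ ^ 2 ≤ K ^ 2 * (qf (rk σ y) v / κ' ^ 2) := by
      rw [← mul_div_assoc, div_le_div_iff₀ (by positivity) (by positivity)]
      have := pow_le_pow_left₀ k0'.le h2 2
      nlinarith [mul_le_mul_of_nonneg_left this (nn_rk σ y v)]
    nlinarith [mul_le_mul_of_nonneg_right K2 (h.nn y hy v)]

theorem Nice.mono {M M' : ℕ → ℝ} {κ ρ ρ' : ℝ} {σ : V → ℝ} (h : Nice M κ ρ σ) (k0 : 0 ≤ κ)
    (hM : ∀ k, M k ≤ M' k) (hρ : ρ' ≤ ρ) : Nice M' κ ρ' σ :=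
  have s := ball_subset_ball (x := (0 : V)) hρ
  ⟨h.sm.mono s, fun l hl y hy => (h.d1 l hl y (s hy)).trans (mul_le_mul_of_nonneg_right (hM _) k0),
    fun k => (h.d2 k).mono le_rfl (hM k) s, fun y hy => h.nn y (s hy), fun y hy v =>
      (h.ell y (s hy) v).trans (mul_le_mul_of_nonneg_right (hM 0)
        (add_nonneg (div_nonneg (nn_rk σ y v) (sq_nonneg _)) (h.nn y (s hy) v)))⟩

/-! ### flows -/

variable {X : Set C3}

theorem Fam.GFlow.mono {F : Fam X} {ψ : C3 → ℝ} {τ τ' : ℝ} {φ : ℝ → C3 → ℝ}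
    (h : F.GFlow ψ τ φ) (hτ : τ' ≤ τ) : F.GFlow ψ τ' φ :=
  have s : Icc 0 τ' ⊆ Icc 0 τ := Icc_subset_Icc_right hτ
  ⟨h.1.mono s, h.2.1.imp fun _ H t ht => H t (s ht), fun k => (h.2.2 k).imp fun _ H t ht =>
    H t (s ht)⟩

theorem Run.mono {ψ : C3 → ℝ} {F : Fam X} {u : ℝ → ℝ → ℝ} {b τ τ' : ℝ} {φ : ℝ → C3 → ℝ}
    (h : Run X ψ F u b τ φ) (h0 : 0 < τ') (hτ : τ' ≤ τ) : Run X ψ F u b τ' φ :=
  ⟨h.b0, ⟨h0, hτ.trans_lt h.τ0.2⟩, h.gf.mono hτ, h.init⟩

theorem BS.mono {ψ : C3 → ℝ} {u : ℝ → ℝ → ℝ} {b d τ τ' : ℝ} {φ : ℝ → C3 → ℝ}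
    (h : BS X ψ u b d τ φ) (hτ : τ' ≤ τ) : BS X ψ u b d τ' φ :=
  fun t ht => h t (Icc_subset_Icc_right hτ ht)

theorem YB_of_chart (hX : Surf X) {ψ f : C3 → ℝ} (hψ : RFlat X ψ) {ε c : ℝ} {N : V → C3}
    (P : Par X N U) (hx : x ∈ U) (hf : ContDiffAt ℝ 2 (f ∘ N) x) (h0 : hdet (lv (f ∘ N) x) ≠ 0)
    (H : |Real.log (hdet (lv (f ∘ N) x)) - Real.log (hdet (lv (ψ ∘ N) x)) - 2 * Real.log c| ≤ ε) :
    YB X ψ ε f c (N x) := fun _ _ P' _ hy h => by
  rwa [hX.log_eq P' P hy hx h hf (hψ.1.at2 P hx) h0 (hψ.2 N U P x hx).1.det.ne']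

/-- closeness to `c ψ` controls the Monge-Ampere ratio -/
theorem YB_of_XCl {ψ f : C3 → ℝ} (hψ : RFlat X ψ) {d c : ℝ} (hc : 0 < c) {p : C3} (h0 : 0 ≤ d)
    (hd : d ≤ 1 / 2) (H : XCl X d f (fun q => c * ψ q) p) : YB X ψ (4 * d) f c p :=
  fun N U P x hx h => by
    have a := H N U P x hx h
    have e : lv ((fun q => c * ψ q) ∘ N) x = c • lv (ψ ∘ N) x := lv_const_mul c (ψ ∘ N) x
    have p := (hψ.2 N U P x hx).1
    rw [e] at a
    have b := a.log (p.smul hc) h0 hd
    rw [hdet_smul, Real.log_mul (by positivity) p.det.ne', Real.log_pow] at b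
    push_cast at b
    convert b using 2
    ring

/-- parabolic rescaling and holomorphic affine change of variables -/
theorem PFlow.affine {S S' : Set ℝ} {φ : ℝ → V → ℝ} {w0 : V → ℝ} (h : PFlow S U φ w0)
    (hU : IsOpen U) (A : V →L[ℂ] V) (a : V) (hA : Function.Injective A) {c : ℝ} (hc : 0 < c)
    (t0 : ℝ) (hS : ∀ t ∈ S', t0 + c * t ∈ S) (hm : ∀ y ∈ U', a + A y ∈ U) :
    PFlow S' U' (fun t y => c⁻¹ * φ (t0 + c * t) (a + A y))
      fun y => w0 (a + A y) + Real.log (c⁻¹ ^ 2 * ‖cdet A‖ ^ 2) := by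
  have hT : ContDiff ℝ ∞ fun y : V => a + A y :=
    contDiff_const.add (A.restrictScalars ℝ).contDiff
  have e : ∀ t ∈ S', ∀ y ∈ U', lv (fun y => c⁻¹ * φ (t0 + c * t) (a + A y)) y =
      c⁻¹ • pb A (lv (φ (t0 + c * t)) (a + A y)) := fun t ht y hy => by
    rw [lv_const_mul c⁻¹ (fun y => φ (t0 + c * t) (a + A y)),
      lv_affine A a ((h.sm.at hU (hS t ht) (hm y hy)).of_le two_le_inf)]
  refine ⟨?_, (h.om.comp hT.contDiffOn hm).add contDiffOn_const, fun y hy => ?_,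
    fun t ht y hy => ?_, fun t ht y hy => ?_⟩
  · exact contDiffOn_const.mul (ContDiffOn.comp (g := fun q : ℝ × V => φ q.1 q.2)
      (f := fun q : ℝ × V => (t0 + c * q.1, a + A q.2)) h.sm
      ((contDiff_const.add (contDiff_const.mul contDiff_fst)).prodMk
        (hT.comp contDiff_snd)).contDiffOn fun q hq => ⟨hS _ hq.1, hm _ hq.2⟩)
  · rw [lv_add_const (fun y => w0 (a + A y)), lv_affine A a
      ((h.om.contDiffAt (hU.mem_nhds (hm y hy))).of_le two_le_inf), h.ph _ (hm y hy), pb_zero]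
  · rw [e t ht y hy]
    exact ((h.pos _ (hS t ht) _ (hm y hy)).pb hA).smul (inv_pos.2 hc)
  · have d := ((h.eq _ (hS t ht) _ (hm y hy)).comp t
      (((hasDerivAt_id t).const_mul c).const_add t0).hasDerivWithinAt hS).const_mul c⁻¹
    refine d.congr_deriv ?_
    have n : c⁻¹ ^ 2 * ‖cdet A‖ ^ 2 ≠ 0 :=
      mul_ne_zero (by positivity) (pow_ne_zero 2 (norm_ne_zero_iff.2 (cdet_ne.2 hA)))
    rw [e t ht y hy, hdet_smul, hdet_pb, ← mul_assoc (c⁻¹ ^ 2),
      Real.log_mul n (h.pos _ (hS t ht) _ (hm y hy)).det.ne']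
    field_simp
    ring

end Pool.Agent.MP_67f0e4_gt.K
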