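import Pool.Agent.MP_67f0e4_gt.K.Chart

/-! Families of functions whose derivatives along words are uniformly bounded. -/

open Set Metric Filter Topology
open scoped ContDiff

noncomputable section

namespace Pool.Agent.MP_67f0e4_gt.K

theorem wb_DL_append (l l' : List (Fin 4)) (f : V → ℝ) : DL (l ++ l') f = DL l (DL l' f) := by
  induction l with
  | nil => rfl
  | cons i l ih => simp only [List.cons_append, DL, ih]

theorem wb_DL_concat (l : List (Fin 4)) (i : Fin 4) (f : V → ℝ) :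
    DL (l ++ [i]) f = DL l (D (e i) f) := wb_DL_append l [i] f

theorem wb_DL_congr {f g : V → ℝ} {U : Set V} (hU : IsOpen U) (h : EqOn f g U)
    (l : List (Fin 4)) : EqOn (DL l f) (DL l g) U := fun _ hx =>
  (DL_congr_ev (eventuallyEq_of_mem (hU.mem_nhds hx) h) l).self_of_nhds

theorem wb_DL_add {f g : V → ℝ} {x : V} (hf : ContDiffAt ℝ ∞ f x) (hg : ContDiffAt ℝ ∞ g x)
    (l : List (Fin 4)) : DL l (fun y => f y + g y) =ᶠ[𝓝 x] fun y => DL l f y + DL l g y := by
  induction l with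
  | nil => exact EventuallyEq.rfl
  | cons i l ih =>
    refine (D_congr_ev ih (e i)).trans ?_
    filter_upwards [ev_diff ((DL_smooth hf l).of_le two_le_inf),
      ev_diff ((DL_smooth hg l).of_le two_le_inf)] with y h1 h2
    exact D_add h1 h2 _

theorem wb_DL_const_mul (c : ℝ) (f : V → ℝ) (l : List (Fin 4)) :
    DL l (fun y => c * f y) = fun y => c * DL l f y := by
  induction l with
  | nil => rfl
  | cons i l ih => simp only [DL, ih, D_const_mul]

theorem wb_DL_zero (l : List (Fin 4)) : DL l (fun _ => (0 : ℝ)) = fun _ => 0 := by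
  induction l with
  | nil => rfl
  | cons i l ih => simp only [DL, ih, D_const]

theorem wb_DL_transl (a : V) (f : V → ℝ) (l : List (Fin 4)) :
    DL l (fun y => f (a + y)) = fun y => DL l f (a + y) := by
  induction l with
  | nil => rfl
  | cons i l ih =>
    simp only [DL, ih]
    funext y
    simp only [D, fderiv_comp_add_left]

theorem wb_lv_transl (a : V) (f : V → ℝ) (y : V) : lv (fun y => f (a + y)) y = lv f (a + y) := by
  have h : ∀ (v : V) (g : V → ℝ), D v (fun y => g (a + y)) = fun y => D v g (a + y) := by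
    intro v g; funext y; simp only [D, fderiv_comp_add_left]
  simp only [lv, lev, h]

/-- the entries of the Levi form are sums of two words -/
theorem wb_lv_words (α : Fin 4) : ∃ (l1 l2 : List (Fin 4)) (c : ℝ), l1.length = 2 ∧
    l2.length = 2 ∧ |c| = 1 ∧ ∀ f : V → ℝ,
      (fun y => lv f y α) = fun y => DL l1 f y + c * DL l2 f y := by
  fin_cases α
  · exact ⟨[0, 0], [1, 1], 1, rfl, rfl, abs_one, fun f => by
      funext y; simp only [lv, lev, I_e0, DL, one_mul]; rfl⟩
  · exact ⟨[2, 2], [3, 3], 1, rfl, rfl, abs_one, fun f => by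
      funext y; simp only [lv, lev, I_e2, DL, one_mul]; rfl⟩
  · exact ⟨[0, 2], [1, 3], 1, rfl, rfl, abs_one, fun f => by
      funext y; simp only [lv, lev, I_e0, I_e2, DL, one_mul]; rfl⟩
  · refine ⟨[0, 3], [1, 2], -1, rfl, rfl, by simp, fun f => ?_⟩
    funext y
    have h : D (-e 2) f = fun y => (-1) * D (e 2) f y := by
      funext y; simp only [D, map_neg]; ring
    have : lv f y 3 = lev f y (e 0) (e 3) := rfl
    change lv f y 3 = _
    rw [this, lev, I_e0, I_e3, h, D_const_mul]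
    rfl

/-- bounds on words give bounds on the Levi form -/
theorem wb_LB {f : V → ℝ} {U : Set V} (hU : IsOpen U) (hf : ContDiffOn ℝ ∞ f U) {k : ℕ} {M : ℝ}
    (h : ∀ l : List (Fin 4), 2 ≤ l.length → l.length ≤ k + 2 → ∀ x ∈ U, |DL l f x| ≤ M) :
    LB k (2 * M) f U := by
  intro l hl α x hx
  obtain ⟨l1, l2, c, h1, h2, hc, he⟩ := wb_lv_words α
  have hx' := hf.contDiffAt (hU.mem_nhds hx)
  rw [he f, (wb_DL_add (DL_smooth hx' l1) (contDiffAt_const.mul (DL_smooth hx' l2)) l).self_of_nhds,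
    wb_DL_const_mul, ← wb_DL_append, ← wb_DL_append]
  have a := h (l ++ l1) (by simp [h1]) (by simp [h1, hl]) x hx
  have b := h (l ++ l2) (by simp [h2]) (by simp [h2, hl]) x hx
  refine (abs_add_le _ _).trans ?_
  rw [abs_mul, hc]
  linarith

variable {κ : Type} {U : κ → Set V} {f g : κ → V → ℝ}

/-- smooth and bounded -/
def W0 (U : κ → Set V) (f : κ → V → ℝ) : Prop :=
  (∀ i, ContDiffOn ℝ ∞ (f i) (U i)) ∧ ∃ M, ∀ i, ∀ x ∈ U i, |f i x| ≤ M

/-- derivatives up to order `n` are uniformly bounded -/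
def WK (U : κ → Set V) : ℕ → (κ → V → ℝ) → Prop
  | 0, f => W0 U f
  | n + 1, f => W0 U f ∧ ∀ j, WK U n fun i => D (e j) (f i)

theorem WK.w0 {n : ℕ} (h : WK U n f) : W0 U f := by
  cases n
  · exact h
  · exact h.1

theorem WK.pred {n : ℕ} (h : WK U (n + 1) f) : WK U n f := by
  induction n generalizing f with
  | zero => exact h.1
  | succ n ih => exact ⟨h.1, fun j => ih (h.2 j)⟩

theorem W0.congr (h : W0 U f) (hg : ∀ i, EqOn (g i) (f i) (U i)) : W0 U g :=
  ⟨fun i => (h.1 i).congr (hg i), h.2.imp fun _ hM i x hx => by rw [hg i hx]; exact hM i x hx⟩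

theorem WK.congr (hU : ∀ i, IsOpen (U i)) {n : ℕ} (h : WK U n f)
    (hg : ∀ i, EqOn (g i) (f i) (U i)) : WK U n g := by
  induction n generalizing f g with
  | zero => exact W0.congr h hg
  | succ n ih =>
    exact ⟨h.1.congr hg, fun j => ih (h.2 j) fun i => wb_DL_congr (hU i) (hg i) [j]⟩

theorem W0.add (hf : W0 U f) (hg : W0 U g) : W0 U fun i x => f i x + g i x := by
  obtain ⟨M, hM⟩ := hf.2
  obtain ⟨M', hM'⟩ := hg.2
  exact ⟨fun i => (hf.1 i).add (hg.1 i), M + M', fun i x hx =>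
    (abs_add_le _ _).trans (add_le_add (hM i x hx) (hM' i x hx))⟩

theorem W0.mul (hf : W0 U f) (hg : W0 U g) : W0 U fun i x => f i x * g i x := by
  obtain ⟨M, hM⟩ := hf.2
  obtain ⟨M', hM'⟩ := hg.2
  refine ⟨fun i => (hf.1 i).mul (hg.1 i), M * M', fun i x hx => ?_⟩
  rw [abs_mul]
  exact mul_le_mul (hM i x hx) (hM' i x hx) (abs_nonneg _) ((abs_nonneg _).trans (hM i x hx))

theorem W0.diff (hU : ∀ i, IsOpen (U i)) (hf : W0 U f) (i : κ) {x : V} (hx : x ∈ U i) :
    DifferentiableAt ℝ (f i) x :=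
  ((hf.1 i).contDiffAt ((hU i).mem_nhds hx)).differentiableAt (by simp)

theorem WK.add (hU : ∀ i, IsOpen (U i)) {n : ℕ} (hf : WK U n f) (hg : WK U n g) :
    WK U n fun i x => f i x + g i x := by
  induction n generalizing f g with
  | zero => exact W0.add hf hg
  | succ n ih =>
    exact ⟨hf.1.add hg.1, fun j => (ih (hf.2 j) (hg.2 j)).congr hU fun i x hx =>
      D_add (hf.1.diff hU i hx) (hg.1.diff hU i hx) _⟩

theorem WK.mul (hU : ∀ i, IsOpen (U i)) {n : ℕ} (hf : WK U n f) (hg : WK U n g) :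
    WK U n fun i x => f i x * g i x := by
  induction n generalizing f g with
  | zero => exact W0.mul hf hg
  | succ n ih =>
    exact ⟨hf.1.mul hg.1, fun j =>
      ((ih hf.pred (hg.2 j)).add hU (ih hg.pred (hf.2 j))).congr hU fun i x hx =>
        D_mul (hf.1.diff hU i hx) (hg.1.diff hU i hx) _⟩

theorem WK.const {n : ℕ} (c : κ → ℝ) {M : ℝ} (hc : ∀ i, |c i| ≤ M) : WK U n fun i _ => c i := by
  induction n generalizing c M with
  | zero => exact ⟨fun _ => contDiffOn_const, M, fun i _ _ => hc i⟩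
  | succ n ih =>
    refine ⟨⟨fun _ => contDiffOn_const, M, fun i _ _ => hc i⟩, fun j => ?_⟩
    simp only [D_const]
    exact ih (fun _ => 0) (M := 0) fun _ => by simp

theorem WK.comp (hU : ∀ i, IsOpen (U i)) {O Q : Set ℝ} (hO : IsOpen O) (hQ : IsCompact Q)
    (hQO : Q ⊆ O) {n : ℕ} {u : ℝ → ℝ} (hu : ContDiffOn ℝ ∞ u O) (hf : WK U n f)
    (hm : ∀ i, ∀ x ∈ U i, f i x ∈ Q) : WK U n fun i x => u (f i x) := by
  have h0 : ∀ u : ℝ → ℝ, ContDiffOn ℝ ∞ u O → W0 U fun i x => u (f i x) := by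
    intro u hu
    obtain ⟨M, hM⟩ := hQ.exists_bound_of_continuousOn (hu.continuousOn.mono hQO)
    exact ⟨fun i => hu.comp (hf.w0.1 i) fun x hx => hQO (hm i x hx), M,
      fun i x hx => hM _ (hm i x hx)⟩
  induction n generalizing u with
  | zero => exact h0 u hu
  | succ n ih =>
    refine ⟨h0 u hu, fun j => ?_⟩
    have hu' : ContDiffOn ℝ ∞ (deriv u) O := hu.deriv_of_isOpen hO (by exact_mod_cast le_top)
    refine ((ih hu' hf.pred).mul hU (hf.2 j)).congr hU fun i x hx => ?_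
    exact D_comp ((hu.contDiffAt (hO.mem_nhds (hQO (hm i x hx)))).differentiableAt
      (by simp)).hasDerivAt (hf.1.diff hU i hx) _

theorem WK.words {n : ℕ} (h : WK U n f) : ∃ M, ∀ l : List (Fin 4), l.length ≤ n → ∀ i,
    ∀ x ∈ U i, |DL l (f i) x| ≤ M := by
  induction n generalizing f with
  | zero =>
    obtain ⟨M, hM⟩ := h.2
    refine ⟨M, fun l hl => ?_⟩
    obtain rfl : l = [] := List.length_eq_zero_iff.1 (Nat.le_zero.1 hl)
    exact hM
  | succ n ih =>
    obtain ⟨M, hM⟩ := h.1.2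
    choose B hB using fun j => ih (h.2 j)
    refine ⟨max M (∑ j, |B j|), fun l hl i x hx => ?_⟩
    rcases List.eq_nil_or_concat l with rfl | ⟨l', j, rfl⟩
    · exact (hM i x hx).trans (le_max_left _ _)
    · rw [List.concat_eq_append] at hl ⊢
      rw [wb_DL_concat]
      refine (hB j l' (by simpa using hl) i x hx).trans ((le_abs_self _).trans ?_)
      exact (Finset.single_le_sum (f := fun j => |B j|) (fun _ _ => abs_nonneg _)
        (Finset.mem_univ j)).trans (le_max_right _ _)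

theorem WK.of_words (hU : ∀ i, IsOpen (U i)) (hf : ∀ i, ContDiffOn ℝ ∞ (f i) (U i)) {n : ℕ}
    (h : ∀ l : List (Fin 4), l.length ≤ n → ∃ M, ∀ i, ∀ x ∈ U i, |DL l (f i) x| ≤ M) :
    WK U n f := by
  induction n generalizing f with
  | zero => exact ⟨hf, h [] le_rfl⟩
  | succ n ih =>
    refine ⟨⟨hf, h [] (Nat.zero_le _)⟩, fun j => ih (fun i => D_smoothOn (hU i) (hf i) _) ?_⟩
    intro l hl
    simpa only [wb_DL_concat] using h (l ++ [j]) (by simpa using hl)

/-- first order bounds give a Lipschitz bound on a convex set -/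
theorem wb_lip {f : V → ℝ} {U : Set V} (hU : IsOpen U) (hc : Convex ℝ U)
    (hf : ContDiffOn ℝ ∞ f U) {M : ℝ} (h : ∀ j, ∀ x ∈ U, |D (e j) f x| ≤ M) {x y : V} (hx : x ∈ U)
    (hy : y ∈ U) : |f y - f x| ≤ 4 * M * ‖y - x‖ := by
  have hM : 0 ≤ M := (abs_nonneg _).trans (h 0 x hx)
  refine hc.norm_image_sub_le_of_norm_fderiv_le (𝕜 := ℝ) (fun z hz =>
    (hf.contDiffAt (hU.mem_nhds hz)).differentiableAt (by simp)) (fun z hz => ?_) hx hy
  refine ContinuousLinearMap.opNorm_le_bound _ (by positivity) fun v => ?_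
  rw [cov_eq, Real.norm_eq_abs]
  have a1 : |v.1.re| ≤ ‖v‖ := (Complex.abs_re_le_norm _).trans (norm_fst_le v)
  have a2 : |v.1.im| ≤ ‖v‖ := (Complex.abs_im_le_norm _).trans (norm_fst_le v)
  have a3 : |v.2.re| ≤ ‖v‖ := (Complex.abs_re_le_norm _).trans (norm_snd_le v)
  have a4 : |v.2.im| ≤ ‖v‖ := (Complex.abs_im_le_norm _).trans (norm_snd_le v)
  have b : ∀ (c : ℝ) (j : Fin 4), |c| ≤ ‖v‖ → |c * fderiv ℝ f z (e j)| ≤ M * ‖v‖ := by
    intro c j hc
    rw [abs_mul, mul_comm]
    exact mul_le_mul (h j z hz) hc (abs_nonneg _) hM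
  have := b _ 0 a1
  have := b _ 1 a2
  have := b _ 2 a3
  have := b _ 3 a4
  refine (abs_add_le _ _).trans ?_
  refine (add_le_add_left (abs_add_three _ _ _) _).trans ?_
  linarith

end Pool.Agent.MP_67f0e4_gt.K
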