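import Pool.Agent.MP_67f0e4_gt.K.Spec
import Pool.Agent.MP_67f0e4_gt.K.Kit
import Pool.Agent.MP_67f0e4_gt.K.WB

/-! Derivatives of the comparison metric. -/

open Set Metric Filter Topology
open scoped ContDiff

noncomputable section

namespace Pool.Agent.MP_67f0e4_gt.K

/-- the stretching factor -/
def derK (g : ℝ → ℝ) (s : ℝ) : ℝ := √(iteratedDeriv 1 g s / iteratedDeriv 2 g s)

variable {Cj : ℕ → ℝ} {g : ℝ → ℝ}

lemma der_has (h : PB Cj g) (j : ℕ) (s : ℝ) :
    HasDerivAt (iteratedDeriv j g) (iteratedDeriv (j + 1) g s) s := by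
  rw [iteratedDeriv_succ]
  exact ((h.sm.differentiable_iteratedDeriv j (by exact_mod_cast ENat.coe_lt_top j)) s).hasDerivAt

lemma der_sm (h : PB Cj g) (j : ℕ) : ContDiff ℝ ∞ (iteratedDeriv j g) := by
  rw [iteratedDeriv_eq_iterate]; exact h.sm.iterate_deriv j

lemma der_p (h : PB Cj g) (s : ℝ) : 0 < iteratedDeriv 1 g s := (h.pos s).1.trans_le (h.pos s).2

lemma der_k1 (h : PB Cj g) (s : ℝ) : 1 ≤ derK g s :=
  Real.one_le_sqrt.2 ((one_le_div (h.pos s).1).2 (h.pos s).2)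

lemma der_ksq (h : PB Cj g) (s : ℝ) :
    derK g s ^ 2 * iteratedDeriv 2 g s = iteratedDeriv 1 g s := by
  rw [derK, Real.sq_sqrt (div_pos (der_p h s) (h.pos s).1).le, div_mul_cancel₀ _ (h.pos s).1.ne']

lemma der_y (h : PB Cj g) (s : ℝ) :
    |iteratedDeriv 3 g s / iteratedDeriv 2 g s| * derK g s ≤ |Cj 1| := by
  have a := h.bd 1 s
  have b := (h.pos s).1
  rw [pow_one] at a
  rw [abs_div, abs_of_pos b, div_mul_eq_mul_div, div_le_iff₀ b]
  exact a.trans (mul_le_mul_of_nonneg_right (le_abs_self _) b.le)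

lemma der_lip (h : PB Cj g) (s s0 : ℝ) :
    |derK g s - derK g s0| ≤ (1 + |Cj 1|) / 2 * |s - s0| := by
  have hd : ∀ x, HasDerivAt (derK g) ((1 - derK g x ^ 2 *
      (iteratedDeriv 3 g x / iteratedDeriv 2 g x)) / (2 * derK g x)) x := by
    intro x
    have b := (h.pos x).1
    have h1 := ((der_has h 1 x).div (der_has h 2 x) b.ne').sqrt (div_pos (der_p h x) b).ne'
    refine h1.congr_deriv ?_
    have e := der_ksq h x
    show _ / (2 * derK g x) = _
    congr 1
    rw [← e]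
    field_simp
  refine (convex_univ (𝕜 := ℝ)).norm_image_sub_le_of_norm_hasDerivWithin_le
    (fun x _ => (hd x).hasDerivWithinAt) (fun x _ => ?_) (mem_univ s0) (mem_univ s)
  have k1 := der_k1 h x
  have y := der_y h x
  rw [Real.norm_eq_abs, abs_div, abs_of_pos (by linarith : 0 < 2 * derK g x),
    div_le_iff₀ (by linarith)]
  refine (abs_sub _ _).trans ?_
  rw [abs_one, abs_mul, abs_of_nonneg (sq_nonneg _)]
  nlinarith [mul_le_mul_of_nonneg_left y (zero_le_one.trans k1)]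

lemma der_log {f f' : ℝ → ℝ} {s s0 r K : ℝ} (hf : ∀ x, HasDerivAt f (f' x) x)
    (h0 : ∀ x, 0 < f x) (hb : ∀ x ∈ closedBall s0 r, |f' x / f x| ≤ K) (hK : K * r ≤ 2)
    (hs : s ∈ closedBall s0 r) : f s ≤ Real.exp 2 * f s0 ∧ f s0 ≤ Real.exp 2 * f s := by
  have hr : 0 ≤ r := dist_nonneg.trans hs
  have a := (convex_closedBall s0 r).norm_image_sub_le_of_norm_hasDerivWithin_le
    (f := fun x => Real.log (f x)) (fun x _ => ((hf x).log (h0 x).ne').hasDerivWithinAt)
    hb (mem_closedBall_self hr) hs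
  have K0 : 0 ≤ K := (abs_nonneg _).trans (hb s hs)
  have b : |Real.log (f s) - Real.log (f s0)| ≤ 2 :=
    a.trans ((mul_le_mul_of_nonneg_left (mem_closedBall_iff_norm.1 hs) K0).trans hK)
  rw [abs_le] at b
  have key : ∀ x y, Real.log (f x) ≤ 2 + Real.log (f y) → f x ≤ Real.exp 2 * f y := by
    intro x y hxy
    have := Real.exp_le_exp.2 hxy
    rwa [Real.exp_add, Real.exp_log (h0 x), Real.exp_log (h0 y)] at this
  exact ⟨key _ _ (by linarith), key _ _ (by linarith)⟩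

/-- the profile is comparable on an interval of length `derK` -/
lemma der_cmp (h : PB Cj g) {s s0 : ℝ} (hs : s ∈ closedBall s0 (derK g s0 / (1 + |Cj 1|))) :
    (iteratedDeriv 1 g s ≤ Real.exp 2 * iteratedDeriv 1 g s0 ∧
      iteratedDeriv 1 g s0 ≤ Real.exp 2 * iteratedDeriv 1 g s) ∧
    (iteratedDeriv 2 g s ≤ Real.exp 2 * iteratedDeriv 2 g s0 ∧
      iteratedDeriv 2 g s0 ≤ Real.exp 2 * iteratedDeriv 2 g s) ∧
    ∀ j, |derK g s0 ^ j * iteratedDeriv (j + 2) g s / iteratedDeriv 2 g s0| ≤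
      2 ^ j * |Cj j| * Real.exp 2 := by
  have c0 : 0 < 1 + |Cj 1| := by positivity
  have k0 := der_k1 h s0
  have hk : ∀ x ∈ closedBall s0 (derK g s0 / (1 + |Cj 1|)), derK g s0 ≤ 2 * derK g x := by
    intro x hx
    have a := der_lip h x s0
    have b : (1 + |Cj 1|) / 2 * |x - s0| ≤ (1 + |Cj 1|) / 2 * (derK g s0 / (1 + |Cj 1|)) :=
      mul_le_mul_of_nonneg_left (mem_closedBall_iff_norm.1 hx) (by positivity)
    have c : (1 + |Cj 1|) / 2 * (derK g s0 / (1 + |Cj 1|)) = derK g s0 / 2 := by field_simp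
    linarith [(abs_le.1 a).1]
  have hK : 2 * (1 + |Cj 1|) / derK g s0 * (derK g s0 / (1 + |Cj 1|)) ≤ 2 :=
    le_of_eq (by field_simp)
  have h2 := der_log (der_has h 2) (fun x => (h.pos x).1) (fun x hx => ?_) hK hs
  · refine ⟨der_log (der_has h 1) (der_p h) (fun x hx => ?_) hK hs, h2, fun j => ?_⟩
    · have e := der_ksq h x
      have k1 := der_k1 h x
      have b := (h.pos x).1
      have : iteratedDeriv (1 + 1) g x / iteratedDeriv 1 g x = 1 / derK g x ^ 2 := by
        rw [← e]; field_simp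
      rw [this, abs_of_pos (by positivity), div_le_div_iff₀ (by positivity) (by linarith)]
      nlinarith [hk x hx, abs_nonneg (Cj 1), mul_nonneg (abs_nonneg (Cj 1)) (sq_nonneg (derK g x))]
    · have b := (h.pos s0).1
      have b' := (h.pos s).1
      have a := h.bd j s
      have k1 := der_k1 h s
      rw [abs_div, abs_of_pos b, div_le_iff₀ b, abs_mul, abs_of_nonneg (by positivity)]
      calc derK g s0 ^ j * |iteratedDeriv (j + 2) g s|
          ≤ (2 * derK g s) ^ j * |iteratedDeriv (j + 2) g s| :=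
            mul_le_mul_of_nonneg_right (pow_le_pow_left₀ (by linarith) (hk s hs) j) (abs_nonneg _)
        _ = 2 ^ j * (|iteratedDeriv (j + 2) g s| * derK g s ^ j) := by ring
        _ ≤ 2 ^ j * (|Cj j| * (Real.exp 2 * iteratedDeriv 2 g s0)) :=
            mul_le_mul_of_nonneg_left (a.trans (mul_le_mul (le_abs_self _) h2.1 b'.le
              (abs_nonneg _))) (by positivity)
        _ = _ := by ring
  · have y := der_y h x
    rw [le_div_iff₀ (by linarith)]
    nlinarith [mul_le_mul_of_nonneg_left (hk x hx)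
      (abs_nonneg (iteratedDeriv 3 g x / iteratedDeriv 2 g x))]

theorem der : DER := by
  intro M Cj ρ hρ
  set r0 := min (ρ / 2) (1 / (4 * (|M 1| + 1) * (1 + |Cj 1|))) with hr0
  have r0p : 0 < r0 := lt_min (by linarith) (by positivity)
  have r0l : r0 < ρ := (min_le_left _ _).trans_lt (by linarith)
  have sub : ball (0 : V) r0 ⊆ ball 0 ρ := ball_subset_ball r0l.le
  let ι := {q : (ℝ → ℝ) × (V → ℝ) // PB Cj q.1 ∧ Nice M (derK q.1 (q.2 0)) ρ q.2}
  let U : ι → Set V := fun _ => ball 0 r0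
  have hU : ∀ i, IsOpen (U i) := fun _ => isOpen_ball
  let k : ι → ℝ := fun i => derK i.1.1 (i.1.2 0)
  have k1 : ∀ i, 1 ≤ k i := fun i => der_k1 i.2.1 _
  have sσ : ∀ i : ι, ContDiffOn ℝ ∞ i.1.2 (U i) := fun i => i.2.2.sm.mono sub
  have dσ : ∀ i : ι, ∀ x ∈ U i, ContDiffAt ℝ ∞ i.1.2 x := fun i x hx =>
    (sσ i).contDiffAt ((hU i).mem_nhds hx)
  have rng : ∀ i : ι, ∀ x ∈ U i, i.1.2 x ∈ closedBall (i.1.2 0) (k i / (1 + |Cj 1|)) := by
    intro i x hx
    have a := wb_lip isOpen_ball (convex_ball 0 r0) (sσ i) (M := M 1 * k i)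
      (fun j y hy => i.2.2.d1 [j] le_rfl y (sub hy)) (mem_ball_self r0p) hx
    rw [mem_closedBall_iff_norm]
    refine a.trans ?_
    have b : ‖x - 0‖ ≤ 1 / (4 * (|M 1| + 1) * (1 + |Cj 1|)) :=
      (mem_ball_iff_norm.1 hx).le.trans (min_le_right _ _)
    have c := k1 i
    calc 4 * (M 1 * k i) * ‖x - 0‖
        ≤ 4 * ((|M 1| + 1) * k i) * (1 / (4 * (|M 1| + 1) * (1 + |Cj 1|))) :=
          mul_le_mul (by nlinarith [le_abs_self (M 1)]) b (norm_nonneg _) (by positivity)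
      _ = _ := by field_simp
  let T : Fin 4 → ι → V → ℝ := fun m i x => (k i)⁻¹ * D (e m) i.1.2 x
  have hT : ∀ n m, WK U n (T m) := fun n m =>
    WK.of_words hU (fun i => contDiffOn_const.mul (D_smoothOn (hU i) (sσ i) _)) fun l _ =>
      ⟨M (l.length + 1), fun i x hx => by
        have c := k1 i
        have a := i.2.2.d1 (l ++ [m]) (by simp) x (sub hx)
        rw [wb_DL_concat, List.length_append, List.length_singleton] at a
        rw [wb_DL_const_mul (k i)⁻¹ (D (e m) i.1.2), abs_mul, abs_of_pos (by positivity),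
          inv_mul_le_iff₀ (by linarith), mul_comm]
        exact a⟩
  let A : ℕ → ι → V → ℝ := fun j i x =>
    k i ^ j * iteratedDeriv (j + 2) i.1.1 (i.1.2 x) / iteratedDeriv 2 i.1.1 (i.1.2 0)
  have A0 : ∀ j, W0 U (A j) := fun j =>
    ⟨fun i => (contDiffOn_const.mul ((der_sm i.2.1 _).comp_contDiffOn (sσ i))).div_const _,
      _, fun i x hx => (der_cmp i.2.1 (rng i x hx)).2.2 j⟩
  have hA : ∀ n j, WK U n (A j) := by
    intro n
    induction n with
    | zero => exact A0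
    | succ n ih =>
      refine fun j => ⟨A0 j, fun m => ((ih (j + 1)).mul hU (hT n m)).congr hU fun i x hx => ?_⟩
      have c := k1 i
      have d := D_comp (((der_has i.2.1 (j + 2) (i.1.2 x)).const_mul (k i ^ j)).div_const
        (iteratedDeriv 2 i.1.1 (i.1.2 0))) ((dσ i x hx).differentiableAt (by simp)) (e m)
      refine d.trans ?_
      simp only [A, T]
      field_simp
      ring
  let P : ι → V → ℝ := fun i x =>
    iteratedDeriv 1 i.1.1 (i.1.2 x) / iteratedDeriv 1 i.1.1 (i.1.2 0)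
  have P0 : W0 U P :=
    ⟨fun i => ((der_sm i.2.1 _).comp_contDiffOn (sσ i)).div_const _, Real.exp 2, fun i x hx => by
      rw [abs_of_pos (div_pos (der_p i.2.1 _) (der_p i.2.1 _)), div_le_iff₀ (der_p i.2.1 _)]
      exact (der_cmp i.2.1 (rng i x hx)).1.1⟩
  have hP : ∀ n, WK U n P := by
    intro n
    cases n with
    | zero => exact P0
    | succ n =>
      refine ⟨P0, fun m => (((hA n 0).mul hU (hT n m)).mul hU (WK.const (fun i => (k i)⁻¹)
        (M := 1) fun i => ?_)).congr hU fun i x hx => ?_⟩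
      · have c := k1 i
        rw [abs_of_pos (by positivity)]
        exact inv_le_one_of_one_le₀ c
      · have c := k1 i
        have d := D_comp ((der_has i.2.1 1 (i.1.2 x)).div_const
          (iteratedDeriv 1 i.1.1 (i.1.2 0))) ((dσ i x hx).differentiableAt (by simp)) (e m)
        refine d.trans ?_
        have b := (i.2.1.pos (i.1.2 0)).1
        simp only [A, T]
        rw [← der_ksq i.2.1 (i.1.2 0)]
        show _ / (k i ^ 2 * _) * _ = _
        field_simp
  have hL : ∀ n α, WK U n fun i x => lv i.1.2 x α := fun n α =>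
    WK.of_words hU (fun i x hx => (lv_entry (dσ i x hx) α).contDiffWithinAt) fun l _ =>
      ⟨M l.length, fun i x hx => i.2.2.d2 l.length l le_rfl α x (sub hx)⟩
  have hR : ∀ n α, WK U n fun i x => (k i)⁻¹ ^ 2 * rk i.1.2 x α := by
    intro n α
    have m := fun a b => (hT n a).mul hU (hT n b)
    fin_cases α
    · exact ((m 0 0).add hU (m 1 1)).congr hU fun i x _ => by simp [T, rk]; ring
    · exact ((m 2 2).add hU (m 3 3)).congr hU fun i x _ => by simp [T, rk]; ring
    · exact ((m 0 2).add hU (m 1 3)).congr hU fun i x _ => by simp [T, rk]; ring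
    · exact ((m 0 3).add hU ((m 1 2).mul hU (WK.const (fun _ => -1) (M := 1)
        fun _ => by simp))).congr hU fun i x _ => by simp [T, rk]; ring
  have hG : ∀ i : ι, ∀ x ∈ U i, (iteratedDeriv 1 i.1.1 (i.1.2 0))⁻¹ • lv (i.1.1 ∘ i.1.2) x =
      P i x • lv i.1.2 x + A 0 i x • (k i)⁻¹ ^ 2 • rk i.1.2 x := by
    intro i x hx
    have a := lv_comp (u := i.1.1) (u' := iteratedDeriv 1 i.1.1)
      (Eventually.of_forall fun s => by simpa using der_has i.2.1 0 s)
      (der_has i.2.1 1 (i.1.2 x)) ((dσ i x hx).of_le two_le_inf)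
    have c := k1 i
    have b := (i.2.1.pos (i.1.2 0)).1
    rw [show i.1.1 ∘ i.1.2 = fun y => i.1.1 (i.1.2 y) from rfl, a, smul_add, smul_smul, smul_smul,
      smul_smul]
    congr 2
    · simp only [P]; ring
    · simp only [A]
      rw [← der_ksq i.2.1 (i.1.2 0)]
      show (k i ^ 2 * _)⁻¹ * _ = _
      field_simp
  have key : ∀ n, ∃ B, ∀ i : ι, LB n (B * iteratedDeriv 1 i.1.1 (i.1.2 0)) (i.1.1 ∘ i.1.2)
      (ball 0 r0) := by
    intro n
    have hW : ∀ α, WK U n fun i x =>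
        (iteratedDeriv 1 i.1.1 (i.1.2 0))⁻¹ * lv (i.1.1 ∘ i.1.2) x α := fun α =>
      (((hP n).mul hU (hL n α)).add hU ((hA n 0).mul hU (hR n α))).congr hU fun i x hx =>
        congrFun (hG i x hx) α
    choose B hB using fun α => (hW α).words
    refine ⟨∑ α, |B α|, fun i l hl α x hx => ?_⟩
    have a := hB α l hl i x hx
    have p0 := der_p i.2.1 (i.1.2 0)
    rw [wb_DL_const_mul _ (fun y => lv (i.1.1 ∘ i.1.2) y α), abs_mul, abs_of_pos (inv_pos.2 p0),
      inv_mul_le_iff₀ p0, mul_comm] at a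
    refine a.trans (mul_le_mul_of_nonneg_right ((le_abs_self _).trans ?_) p0.le)
    exact Finset.single_le_sum (f := fun α => |B α|) (fun _ _ => abs_nonneg _) (Finset.mem_univ α)
  obtain ⟨B0, hB0⟩ := key 0
  refine ⟨r0, ⟨r0p, r0l⟩, |M 0| * Real.exp 2 + 6 * |B0| + 1, fun n => ?_⟩
  obtain ⟨B, hB⟩ := key n
  refine ⟨B, fun g σ hg hσ => ⟨hB ⟨(g, σ), hg, hσ⟩, fun x hx => ⟨by positivity, fun v => ?_⟩⟩⟩
  let i : ι := ⟨(g, σ), hg, hσ⟩
  have p0 := der_p hg (σ 0)
  have E0 := Real.exp_pos 2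
  have hq : qf ((iteratedDeriv 1 g (σ 0))⁻¹ • lv (g ∘ σ) x) v =
      P i x * qf (lv σ x) v + A 0 i x * (qf (rk σ x) v / k i ^ 2) := by
    rw [hG i x hx, qf_add, qf_smul, qf_smul, qf_smul]; ring
  obtain ⟨c1, c2, -⟩ := der_cmp hg (rng i x hx)
  have hP1 : 1 ≤ Real.exp 2 * P i x := by
    simp only [P]; rw [← mul_div_assoc, one_le_div p0]; exact c1.2
  have hA1 : 1 ≤ Real.exp 2 * A 0 i x := by
    simp only [A, pow_zero, one_mul]; rw [← mul_div_assoc, one_le_div (hg.pos _).1]; exact c2.2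
  have n1 := hσ.nn x (sub hx) v
  have n2 : 0 ≤ qf (rk σ x) v / k i ^ 2 := div_nonneg (nn_rk σ x v) (sq_nonneg _)
  have el : ‖v‖ ^ 2 ≤ M 0 * (qf (rk σ x) v / k i ^ 2 + qf (lv σ x) v) := hσ.ell x (sub hx) v
  have low : qf (rk σ x) v / k i ^ 2 + qf (lv σ x) v ≤
      Real.exp 2 * qf ((iteratedDeriv 1 g (σ 0))⁻¹ • lv (g ∘ σ) x) v := by
    rw [hq]
    nlinarith [mul_le_mul_of_nonneg_right hP1 n1, mul_le_mul_of_nonneg_right hA1 n2]
  have q0 : 0 ≤ qf ((iteratedDeriv 1 g (σ 0))⁻¹ • lv (g ∘ σ) x) v :=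
    (mul_nonneg_iff_of_pos_left E0).1 ((add_nonneg n2 n1).trans low)
  constructor
  · nlinarith [mul_le_mul (le_abs_self (M 0)) low (add_nonneg n2 n1) (abs_nonneg _),
      mul_nonneg (abs_nonneg B0) q0]
  · have a := (hB0 i).norm_le hx
    have b : ‖(iteratedDeriv 1 g (σ 0))⁻¹ • lv (g ∘ σ) x‖ ≤ |B0| := by
      rw [norm_smul, Real.norm_eq_abs, abs_of_pos (inv_pos.2 p0), inv_mul_le_iff₀ p0, mul_comm]
      exact a.trans (mul_le_mul_of_nonneg_right (le_abs_self _) p0.le)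
    refine ((le_abs_self _).trans (abs_qf_le _ v)).trans
      (mul_le_mul_of_nonneg_right ?_ (sq_nonneg _))
    nlinarith [mul_nonneg (abs_nonneg (M 0)) E0.le]

end Pool.Agent.MP_67f0e4_gt.K
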