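import Pool.Agent.MP_67f0e4_gt.K.Spec
import Pool.Agent.MP_67f0e4_gt.K.Chart

/-! Row EXHS: the exhaustion `log (1 + log ψ)`. -/

open Set Metric Filter Topology
open scoped ContDiff

namespace Pool.Agent.MP_67f0e4_gt.K

theorem exhs_d1 {s : ℝ} (hs : 0 < 1 + s) :
    HasDerivAt (fun s : ℝ => Real.log (1 + s)) (1 + s)⁻¹ s := by
  simpa using ((hasDerivAt_id s).const_add 1).log hs.ne'

theorem exhs_d2 {s : ℝ} (hs : 0 < 1 + s) :
    HasDerivAt (fun s : ℝ => (1 + s)⁻¹) (-((1 + s)⁻¹ * (1 + s)⁻¹)) s := by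
  have h := ((hasDerivAt_id s).const_add 1).fun_inv hs.ne'
  refine h.congr_deriv ?_
  simp only [id]
  field_simp

theorem exhs_bd {σ : V → ℝ} (h2 : ContDiffAt ℝ 2 σ 0) (h0 : 0 ≤ σ 0) {A B : ℝ} (hA0 : 0 ≤ A)
    (hB0 : 0 ≤ B) (hA : ∀ a, |DL [a] σ 0| ≤ A * (1 + σ 0))
    (hB : ∀ a b, |DL [a, b] σ 0| ≤ B * (1 + σ 0)) (l : List (Fin 4)) (l1 : 1 ≤ l.length)
    (l2 : l.length ≤ 2) : |DL l (fun y => Real.log (1 + σ y)) 0| ≤ A + B + A * A := by
  have hp : 0 < 1 + σ 0 := by linarith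
  have key : ∀ {x C : ℝ}, |x| ≤ C * (1 + σ 0) → |(1 + σ 0)⁻¹ * x| ≤ C := fun {x C} h => by
    rw [abs_mul, abs_of_pos (inv_pos.2 hp), inv_mul_le_iff₀ hp, mul_comm]
    exact h
  have hAA := mul_nonneg hA0 hA0
  match l, l1, l2 with
  | [a], _, _ =>
    have e : DL [a] (fun y => Real.log (1 + σ y)) 0 = (1 + σ 0)⁻¹ * DL [a] σ 0 :=
      D_comp (u := fun s => Real.log (1 + s)) (exhs_d1 hp) (h2.differentiableAt (by norm_num)) _
    rw [e]
    linarith [key (hA a)]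
  | [a, b], _, _ =>
    have hev : ∀ᶠ s in 𝓝 (σ 0), HasDerivAt (fun s : ℝ => Real.log (1 + s)) (1 + s)⁻¹ s :=
      (continuousAt_const.eventually_lt (continuousAt_const.add continuousAt_id) hp).mono
        fun s hs => exhs_d1 hs
    have e : DL [a, b] (fun y => Real.log (1 + σ y)) 0 = (1 + σ 0)⁻¹ * DL [a, b] σ 0 +
        -((1 + σ 0)⁻¹ * (1 + σ 0)⁻¹) * (DL [a] σ 0 * DL [b] σ 0) :=
      DD_comp (u := fun s => Real.log (1 + s)) (u' := fun s => (1 + s)⁻¹) hev (exhs_d2 hp) h2 _ _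
    have e2 : -((1 + σ 0)⁻¹ * (1 + σ 0)⁻¹) * (DL [a] σ 0 * DL [b] σ 0) =
        -(((1 + σ 0)⁻¹ * DL [a] σ 0) * ((1 + σ 0)⁻¹ * DL [b] σ 0)) := by ring
    have e3 : |-(((1 + σ 0)⁻¹ * DL [a] σ 0) * ((1 + σ 0)⁻¹ * DL [b] σ 0))| ≤ A * A := by
      rw [abs_neg, abs_mul]
      exact mul_le_mul (key (hA a)) (key (hA b)) (abs_nonneg _) hA0
    rw [e, e2]
    exact (abs_add_le _ _).trans (by linarith [key (hB a b)])

/-- Row EXHS. -/
theorem exhs : EXHS := by
  intro X ψ F hG h1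
  obtain ⟨M, ρ, K, hρ, -, hN⟩ := hG.n1 1 one_pos
  refine ⟨fun p => Real.log (1 + Real.log (ψ p)), |M 1| * |K| + |M 2| * |K| +
    |M 1| * |K| * (|M 1| * |K|), fun N U P => ?_, fun p hp => ?_, fun c => ?_,
    fun i l l1 l2 => ?_⟩
  · have hpos : ∀ x ∈ U, 1 ≤ (ψ ∘ N) x := fun x hx => h1 _ (P.mem hx)
    refine (contDiffOn_const.add ((hG.pot.rf.1 N U P).log fun x hx => ?_)).log fun x hx => ?_
    · linarith [hpos x hx]
    · linarith [Real.log_nonneg (hpos x hx)]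
  · exact Real.log_nonneg (by linarith [Real.log_nonneg (h1 p hp)])
  · have e : {p ∈ X | Real.log (1 + Real.log (ψ p)) ≤ c} =
        {p ∈ X | ψ p ≤ Real.exp (Real.exp c - 1)} := by
      ext p
      refine and_congr_right fun hp => ?_
      have a := h1 p hp
      have b := Real.log_nonneg a
      rw [Real.log_le_iff_le_exp (by linarith), ← le_sub_iff_add_le',
        Real.log_le_iff_le_exp (by linarith)]
    rw [e]
    exact hG.pot.pr _
  · have h0 : 1 ≤ ψ (F.Φ i 0) := h1 _ ((F.par i).mem (mem_ball_self two_pos))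
    obtain ⟨κ, hκ, hn, -, hK, -⟩ := hN i 0 (mem_ball_self one_pos) h0
    simp only [zero_add] at hn
    have hl := Real.log_nonneg h0
    rw [max_eq_left hl] at hK
    have key : ∀ l : List (Fin 4), 1 ≤ l.length →
        |DL l (fun y => Real.log (ψ (F.Φ i y))) 0| ≤
          |M l.length| * |K| * (1 + Real.log (ψ (F.Φ i 0))) := fun l hl1 => by
      refine (hn.d1 l hl1 0 (mem_ball_self hρ)).trans ?_
      rw [mul_assoc]
      refine mul_le_mul (le_abs_self _) (hK.trans ?_) hκ.le (abs_nonneg _)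
      exact mul_le_mul_of_nonneg_right (le_abs_self _) (by linarith)
    exact exhs_bd (σ := fun y => Real.log (ψ (F.Φ i y)))
      ((hn.sm.contDiffAt (ball_mem_nhds _ hρ)).of_le two_le_inf) hl (by positivity)
      (by positivity) (fun a => key [a] le_rfl) (fun a b => key [a, b] one_le_two) l l1 l2

end Pool.Agent.MP_67f0e4_gt.K
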