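import Pool.Agent.MP_67f0e4_gt.K.Spec
import Pool.Agent.MP_67f0e4_gt.K.Chart

/-! Row FCH: the comparison family in the quasi-charts. -/

set_option autoImplicit false

open Set Metric Filter Topology
open scoped ContDiff

namespace Pool.Agent.MP_67f0e4_gt.K

theorem fch_D_shift (a v : V) (f : V → ℝ) :
    D v (fun y => f (a + y)) = fun y => D v f (a + y) := by
  funext y
  simp only [D]
  rw [fderiv_comp_add_left]

theorem fch_DL_shift (a : V) (f : V → ℝ) (l : List (Fin 4)) :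
    DL l (fun y => f (a + y)) = fun y => DL l f (a + y) := by
  induction l with
  | nil => rfl
  | cons i l ih => simp only [DL]; rw [ih, fch_D_shift]

theorem fch_lv_shift (a x : V) (f : V → ℝ) : lv (fun y => f (a + y)) x = lv f (a + x) := by
  simp only [lv, lev, fch_D_shift]

theorem fch_DL_sub (f : V → ℝ) (b : ℝ) (i : Fin 4) (l : List (Fin 4)) :
    DL (i :: l) (fun y => f y - b) = DL (i :: l) f := by
  induction l generalizing i with
  | nil => simpa only [DL, sub_eq_add_neg] using D_add_const (f := f) (-b) (e i)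
  | cons j l ih => rw [DL, ih j, ← DL]

theorem fch_nice {M : ℕ → ℝ} {κ κ' ρ K b : ℝ} {σ : V → ℝ} (h : Nice M κ ρ σ) (hκ : 0 < κ)
    (hκ' : 0 < κ') (hK : 1 ≤ K) (h1 : κ ≤ K * κ') (h2 : κ' ≤ K * κ) :
    Nice (fun k => K ^ 2 * |M k|) κ' ρ (fun y => σ y - b) := by
  have hK2 : K ≤ K ^ 2 := by nlinarith
  have hM : ∀ k, M k ≤ K ^ 2 * |M k| := fun k =>
    (le_abs_self _).trans (le_mul_of_one_le_left (abs_nonneg _) (hK.trans hK2))
  refine ⟨h.sm.sub contDiffOn_const, ?_, ?_, ?_, ?_⟩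
  · intro l hl x hx
    obtain _ | ⟨i, l⟩ := l
    · simp at hl
    rw [fch_DL_sub]
    refine (h.d1 _ hl x hx).trans ?_
    calc M (i :: l).length * κ ≤ |M (i :: l).length| * (K ^ 2 * κ') :=
          mul_le_mul (le_abs_self _) (h1.trans (mul_le_mul_of_nonneg_right hK2 hκ'.le)) hκ.le
            (abs_nonneg _)
      _ = _ := by ring
  · intro k l hl α x hx
    simp only [lv_sub_const]
    exact (h.d2 k l hl α x hx).trans (hM k)
  · intro x hx
    rw [lv_sub_const]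
    exact h.nn x hx
  · intro x hx v
    rw [lv_sub_const, rk_sub_const]
    have a1 := nn_rk σ x v
    have a2 := h.nn x hx v
    have a3 : qf (rk σ x) v / κ ^ 2 ≤ K ^ 2 * (qf (rk σ x) v / κ' ^ 2) := by
      rw [← mul_div_assoc, div_le_div_iff₀ (by positivity) (by positivity)]
      have := mul_le_mul_of_nonneg_left (pow_le_pow_left₀ hκ'.le h2 2) a1
      linarith
    have a4 : qf (lv σ x) v ≤ K ^ 2 * qf (lv σ x) v := le_mul_of_one_le_left a2 (hK.trans hK2)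
    refine (h.ell x hx v).trans ?_
    calc M 0 * (qf (rk σ x) v / κ ^ 2 + qf (lv σ x) v)
        ≤ |M 0| * (K ^ 2 * (qf (rk σ x) v / κ' ^ 2) + K ^ 2 * qf (lv σ x) v) :=
          mul_le_mul (le_abs_self _) (add_le_add a3 a4) (by positivity) (abs_nonneg _)
      _ = _ := by ring

theorem fch_ell {Λ p K : ℝ} {G : Hm} (h : EllH Λ (p⁻¹ • G)) (hp : 0 < p) (hp1 : p ≤ 1)
    (hK : 1 ≤ K * p) : EllH (Λ * K) G := by
  have hΛ := h.1
  have hK1 : 1 ≤ K := by nlinarith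
  refine ⟨by positivity, fun v => ?_⟩
  obtain ⟨a1, a2⟩ := h.2 v
  have a0 := h.isPos.nn v
  rw [qf_smul] at a0 a1 a2
  obtain ⟨q, hq⟩ : ∃ q, q = p⁻¹ * qf G v := ⟨_, rfl⟩
  have e : qf G v = p * q := by rw [hq]; field_simp
  rw [← hq] at a0 a1 a2
  rw [e]
  constructor
  · have := mul_le_mul_of_nonneg_left hK (mul_nonneg hΛ.le a0)
    linarith
  · have b1 : p * q ≤ q := mul_le_of_le_one_left a0 hp1
    have b2 := mul_le_mul_of_nonneg_left hK1 (mul_nonneg hΛ.le (sq_nonneg ‖v‖))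
    linarith

theorem fch_pos {X : Set C3} {ψ : C3 → ℝ} (hψ : Pot X ψ) {N : V → C3} {U : Set V}
    (P : Par X N U) {x : V} (hx : x ∈ U) (h0 : 0 < ψ (N x)) {g g' : ℝ → ℝ} {th b c : ℝ}
    (hg : ∀ s, HasDerivAt g (g' s) s) (hg' : HasDerivAt g' th (Real.log (ψ (N x)) - b))
    (hth : 0 < th) (hp : th ≤ g' (Real.log (ψ (N x)) - b)) :
    Pos (lv (fun y => g (Real.log (ψ (N y)) - b) - c) x) := by
  have s2 : ContDiffAt ℝ 2 (ψ ∘ N) x := hψ.rf.1.at2 P hx
  have h0' : (ψ ∘ N) x ≠ 0 := h0.ne'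
  have s3 : ContDiffAt ℝ 2 (fun y => Real.log ((ψ ∘ N) y) - b) x :=
    (s2.log h0').sub contDiffAt_const
  have e1 := lv_comp (f := fun y => Real.log ((ψ ∘ N) y) - b) (Eventually.of_forall hg) hg' s3
  rw [lv_sub_const, rk_sub_const, lv_log s2 h0',
    rk_log (s2.differentiableAt (by norm_num)) h0'] at e1
  simp only [Function.comp_apply] at e1
  rw [lv_sub_const, e1]
  have hG := (hψ.rf.2 N U P x hx).1
  obtain ⟨Cq, hq⟩ := hψ.qb
  intro v hv
  have a1 := hG v hv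
  have a2 := qf_le_tr hG (nn_rk (ψ ∘ N) x) v
  have a3 : hmix (lv (ψ ∘ N) x) (rk (ψ ∘ N) x) / hdet (lv (ψ ∘ N) x) ≤ ψ (N x) :=
    (div_le_iff₀ hG.det).2 (hq N U P x hx).2
  have a4 := a2.trans (mul_le_mul_of_nonneg_right a3 a1.le)
  simp only [qf_add, qf_sub, qf_smul]
  have a5 : (ψ (N x))⁻¹ ^ 2 * qf (rk (ψ ∘ N) x) v ≤ (ψ (N x))⁻¹ * qf (lv (ψ ∘ N) x) v := by
    refine (mul_le_mul_of_nonneg_left a4 (sq_nonneg _)).trans_eq ?_
    field_simp
  have a6 := mul_le_mul_of_nonneg_left a5 (sub_nonneg.2 hp)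
  have a7 : 0 < th * ((ψ (N x))⁻¹ * qf (lv (ψ ∘ N) x) v) := by positivity
  linarith

theorem fch_kap {p th m K : ℝ} (hth : 0 < th) (hm : 0 ≤ m) (hK : 1 ≤ K) (h1 : 1 ≤ K * p)
    (h2 : th * m ^ 2 ≤ K) : m ≤ K * √(p / th) := by
  have e : K * √(p / th) = √(K ^ 2 * (p / th)) := by
    rw [Real.sqrt_mul (sq_nonneg K), Real.sqrt_sq (by linarith)]
  rw [e]
  refine Real.le_sqrt_of_sq_le ?_
  rw [← mul_div_assoc, le_div_iff₀ hth]
  have := mul_le_mul_of_nonneg_left h1 (by linarith : (0 : ℝ) ≤ K)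
  have := hm
  nlinarith

theorem rfch : rFCH := by
  intro hD X ψ F C θf Kf Cj u H b hb τ hτ
  have R := H.prof.on τ hτ
  have hψ := H.geo.pot
  have d0 : ∀ t ∈ Icc 0 τ, ∀ s, HasDerivAt (fun s => u s t) (UJ u 1 s t) s := fun t ht s => by
    simpa only [UJ, iteratedDeriv_zero] using R.rad.ds 0 (by norm_num) s t ht
  obtain ⟨M, ρ, K, hρ, -, hN⟩ := H.geo.n1 1 one_pos
  have hC := H.prof.cst.1
  obtain ⟨K0, hK0⟩ : ∃ K0, K0 = Kf τ (-b) := ⟨_, rfl⟩
  have hK01 : 1 ≤ K0 := hK0 ▸ H.prof.cst.2.2 _ _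
  obtain ⟨K', hK'⟩ : ∃ K', K' = 1 + C * |K| + |K| * (1 + b) * K0 := ⟨_, rfl⟩
  have c1 : 0 ≤ C * |K| := by positivity
  have c2 : 0 ≤ |K| * (1 + b) * K0 := by positivity
  obtain ⟨r0, hr0, Λ, hB⟩ := hD (fun k => K' ^ 2 * |M k|) Cj ρ hρ
  have key : ∀ k, ∃ B, ∀ t ∈ Icc 0 τ, ∀ i, ∀ x ∈ ball (0 : V) 1,
      EllH (Λ * K0) (lv (FF ψ u b t ∘ F.Φ i) x) ∧ ∀ l : List (Fin 4), l.length ≤ k → ∀ α : Fin 4,
        |DL l (fun y => lv (FF ψ u b t ∘ F.Φ i) y α) x| ≤ B := by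
    intro k
    obtain ⟨B, hB⟩ := hB k
    refine ⟨|B|, fun t ht i x hx => ?_⟩
    have h1 : 1 ≤ ψ (F.Φ i x) := H.one _ ((F.par i).mem (ball_subset_ball one_le_two hx))
    obtain ⟨κ, hκ, hn, -, k1, k2⟩ := hN i x hx h1
    have hl : 0 ≤ Real.log (ψ (F.Φ i x)) := Real.log_nonneg h1
    rw [max_eq_left hl] at k1 k2
    obtain ⟨s, hs⟩ : ∃ s, s = Real.log (ψ (F.Φ i x)) - b := ⟨_, rfl⟩
    obtain ⟨p1, p2, p3⟩ := R.est.pos s t ht
    obtain ⟨l1, l2⟩ := (R.est.lo τ (-b) le_rfl hτ.2 t ht).2 s (by linarith)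
    rw [← hK0] at l1 l2
    have hm : 0 ≤ max s 0 := le_max_right _ _
    have hms : s ≤ max s 0 := le_max_left _ _
    have hp : 0 < UJ u 1 s t := p1.trans_le p2
    have hp1 : UJ u 1 s t ≤ 1 := by
      have := ht.1
      unfold R48.zz at p3
      linarith
    have q0 : 0 < kap (UJ u) s t := Real.sqrt_pos.2 (div_pos hp p1)
    have q1 : κ ≤ K' * kap (UJ u) s t := by
      have a1 : 1 + max s 0 ≤ K0 * kap (UJ u) s t := fch_kap p1 (by linarith) hK01 l1 l2
      have a2 : 1 + Real.log (ψ (F.Φ i x)) ≤ (1 + b) * (1 + max s 0) := by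
        have := mul_nonneg hb hm
        linarith
      calc κ ≤ |K| * ((1 + b) * (K0 * kap (UJ u) s t)) :=
            k1.trans (mul_le_mul (le_abs_self _)
              (a2.trans (mul_le_mul_of_nonneg_left a1 (by linarith))) (by linarith)
              (abs_nonneg _))
        _ = |K| * (1 + b) * K0 * kap (UJ u) s t := by ring
        _ ≤ _ := mul_le_mul_of_nonneg_right (by linarith) q0.le
    have q2 : kap (UJ u) s t ≤ K' * κ := by
      have a1 : 1 + max s 0 ≤ |K| * κ := by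
        have : max s 0 ≤ Real.log (ψ (F.Φ i x)) := max_le (by linarith) hl
        have := mul_le_mul_of_nonneg_right (le_abs_self K) hκ.le
        linarith
      calc kap (UJ u) s t ≤ C * (|K| * κ) :=
            (R.est.kle s t ht).trans (mul_le_mul_of_nonneg_left a1 (by linarith))
        _ = C * |K| * κ := by ring
        _ ≤ _ := mul_le_mul_of_nonneg_right (by linarith) hκ.le
    have hn' := fch_nice (b := b) hn hκ q0 (by linarith) q1 q2
    have hs0 : Real.log (ψ (F.Φ i (x + 0))) - b = s := by rw [add_zero, hs]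
    obtain ⟨b1, b2⟩ := hB (fun s => u s t) (fun y => Real.log (ψ (F.Φ i (x + y))) - b)
      (H.prof.pb t ⟨ht.1, ht.2.trans_lt hτ.2⟩) (by rw [hs0]; exact hn')
    rw [hs0] at b1 b2
    have e1 : ∀ y, lv ((fun s => u s t) ∘ fun y => Real.log (ψ (F.Φ i (x + y))) - b) y =
        lv (FF ψ u b t ∘ F.Φ i) (x + y) := fun y => by
      rw [← fch_lv_shift]
      exact (lv_sub_const _ (2 * b * t) y).symm
    have h00 : (0 : V) ∈ ball (0 : V) r0 := mem_ball_self hr0.1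
    constructor
    · have := b2 0 h00
      rw [e1, add_zero] at this
      exact fch_ell this hp hp1 l1
    · intro l hlk α
      have := b1 l hlk α 0 h00
      simp only [e1] at this
      rw [fch_DL_shift x (fun y => lv (FF ψ u b t ∘ F.Φ i) y α) l] at this
      simp only [add_zero] at this
      refine this.trans ((le_abs_self _).trans ?_)
      rw [abs_mul]
      exact mul_le_of_le_one_right (abs_nonneg _) (abs_le.2 ⟨by
        have : (-1 : ℝ) ≤ UJ u 1 s t := by linarith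
        exact this, hp1⟩)
  refine ⟨fun N U P => ?_, fun t ht N U P x hx => ?_, ?_, fun k => ?_⟩
  · have s1 : ContDiffOn ℝ ∞ (fun q : ℝ × V => (ψ ∘ N) q.2) (Icc 0 τ ×ˢ U) :=
      (hψ.rf.1 N U P).comp contDiffOn_snd fun q hq => hq.2
    have s2 : ContDiffOn ℝ ∞ (fun q : ℝ × V => (Real.log ((ψ ∘ N) q.2) - b, q.1))
        (Icc 0 τ ×ˢ U) :=
      ((s1.log fun q hq => (one_pos.trans_le (H.one _ (P.mem hq.2))).ne').sub
        contDiffOn_const).prodMk contDiffOn_fst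
    exact (R.sm.comp s2 fun q hq => ⟨mem_univ _, hq.1⟩).sub (contDiffOn_const.mul contDiffOn_fst)
  · obtain ⟨p1, p2, -⟩ := R.est.pos (Real.log (ψ (N x)) - b) t ht
    exact fch_pos (g := fun s => u s t) (g' := fun s => UJ u 1 s t) (b := b) (c := 2 * b * t)
      hψ P hx (one_pos.trans_le (H.one _ (P.mem hx))) (d0 t ht)
      (R.rad.ds 1 (by norm_num) _ t ht) p1 p2
  · obtain ⟨B, hB⟩ := key 0
    exact ⟨Λ * K0, fun t ht i x hx => (hB t ht i x hx).1⟩
  · obtain ⟨B, hB⟩ := key k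
    exact ⟨B, fun t ht i l hl α x hx => (hB t ht i x hx).2 l hl α⟩

end Pool.Agent.MP_67f0e4_gt.K
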