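import Pool.Agent.MP_67f0e4_gt.K.Spec
import Pool.Agent.MP_67f0e4_gt.K.Chart

/-! The comparison family on the inner ball. -/

open Set Metric Filter Topology
open scoped ContDiff

namespace Pool.Agent.MP_67f0e4_gt.K

theorem fcl_lv {g g1 g2 : ℝ → ℝ} (h1 : ∀ s, HasDerivAt g (g1 s) s)
    (h2 : ∀ s, HasDerivAt g1 (g2 s) s) {f : V → ℝ} {x : V} (hf : ContDiffAt ℝ 2 f x)
    (h0 : 0 < f x) (b k : ℝ) : lv (fun y => g (Real.log (f y) - b) - k) x =
      (g1 (Real.log (f x) - b) / f x) • lv f x +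
        ((g2 (Real.log (f x) - b) - g1 (Real.log (f x) - b)) / f x ^ 2) • rk f x := by
  refine lv_comp (u := fun r => g (Real.log r - b) - k) (u' := fun r => g1 (Real.log r - b) / r)
    ((eventually_ne_nhds h0.ne').mono fun r hr => ?_) ?_ hf
  · exact (((h1 _).comp r ((Real.hasDerivAt_log hr).sub_const b)).sub_const k).congr_deriv
      (div_eq_mul_inv _ _).symm
  · refine ((((h2 _).comp (f x) ((Real.hasDerivAt_log h0.ne').sub_const b))).div
      (hasDerivAt_id (f x)) h0.ne').congr_deriv ?_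
    simp only [Function.comp_apply, id]
    rw [inv_mul_cancel_right₀ h0.ne', mul_one]

theorem fcl_cl {G r : Hm} {p θ ψ c d : ℝ} (hG : Pos G) (hr : NN r) (hψ : 0 < ψ)
    (hq : hmix G r ≤ ψ * hdet G) (h1 : (1 - d) * (c * ψ) ≤ θ) (h2 : θ ≤ p) (h3 : p ≤ c * ψ)
    (hd : 0 ≤ d) (hc : 0 ≤ c) : Cl d ((p / ψ) • G + ((θ - p) / ψ ^ 2) • r) (c • G) := by
  have key : ∀ v, qf r v ≤ ψ * qf G v := fun v => (qf_le_tr hG hr v).trans
    (mul_le_mul_of_nonneg_right ((div_le_iff₀ hG.det).2 hq) (hG.nn v))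
  have hn : (θ - p) / ψ ^ 2 ≤ 0 := div_nonpos_of_nonpos_of_nonneg (by linarith) (by positivity)
  refine cl_of (fun v => ?_) fun v => ?_
  · rw [qf_add, qf_smul, qf_smul, qf_smul]
    have a := mul_le_mul_of_nonpos_left (key v) hn
    have b : p / ψ * qf G v + (θ - p) / ψ ^ 2 * (ψ * qf G v) = θ / ψ * qf G v := by
      field_simp
      ring
    have e := mul_le_mul_of_nonneg_right
      ((le_div_iff₀ hψ).2 ((mul_assoc _ _ _).trans_le h1)) (hG.nn v)
    linarith
  · rw [qf_add, qf_smul, qf_smul, qf_smul]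
    have a := mul_nonpos_of_nonpos_of_nonneg hn (hr v)
    have b := mul_le_mul_of_nonneg_right ((div_le_iff₀ hψ).2 h3) (hG.nn v)
    have e := mul_nonneg hd (mul_nonneg hc (hG.nn v))
    linarith

theorem fcl_osc {g g1 : ℝ → ℝ} (h1 : ∀ s, HasDerivAt g (g1 s) s) {c d A : ℝ} (hc : 0 < c)
    (hd : 0 ≤ d) (h : ∀ s, c * Real.exp s ≤ A →
      (1 - d) * (c * Real.exp s) ≤ g1 s ∧ g1 s ≤ c * Real.exp s) {s s' : ℝ} (hs : s ≤ s')
    (hA : c * Real.exp s' ≤ A) :
    |(g s - c * Real.exp s) - (g s' - c * Real.exp s')| ≤ d * A := by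
  have hm : ∀ r ∈ interior (Iic s'), c * Real.exp r ≤ A := fun r hr =>
    (mul_le_mul_of_nonneg_left (Real.exp_le_exp.2 (mem_Iic.1 (interior_subset hr))) hc.le).trans hA
  have hk : ∀ (k r : ℝ), HasDerivAt (fun r => g r - k * (c * Real.exp r))
      (g1 r - k * (c * Real.exp r)) r := fun k r =>
    (h1 r).sub (((Real.hasDerivAt_exp r).const_mul c).const_mul k)
  have a := antitoneOn_of_deriv_nonpos (convex_Iic s')
    (fun r _ => (hk 1 r).continuousAt.continuousWithinAt)
    (fun r _ => (hk 1 r).differentiableAt.differentiableWithinAt)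
    (fun r hr => by rw [(hk 1 r).deriv]; linarith [(h r (hm r hr)).2]) hs self_mem_Iic hs
  have b := monotoneOn_of_deriv_nonneg (convex_Iic s')
    (fun r _ => (hk (1 - d) r).continuousAt.continuousWithinAt)
    (fun r _ => (hk (1 - d) r).differentiableAt.differentiableWithinAt)
    (fun r hr => by rw [(hk (1 - d) r).deriv]; linarith [(h r (hm r hr)).1]) hs self_mem_Iic hs
  simp only at a b
  have e1 := mul_le_mul_of_nonneg_left hA hd
  have e2 := mul_nonneg hd (mul_pos hc (Real.exp_pos s)).le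
  have e3 := mul_nonneg hd (mul_pos hc (Real.exp_pos s')).le
  rw [abs_le]
  constructor <;> linarith

theorem fcl : FCL := by
  intro C θf Kf hC
  have c1 := hC.1
  refine ⟨4 * C, by linarith, fun X ψ τ u b hP hR t ht th h0 h1 => ?_⟩
  have hth : th ≤ 1 / 4 := by nlinarith
  have hd : 0 ≤ C * th := by positivity
  have hc := (hR.est.cpos t ht).1
  have d1 : ∀ s, HasDerivAt (fun s => u s t) (UJ u 1 s t) s := fun s => by
    simpa only [UJ, iteratedDeriv_zero] using hR.rad.ds 0 (by norm_num) s t ht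
  have d2 : ∀ s, HasDerivAt (fun s => UJ u 1 s t) (UJ u 2 s t) s := fun s =>
    hR.rad.ds 1 (by norm_num) s t ht
  have he : ∀ r, 0 < r → cc (UJ u) t * Real.exp (Real.log r - b) = ct u b t * r := fun r hr => by
    rw [ct, sub_eq_add_neg, Real.exp_add, Real.exp_log hr]
    ring
  have hb : ∀ s, cc (UJ u) t * Real.exp s ≤ th * (1 - 2 * t) ^ 2 →
      (1 - 4 * C * th) * (cc (UJ u) t * Real.exp s) ≤ UJ u 2 s t := fun s hs => by
    refine le_trans (mul_le_mul_of_nonneg_right ?_ (by positivity)) (hR.est.tip s t ht th hth hs)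
    linarith
  refine ⟨fun p _ hp hs N U P x hx e => ?_, fun p _ p' _ hp hp' hs hs' => ?_⟩
  · subst e
    have a := fcl_lv d1 d2 (hP.rf.1.at2 P hx) hp b (2 * b * t)
    have a' := lv_const_mul (ct u b t) (ψ ∘ N) x
    obtain ⟨Cq, hq⟩ := hP.qb
    refine (congrArg₂ (Cl (4 * C * th)) a a').mpr (fcl_cl (hP.rf.2 N U P x hx).1 (nn_rk _ _) hp
      (hq N U P x hx).2 ?_ (hR.est.pos _ t ht).2.1 ?_ (by positivity) ?_)
    · have h3 := hb _ ((he _ hp).trans_le hs)
      rwa [he _ hp] at h3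
    · exact (hR.est.cup _ t ht).trans_eq (he _ hp)
    · exact (mul_pos hc (Real.exp_pos _)).le
  · have key := fun s s' => fcl_osc (s := s) (s' := s') d1 hc (d := 4 * C * th) (by positivity)
      fun s hs => ⟨(hb s hs).trans (hR.est.pos s t ht).2.1, hR.est.cup s t ht⟩
    rw [← he _ hp] at hs ⊢
    rw [← he _ hp'] at hs' ⊢
    simp only [FF]
    rcases le_total (Real.log (ψ p) - b) (Real.log (ψ p') - b) with h | h
    · refine le_trans (le_of_eq (congrArg _ ?_)) (key _ _ h hs')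
      ring
    · refine le_trans (le_of_eq ((abs_sub_comm _ _).trans (congrArg _ ?_))) (key _ _ h hs)
      ring

end Pool.Agent.MP_67f0e4_gt.K
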