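import Pool.Agent.MP_67f0e4_gt.K.Kit
import Pool.Agent.MP_67f0e4_gt.K.WB

/-! Row HIGH: profile bounds of all orders for the radial flow. -/

set_option autoImplicit false

open Set Metric Filter Topology
open scoped ContDiff

noncomputable section

namespace Pool.Agent.MP_67f0e4_gt.K

/-- the global chart of the plane -/
def hgN (q : V) : C3 := (q.1, q.2, q.1 * q.2)

/-- logarithmic coordinates, the first one stretched -/
def hgT (s κ : ℝ) (y : V) : V :=
  (Complex.exp ((s / 2 : ℝ) + κ * y.1), y.2 * Complex.exp ((s / 2 : ℝ) + κ * y.1))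

def hgf (y : V) : ℝ := 1 + (y.2.re ^ 2 + y.2.im ^ 2)

def hgs (s κ : ℝ) (y : V) : ℝ := 2 * κ * y.1.re + Real.log (hgf y) + s

theorem hg_mem (q : V) : hgN q ∈ Xs a0 := by simp [Xs, hgN, Pz, a0]

theorem hg_par : Par (Xs a0) hgN univ := by
  refine ⟨isOpen_univ, ?_, fun q _ => hg_mem q, fun x _ v w h => ?_⟩
  · exact (contDiff_fst.prodMk (contDiff_snd.prodMk (contDiff_fst.mul contDiff_snd))).contDiffOn
  · have hd := (hasFDerivAt_fst (𝕜 := ℂ) (p := x)).prodMk ((hasFDerivAt_snd (𝕜 := ℂ)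
      (p := x)).prodMk ((hasFDerivAt_fst (𝕜 := ℂ) (p := x)).mul hasFDerivAt_snd))
    have e : fderiv ℂ hgN x = _ := hd.fderiv
    rw [e] at h
    exact Prod.ext (congrArg (fun p : C3 => p.1) h) (congrArg (fun p : C3 => p.2.1) h)

theorem hg_parT (s : ℝ) {κ : ℝ} (hκ : κ ≠ 0) : Par (Xs a0) (hgN ∘ hgT s κ) (ball 0 1) := by
  have c1 : ContDiff ℂ ∞ fun y : V => Complex.exp ((s / 2 : ℝ) + κ * y.1) :=
    (contDiff_const.add (contDiff_const.mul contDiff_fst)).cexp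
  refine hg_par.comp isOpen_ball (c1.prodMk (contDiff_snd.mul c1)).contDiffOn
    (mapsTo_univ _ _) fun y _ v w h => ?_
  have h1 := (((hasFDerivAt_fst (𝕜 := ℂ) (p := y)).const_mul (κ : ℂ)).const_add
    ((s / 2 : ℝ) : ℂ)).cexp
  have e : fderiv ℂ (hgT s κ) y = _ := (h1.prodMk (hasFDerivAt_snd.mul h1)).fderiv
  rw [e] at h
  have hE := Complex.exp_ne_zero ((s / 2 : ℝ) + κ * y.1)
  have a1 := congrArg Prod.fst h
  have a2 := congrArg Prod.snd h
  simp only [ContinuousLinearMap.prod_apply, smul_apply, smul_eq_mul,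
    ContinuousLinearMap.coe_fst', add_apply, ContinuousLinearMap.coe_snd']
    at a1 a2
  have b1 : v.1 = w.1 :=
    mul_left_cancel₀ (Complex.ofReal_ne_zero.2 hκ) (mul_left_cancel₀ hE a1)
  rw [b1] at a2
  exact Prod.ext b1 (mul_left_cancel₀ hE (add_left_cancel a2))

theorem hgf_pos (y : V) : 0 < hgf y := by unfold hgf; positivity

theorem hg_psi (h : PSI1) (s κ : ℝ) (y : V) :
    psi a0 (hgN (hgT s κ y)) = Real.exp (hgs s κ y) := by
  rw [h _ (hg_mem _), hgs, Real.exp_add, Real.exp_add, Real.exp_log (hgf_pos y)]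
  simp only [hgN, hgT, norm_mul, Complex.norm_exp, mul_pow, hgf]
  have e : Real.exp (((s / 2 : ℝ) : ℂ) + κ * y.1).re ^ 2 =
      Real.exp (2 * κ * y.1.re) * Real.exp s := by
    rw [← Real.exp_nat_mul, ← Real.exp_add]
    congr 1
    simp only [Complex.add_re, Complex.ofReal_re, Complex.re_ofReal_mul]
    push_cast
    ring
  rw [e, Complex.sq_norm, Complex.normSq_apply]
  ring

theorem hg_re1 : ContDiff ℝ ∞ fun y : V => y.1.re := Complex.reCLM.contDiff.comp contDiff_fst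

theorem hgf_sm : ContDiff ℝ ∞ hgf :=
  contDiff_const.add (((Complex.reCLM.contDiff.comp contDiff_snd).pow 2).add
    ((Complex.imCLM.contDiff.comp contDiff_snd).pow 2))

theorem hgL_sm : ContDiff ℝ ∞ fun y => Real.log (hgf y) := hgf_sm.log fun y => (hgf_pos y).ne'

theorem hgs_sm (s κ : ℝ) : ContDiff ℝ ∞ (hgs s κ) :=
  ((contDiff_const.mul hg_re1).add hgL_sm).add contDiff_const

theorem hg_D_lin (A : V →L[ℝ] ℝ) (v : V) : D v (fun y => A y) = fun _ => A v :=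
  funext fun _ => D_of_has A.hasFDerivAt v

theorem hg_D_re1 (v : V) : D v (fun y : V => y.1.re) = fun _ => v.1.re :=
  hg_D_lin (Complex.reCLM.comp (ContinuousLinearMap.fst ℝ ℂ ℂ)) v

theorem hg_Df (v : V) : D v hgf = fun y => 2 * v.2.re * y.2.re + 2 * v.2.im * y.2.im := by
  funext y
  have h2 := (Complex.reCLM.comp (ContinuousLinearMap.snd ℝ ℂ ℂ)).hasFDerivAt (x := y)
  have h3 := (Complex.imCLM.comp (ContinuousLinearMap.snd ℝ ℂ ℂ)).hasFDerivAt (x := y)
  have h : HasFDerivAt hgf _ y := ((h2.pow 2).add (h3.pow 2)).const_add 1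
  rw [D_of_has h]
  simp
  ring

theorem hg_DDf (v w y : V) : D w (D v hgf) y = 2 * v.2.re * w.2.re + 2 * v.2.im * w.2.im := by
  have h2 := (Complex.reCLM.comp (ContinuousLinearMap.snd ℝ ℂ ℂ)).hasFDerivAt (x := y)
  have h3 := (Complex.imCLM.comp (ContinuousLinearMap.snd ℝ ℂ ℂ)).hasFDerivAt (x := y)
  have h : HasFDerivAt (fun y : V => 2 * v.2.re * y.2.re + 2 * v.2.im * y.2.im) _ y :=
    (h2.const_mul (2 * v.2.re)).add (h3.const_mul (2 * v.2.im))
  rw [hg_Df, D_of_has h]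
  simp

theorem hg_Ds (s κ : ℝ) (v y : V) : D v (hgs s κ) y =
    2 * κ * v.1.re + (hgf y)⁻¹ * (2 * v.2.re * y.2.re + 2 * v.2.im * y.2.im) := by
  have d1 : DifferentiableAt ℝ (fun y : V => 2 * κ * y.1.re) y :=
    (contDiff_const.mul hg_re1).differentiable (by simp) y
  have e : hgs s κ = fun y => 2 * κ * y.1.re + Real.log (hgf y) + s := rfl
  rw [e, D_add_const, D_add d1 (hgL_sm.differentiable (by simp) y), D_const_mul, hg_D_re1,
    D_comp (Real.hasDerivAt_log (hgf_pos y).ne') (hgf_sm.differentiable (by simp) y), hg_Df]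

theorem hg_lvs (s κ : ℝ) (y : V) : lv (hgs s κ) y = lv (fun y => Real.log (hgf y)) y := by
  have e : hgs s κ = fun y => 2 * κ * y.1.re + Real.log (hgf y) + s := rfl
  have z : lv (fun y : V => y.1.re) y = 0 := by
    funext α
    fin_cases α <;> simp [lv, lev, hg_D_re1, D_const]
  rw [e, lv_add_const, lv_add ((contDiff_const.mul hg_re1).contDiffAt.of_le two_le_inf)
    (hgL_sm.contDiffAt.of_le two_le_inf), lv_const_mul, z, smul_zero, zero_add]

theorem hg_qf (s κ : ℝ) (y v : V) :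
    qf (lv (hgs s κ) y) v = 4 * (v.2.re ^ 2 + v.2.im ^ 2) / hgf y ^ 2 := by
  have h2 : ContDiffAt ℝ 2 hgf y := hgf_sm.contDiffAt.of_le two_le_inf
  have h0 := (hgf_pos y).ne'
  rw [hg_lvs, lv_log h2 h0, qf_sub, qf_smul, qf_smul, qf_lv h2, qf_rk, lev, hg_DDf, hg_DDf, hg_Df,
    hg_Df]
  simp only [Prod.smul_snd, smul_eq_mul, Complex.I_mul_re, Complex.I_mul_im]
  field_simp
  rw [hgf]
  ring

theorem hg_words {f : V → ℝ} (hf : ContDiff ℝ ∞ f) : ∃ W : ℕ → ℝ, (∀ n, 0 ≤ W n) ∧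
    ∀ n, ∀ l : List (Fin 4), l.length ≤ n → ∀ x ∈ ball (0 : V) 1, |DL l f x| ≤ W n := by
  have h : ∀ n, ∃ M, ∀ l : List (Fin 4), l.length ≤ n → ∀ x ∈ ball (0 : V) 1, |DL l f x| ≤ M := by
    intro n
    obtain ⟨M, hM⟩ := (WK.of_words (U := fun _ : Unit => ball (0 : V) 1) (f := fun _ => f) (n := n)
      (fun _ => isOpen_ball) (fun _ => hf.contDiffOn) fun l _ => by
        obtain ⟨M, hM⟩ := (isCompact_closedBall (0 : V) 1).exists_bound_of_continuousOn
          (f := DL l f) fun x _ => (DL_smooth hf.contDiffAt l).continuousAt.continuousWithinAt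
        exact ⟨M, fun _ x hx => hM x (ball_subset_closedBall hx)⟩).words
    exact ⟨M, fun l hl => hM l hl ()⟩
  choose W hW using h
  exact ⟨W, fun n => (abs_nonneg _).trans (hW n [] (Nat.zero_le _) 0 (mem_ball_self one_pos)), hW⟩

theorem hg_nice : ∃ M : ℕ → ℝ, ∀ s κ : ℝ, 1 ≤ κ → Nice M κ 1 (hgs s κ) := by
  obtain ⟨W, W0, hW⟩ := hg_words hgL_sm
  obtain ⟨W', W0', hW'⟩ := hg_words hg_re1
  refine ⟨fun k => 2 + 2 * W' k + W k + 2 * W (k + 2), fun s κ hκ =>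
    ⟨(hgs_sm s κ).contDiffOn, fun l hl x hx => ?_, fun k => ?_, fun x _ v => ?_, fun x hx v => ?_⟩⟩
  · have e : hgs s κ = fun y => 2 * κ * y.1.re + Real.log (hgf y) + s := rfl
    rw [e, DL_add_const hl, DL_add (contDiff_const.mul hg_re1).contDiffAt hgL_sm.contDiffAt,
      DL_const_mul]
    have a1 := hW _ l le_rfl x hx
    have a2 := hW' _ l le_rfl x hx
    have a3 := le_mul_of_one_le_right (W0 l.length) hκ
    have a4 : 0 ≤ W (l.length + 2) * κ := mul_nonneg (W0 _) (by linarith)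
    have a5 := mul_le_mul_of_nonneg_left a2 (by linarith : 0 ≤ 2 * κ)
    refine (abs_add_le _ _).trans ?_
    rw [abs_mul, abs_of_nonneg (by linarith : 0 ≤ 2 * κ)]
    linarith
  · have := wb_LB isOpen_ball hgL_sm.contDiffOn (k := k) fun l _ hl => hW (k + 2) l hl
    refine (this.congr_lv fun y _ => Eventually.of_forall (hg_lvs s κ)).mono le_rfl ?_ subset_rfl
    have := W0 k
    have := W0' k
    linarith
  · rw [hg_qf]
    positivity
  · have hf := hgf_pos x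
    have hm : x.2.re ^ 2 + x.2.im ^ 2 ≤ 1 := by
      have h1 : ‖x.2‖ ≤ 1 := (norm_snd_le x).trans (mem_ball_zero_iff.1 hx).le
      have h2 := pow_le_one₀ (n := 2) (norm_nonneg _) h1
      rw [Complex.sq_norm, Complex.normSq_apply] at h2
      linarith
    have hf2 : hgf x ^ 2 ≤ 4 := by
      have : hgf x ≤ 2 := by unfold hgf; linarith
      nlinarith
    have hn : 0 ≤ v.2.re ^ 2 + v.2.im ^ 2 := by positivity
    have a1 : v.2.re ^ 2 + v.2.im ^ 2 ≤ qf (lv (hgs s κ) x) v := by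
      rw [hg_qf, le_div_iff₀ (by positivity)]
      nlinarith
    have a2 : 2 * (v.1.re ^ 2 + v.1.im ^ 2) - (v.2.re ^ 2 + v.2.im ^ 2) ≤
        qf (rk (hgs s κ) x) v / κ ^ 2 := by
      rw [qf_rk, hg_Ds, hg_Ds, le_div_iff₀ (by positivity)]
      simp only [Prod.smul_snd, Prod.smul_fst, smul_eq_mul, Complex.I_mul_re, Complex.I_mul_im]
      obtain ⟨α, hα⟩ : ∃ α, α = (hgf x)⁻¹ * (2 * v.2.re * x.2.re + 2 * v.2.im * x.2.im) :=
        ⟨_, rfl⟩
      obtain ⟨β, hβ⟩ : ∃ β, β = (hgf x)⁻¹ * (2 * -v.2.im * x.2.re + 2 * v.2.re * x.2.im) :=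
        ⟨_, rfl⟩
      have b1 : α ^ 2 + β ^ 2 =
          4 * (x.2.re ^ 2 + x.2.im ^ 2) / hgf x ^ 2 * (v.2.re ^ 2 + v.2.im ^ 2) := by
        rw [hα, hβ]
        field_simp
        ring
      have b2 : 4 * (x.2.re ^ 2 + x.2.im ^ 2) / hgf x ^ 2 ≤ 1 := by
        rw [div_le_one (by positivity), hgf]
        nlinarith [sq_nonneg (1 - (x.2.re ^ 2 + x.2.im ^ 2))]
      have b3 := mul_le_of_le_one_left hn b2
      have b4 := le_mul_of_one_le_right hn (one_le_pow₀ (n := 2) hκ)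
      rw [← hα, ← hβ]
      nlinarith [sq_nonneg (κ * v.1.re + α), sq_nonneg (κ * -v.1.im + β)]
    have a3 := qf_one_ge v
    rw [qf_one, Complex.sq_norm v.1, Complex.sq_norm v.2, Complex.normSq_apply,
      Complex.normSq_apply] at a3
    have a4 : 0 ≤ qf (rk (hgs s κ) x) v / κ ^ 2 := div_nonneg (nn_rk _ _ _) (sq_nonneg _)
    have a5 : 0 ≤ (2 * W' 0 + W 0 + 2 * W (0 + 2)) *
        (qf (rk (hgs s κ) x) v / κ ^ 2 + qf (lv (hgs s κ) x) v) := by
      have := W0 0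
      have := W0' 0
      have := W0 (0 + 2)
      exact mul_nonneg (by linarith) (by linarith)
    linarith

theorem hg_D0 {g : ℝ → ℝ} (hg : ContDiff ℝ ∞ g) (s κ : ℝ) (j : ℕ) :
    D (e 0) (fun y => iteratedDeriv j g (hgs s κ y)) =
      (fun y => 2 * κ * iteratedDeriv (j + 1) g (hgs s κ y)) ∧
    D (e 1) (fun y => iteratedDeriv j g (hgs s κ y)) = fun _ => 0 := by
  have hd : ∀ r, HasDerivAt (iteratedDeriv j g) (iteratedDeriv (j + 1) g r) r := fun r => by
    rw [iteratedDeriv_succ]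
    exact ((hg.differentiable_iteratedDeriv j (by exact_mod_cast ENat.natCast_lt_top j)) r).hasDerivAt
  constructor <;> funext y <;>
    rw [D_comp (hd _) ((hgs_sm s κ).differentiable (by simp) y), hg_Ds] <;> simp [e]
  ring

theorem hg_DL {g : ℝ → ℝ} (hg : ContDiff ℝ ∞ g) (s κ : ℝ) (j : ℕ) :
    DL (List.replicate j 0) (fun y => lv (fun y => g (hgs s κ y)) y 0) =
      fun y => (2 * κ) ^ (j + 2) * iteratedDeriv (j + 2) g (hgs s κ y) := by
  induction j with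
  | zero =>
    funext y
    have h0 := hg_D0 hg s κ 0
    rw [iteratedDeriv_zero] at h0
    have e0 : lv (fun y => g (hgs s κ y)) y 0 = D (e 0) (D (e 0) fun y => g (hgs s κ y)) y +
        D (e 1) (D (e 1) fun y => g (hgs s κ y)) y := by
      rw [← I_e0]; rfl
    simp only [List.replicate, DL]
    rw [e0, h0.1, h0.2, D_const, D_const_mul, (hg_D0 hg s κ (0 + 1)).1]
    ring
  | succ j ih =>
    simp only [List.replicate, DL]
    rw [ih, D_const_mul, (hg_D0 hg s κ (j + 2)).1]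
    funext y
    ring

theorem hg_lim {C : ℝ} {θf : ℝ → ℝ} {Kf : ℝ → ℝ → ℝ} {τ t : ℝ} {U : ℕ → ℝ → ℝ → ℝ}
    (E : Est C θf Kf τ U) (ht : t ∈ Icc 0 τ) (h2 : t < 1 / 2) :
    Tendsto (fun s => Real.log (U 1 s t * U 2 s t) - 2 * s) atBot
      (𝓝 (2 * Real.log (cc U t))) := by
  have hc := (E.cpos t ht).1
  have ha : 0 < (1 - 2 * t) ^ 2 := pow_pos (by linarith) 2
  have l0 : Tendsto (fun s => cc U t * Real.exp s / (1 - 2 * t) ^ 2) atBot (𝓝 0) := by
    simpa using (Real.tendsto_exp_atBot.const_mul (cc U t)).div_const ((1 - 2 * t) ^ 2)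
  have l1 : Tendsto (fun s => (1 - C * (cc U t * Real.exp s / (1 - 2 * t) ^ 2)) * cc U t) atBot
      (𝓝 (cc U t)) := by
    simpa using ((l0.const_mul C).const_sub 1).mul_const (cc U t)
  have b : ∀ᶠ s in atBot, (1 - C * (cc U t * Real.exp s / (1 - 2 * t) ^ 2)) * cc U t ≤
      U 2 s t / Real.exp s := by
    filter_upwards [l0.eventually_le_const (by norm_num : (0 : ℝ) < 1 / 4)] with s hs
    rw [le_div_iff₀ (Real.exp_pos s), mul_assoc]
    exact E.tip s t ht _ hs (div_mul_cancel₀ _ ha.ne').ge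
  have b1 : ∀ s, U 2 s t / Real.exp s ≤ U 1 s t / Real.exp s := fun s =>
    div_le_div_of_nonneg_right (E.pos s t ht).2.1 (Real.exp_pos s).le
  have b2 : ∀ s, U 1 s t / Real.exp s ≤ cc U t := fun s =>
    (div_le_iff₀ (Real.exp_pos s)).2 (E.cup s t ht)
  have l2 : Tendsto (fun s => U 2 s t / Real.exp s) atBot (𝓝 (cc U t)) :=
    tendsto_of_tendsto_of_tendsto_of_le_of_le' l1 tendsto_const_nhds b
      (Eventually.of_forall fun s => (b1 s).trans (b2 s))
  have l3 : Tendsto (fun s => U 1 s t / Real.exp s) atBot (𝓝 (cc U t)) :=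
    tendsto_of_tendsto_of_tendsto_of_le_of_le l2 tendsto_const_nhds b1 b2
  rw [two_mul (Real.log _)]
  refine ((l3.log hc.ne').add (l2.log hc.ne')).congr fun s => ?_
  have p2 := (E.pos s t ht).1
  have p1 := p2.trans_le (E.pos s t ht).2.1
  rw [Real.log_div p1.ne' (Real.exp_pos s).ne', Real.log_div p2.ne' (Real.exp_pos s).ne',
    Real.log_mul p1.ne' p2.ne', Real.log_exp]
  ring

theorem hg_cd {C : ℝ} {θf : ℝ → ℝ} {Kf : ℝ → ℝ → ℝ} {τ : ℝ} {φ : ℝ → C3 → ℝ} {w0 : V → ℝ}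
    (R : ROn C θf Kf τ (ru φ)) (hτ : τ < 1 / 2)
    (P : PFlow (Icc 0 τ) univ (fun t => φ t ∘ hgN) w0) {t : ℝ} (ht : t ∈ Ioo 0 τ) :
    ∃ c', HasDerivAt (cc (UJ (ru φ))) c' t ∧ |c'| ≤ C * cc (UJ (ru φ)) t / (1 - 2 * t) ^ 2 := by
  have key : ∀ r ∈ Ioo 0 τ, cc (UJ (ru φ)) r =
      Real.exp (deriv (fun r => φ r (hgN 0)) r / 2) := by
    intro r hr
    have hr' := Ioo_subset_Icc_self hr
    have hn := Icc_mem_nhds hr.1 hr.2
    have c1 : ContinuousAt (fun x => Real.log (hdet (lv (φ r ∘ hgN) x)) - w0 x) 0 :=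
      ((hdet_smooth.continuous.continuousAt.comp
        (lv_smooth (P.sm.at isOpen_univ hr' (mem_univ _))).continuousAt).log
        (P.pos r hr' 0 (mem_univ _)).det.ne').sub
        (P.om.contDiffAt univ_mem).continuousAt
    have l1 : Tendsto (fun s : ℝ => ((((Real.exp (s / 2) : ℝ) : ℂ), 0) : V)) atBot (𝓝 0) := by
      have := (Complex.continuous_ofReal.tendsto 0).comp (Real.tendsto_exp_atBot.comp
        (tendsto_id.atBot_div_const (two_pos : (0 : ℝ) < 2)))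
      exact this.prodMk_nhds tendsto_const_nhds
    have e1 : ∀ s : ℝ, Real.log (hdet (lv (φ r ∘ hgN) (((Real.exp (s / 2) : ℝ) : ℂ), 0))) -
        w0 (((Real.exp (s / 2) : ℝ) : ℂ), 0) =
        Real.log (UJ (ru φ) 1 s r * UJ (ru φ) 2 s r) - 2 * s := fun s => by
      refine ((P.eq r hr' _ (mem_univ _)).hasDerivAt hn).unique ?_
      have := R.rad.dt s r hr
      have e : UJ (ru φ) 0 s = fun r => (φ r ∘ hgN) (((Real.exp (s / 2) : ℝ) : ℂ), 0) := by
        funext r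
        simp only [UJ, iteratedDeriv_zero, ru, Function.comp_apply, hgN, mul_zero]
      rwa [e] at this
    have e2 := tendsto_nhds_unique ((c1.tendsto.comp l1).congr e1)
      (hg_lim R.est hr' (hr.2.trans hτ))
    have e3 : deriv (fun r => φ r (hgN 0)) r = _ :=
      ((P.eq r hr' 0 (mem_univ _)).hasDerivAt hn).deriv
    rw [e3, e2, mul_div_cancel_left₀ _ two_ne_zero, Real.exp_log (R.est.cpos r hr').1]
  have ht' := Ioo_subset_Icc_self ht
  have s1 : ContDiffAt ℝ ∞ (fun r => φ r (hgN 0)) t :=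
    (P.sm.time (mem_univ 0)).contDiffAt (Icc_mem_nhds ht.1 ht.2)
  have s2 : DifferentiableAt ℝ (deriv fun r => φ r (hgN 0)) t :=
    (s1.derivWithin (m := 1) two_le_inf).differentiableAt one_ne_zero
  have s3 : DifferentiableAt ℝ (cc (UJ (ru φ))) t :=
    ((s2.div_const 2).exp).congr_of_eventuallyEq
      (eventually_of_mem (Ioo_mem_nhds ht.1 ht.2) key)
  have hc := (R.est.cpos t ht').1
  refine ⟨_, s3.hasDerivAt, ?_⟩
  have s4 := (hasDerivAt_iff_tendsto_slope.1 (s3.hasDerivAt.log hc.ne')).mono_left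
    (nhdsLT_le_nhdsNE t)
  have s5 : |deriv (cc (UJ (ru φ))) t / cc (UJ (ru φ)) t| ≤ C / (1 - 2 * t) ^ 2 := by
    refine le_of_tendsto s4.abs ?_
    filter_upwards [Ioo_mem_nhdsLT ht.1] with r hr
    have := R.est.clip t ht' r ⟨hr.1.le, (hr.2.trans ht.2).le⟩ hr.2.le
    have hp : 0 < t - r := sub_pos.2 hr.2
    rw [slope_def_field, abs_div, abs_sub_comm, abs_sub_comm r t, abs_of_pos hp, div_le_iff₀ hp]
    refine this.trans_eq ?_
    ring
  rw [abs_div, abs_of_pos hc, div_le_iff₀ hc] at s5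
  refine s5.trans_eq ?_
  ring

theorem rhigh : rHIGH := by
  rintro ⟨d, hd, hL⟩ ⟨Cj, hI⟩ ⟨C, θf, Kf, hC, hR⟩ h1 F U0 H φ h0 hG
  have hon : ∀ τ ∈ Ioo (0 : ℝ) (1 / 2), ROn C θf Kf τ (ru φ) := fun τ hτ =>
    have h := h1 F U0 H τ hτ φ (hG τ hτ) h0
    ⟨h.1, h.2.1, hR τ hτ _ h.2.1⟩
  have hsm : ∀ τ ∈ Ioo (0 : ℝ) (1 / 2), ∀ t ∈ Icc 0 τ, ContDiff ℝ ∞ fun s => ru φ s t :=
    fun τ hτ t ht => contDiffOn_univ.1 ((hon τ hτ).sm.comp
      (contDiff_id.prodMk contDiff_const).contDiffOn fun s _ => ⟨mem_univ _, ht⟩)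
  obtain ⟨M, hM⟩ := hg_nice
  obtain ⟨r0, hr0, hB⟩ := hL C θf Kf hC M 1 one_pos
  choose B hB using hB
  refine ⟨C, θf, Kf, fun j => max (Cj j) |B j|, hC, hon, fun t ht => ?_, fun t ht => ?_⟩
  · rcases ht.1.eq_or_lt with rfl | ht0
    · have q : (1 / 4 : ℝ) ∈ Ioo (0 : ℝ) (1 / 2) := by constructor <;> norm_num
      have P := hI (fun s => ru φ s 0) (hsm _ q 0 ⟨le_rfl, q.1.le⟩) fun s => by
        rw [← iteratedDeriv_one]
        exact (hon _ q).rad.init s
      exact ⟨P.sm, P.pos, fun j s => (P.bd j s).trans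
        (mul_le_mul_of_nonneg_right (le_max_left _ _) (P.pos s).1.le)⟩
    have hτ : t ∈ Ioo (0 : ℝ) (1 / 2) := ⟨ht0, ht.2⟩
    have R := hon t hτ
    have htt : t ∈ Icc 0 t := ⟨ht.1, le_rfl⟩
    refine ⟨hsm t hτ t htt, fun s => ⟨(R.est.pos s t htt).1, (R.est.pos s t htt).2.1⟩,
      fun j s => ?_⟩
    obtain ⟨p2, p1, -⟩ := R.est.pos s t htt
    obtain ⟨κ, hκ⟩ : ∃ κ, κ = kap (UJ (ru φ)) s t := ⟨_, rfl⟩
    have hκ1 : 1 ≤ κ := by
      rw [hκ]
      exact Real.one_le_sqrt.2 ((one_le_div p2).2 p1)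
    have hκ2 : κ ^ 2 * UJ (ru φ) 2 s t = UJ (ru φ) 1 s t := by
      rw [hκ, kap, Real.sq_sqrt (div_nonneg (p2.le.trans p1) p2.le), div_mul_cancel₀ _ p2.ne']
    have hs0 : hgs s κ 0 = s := by simp [hgs, hgf]
    have hrad : ∀ r ∈ Icc 0 t, φ r ∘ (hgN ∘ hgT s κ) = fun y => ru φ (hgs s κ y - 0) r := by
      intro r hr
      funext y
      have := (h1 F U0 H t hτ φ (hG t hτ) h0).2.2 r hr _ (hg_mem (hgT s κ y))
        (by rw [hg_psi H.psi1]; exact Real.exp_pos _)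
      rw [hg_psi H.psi1, Real.log_exp] at this
      rw [sub_zero]
      exact this
    have P := (hG t hτ).1 _ _ (hg_parT s (by linarith : κ ≠ 0))
    have hb := hB j t (ru φ) (hgs s κ) 0 _ _ ht0 R
      (by rw [hs0, sub_zero, ← hκ]; exact hM s κ hκ1) P
      (fun x _ => congrFun (hrad 0 ⟨le_rfl, ht.1⟩) x) (fun r hr x hx => by
        rw [← hrad r hr]
        exact (Cl.refl _).mono (P.pos r hr x hx).nn hd.le)
      (List.replicate j 0) (by simp) 0 0 (mem_ball_self hr0.1)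
    rw [hrad t htt] at hb
    simp only [sub_zero] at hb
    rw [hg_DL (hsm t hτ t htt) s κ j] at hb
    simp only [hs0] at hb
    rw [abs_mul, abs_of_nonneg (by positivity), ← hκ2] at hb
    change _ * kap (UJ (ru φ)) s t ^ j ≤ _ * UJ (ru φ) 2 s t
    rw [← hκ]
    have a1 : κ ^ (j + 2) ≤ (2 * κ) ^ (j + 2) := pow_le_pow_left₀ (by linarith) (by linarith) _
    have a2 := mul_le_mul_of_nonneg_right a1
      (abs_nonneg (iteratedDeriv (j + 2) (fun s => ru φ s t) s))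
    have a3 := mul_le_mul_of_nonneg_right ((le_abs_self (B j)).trans (le_max_right (Cj j) _))
      (by positivity : 0 ≤ κ ^ 2 * UJ (ru φ) 2 s t)
    refine le_of_mul_le_mul_left ?_ (by positivity : 0 < κ ^ 2)
    calc κ ^ 2 * (|iteratedDeriv (j + 2) (fun s => ru φ s t) s| * κ ^ j)
        = κ ^ (j + 2) * |iteratedDeriv (j + 2) (fun s => ru φ s t) s| := by ring
      _ ≤ max (Cj j) |B j| * (κ ^ 2 * UJ (ru φ) 2 s t) := a2.trans (hb.trans a3)
      _ = _ := by ring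
  · have q : (t + 1 / 2) / 2 ∈ Ioo (0 : ℝ) (1 / 2) := ⟨by linarith [ht.1], by linarith [ht.2]⟩
    exact hg_cd (hon _ q) q.2 ((hG _ q).1 _ _ hg_par) ⟨ht.1, by linarith [ht.2]⟩

end Pool.Agent.MP_67f0e4_gt.K
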