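import Pool.Agent.MP_67f0e4_gt.I89.Core
import Pool.Agent.MP_67f0e4_gt.I89.Kit
import Pool.Agent.MP_67f0e4_gt.B.Kit
import Pool.Agent.MP_67f0e4_gt.B.RMAX

/-! Row I1: the volume form on the inner ball. -/

open Set Metric Filter Topology
open scoped ContDiff

noncomputable section

namespace Pool.Agent.MP_67f0e4_gt.I89

open K B

variable {X : Set C3} {ψ : C3 → ℝ} {φ : ℝ → C3 → ℝ} {τ : ℝ}

/-- the time derivative of the potential -/
def Yt (τ : ℝ) (φ : ℝ → C3 → ℝ) (t : ℝ) (p : C3) : ℝ := derivWithin (fun s => φ s p) (Icc 0 τ) t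

theorem kt (hτ : 0 < τ) {N : V → C3} {U : Set V} (P : Par X N U) : Kit (Icc 0 τ) U :=
  B.kit _ _ (B.nice.1 0 τ hτ) P.op

theorem yt_eq (hτ : 0 < τ) (hf : XFlow X ψ (Icc 0 τ) φ) {N : V → C3} {U : Set V}
    (P : Par X N U) {x : V} (hx : x ∈ U) {t : ℝ} (ht : t ∈ Icc 0 τ) : Yt τ φ t (N x) =
      Real.log (hdet (lv (φ t ∘ N) x)) - Real.log (hdet (lv (ψ ∘ N) x)) :=
  dt_eq (kt hτ P) (hf N U P) ht hx

theorem yb_iff (F : Fam X) (hτ : 0 < τ) (hf : XFlow X ψ (Icc 0 τ) φ) {t : ℝ} (ht : t ∈ Icc 0 τ)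
    {p : C3} (hp : p ∈ X) {ε c : ℝ} :
    YB X ψ ε (φ t) c p ↔ |Yt τ φ t p - 2 * Real.log c| ≤ ε := by
  constructor
  · intro h
    obtain ⟨i, rfl⟩ := F.sur p hp
    rw [yt_eq hτ hf (F.par i) Fam.zero_mem ht]
    exact h _ _ (F.par i) 0 Fam.zero_mem rfl
  · rintro h N U P x hx rfl
    rwa [yt_eq hτ hf P hx ht] at h

theorem yt_sm (hτ : 0 < τ) (hf : XFlow X ψ (Icc 0 τ) φ) : XSm X (Icc 0 τ) (Yt τ φ) :=
  fun N U P => (kt hτ P).sm_Dt (hf N U P).sm

/-- The barrier argument on the domain `q ψ ≤ 1`. -/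
theorem barrier (hX : Surf X) (F : Fam X) (hψ : Pot X ψ) (hf : XFlow X ψ (Icc 0 τ) φ)
    {t0 m s : ℝ} (ht0 : t0 ∈ Ico 0 τ) {l q g : ℝ → ℝ} (hs : |s| = 1) (hm : 0 < m)
    (hl : ContinuousOn l (Icc t0 τ)) (hq : ContinuousOn q (Icc t0 τ))
    (hg : ContinuousOn g (Icc t0 τ)) (hq0 : ∀ t ∈ Icc t0 τ, m ≤ q t)
    (hg0 : ∀ t ∈ Icc t0 τ, 0 ≤ g t)
    (hb : ∀ t ∈ Icc t0 τ, ∀ p ∈ X, q t * ψ p = 1 → |Yt τ φ t p - l t| ≤ g t)
    (hi : ∀ p ∈ X, q t0 * ψ p ≤ 1 → |Yt τ φ t0 p - l t0| ≤ g t0)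
    (hd : ∀ t ∈ Ioc t0 τ, ∃ l' q' g' c : ℝ, HasDerivAt l l' t ∧ HasDerivAt q q' t ∧
      HasDerivAt g g' t ∧ 0 < c ∧
      (∀ p ∈ X, q t * ψ p ≤ 1 → XCl X (1 / 2) (φ t) (fun r => c * ψ r) p) ∧
      ∀ r : ℝ, 0 ≤ r → q t * r ≤ 1 →
        |l'| + q' * r * g t - (2 - q t * r) * g' < g t * (q t * (4 / 3 / c))) :
    ∀ t ∈ Icc t0 τ, ∀ p ∈ X, q t * ψ p ≤ 1 → s * (Yt τ φ t p - l t) ≤ 2 * g t := by
  have hτ : 0 < τ := ht0.1.trans_lt ht0.2
  have hsub : Icc t0 τ ⊆ Icc 0 τ := Icc_subset_Icc_left ht0.1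
  have cψ : ContinuousOn (fun z : ℝ × C3 => ψ z.2) (Icc t0 τ ×ˢ X) :=
    (hψ.rf.1.continuousOn hX F).comp continuousOn_snd fun _ hz => hz.2
  have ct : ∀ {f : ℝ → ℝ}, ContinuousOn f (Icc t0 τ) →
      ContinuousOn (fun z : ℝ × C3 => f z.1) (Icc t0 τ ×ˢ X) :=
    fun h => h.comp continuousOn_fst fun _ hz => hz.1
  have cq : ContinuousOn (fun z : ℝ × C3 => q z.1 * ψ z.2) (Icc t0 τ ×ˢ X) := (ct hq).mul cψ
  have cY := ((yt_sm hτ hf).mono hsub).continuousOn hX F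
  set Ω : Set (ℝ × C3) := (Icc t0 τ ×ˢ X) ∩ (fun z : ℝ × C3 => q z.1 * ψ z.2) ⁻¹' Iic 1 with hΩ
  have hcl : IsClosed Ω := cq.preimage_isClosed_of_isClosed (isClosed_Icc.prod hX.1) isClosed_Iic
  have hK : IsCompact Ω := by
    refine (isCompact_Icc.prod (hψ.pr (1 / m))).of_isClosed_subset hcl fun z hz =>
      ⟨hz.1.1, hz.1.2, ?_⟩
    have h1 : q z.1 * ψ z.2 ≤ 1 := hz.2
    rw [le_div_iff₀ hm]
    nlinarith [hq0 _ hz.1.1, hψ.nn _ hz.1.2]
  have sle : ∀ y : ℝ, s * y ≤ |y| := fun y => by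
    have := le_abs_self (s * y)
    rwa [abs_mul, hs, one_mul] at this
  have main := mpc B.smax (X := X) (t0 := t0) (t1 := τ)
    (Z := fun t p => s * (Yt τ φ t p - l t) - (2 - q t * ψ p) * g t) hK
    (((continuousOn_const.mul (cY.sub (ct hl))).sub
      ((continuousOn_const.sub cq).mul (ct hg))).mono inter_subset_left) (by
      rintro t p ⟨⟨ht, hp⟩, h1⟩ hZ
      replace ht : t ∈ Icc t0 τ := ht
      replace hp : p ∈ X := hp
      replace h1 : q t * ψ p ≤ 1 := h1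
      have h2 : g t < |Yt τ φ t p - l t| := by
        have := sle (Yt τ φ t p - l t)
        nlinarith [hg0 t ht]
      have h3 : t ∈ Ioc t0 τ := ⟨ht.1.lt_of_ne fun e => by
        subst e
        exact h2.not_ge (hi p hp h1), ht.2⟩
      have h4 : q t * ψ p < 1 := h1.lt_of_ne fun e => h2.not_ge (hb t ht p hp e)
      refine ⟨h3, ?_, ?_⟩
      · have h5 : ∀ᶠ z in 𝓝[Icc t0 τ ×ˢ X] (t, p), q z.1 * ψ z.2 < 1 :=
          (cq (t, p) ⟨ht, hp⟩).eventually_lt_const h4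
        filter_upwards [h5, self_mem_nhdsWithin] with z h6 h7 using ⟨h7, h6.le⟩
      obtain ⟨l', q', g', c, dl, dq, dg, hc, hcl, hlt⟩ := hd t h3
      obtain ⟨i, rfl⟩ := F.sur p hp
      have P := F.par i
      have H := hf _ _ P
      have hpos := H.pos t (hsub ht) 0 Fam.zero_mem
      have sY := ((yt_sm hτ hf).slice (hsub ht)).at2 P Fam.zero_mem
      have sψ := hψ.rf.1.at2 P Fam.zero_mem
      have dY := (dt_heat (kt hτ P) H (hsub ht) Fam.zero_mem hpos.det.ne').mono hsub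
      have s1 : ContDiffAt ℝ 2 (fun y => s * ((Yt τ φ t ∘ F.Φ i) y - l t)) 0 :=
        contDiffAt_const.mul (sY.sub contDiffAt_const)
      have s2 : ContDiffAt ℝ 2 (fun y => (2 - q t * (ψ ∘ F.Φ i) y) * g t) 0 :=
        (contDiffAt_const.sub (contDiffAt_const.mul sψ)).mul contDiffAt_const
      refine ⟨F.Φ i, _, 0, bb (fun t => φ t ∘ F.Φ i) t 0, _, P, Fam.zero_mem, rfl, s1.sub s2,
        hpos.inv_nn, ((dY.sub dl.hasDerivWithinAt).const_mul s).sub
          (((dq.hasDerivWithinAt.mul_const (ψ (F.Φ i 0))).const_sub 2).mul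
            dg.hasDerivWithinAt), ?_⟩
      have e1 : lv ((fun p => s * (Yt τ φ t p - l t) - (2 - q t * ψ p) * g t) ∘ F.Φ i) 0 =
          s • lv (Yt τ φ t ∘ F.Φ i) 0 + (g t * q t) • lv (ψ ∘ F.Φ i) 0 := by
        have e2 : (fun p => s * (Yt τ φ t p - l t) - (2 - q t * ψ p) * g t) ∘ F.Φ i = fun y =>
            (s * (Yt τ φ t ∘ F.Φ i) y + g t * q t * (ψ ∘ F.Φ i) y) + -(s * l t + 2 * g t) := by
          funext y
          simp only [Function.comp]
          ring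
        rw [e2, lv_add_const, lv_add (contDiffAt_const.mul sY) (contDiffAt_const.mul sψ),
          lv_const_mul, lv_const_mul]
      have h6 := hcl _ hp h1 _ _ P 0 Fam.zero_mem rfl
      rw [lv_cmul] at h6
      have h7 := hmix_mono (g := lv (φ t ∘ F.Φ i) 0) (h := (3 / 2 * c) • lv (ψ ∘ F.Φ i) 0)
        hpos.inv_nn fun v => by
        have := h6.le v
        rw [qf_smul] at this ⊢
        linarith
      rw [hmix_smul_left, hmix_self, hmix_smul_right, ← mul_assoc, mul_comm _ (2 : ℝ), mul_assoc,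
        inv_mul_cancel₀ hpos.det.ne'] at h7
      have h8 : 4 / 3 / c ≤ hmix (bb (fun t => φ t ∘ F.Φ i) t 0) (lv (ψ ∘ F.Φ i) 0) := by
        rw [div_le_iff₀ hc]
        simp only [bb]
        linarith
      have h9 := hlt _ (hψ.nn _ hp) h1
      have h10 := mul_le_mul_of_nonneg_left h8 (mul_nonneg (hg0 t ht) (hm.le.trans (hq0 t ht)))
      have h11 := sle (-l')
      rw [abs_neg] at h11
      rw [e1, hmix_add_right, hmix_smul_right, hmix_smul_right]
      change s * (hmix _ (lv (Yt τ φ t ∘ F.Φ i) 0) - l') - _ < _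
      linarith)
  intro t ht p hp h1
  have h2 := main t p ⟨⟨ht, hp⟩, h1⟩
  have h3 := mul_nonneg (mul_nonneg (hm.le.trans (hq0 t ht)) (hψ.nn p hp)) (hg0 t ht)
  linarith

theorem num {C D th a c c' A E K r : ℝ} (hC : 1 ≤ C) (hD : 4 ≤ D) (hth : 0 < th) (ha : 0 < a)
    (ha1 : a ≤ 1) (hc : 0 < c) (hc' : |c'| ≤ C * c / a ^ 2) (hA : 0 ≤ A) (hE : 0 < E)
    (h1 : th * (C + 4) ≤ 1 / 3) (hK : 2 * C * th < K) (hr : 0 ≤ r)
    (hq : c / (th * a ^ 2) * r ≤ 1) :
    |2 * (c' / c)| + (c' / (th * a ^ 2) + 4 * c / (th * a ^ 3)) * r * (K + A * E) -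
        (2 - c / (th * a ^ 2) * r) * (A * (E * -(2 / a ^ 2 / (D * th)))) <
      (K + A * E) * (c / (th * a ^ 2) * (4 / 3 / c)) := by
  have w : 0 < th * a ^ 2 := by positivity
  have hK0 : 0 < K := lt_trans (by positivity) hK
  have hAE : 0 ≤ A * E := by positivity
  set y := c / (th * a ^ 2) * r with hy
  have y0 : 0 ≤ y := by positivity
  have k1 : |c' / c| ≤ C / a ^ 2 := by
    rw [abs_div, abs_of_pos hc, div_le_iff₀ hc]
    exact hc'.trans_eq (by ring)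
  have k2 : (c' / (th * a ^ 2) + 4 * c / (th * a ^ 3)) * r = y * (c' / c + 4 / a) := by
    rw [hy]
    field_simp
  have k3 : c' / c + 4 / a ≤ (C + 4) / a ^ 2 := by
    have : 4 / a ≤ 4 / a ^ 2 := div_le_div_of_nonneg_left (by norm_num) (by positivity) (by nlinarith)
    rw [add_div]
    linarith [le_abs_self (c' / c)]
  have k4 : y * (c' / c + 4 / a) ≤ (C + 4) / a ^ 2 :=
    (mul_le_mul_of_nonneg_left k3 y0).trans (mul_le_of_le_one_left (by positivity) hq)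
  have k5 : (C + 4) / a ^ 2 ≤ 1 / 3 / (th * a ^ 2) := by
    rw [div_le_div_iff₀ (by positivity) w]
    nlinarith [pow_pos ha 2]
  have k6 : 2 / a ^ 2 / (D * th) ≤ 1 / 2 / (th * a ^ 2) := by
    rw [div_div, div_le_div_iff₀ (by positivity) w]
    nlinarith
  have k7 : 2 * (C / a ^ 2) < K / (th * a ^ 2) := by
    rw [lt_div_iff₀ w]
    refine lt_of_eq_of_lt ?_ hK
    field_simp
  have k8 : c / (th * a ^ 2) * (4 / 3 / c) = 4 / 3 / (th * a ^ 2) := by field_simp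
  have k9 : (2 - y) * (2 / a ^ 2 / (D * th)) ≤ 2 * (1 / 2 / (th * a ^ 2)) :=
    mul_le_mul (by linarith) k6 (by positivity) (by norm_num)
  have k10 := mul_le_mul_of_nonneg_right (k4.trans k5) (add_nonneg hK0.le hAE)
  have k11 := mul_le_mul_of_nonneg_right k9 hAE
  rw [abs_mul, abs_two, k2, k8]
  simp only [div_eq_mul_inv] at *
  nlinarith

end Pool.Agent.MP_67f0e4_gt.I89

namespace Pool.Agent.MP_67f0e4_gt.K

open I89

theorem ri1 : rI1 := by
  intro hF X ψ F C θf Kf Cj u hc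
  obtain ⟨C2, hC2, fcl⟩ := hF C θf Kf hc.prof.cst
  have hC := hc.prof.cst.1
  refine ⟨8 * C2 + 4 * C + 12, by linarith, ?_⟩
  intro b τ φ R hB th ε A t0 hth hD hε hA ht0 hb hi p hp hin
  set D := 8 * C2 + 4 * C + 12 with hDdef
  have RO := hc.prof.on τ R.τ0
  have E := RO.est
  have hτ := R.τ0.1
  have hsub : Icc t0 τ ⊆ Icc 0 τ := Icc_subset_Icc_left ht0.1
  have ha : ∀ t ∈ Icc 0 τ, 0 < 1 - 2 * t := fun t ht => by linarith [ht.2, R.τ0.2]
  have hw : ∀ t ∈ Icc 0 τ, 0 < th * (1 - 2 * t) ^ 2 := fun t ht => by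
    have := ha t ht
    positivity
  have cc' := (ct_cont E (by linarith) R.τ0.2 b).mono hsub
  have ca : ContinuousOn (fun t : ℝ => 1 - 2 * t) (Icc t0 τ) := by fun_prop
  have hq : ContinuousOn (fun t => ct u b t / (th * (1 - 2 * t) ^ 2)) (Icc t0 τ) :=
    cc'.div (continuousOn_const.mul (ca.pow 2)) fun t ht => (hw t (hsub ht)).ne'
  obtain ⟨t1, ht1, hmin⟩ := isCompact_Icc.exists_isMinOn (nonempty_Icc.2 ht0.2.le) hq
  have iff1 : ∀ t ∈ Icc 0 τ, ∀ r : ℝ, ct u b t / (th * (1 - 2 * t) ^ 2) * r ≤ 1 ↔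
      ct u b t * r ≤ th * (1 - 2 * t) ^ 2 := fun t ht r => by
    rw [div_mul_eq_mul_div, div_le_one (hw t ht)]
  have h0τ : t0 ∈ Icc 0 τ := ⟨ht0.1, ht0.2.le⟩
  have hτ' : τ ∈ Icc t0 τ := right_mem_Icc.2 ht0.2.le
  have hK : 0 ≤ (2 * C + 1) * th := by positivity
  have key : ∀ s : ℝ, |s| = 1 → s * (Yt τ φ τ p - 2 * Real.log (ct u b τ)) ≤
      2 * (ε + (2 * C + 1) * th +
        A * Real.exp (-((1 / (1 - 2 * τ) - 1 / (1 - 2 * t0)) / (D * th)))) := fun s hs => by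
    refine barrier hc.geo.surf F hc.geo.pot R.gf.1 ht0 hs
      (l := fun t => 2 * Real.log (ct u b t))
      (g := fun t => ε + (2 * C + 1) * th +
        A * Real.exp (-((1 / (1 - 2 * t) - 1 / (1 - 2 * t0)) / (D * th))))
      (div_pos (ct_pos E b (hsub ht1)) (hw t1 (hsub ht1)))
      (continuousOn_const.mul (cc'.log fun t ht => (ct_pos E b (hsub ht)).ne')) hq
      (continuousOn_const.add (continuousOn_const.mul (((continuousOn_const.div ca
        fun t ht => (ha t (hsub ht)).ne').sub continuousOn_const).div_const _).neg.rexp))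
      (fun t ht => hmin ht) (fun t _ => by positivity) (fun t ht r hr e => ?_)
      (fun r hr e => ?_) (fun t ht => ?_) τ hτ' p hp ((iff1 τ (hsub hτ') _).2 hin)
    · rw [div_mul_eq_mul_div, div_eq_one_iff_eq (hw t (hsub ht)).ne'] at e
      refine ((yb_iff F hτ R.gf.1 (hsub ht) hr).1 (hb t ht r hr e)).trans ?_
      have : 0 ≤ A * Real.exp (-((1 / (1 - 2 * t) - 1 / (1 - 2 * t0)) / (D * th))) := by
        positivity
      linarith
    · refine ((yb_iff F hτ R.gf.1 h0τ hr).1 (hi r hr ((iff1 t0 h0τ _).1 e))).trans ?_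
      rw [sub_self, zero_div, neg_zero, Real.exp_zero]
      linarith
    · have ht' : t ∈ Icc 0 τ := hsub (Ioc_subset_Icc_self ht)
      have hat := ha t ht'
      have hct := ct_pos E b ht'
      obtain ⟨c', dc, hc'⟩ := hc.prof.cd t ⟨ht0.1.trans_lt ht.1, ht.2.trans_lt R.τ0.2⟩
      have d1 : HasDerivAt (ct u b) (c' * Real.exp (-b)) t := dc.mul_const _
      have d2 : HasDerivAt (fun t : ℝ => 1 - 2 * t) (-2) t := by
        simpa using ((hasDerivAt_id t).const_mul 2).const_sub 1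
      have d3 : HasDerivAt (fun t => ct u b t / (th * (1 - 2 * t) ^ 2))
          (c' * Real.exp (-b) / (th * (1 - 2 * t) ^ 2) + 4 * ct u b t / (th * (1 - 2 * t) ^ 3))
          t := (d1.div ((d2.pow 2).const_mul th) (hw t ht').ne').congr_deriv (by
            simp only [Pi.pow_apply]
            field_simp
            ring)
      have d4 : HasDerivAt (fun t : ℝ => -((1 / (1 - 2 * t) - 1 / (1 - 2 * t0)) / (D * th)))
          (-(2 / (1 - 2 * t) ^ 2 / (D * th))) t :=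
        (((((hasDerivAt_const t (1 : ℝ)).div d2 hat.ne').congr_deriv (by ring)).sub_const
          _).div_const _).neg
      refine ⟨_, _, _, ct u b t, (d1.log hct.ne').const_mul 2, d3,
        (d4.exp.const_mul A).const_add _, hct, fun r hr e => ?_, fun r hr e => ?_⟩
      · have f1 := (fcl X ψ τ u b hc.geo.pot RO t ht' th hth (by nlinarith)).1 r hr
          (by linarith [hc.one r hr]) ((iff1 t ht' _).1 e)
        refine xcl_mono (xcl_trans (hB t ht' r hr) f1 (by norm_num)) (by positivity) ?_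
        nlinarith
      · refine num hC (by linarith) hth hat (by linarith [ht'.1]) hct ?_ hA (Real.exp_pos _)
          (by nlinarith) (by nlinarith) hr e
        rw [abs_mul, abs_of_pos (Real.exp_pos _), ct]
        exact (mul_le_mul_of_nonneg_right hc' (Real.exp_pos _).le).trans_eq (by ring)
  refine (yb_iff F hτ R.gf.1 (hsub hτ') hp).2 (abs_le.2 ⟨?_, ?_⟩)
  · have h1 := key (-1) (by simp)
    have h2 : 0 ≤ A * Real.exp (-((1 / (1 - 2 * τ) - 1 / (1 - 2 * t0)) / (D * th))) := by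
      positivity
    nlinarith
  · have h1 := key 1 (by simp)
    have h2 : 0 ≤ A * Real.exp (-((1 / (1 - 2 * τ) - 1 / (1 - 2 * t0)) / (D * th))) := by
      positivity
    nlinarith

end Pool.Agent.MP_67f0e4_gt.K
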