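import Pool.Agent.MP_67f0e4_gt.I89.Step

/-! Row LIM: the static limit. -/

open Set Metric Filter Topology
open scoped ContDiff

noncomputable section

namespace Pool.Agent.MP_67f0e4_gt.K

open I89

theorem rlim : rLIM := by
  intro hF cmp out i1 inn X ψ F C θf Kf Cj u hc hs
  obtain ⟨C2, hC2, fcl⟩ := hF C θf Kf hc.prof.cst
  obtain ⟨d, D, hd, hd4, hD, st⟩ := step hF hc (out _ _ _ _ _ _ _ _ hc) (i1 _ _ _ _ _ _ _ _ hc)
    (inn _ _ _ _ _ _ _ _ hc) hs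
  obtain ⟨C1, b1, cm⟩ := cmp _ _ _ _ _ _ _ _ hc
  refine ⟨d, hd, b1, fun b φ hb hr R ε hε => ?_⟩
  obtain ⟨η, hη, st⟩ := st ε hε
  obtain ⟨th, ⟨c1, c2⟩, hth⟩ := (((ev_le hη).and (ev_mul_le (8 * C2) one_pos)).and ev_pos).exists
  obtain ⟨t0, c3, ht0⟩ := ((ev_end |C1| (mul_pos hη hth)).and
    (Ioo_mem_nhdsLT (by norm_num : (0 : ℝ) < 1 / 2))).exists
  filter_upwards [Ioo_mem_nhdsLT ht0.2, ev_end 6 (mul_pos hη hth), ev_end (6 * |R|) hth,
    ev_end (4 * (1 / 2) * Real.exp (1 / (1 - 2 * t0) / (D * th)) * (D * th)) hη]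
    with τ hτ e1 e2 e3 p hp hR
  have hτ' : τ ∈ Ioo (0 : ℝ) (1 / 2) := ⟨ht0.1.trans hτ.1, hτ.2⟩
  obtain ⟨Rn, hB⟩ := hr τ hτ'
  have RO := hc.prof.on τ hτ'
  have E := RO.est
  have h0 : t0 ∈ Icc 0 τ := ⟨ht0.1.le, hτ.1.le⟩
  have h1 : τ ∈ Icc 0 τ := right_mem_Icc.2 hτ'.1.le
  have ha : 0 < 1 - 2 * τ := by linarith [hτ.2]
  have hb1 : Real.exp (-b) ≤ 1 := Real.exp_le_one_iff.2 (by linarith [Rn.b0])
  have k3 : 0 < C2 * th := by positivity
  have hct : ct u b τ ≤ 6 * (1 - 2 * τ) * (1 - 2 * τ) ^ 2 :=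
    (ct_le E b h1 ha).trans ((mul_le_of_le_one_right (by positivity) hb1).trans_eq (by ring))
  refine (st b τ φ Rn hB th t0 (4 * (1 / 2)) hth c1 (by norm_num) ⟨ht0.1.le, hτ.1⟩
    (fun s hs q hq => ?_) ?_ (fun q hq h => ?_) ?_).1 p hp ?_
  · have hs' : s ∈ Icc 0 τ := ⟨ht0.1.le.trans hs.1, hs.2⟩
    have p1 : 0 < 1 - 2 * s := by linarith [hs.2]
    obtain ⟨m1, m2⟩ := cm b τ φ hb Rn s hs' q hq
    rw [abs_of_nonneg m1]
    have q1 : C1 * Real.exp (-b) ≤ |C1| :=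
      (mul_le_mul_of_nonneg_right (le_abs_self C1) (Real.exp_pos _).le).trans
        (mul_le_of_le_one_right (abs_nonneg _) hb1)
    have q2 : |C1| * (1 - 2 * s) ≤ η * th :=
      (mul_le_mul_of_nonneg_left (by linarith [hs.1]) (abs_nonneg _)).trans c3
    calc _ ≤ C1 * Real.exp (-b) * (1 - 2 * s) ^ 3 := m2
      _ ≤ |C1| * (1 - 2 * s) ^ 3 := mul_le_mul_of_nonneg_right q1 (by positivity)
      _ = |C1| * (1 - 2 * s) * (1 - 2 * s) ^ 2 := by ring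
      _ ≤ η * th * (1 - 2 * s) ^ 2 := mul_le_mul_of_nonneg_right q2 (by positivity)
      _ = _ := by ring
  · exact hct.trans ((mul_le_mul_of_nonneg_right e1 (by positivity)).trans_eq (by ring))
  · have f1 := (fcl X ψ τ u b hc.geo.pot RO t0 h0 th hth (by linarith)).1 q hq
      (by linarith [hc.one q hq]) h
    refine yb_of_xcl hc.geo.pot.rf (ct_pos E b h0)
      (xcl_mono (xcl_trans (hB t0 h0 q hq) f1 hd.le) (by positivity) ?_) (by norm_num) le_rfl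
    nlinarith
  · have p1 : 0 < D * th * (1 - 2 * τ) := by positivity
    have q1 := exp_inv_le p1 1
    have q2 : -((1 / (1 - 2 * τ) - 1 / (1 - 2 * t0)) / (D * th)) =
        1 / (1 - 2 * t0) / (D * th) + -1 / (D * th * (1 - 2 * τ)) := by
      have : D * th ≠ 0 := by positivity
      rw [sub_div, neg_sub, sub_eq_add_neg, neg_div, div_div 1 (1 - 2 * τ), mul_comm (1 - 2 * τ)]
    rw [q2, Real.exp_add]
    simp only [Nat.factorial_one, Nat.cast_one, one_mul, pow_one] at q1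
    refine le_trans ?_ e3
    have q3 := mul_le_mul_of_nonneg_left q1 (Real.exp_pos (1 / (1 - 2 * t0) / (D * th))).le
    linarith
  · calc ct u b τ * ψ p ≤ 6 * (1 - 2 * τ) * (1 - 2 * τ) ^ 2 * |R| :=
        mul_le_mul hct (hR.trans (le_abs_self R)) (hc.geo.pot.nn p hp) (by positivity)
      _ = 6 * |R| * (1 - 2 * τ) * (1 - 2 * τ) ^ 2 := by ring
      _ ≤ _ := mul_le_mul_of_nonneg_right e2 (by positivity)

end Pool.Agent.MP_67f0e4_gt.K
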