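import Pool.Agent.MP_67f0e4_gt.K.Kit

/-! Derivative bounds of the rescaled metrics near the final time. -/

set_option autoImplicit false

open Set Metric Filter Topology
open scoped ContDiff

namespace Pool.Agent.MP_67f0e4_gt.K

namespace RLIMB

theorem ell_of_pos {g : Hm} (h : Pos g) : ∃ Λ, EllH Λ g := by
  obtain ⟨A, hA, -⟩ := h.chol
  set L : ℝ := ‖(A.symm : V →L[ℂ] V)‖ with hL
  have L0 : 0 ≤ L := norm_nonneg _
  refine ⟨L ^ 2 + 6 * ‖g‖ + 1, by positivity, fun v => ⟨?_, ?_⟩⟩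
  · have a : ‖v‖ ≤ L * ‖A v‖ := by
      have := (A.symm : V →L[ℂ] V).le_opNorm (A v)
      simpa using this
    have b : ‖A v‖ ^ 2 ≤ qf g v := by
      rw [← hA, qf_pb]
      exact qf_one_ge _
    have c : ‖v‖ ^ 2 ≤ L ^ 2 * ‖A v‖ ^ 2 := by
      rw [← mul_pow]
      exact pow_le_pow_left₀ (norm_nonneg _) a 2
    have d := h.nn v
    have e := mul_le_mul_of_nonneg_left b (sq_nonneg L)
    nlinarith [mul_nonneg (norm_nonneg g) d]
  · have a := (abs_le.1 (abs_qf_le g v)).2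
    nlinarith [sq_nonneg ‖v‖, mul_nonneg (sq_nonneg L) (sq_nonneg ‖v‖)]

theorem cl_scale {G : Hm} (hG : NN G) {a ε : ℝ} (h : |a - 1| ≤ ε) : Cl ε (a • G) G := fun v => by
  rw [qf_smul, show a * qf G v - qf G v = (a - 1) * qf G v by ring, abs_mul,
    abs_of_nonneg (hG v)]
  exact mul_le_mul_of_nonneg_right h (hG v)

end RLIMB

theorem limb : rLIMB := by
  rintro ⟨δ, hδ, hB⟩ X ψ T φ c hT hψ hφ hc hc0 hslow hcl N U P x hx
  set G0 : Hm := lv (ψ ∘ N) x with hG0
  have pG0 : Pos G0 := (hψ.2 N U P x hx).1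
  obtain ⟨Λ, hΛ⟩ := RLIMB.ell_of_pos pG0
  have Λ0 := hΛ.1
  set η : ℝ := min δ 1 / 8 with hη
  have η0 : 0 < η := by
    have : 0 < min δ 1 := lt_min hδ one_pos
    positivity
  have η1 : η ≤ 1 / 8 := by
    have := min_le_right δ 1
    linarith
  have η2 : 8 * η ≤ δ := by
    have := min_le_left δ 1
    linarith
  have e1 : ∀ᶠ y in 𝓝 x, y ∈ U ∧ ‖lv (ψ ∘ N) y - G0‖ ≤ η / (6 * Λ) := by
    refine (P.op.eventually_mem hx).and ?_
    have hcn : ContinuousAt (lv (ψ ∘ N)) x := (lv_smooth (hψ.1.at P hx)).continuousAt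
    have := hcn.eventually (closedBall_mem_nhds (lv (ψ ∘ N) x) (ε := η / (6 * Λ)) (by positivity))
    exact this.mono fun y hy => by rwa [dist_eq_norm] at hy
  obtain ⟨r, hr, hball⟩ := nhds_basis_closedBall.eventually_iff.1 e1
  have hsub : closedBall x r ⊆ U := fun y hy => (hball hy).1
  have hK : IsCompact (N '' closedBall x r) :=
    (isCompact_closedBall x r).image_of_continuousOn (P.hol.continuousOn.mono hsub)
  have hKX : N '' closedBall x r ⊆ X := by
    rintro _ ⟨y, hy, rfl⟩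
    exact P.mem (hsub hy)
  refine ⟨r / 4, by positivity, fun k => ?_⟩
  obtain ⟨C, hC⟩ := hB Λ r hr k 0
  refine ⟨C, ?_⟩
  obtain ⟨a, ha, hnear⟩ := mem_nhdsLT_iff_exists_Ioo_subset.1
    ((hcl _ hK hKX η η0).and (Ioo_mem_nhdsLT hT))
  have ha' : a < T := ha
  have e2 : ∀ᶠ t in 𝓝[<] T, c t / (T - t) < 1 / r ^ 2 :=
    hc0.eventually (gt_mem_nhds (by positivity))
  have e3 : ∀ᶠ t in 𝓝[<] T, t ∈ Ioo ((a + T) / 2) T := Ioo_mem_nhdsLT (by linarith)
  filter_upwards [hslow (r ^ 2) η η0, e2, e3, Ioo_mem_nhdsLT hT] with t h1 h2 h3 h4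
  have c0 := hc t h4
  have h5 : r ^ 2 * c t ≤ T - t := by
    rw [div_lt_div_iff₀ (by linarith [h4.2]) (by positivity)] at h2
    linarith
  have hin : ∀ s ∈ Icc (-r ^ 2) 0, t + c t * s ∈ Ioo a T := fun s hs => by
    have b1 : c t * s ≤ 0 := mul_nonpos_of_nonneg_of_nonpos c0.le hs.2
    have b2 : c t * (-r ^ 2) ≤ c t * s := mul_le_mul_of_nonneg_left hs.1 c0.le
    constructor
    · nlinarith [h3.1]
    · linarith [h4.2]
  have hm : ∀ y ∈ ball (0 : V) r, x + y ∈ closedBall x r := fun y hy => by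
    rw [mem_closedBall, dist_self_add_left]
    exact (mem_ball_zero_iff.1 hy).le
  have hF := (hφ N U P).affine (S' := Icc (-r ^ 2) 0) (U' := ball 0 r) P.op
    (ContinuousLinearMap.id ℂ V) x Function.injective_id c0 t
    (fun s hs => ⟨(hnear (hin s hs)).2.1.le, (hin s hs).2⟩) fun y hy => hsub (hm y hy)
  have hLB := hC G0 _ _ (-r ^ 2) 0 hΛ (by have := pow_pos hr 2; linarith) (by linarith) hF
    (fun s hs y hy => ?_) (Or.inl (by ring))
  · simp only [ContinuousLinearMap.id_apply, mul_zero, add_zero] at hLB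
    have b1 := hLB.const_mul (c t)
    simp only [← mul_assoc, mul_inv_cancel₀ c0.ne', one_mul] at b1
    rw [abs_of_pos c0, mul_comm] at b1
    refine LB.unshift (a := x) b1 fun y hy => ?_
    rwa [mem_ball_zero_iff, ← dist_eq_norm, ← mem_ball]
  · simp only [ContinuousLinearMap.id_apply]
    have hy' := hm y hy
    have b1 := (hnear (hin s hs)).1 _ (mem_image_of_mem N hy') N U P _ (hsub hy') rfl
    have b2 : lv ((fun q => c (t + c t * s) * ψ q) ∘ N) (x + y) =
        c (t + c t * s) • lv (ψ ∘ N) (x + y) := lv_const_mul _ (ψ ∘ N) _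
    rw [b2] at b1
    have b3 := b1.smul (inv_pos.2 c0).le
    rw [smul_smul] at b3
    have b4 : |(c t)⁻¹ * c (t + c t * s) - 1| ≤ η := by
      have := h1 s ⟨hs.1, hs.2.trans (sq_nonneg r)⟩
      rw [mul_comm s] at this
      rw [show (c t)⁻¹ * c (t + c t * s) - 1 = (c t)⁻¹ * (c (t + c t * s) - c t) by field_simp,
        abs_mul, abs_of_pos (inv_pos.2 c0), inv_mul_le_iff₀ c0, mul_comm (c t) η]
      exact this
    have b5 := RLIMB.cl_scale (hψ.2 N U P _ (hsub hy')).1.nn b4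
    have b6 := cl_of_norm hΛ (hball hy').2
    rw [show 6 * (η / (6 * Λ)) * Λ = η by field_simp] at b6
    have b7 := (b3.trans b5 η0.le).trans b6 (by positivity)
    rw [lv_const_mul (c t)⁻¹ (fun y => (φ (t + c t * s) ∘ N) (x + y)), lv_shift]
    refine b7.mono pG0.nn ?_
    nlinarith [mul_pos η0 η0]

end Pool.Agent.MP_67f0e4_gt.K
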