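import Pool.Agent.MP_67f0e4_gt.K.Kit

/-! Lemma U: derivative bounds at the scale `p`. -/

open Set Metric Filter Topology
open scoped ContDiff

namespace Pool.Agent.MP_67f0e4_gt.K

theorem lu_sqrt {a b a' b' : ℝ} (ha : 0 < a) (hb : 0 < b) (h1 : |a' - a| ≤ 1 / 2 * a)
    (h2 : |b' - b| ≤ 1 / 2 * b) :
    0 < √(a' / b') ∧ √(a / b) ≤ 2 * √(a' / b') ∧ √(a' / b') ≤ 2 * √(a / b) := by
  obtain ⟨p1, p2⟩ := abs_le.1 h1
  obtain ⟨q1, q2⟩ := abs_le.1 h2
  have ha' : 0 < a' := by linarith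
  have hb' : 0 < b' := by linarith
  have key : ∀ x y : ℝ, 0 ≤ y → x ≤ 4 * y → √x ≤ 2 * √y := fun x y hy h =>
    Real.sqrt_le_iff.2 ⟨by positivity, by rw [mul_pow, Real.sq_sqrt hy]; linarith⟩
  refine ⟨Real.sqrt_pos.2 (div_pos ha' hb'), key _ _ (by positivity) ?_, key _ _ (by positivity) ?_⟩
  · rw [← mul_div_assoc, div_le_div_iff₀ hb hb']
    nlinarith [mul_pos ha hb]
  · rw [← mul_div_assoc, div_le_div_iff₀ hb' hb]
    nlinarith [mul_pos ha hb]

theorem lu : rLU := by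
  rintro ⟨δ, hδ, hB⟩ hosc hder ⟨Cj, hini⟩
  set d := min (δ / 3) 1 with hd
  have d0 : 0 < d := lt_min (by positivity) one_pos
  have d1 : d ≤ 1 := min_le_right _ _
  have d2 : d ≤ δ / 3 := min_le_left _ _
  refine ⟨d, d0, fun C θf Kf hC M ρ hρ => ?_⟩
  obtain ⟨Λ, hΛ⟩ := hosc C θf Kf hC M ρ hρ
  obtain ⟨r1, hr1, ho⟩ := hΛ d d0
  obtain ⟨r2, hr2, Λ2, hD⟩ := hder (fun k => 2 ^ 2 * M k) Cj ρ hρ
  have hθ : 0 < θf (1 / 2) := hC.2.1 _ (by norm_num)
  set r := min r1 (min r2 (θf (1 / 2))) with hr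
  have r0 : 0 < r := lt_min hr1.1 (lt_min hr2.1 hθ)
  have ra : r ≤ r1 := min_le_left _ _
  have rb : r ≤ r2 := (min_le_right _ _).trans (min_le_left _ _)
  have rc : r ≤ θf (1 / 2) := (min_le_right _ _).trans (min_le_right _ _)
  refine ⟨r / 4, ⟨by positivity, by linarith [hr1.2]⟩, fun k => ?_⟩
  obtain ⟨B, hBk⟩ := hD k
  obtain ⟨Cc, hCc⟩ := hB Λ r r0 k (2 * |B|)
  refine ⟨Cc, fun τ u σ b φ w0 hτ hR hN hF h0 hcl => ?_⟩
  have hττ : τ ∈ Icc 0 τ := ⟨hτ.le, le_rfl⟩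
  have h00 : (0 : ℝ) ∈ Icc 0 τ := ⟨le_rfl, hτ.le⟩
  set s := σ 0 - b with hs
  set P := UJ u 1 s τ with hP
  obtain ⟨p2, p1, -⟩ := hR.est.pos s τ hττ
  have P0 : 0 < P := p2.trans_le p1
  obtain ⟨hE, hO⟩ := ho τ u σ b hR τ hττ hN
  set t0 := max 0 (τ - r ^ 2 * P) with ht0
  have rP : 0 < r ^ 2 * P := by positivity
  have t00 : 0 ≤ t0 := le_max_left _ _
  have t01 : τ - r ^ 2 * P ≤ t0 := le_max_right _ _
  have t02 : t0 < τ := max_lt hτ (by linarith)
  set s1 := (τ - t0) / P with hs1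
  have s10 : 0 < s1 := div_pos (by linarith) P0
  have s1e : t0 + P * s1 = τ := by
    rw [hs1, mul_div_cancel₀ _ P0.ne']
    ring
  have s11 : s1 ≤ 0 + r ^ 2 := by
    rw [zero_add, hs1, div_le_iff₀ P0]
    linarith
  have hS : ∀ t ∈ Icc 0 s1, t0 + P * t ∈ Icc 0 τ := fun t ht =>
    ⟨by nlinarith [ht.1], by nlinarith [ht.2]⟩
  have sub : ball (0 : V) r ⊆ ball 0 ρ := ball_subset_ball (by linarith [hr1.2])
  have hF' := hF.affine (S' := Icc 0 s1) (U' := ball 0 r) isOpen_ball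
    (ContinuousLinearMap.id ℂ V) 0 (fun _ _ h => h) P0 t0 hS (fun y hy => by simpa using sub hy)
  simp only [ContinuousLinearMap.id_apply, zero_add] at hF'
  have hmain := hCc _ _ _ 0 s1 hE s10 s11 hF' ?_ ?_
  · have h1 := hmain.const_mul P
    rw [s1e, abs_of_pos P0, mul_comm] at h1
    have e : (fun y => P * (P⁻¹ * φ τ y)) = φ τ := by
      funext y
      rw [← mul_assoc, mul_inv_cancel₀ P0.ne', one_mul]
    rwa [e] at h1
  · intro t ht x hx
    have a1 := hcl _ (hS t ht) x (sub hx)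
    have a2 := hO x (ball_subset_ball ra hx) _ (hS t ht) (by
      have b1 := (hS t ht).2
      have b2 : r ^ 2 * P ≤ r1 ^ 2 * P :=
        mul_le_mul_of_nonneg_right (pow_le_pow_left₀ r0.le ra 2) P0.le
      rw [abs_sub_comm, abs_of_nonneg (by linarith)]
      nlinarith [ht.1])
    have a3 := (a1.trans a2 d0.le).smul (inv_pos.2 P0).le
    rw [lv_const_mul]
    exact a3.mono hE.isPos.nn (by nlinarith)
  · rcases le_total 0 (τ - r ^ 2 * P) with h | h
    · left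
      rw [zero_add, hs1, ht0, max_eq_right h, div_eq_iff P0.ne']
      ring
    · right
      have e0 : t0 = 0 := max_eq_left h
      have hg : ContDiff ℝ ∞ fun s' => u s' 0 := by
        rw [← contDiffOn_univ]
        exact hR.sm.comp (f := fun s' : ℝ => (s', (0 : ℝ)))
          (contDiff_id.prodMk contDiff_const).contDiffOn fun _ _ => ⟨mem_univ _, h00⟩
      have hPB := hini _ hg fun s' => by
        rw [← hR.rad.init s', UJ, iteratedDeriv_one]
      obtain ⟨o2, o1⟩ := hR.est.osc (1 / 2) (by norm_num) s s τ hττ 0 h00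
        (by rw [sub_self, abs_zero]; exact mul_nonneg hθ.le (Real.sqrt_nonneg _))
        (by
          have b2 : r ^ 2 * P ≤ θf (1 / 2) ^ 2 * P :=
            mul_le_mul_of_nonneg_right (pow_le_pow_left₀ r0.le rc 2) P0.le
          rw [zero_sub, abs_neg, abs_of_pos hτ]
          linarith)
      obtain ⟨k0, k1, k2⟩ := lu_sqrt P0 p2 o1 o2
      have hN' := (hN.sub_const b).comparable hρ (K := 2) (by norm_num)
        (Real.sqrt_pos.2 (div_pos P0 p2)) k0 k1 k2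
      have hL := (hBk (fun s' => u s' 0) (fun y => σ y - b) hPB hN').1
      have hL' : LB k (B * UJ u 1 s 0) (φ 0) (ball 0 r) :=
        (hL.mono le_rfl le_rfl (ball_subset_ball rb)).congr_on isOpen_ball
          fun y hy => h0 y (sub hy)
      have h2 := hL'.const_mul P⁻¹
      rw [e0, mul_zero, add_zero]
      refine h2.mono le_rfl ?_ Subset.rfl
      rw [abs_of_pos (inv_pos.2 P0), inv_mul_le_iff₀ P0]
      have q := abs_le.1 o1
      have q0 : 0 ≤ UJ u 1 s 0 := by linarith [q.1]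
      have q1 : B * UJ u 1 s 0 ≤ |B| * UJ u 1 s 0 := mul_le_mul_of_nonneg_right (le_abs_self B) q0
      nlinarith [abs_nonneg B, q.2]

end Pool.Agent.MP_67f0e4_gt.K
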