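import Pool.Agent.MP_67f0e4_gt.K.NiceB

/-! Rows NICE1 and NICE2. -/

open Set Metric Filter Topology
open scoped ContDiff

noncomputable section

namespace Pool.Agent.MP_67f0e4_gt.K

theorem nr_mono {M M' : ℕ → ℝ} {κ κ' ρ ρ' K : ℝ} {σ : V → ℝ} (h : Nice M κ ρ σ) (hρ : ρ' ≤ ρ)
    (hκ : 0 < κ) (hκ' : 0 < κ') (hK : 1 ≤ K) (h1 : κ ≤ K * κ') (h2 : κ' ≤ K * κ)
    (hM : ∀ k, |M k| * K ^ 2 ≤ M' k) : Nice M' κ' ρ' σ := by
  have sub : ball (0 : V) ρ' ⊆ ball 0 ρ := ball_subset_ball hρ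
  have hK2 : K ≤ K ^ 2 := by nlinarith
  refine ⟨h.sm.mono sub, fun l hl x hx => (h.d1 l hl x (sub hx)).trans ?_,
    fun k l hl α x hx => (h.d2 k l hl α x (sub hx)).trans ?_, fun x hx => h.nn x (sub hx),
    fun x hx v => (h.ell x (sub hx) v).trans ?_⟩
  · have a := abs_nonneg (M l.length)
    calc M l.length * κ ≤ |M l.length| * (K * κ') :=
          mul_le_mul (le_abs_self _) h1 hκ.le a
      _ ≤ |M l.length| * K ^ 2 * κ' := by
          rw [mul_assoc]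
          exact mul_le_mul_of_nonneg_left (mul_le_mul_of_nonneg_right hK2 hκ'.le) a
      _ ≤ _ := mul_le_mul_of_nonneg_right (hM _) hκ'.le
  · have a := abs_nonneg (M k)
    have := hM k
    have := le_abs_self (M k)
    nlinarith
  · have p := nn_rk σ x v
    have q := h.nn x (sub hx) v
    have a := abs_nonneg (M 0)
    have e1 : qf (rk σ x) v / κ ^ 2 ≤ K ^ 2 * (qf (rk σ x) v / κ' ^ 2) := by
      rw [← mul_div_assoc, div_le_div_iff₀ (by positivity) (by positivity)]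
      have := mul_le_mul_of_nonneg_left (pow_le_pow_left₀ hκ'.le h2 2) p
      nlinarith
    have e2 : qf (lv σ x) v ≤ K ^ 2 * qf (lv σ x) v := by nlinarith
    have p' : 0 ≤ qf (rk σ x) v / κ' ^ 2 := div_nonneg p (sq_nonneg _)
    have p'' : 0 ≤ qf (rk σ x) v / κ ^ 2 := div_nonneg p (sq_nonneg _)
    calc M 0 * (qf (rk σ x) v / κ ^ 2 + qf (lv σ x) v)
        ≤ |M 0| * (K ^ 2 * (qf (rk σ x) v / κ' ^ 2) + K ^ 2 * qf (lv σ x) v) :=
          mul_le_mul (le_abs_self _) (add_le_add e1 e2) (add_nonneg p'' q) a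
      _ = |M 0| * K ^ 2 * (qf (rk σ x) v / κ' ^ 2 + qf (lv σ x) v) := by ring
      _ ≤ _ := mul_le_mul_of_nonneg_right (hM 0) (add_nonneg p' q)

theorem nr_par {X : Set C3} (F : Fam X) (i : F.ι) {x : V} (hx : x ∈ ball (0 : V) 1) {ρ : ℝ}
    (hρ : ρ ≤ 1) : Par X (fun y => F.Φ i (x + y)) (ball 0 ρ) :=
  (F.par i).affine (ContinuousLinearMap.id ℂ V) x Function.injective_id isOpen_ball fun y hy => by
    rw [mem_ball_zero_iff] at *
    exact (norm_add_le _ _).trans_lt (by change ‖x‖ + ‖y‖ < 2; linarith)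

theorem nr_cpt {X : Set C3} {ψ : C3 → ℝ} (hP : Pot X ψ) (F : Fam X) (hF : F.CPT) {K : Set C3}
    (hK : IsCompact K) (hKX : K ⊆ X) {r1 : ℝ} (hr : 0 < r1) : ∃ (M : ℕ → ℝ) (ρ B : ℝ), 0 < ρ ∧
      ρ ≤ 1 / 2 ∧ ∀ i, F.Φ i 0 ∈ K → ∀ x ∈ ball (0 : V) 1, r1 ≤ ψ (F.Φ i x) →
        Nice M 1 ρ (fun y => Real.log (ψ (F.Φ i (x + y)))) ∧
        (∀ y ∈ ball (0 : V) ρ, 0 < ψ (F.Φ i (x + y))) ∧ ψ (F.Φ i x) ≤ B := by
  obtain ⟨hw, hΛ⟩ := hF K 0 1 (fun _ => ψ) hK hKX one_pos (hP.rf.1.toXSm _)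
  obtain ⟨Λ, hΛ⟩ := hΛ fun _ _ N U P x hx => (hP.rf.2 N U P x hx).1
  have h01 : (0 : ℝ) ∈ Icc (0 : ℝ) 1 := ⟨le_rfl, zero_le_one⟩
  obtain ⟨M1, hM0, hM1⟩ := nc_unif (P := fun l M => ∀ i, F.Φ i 0 ∈ K →
    ∀ x ∈ ball (0 : V) (3 / 2), |DL l (ψ ∘ F.Φ i) x| ≤ M)
    (fun _ _ _ h H i hi x hx => (H i hi x hx).trans h)
    (fun l => (hw l).imp fun _ H i hi => H i hi 0 h01) 1
  set ρ := min (1 / 2) (r1 / (8 * M1 + 1)) with hρ
  have hρ0 : 0 < ρ := by positivity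
  have hρ1 : ρ ≤ 1 / 2 := min_le_left _ _
  have sm : ∀ i, ContDiffOn ℝ ∞ (ψ ∘ F.Φ i) (ball 0 (3 / 2)) := fun i =>
    (hP.rf.1 _ _ (F.par i)).mono (ball_subset_ball (by norm_num))
  have mem : ∀ x ∈ ball (0 : V) 1, ∀ y ∈ ball (0 : V) ρ, x + y ∈ ball (0 : V) (3 / 2) := by
    intro x hx y hy
    rw [mem_ball_zero_iff] at *
    exact (norm_add_le _ _).trans_lt (by linarith)
  have low : ∀ i, F.Φ i 0 ∈ K → ∀ x ∈ ball (0 : V) 1, r1 ≤ ψ (F.Φ i x) → ∀ y ∈ ball (0 : V) ρ,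
      ψ (F.Φ i (x + y)) ∈ Icc (r1 / 2) M1 := by
    intro i hi x hx h1 y hy
    refine ⟨?_, (le_abs_self _).trans (hM1 [] (by simp) i hi _ (mem x hx y hy))⟩
    have := wb_lip isOpen_ball (convex_ball _ _) (sm i) (M := M1)
      (fun j z hz => hM1 [j] (by simp) i hi z hz) (ball_subset_ball (by norm_num) hx)
      (mem x hx y hy)
    rw [add_sub_cancel_left] at this
    have h2 : ‖y‖ ≤ r1 / (8 * M1 + 1) := (mem_ball_zero_iff.1 hy).le.trans (min_le_right _ _)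
    rw [le_div_iff₀ (by positivity)] at h2
    have h3 := (abs_le.1 this).1
    simp only [Function.comp] at h3
    nlinarith [norm_nonneg y]
  let κ := {p : F.ι × V // F.Φ p.1 0 ∈ K ∧ p.2 ∈ ball (0 : V) 1 ∧ r1 ≤ ψ (F.Φ p.1 p.2)}
  have wk : ∀ k, WK (fun _ : κ => ball (0 : V) ρ) k
      fun p y => Real.log (ψ (F.Φ p.1.1 (p.1.2 + y))) := by
    intro k
    refine WK.comp (fun _ => isOpen_ball) isOpen_Ioi (isCompact_Icc (a := r1 / 2) (b := M1))
      (O := Ioi 0) (fun s hs => (half_pos hr).trans_le hs.1)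
      (contDiffOn_id.log fun s hs => ne_of_gt hs)
      (f := fun (p : κ) y => (ψ ∘ F.Φ p.1.1) (p.1.2 + y)) ?_
      fun p y hy => low _ p.2.1 _ p.2.2.1 p.2.2.2 y hy
    refine WK.of_words (fun _ => isOpen_ball) (fun p => ?_) fun l _ => ?_
    · exact hP.rf.1 _ _ (nr_par F p.1.1 p.2.2.1 (by linarith))
    · obtain ⟨M, hM⟩ := hw l
      refine ⟨M, fun p y hy => ?_⟩
      rw [wb_DL_transl]
      exact hM _ p.2.1 0 h01 _ (mem _ p.2.2.1 y hy)
  choose B hB using fun k => (wk k).words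
  refine ⟨fun k => |Λ| * M1 + |B k| + 2 * |B (k + 2)|, ρ, M1, hρ0, hρ1, fun i hi x hx h1 => ?_⟩
  have pos : ∀ y ∈ ball (0 : V) ρ, 0 < ψ (F.Φ i (x + y)) := fun y hy =>
    (half_pos hr).trans_le (low i hi x hx h1 y hy).1
  have P := nr_par F i hx (ρ := ρ) (by linarith)
  have s := (wk 0).1 ⟨(i, x), hi, hx, h1⟩
  have p0 : 0 ≤ |Λ| * M1 := by positivity
  refine ⟨⟨s, fun l _ y hy => ?_, fun k l hl α y hy => ?_, fun y hy => nc_nn hP P hy (pos y hy),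
    fun y hy v => ?_⟩, pos, ?_⟩
  · refine (hB _ l le_rfl ⟨(i, x), hi, hx, h1⟩ y hy).trans ?_
    linarith [le_abs_self (B l.length), abs_nonneg (B (l.length + 2))]
  · refine (wb_LB isOpen_ball s (M := B (k + 2))
      (fun l _ hl y hy => hB _ l hl ⟨(i, x), hi, hx, h1⟩ y hy) l hl α y hy).trans ?_
    linarith [le_abs_self (B (k + 2)), abs_nonneg (B k)]
  · have c2 := hP.rf.1.at2 P hy
    have e1 : lv (fun y => Real.log (ψ (F.Φ i (x + y)))) y = _ := lv_log c2 (pos y hy).ne'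
    have e2 : rk (fun y => Real.log (ψ (F.Φ i (x + y)))) y = _ :=
      rk_log (c2.differentiableAt (by norm_num)) (pos y hy).ne'
    have e3 : lv (fun y => ψ (F.Φ i (x + y))) y = lv (ψ ∘ F.Φ i) (x + y) :=
      wb_lv_transl x (ψ ∘ F.Φ i) y
    have E := hΛ i hi 0 h01 _ (mem x hx y hy)
    rw [e1, e2, e3, qf_sub, qf_smul, qf_smul, one_pow, div_one, add_sub_cancel]
    have q0 := E.isPos.nn v
    have hy1 := (low i hi x hx h1 y hy).2
    have hy0 := pos y hy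
    have e4 : 1 ≤ M1 * (ψ (F.Φ i (x + y)))⁻¹ := by
      rw [← div_eq_mul_inv, le_div_iff₀ hy0]; linarith
    have q1 : 0 ≤ (ψ (F.Φ i (x + y)))⁻¹ * qf (lv (ψ ∘ F.Φ i) (x + y)) v := by positivity
    calc ‖v‖ ^ 2 ≤ Λ * qf (lv (ψ ∘ F.Φ i) (x + y)) v := (E.2 v).1
      _ ≤ |Λ| * ((M1 * (ψ (F.Φ i (x + y)))⁻¹) * qf (lv (ψ ∘ F.Φ i) (x + y)) v) :=
          mul_le_mul (le_abs_self _) (le_mul_of_one_le_left q0 e4) q0 (abs_nonneg _)
      _ = |Λ| * M1 * ((ψ (F.Φ i (x + y)))⁻¹ * qf (lv (ψ ∘ F.Φ i) (x + y)) v) := by ring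
      _ ≤ _ := mul_le_mul_of_nonneg_right
          (by linarith [abs_nonneg (B 0), abs_nonneg (B (0 + 2))]) q1
  · exact (le_abs_self _).trans (hM1 [] (by simp) i hi _ (ball_subset_ball (by norm_num) hx))

variable {n : ℕ}

theorem nr_log (hn : 1 ≤ n) {a : Fin n → ℂ} (hE : ERR a) (Ξ : ℝ) : ∃ Me, 0 ≤ Me ∧ ∀ q : V,
    0 ≤ q.1.re → ‖q.2‖ ≤ Ξ → 2 * q.1.re - Me ≤ Real.log (psi a (cov a q)) ∧
      Real.log (psi a (cov a q)) ≤ 2 * q.1.re + Me := by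
  obtain ⟨M, hM⟩ := hE.2.2.2 0 Ξ []
  have hn' : (1 : ℝ) ≤ n := by exact_mod_cast hn
  refine ⟨|M| + n * (1 + Ξ ^ 2), by positivity, fun q h1 h2 => ?_⟩
  have h3 : |err a q| ≤ |M| := (hM q (by linarith) h2).trans (by
    have : Real.exp (-2 * q.1.re) ≤ 1 := Real.exp_le_one_iff.2 (by linarith)
    nlinarith [le_abs_self M, abs_nonneg M, Real.exp_pos (-2 * q.1.re)])
  have h4 : (1 : ℝ) ≤ n * (1 + ‖q.2‖ ^ 2) := by nlinarith [sq_nonneg ‖q.2‖]
  have h5 := Real.log_nonneg h4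
  have h6 := Real.log_le_self (zero_le_one.trans h4)
  have h7 : (n : ℝ) * (1 + ‖q.2‖ ^ 2) ≤ n * (1 + Ξ ^ 2) :=
    mul_le_mul_of_nonneg_left (by linarith [pow_le_pow_left₀ (norm_nonneg _) h2 2]) (by linarith)
  have h8 := abs_le.1 h3
  rw [err] at h8
  constructor <;> linarith [h8.1, h8.2]

theorem nr_shape (hn : 1 ≤ n) {a : Fin n → ℂ} (hE : ERR a) {Φ : V → C3} {T : V → V}
    (h : (∀ y, Φ y = cov a (T y)) ∨ ∀ y, Φ y = swap (cov a (T y))) : ∃ Ψ : V → C3,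
      Par (Xs a) Ψ univ ∧ (∀ q, psi a (Ψ q) = psi a (cov a q)) ∧ ∀ y, Φ y = Ψ (T y) := by
  rcases h with h | h
  · exact ⟨cov a, nc_par_cov hn a, fun _ => rfl, h⟩
  · exact ⟨_, nc_par_swap hn a, fun q => hE.2.2.1 _ (nc_cov_mem a q), h⟩

theorem nr_pt {ρ r Ξ : ℝ} (hρ : ρ ∈ Ioc (0 : ℝ) (1 / 8)) {w ξ : ℂ} (hw : 1 ≤ w.re) (hξ : ‖ξ‖ ≤ Ξ)
    {x : V} (hx : x ∈ ball (0 : V) r) (hr : r ≤ 2) :
    3 / 4 * w.re ≤ (w + (ρ * w.re : ℝ) * x.1).re ∧ (w + (ρ * w.re : ℝ) * x.1).re ≤ 2 * w.re ∧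
      ‖ξ + ρ * x.2‖ ≤ Ξ + 1 := by
  rw [mem_ball_zero_iff] at hx
  have h1 : |x.1.re| ≤ 2 := (Complex.abs_re_le_norm _).trans ((norm_fst_le x).trans (by linarith))
  have h2 : ‖x.2‖ ≤ 2 := (norm_snd_le x).trans (by linarith)
  have h3 := abs_le.1 h1
  have h4 : 0 ≤ ρ * w.re := mul_nonneg hρ.1.le (by linarith)
  have h5 : ρ * w.re ≤ 1 / 8 * w.re := mul_le_mul_of_nonneg_right hρ.2 (by linarith)
  rw [Complex.add_re, Complex.re_ofReal_mul]
  refine ⟨by nlinarith [h3.1], by nlinarith [h3.2], (norm_add_le _ _).trans (add_le_add hξ ?_)⟩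
  rw [norm_mul, Complex.norm_real, Real.norm_eq_abs, abs_of_pos hρ.1]
  nlinarith [hρ.1, hρ.2, norm_nonneg x.2]

theorem nice1 : NICE1 := by
  intro n a hn hS hP hE ρ hρ Ξ F ⟨K0, hK0, hK0X, hsh⟩ hF
  obtain ⟨Me, hMe, hlog⟩ := nr_log hn hE (Ξ + 1)
  have ctr : ∀ (i : F.ι) (w ξ : ℂ) (Ψ : V → C3), 1 ≤ w.re → ‖ξ‖ ≤ Ξ →
      (∀ q, psi a (Ψ q) = psi a (cov a q)) →
      (∀ y : V, F.Φ i y = Ψ (w + (ρ * w.re : ℝ) * y.1, ξ + ρ * y.2)) →
      psi a (F.Φ i 0) ≤ Real.exp (2 * w.re + Me) := by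
    intro i w ξ Ψ hw hξ h2 h3
    have := (hlog (w, ξ) (by linarith) (by linarith)).2
    rw [h3, h2]
    simp only [Prod.fst_zero, Prod.snd_zero, mul_zero, add_zero]
    exact (Real.log_le_iff_le_exp (hE.2.1 _)).1 this
  constructor
  · intro r1 hr
    obtain ⟨R0, M, hR0, hc⟩ := nb_core hn hP hE (Ξ + 1) 1 ρ hρ.1
    obtain ⟨M', ρ', B, h0, h1, hk⟩ := nr_cpt hP F hF
      (hK0.union (hP.pr (Real.exp (2 * (2 * R0) + Me)))) (union_subset hK0X fun _ h => h.1) hr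
    set K := 2 + |B| + Me + (5 + Me) / ρ with hK
    have hq : 0 ≤ (5 + Me) / ρ := div_nonneg (by linarith) hρ.1.le
    refine ⟨fun k => |M k| + |M' k|, ρ', K, h0, h1, fun i x hx hr1 => ?_⟩
    have m0 := le_max_right (Real.log (psi a (F.Φ i x))) 0
    by_cases hi : F.Φ i 0 ∈ K0 ∪ {p ∈ Xs a | psi a p ≤ Real.exp (2 * (2 * R0) + Me)}
    · obtain ⟨n1, n2, n3⟩ := hk i hi x hx hr1
      refine ⟨1, one_pos, nr_mono n1 le_rfl one_pos one_pos le_rfl (by simp) (by simp)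
        fun k => by simp, n2, ?_, ?_⟩
      · nlinarith [abs_nonneg B]
      · have := Real.log_le_self (hr.le.trans hr1)
        have : max (Real.log (psi a (F.Φ i x))) 0 ≤ |B| :=
          max_le (this.trans (n3.trans (le_abs_self _))) (abs_nonneg _)
        linarith
    · obtain h | ⟨w, ξ, hw, hξ, h⟩ := hsh i
      · exact absurd (Or.inl h) hi
      obtain ⟨Ψ, p1, p2, p3⟩ := nr_shape hn hE h
      have hw2 : 2 * R0 ≤ w.re := by
        by_contra hlt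
        refine hi (Or.inr ⟨(F.par i).mem Fam.zero_mem, (ctr i w ξ Ψ hw hξ p2 p3).trans ?_⟩)
        exact Real.exp_le_exp.2 (by linarith)
      obtain ⟨q1, q2, q3⟩ := nr_pt hρ hw hξ hx (by norm_num)
      have hd : 0 < ρ * w.re := mul_pos hρ.1 (by linarith)
      have hd8 : ρ * w.re ≤ 1 / 8 * w.re := mul_le_mul_of_nonneg_right hρ.2 (by linarith)
      have e : ∀ y : V, F.Φ i (x + y) = Ψ ((w + (ρ * w.re : ℝ) * x.1, ξ + ρ * x.2) +
          dgl (ρ * w.re) ρ y) := by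
        intro y
        rw [p3, dgl_apply]
        congr 1
        ext <;> simp only [Prod.fst_add, Prod.snd_add] <;> ring
      have nn := hc Ψ p1 p2 _ _ (ρ * w.re) ρ ρ' (by linarith) q3
        (le_mul_of_one_le_right hρ.1.le hw) (by linarith) (by linarith) (by nlinarith) le_rfl
        (by linarith [hρ.2])
      obtain ⟨l1, l2⟩ := hlog (w + (ρ * w.re : ℝ) * x.1, ξ + ρ * x.2) (by linarith) q3
      rw [← p2, ← p3] at l1 l2
      simp only at l1 l2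
      refine ⟨ρ * w.re, hd, ?_, fun y _ => ?_, ?_, ?_⟩
      · simp only [e]
        exact nr_mono nn le_rfl hd hd le_rfl (by simp) (by simp) fun k => by simp
      · rw [e, p2]; exact hE.2.1 _
      · have m1 := le_max_left (Real.log (psi a (F.Φ i x))) 0
        nlinarith [abs_nonneg B]
      · have m2 : max (Real.log (psi a (F.Φ i x))) 0 ≤ 4 * w.re + Me :=
          max_le (by linarith) (by linarith)
        have m3 : (5 + Me) / ρ * (ρ * w.re) = (5 + Me) * w.re := by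
          have := hρ.1.ne'
          field_simp
        have m4 : 0 ≤ (2 + |B| + Me) * (ρ * w.re) := by positivity
        nlinarith
  · obtain ⟨B, hB⟩ := (hK0.image_of_continuousOn
      ((hP.rf.1.continuousOn hS F).mono hK0X)).bddAbove
    refine ⟨max B (Real.exp (2 * Me + Me)) + 1, fun i hi x hx => ?_⟩
    obtain h | ⟨w, ξ, hw, hξ, h⟩ := hsh i
    · have := hB (mem_image_of_mem _ h)
      linarith [le_max_left B (Real.exp (2 * Me + Me))]
    obtain ⟨Ψ, p1, p2, p3⟩ := nr_shape hn hE h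
    have hw2 : Me ≤ w.re := by
      by_contra hlt
      have := (ctr i w ξ Ψ hw hξ p2 p3).trans
        (Real.exp_le_exp.2 (by linarith : 2 * w.re + Me ≤ 2 * Me + Me))
      linarith [le_max_right B (Real.exp (2 * Me + Me))]
    obtain ⟨q1, -, q3⟩ := nr_pt hρ hw hξ hx (by norm_num)
    have l1 := (hlog (w + (ρ * w.re : ℝ) * x.1, ξ + ρ * x.2) (by linarith) q3).1
    rw [p3, p2]
    refine (Real.log_nonneg_iff (hE.2.1 _)).1 (le_trans ?_ l1)
    simp only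
    linarith

theorem nr_z (hn : 1 ≤ n) (a : Fin n → ℂ) (z : ℂ) {t : ℝ} (ht : 0 ≤ t) (h : ‖Pz a z‖ ≤ t ^ n) :
    ‖z‖ ≤ ∑ j, ‖a j‖ + t := by
  by_contra hlt
  rw [not_le] at hlt
  have h1 : ∀ j, ‖z‖ - ∑ j, ‖a j‖ ≤ ‖z - a j‖ := fun j => by
    have := Finset.single_le_sum (f := fun j => ‖a j‖) (fun _ _ => norm_nonneg _)
      (Finset.mem_univ j)
    linarith [norm_sub_norm_le z (a j)]
  have h2 : (‖z‖ - ∑ j, ‖a j‖) ^ n ≤ ‖Pz a z‖ := by
    rw [Pz, norm_prod]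
    simpa using Finset.prod_le_prod (s := Finset.univ) (f := fun _ : Fin n => ‖z‖ - ∑ j, ‖a j‖)
      (fun _ _ => by linarith) fun j _ => h1 j
  have h3 := pow_lt_pow_left₀ (show t < ‖z‖ - ∑ j, ‖a j‖ by linarith) ht (by omega : n ≠ 0)
  linarith

theorem nr_far (hn : 1 ≤ n) (a : Fin n → ℂ) {R : ℝ} (hR : 0 ≤ R) {p : C3} (hp : p ∈ Xs a)
    (h1 : ‖p.2.1‖ ≤ ‖p.1‖) (h2 : Real.exp (n * R) ≤ ‖p.1‖) :
    ∃ w ξ : ℂ, R ≤ w.re ∧ ‖ξ‖ ≤ ∑ j, ‖a j‖ + 1 ∧ cov a (w, ξ) = p := by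
  have hx : 0 < ‖p.1‖ := (Real.exp_pos _).trans_le h2
  have hx' : p.1 ≠ 0 := norm_pos_iff.1 hx
  have hn0 : (0 : ℝ) < n := by exact_mod_cast hn
  have hn' : (n : ℂ) ≠ 0 := by exact_mod_cast (by omega : n ≠ 0)
  set w := Complex.log p.1 / n with hw
  have e1 : (n : ℂ) * w = Complex.log p.1 := by rw [hw]; field_simp
  have e2 : Complex.exp (n * w) = p.1 := by rw [e1, Complex.exp_log hx']
  have e3 : ‖p.1‖ = Real.exp (n * w.re) := by
    rw [← e2, Complex.norm_exp]; simp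
  have hRw : R ≤ w.re := by
    rw [e3, Real.exp_le_exp] at h2
    exact le_of_mul_le_mul_left h2 hn0
  have e4 : p.2.2 * Complex.exp (-(2 * w)) * Complex.exp (2 * w) = p.2.2 := by
    rw [mul_assoc, ← Complex.exp_add, neg_add_cancel, Complex.exp_zero, mul_one]
  have hp' : p.1 * p.2.1 = Pz a p.2.2 := hp
  refine ⟨w, p.2.2 * Complex.exp (-(2 * w)), hRw, ?_, ?_⟩
  · have z1 := nr_z hn a p.2.2 (Real.exp_pos (2 * w.re)).le (by
      rw [← hp', norm_mul, ← Real.exp_nat_mul]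
      refine (mul_le_mul_of_nonneg_left h1 hx.le).trans (le_of_eq ?_)
      rw [e3, ← Real.exp_add]; congr 1; ring)
    have z2 : ‖Complex.exp (-(2 * w))‖ = Real.exp (-(2 * w.re)) := by
      rw [Complex.norm_exp]; simp
    have z3 : Real.exp (2 * w.re) * Real.exp (-(2 * w.re)) = 1 := by
      rw [← Real.exp_add, add_neg_cancel, Real.exp_zero]
    have z4 : Real.exp (-(2 * w.re)) ≤ 1 := Real.exp_le_one_iff.2 (by linarith)
    have z5 : 0 ≤ ∑ j, ‖a j‖ := Finset.sum_nonneg fun _ _ => norm_nonneg _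
    rw [norm_mul, z2]
    have := mul_le_mul_of_nonneg_right z1 (Real.exp_pos (-(2 * w.re))).le
    nlinarith
  · simp only [cov, e4, e2, ← hp']
    refine Prod.ext rfl (Prod.ext ?_ rfl)
    rw [Complex.exp_neg, e2]
    field_simp

theorem nice2 : NICE2 := by
  intro n a hn hS hP hE F hN K
  set A := ∑ j, ‖a j‖ with hA
  have hA0 : 0 ≤ A := Finset.sum_nonneg fun _ _ => norm_nonneg _
  obtain ⟨Me, hMe, hlog⟩ := nr_log hn hE (A + 1)
  set L := (|K| + 1) * (3 + Me) with hL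
  have hL0 : 0 < L := by positivity
  obtain ⟨R0, M, hR0, hc⟩ := nb_core hn hP hE (A + 1) L 1 one_pos
  obtain ⟨M', ρ', K', h0, h1, hk⟩ := hN 1 one_pos
  set T := Real.exp (n * R0) with hT
  obtain ⟨B, hB⟩ := (((isCompact_closedBall (0 : C3) (T + (A + Real.exp (2 * R0)))).inter_left
    hS.1).image_of_continuousOn ((hP.rf.1.continuousOn hS F).mono inter_subset_left)).bddAbove
  set Q := 1 + |K'| * (1 + |B|) + |K| * (1 + |B|) * |K'| with hQ
  have hQ1 : 1 ≤ Q := by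
    have : 0 ≤ |K'| * (1 + |B|) + |K| * (1 + |B|) * |K'| := by positivity
    linarith
  set ρ := min ρ' (1 / (2 * L)) with hρ
  have hρ0 : 0 < ρ := by positivity
  have hρ1 : ρ ≤ 1 := (min_le_left _ _).trans (by linarith)
  refine ⟨fun k => |M k| + |M' k| * Q ^ 2, ρ, hρ0, fun p hp hp1 κ hκ1 hκ2 => ?_⟩
  have hl0 := Real.log_nonneg hp1
  have hκ3 : κ ≤ |K| * (1 + Real.log (psi a p)) :=
    hκ2.trans (mul_le_mul_of_nonneg_right (le_abs_self _) (by linarith))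
  have hκ0 : 0 < κ := by linarith
  have far : ∀ Ψ : V → C3, Par (Xs a) Ψ univ → (∀ q, psi a (Ψ q) = psi a (cov a q)) →
      ∀ w ξ : ℂ, R0 ≤ w.re → ‖ξ‖ ≤ A + 1 → Ψ (w, ξ) = p → ∃ N, Par (Xs a) N (ball 0 ρ) ∧ N 0 = p ∧
        Nice (fun k => |M k| + |M' k| * Q ^ 2) κ ρ (fun y => Real.log (psi a (N y))) ∧
        ∀ y ∈ ball (0 : V) ρ, 0 < psi a (N y) := by
    intro Ψ p1 p2 w ξ hw hξ he
    have l2 := (hlog (w, ξ) (by linarith) hξ).2
    rw [← p2, he] at l2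
    simp only at l2
    have k1 : κ ≤ L * w.re := by
      refine hκ3.trans ?_
      rw [hL, mul_assoc]
      exact mul_le_mul (by linarith) (by nlinarith) (by linarith) (by positivity)
    have k2 : κ * ρ ≤ w.re / 2 := by
      have := mul_le_mul k1 (min_le_right ρ' (1 / (2 * L))) hρ0.le (by nlinarith)
      refine this.trans (le_of_eq ?_)
      field_simp
    refine ⟨fun y => Ψ ((w, ξ) + dgl κ 1 y), p1.affine _ _ (dgl_inj hκ0.ne' one_ne_zero)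
      isOpen_ball fun _ _ => mem_univ _, by simp [he], ?_, fun y _ => by rw [p2]; exact hE.2.1 _⟩
    refine nr_mono (hc Ψ p1 p2 w ξ κ 1 ρ hw hξ hκ1 k1 hρ1 k2 le_rfl le_rfl) le_rfl hκ0 hκ0 le_rfl
      (by simp) (by simp) fun k => ?_
    have : 0 ≤ |M' k| * Q ^ 2 := by positivity
    simpa using this
  by_cases hx : T ≤ max ‖p.1‖ ‖p.2.1‖
  · rcases le_total ‖p.2.1‖ ‖p.1‖ with h | h
    · obtain ⟨w, ξ, a1, a2, a3⟩ := nr_far hn a (by linarith) hp h (hx.trans_eq (max_eq_left h))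
      exact far _ (nc_par_cov hn a) (fun _ => rfl) w ξ a1 a2 a3
    · obtain ⟨w, ξ, a1, a2, a3⟩ := nr_far hn a (R := R0) (by linarith) (nc_swap_mem hp) h
        (hx.trans_eq (max_eq_right h))
      exact far _ (nc_par_swap hn a) (fun q => hE.2.2.1 _ (nc_cov_mem a q)) w ξ a1 a2
        (by rw [a3]; rfl)
  · rw [not_le, max_lt_iff] at hx
    have hT0 : 0 < T := Real.exp_pos _
    have hp' : p.1 * p.2.1 = Pz a p.2.2 := hp
    have z1 := nr_z hn a p.2.2 (Real.exp_pos (2 * R0)).le (by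
      rw [← hp', norm_mul, ← Real.exp_nat_mul]
      refine (mul_le_mul hx.1.le hx.2.le (norm_nonneg _) hT0.le).trans (le_of_eq ?_)
      rw [hT, ← Real.exp_add]; congr 1; ring)
    have hpB : psi a p ≤ B := by
      refine hB (mem_image_of_mem _ ⟨hp, mem_closedBall_zero_iff.2 ?_⟩)
      have := Real.exp_pos (2 * R0)
      rw [Prod.norm_def, Prod.norm_def]
      exact max_le (by linarith [hx.1]) (max_le (by linarith [hx.2]) (by linarith))
    have hlB : Real.log (psi a p) ≤ |B| :=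
      (Real.log_le_self (by linarith)).trans (hpB.trans (le_abs_self _))
    obtain ⟨i, rfl⟩ := F.sur p hp
    have h01 : (0 : V) ∈ ball (0 : V) 1 := mem_ball_self one_pos
    obtain ⟨κ1, k0, n1, n2, k1, k2⟩ := hk i 0 h01 hp1
    rw [max_eq_left hl0] at k1 k2
    have k3 : 1 ≤ |K'| * κ1 :=
      le_trans (by linarith) (k2.trans (mul_le_mul_of_nonneg_right (le_abs_self _) k0.le))
    have k4 : κ1 ≤ |K'| * (1 + |B|) :=
      k1.trans (mul_le_mul (le_abs_self _) (by linarith) (by linarith) (abs_nonneg _))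
    have k5 : κ ≤ |K| * (1 + |B|) :=
      hκ3.trans (mul_le_mul_of_nonneg_left (by linarith) (abs_nonneg _))
    have u1 : 0 ≤ |K'| * (1 + |B|) := by positivity
    have u2 : 0 ≤ |K| * (1 + |B|) := by positivity
    have u3 : 0 ≤ |K| * (1 + |B|) * |K'| := by positivity
    refine ⟨fun y => F.Φ i (0 + y), nr_par F i h01 hρ1, by simp, nr_mono n1 (min_le_left _ _) k0 hκ0
      hQ1 ?_ ?_ fun k => by linarith [abs_nonneg (M k)],
      fun y hy => n2 y (ball_subset_ball (min_le_left _ _) hy)⟩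
    · nlinarith
    · have := mul_le_mul_of_nonneg_left k3 u2
      nlinarith

end Pool.Agent.MP_67f0e4_gt.K
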