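import Pool.Agent.MP_67f0e4_gt.K.Kit

/-! Row OUT: the outer estimate. -/

open Set Metric Filter Topology
open scoped ContDiff

noncomputable section

namespace Pool.Agent.MP_67f0e4_gt.K

theorem rout_eta (c : ℝ) {δ : ℝ} (hδ : 0 < δ) : ∃ η > 0, c * (2 * η) ^ 2 ≤ δ ^ 3 := by
  have a : 0 < 4 * (|c| + 1) := by positivity
  refine ⟨min 1 (δ ^ 3 / (4 * (|c| + 1))), lt_min one_pos (by positivity), ?_⟩
  set η := min 1 (δ ^ 3 / (4 * (|c| + 1)))
  have h0 : 0 < η := lt_min one_pos (by positivity)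
  have h1 : η ≤ 1 := min_le_left _ _
  have h2 : η * (4 * (|c| + 1)) ≤ δ ^ 3 := (le_div_iff₀ a).1 (min_le_right _ _)
  have h3 : η ^ 2 ≤ η := by nlinarith
  have h4 : c * η ^ 2 ≤ (|c| + 1) * η :=
    mul_le_mul (by linarith [le_abs_self c]) h3 (by positivity) (by positivity)
  nlinarith

theorem rout : rOUT := by
  rintro ⟨d, hd, hLU⟩ hD hI X ψ F C θf Kf Cj u hc
  obtain ⟨M, ρ, hρ, hN⟩ := hc.geo.n2 C
  obtain ⟨r1, hr1, hB1⟩ := hLU C θf Kf hc.prof.cst M ρ hρ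
  obtain ⟨B1, hB1⟩ := hB1 4
  obtain ⟨r2, hr2, Λ, hB2⟩ := hD M Cj ρ hρ
  obtain ⟨B2, hB2⟩ := hB2 4
  have hr : 0 < min r1 r2 := lt_min hr1.1 hr2.1
  obtain ⟨CI, hCI⟩ := hI (min r1 r2) hr (B1 + B2)
  refine ⟨d, hd, fun ε hε => ?_⟩
  have hΛ : 0 < 6 * (|Λ| + 1) := by positivity
  obtain ⟨η, hη, hηδ⟩ := rout_eta CI (div_pos hε hΛ)
  refine ⟨η, hη, fun b τ φ hrun hbs p hp hcl => ?_⟩
  have hτ0 : τ ∈ Icc 0 τ := ⟨hrun.τ0.1.le, le_rfl⟩
  have h1 : 1 ≤ ψ p := hc.one p hp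
  have hL : 0 ≤ Real.log (ψ p) := Real.log_nonneg h1
  have hon := hc.prof.on τ hrun.τ0
  have E := hon.est
  have hC := hc.prof.cst.1
  obtain ⟨p2, p21, -⟩ := E.pos (Real.log (ψ p) - b) τ hτ0
  have k1 : 1 ≤ kap (UJ u) (Real.log (ψ p) - b) τ :=
    Real.le_sqrt_of_sq_le (by rw [one_pow, le_div_iff₀ p2, one_mul]; exact p21)
  have k2 : kap (UJ u) (Real.log (ψ p) - b) τ ≤ C * (1 + Real.log (ψ p)) := by
    have a2 : max (Real.log (ψ p) - b) 0 ≤ Real.log (ψ p) := max_le (by linarith [hrun.b0]) hL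
    exact (E.kle _ τ hτ0).trans (mul_le_mul_of_nonneg_left (by linarith) (by linarith))
  obtain ⟨N, hP, rfl, hn, -⟩ := hN p hp h1 _ k1 k2
  set P := UJ u 1 (Real.log (ψ (N 0)) - b) τ with hPdef
  have P0 : 0 < P := p2.trans_le p21
  have e : ∀ t y, lv (FF ψ u b t ∘ N) y = lv (fun y => u (Real.log (ψ (N y)) - b) t) y :=
    fun t y => lv_sub_const (fun y => u (Real.log (ψ (N y)) - b) t) (2 * b * t) y
  have fl := hrun.gf.1 _ _ hP
  have key1 : LB 4 (B1 * P) (φ τ ∘ N) (ball 0 r1) :=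
    hB1 τ u (fun y => Real.log (ψ (N y))) b (fun t => φ t ∘ N) _ hrun.τ0.1 hon hn fl
      (fun y hy => by simpa [FF] using hrun.init _ (hP.mem hy))
      (fun t ht y hy => by
        have c1 := hbs t ht _ (hP.mem hy) _ _ hP y hy rfl
        rwa [e] at c1)
  have hpb := hc.prof.pb τ ⟨hrun.τ0.1.le, hrun.τ0.2⟩
  obtain ⟨key2, key3⟩ := hB2 (fun s => u s τ) (fun y => Real.log (ψ (N y)) - b) hpb
    (hn.sub_const b)
  set G : V → ℝ := fun y => u (Real.log (ψ (N y)) - b) τ with hG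
  change LB 4 (B2 * P) G (ball 0 r2) at key2
  have key4 : EllH Λ (P⁻¹ • lv G 0) := key3 0 (mem_ball_self hr2.1)
  have sub : ball (0 : V) (min r1 r2) ⊆ ball 0 ρ :=
    ball_subset_ball ((min_le_left _ _).trans hr1.2.le)
  have s1 : ∀ y ∈ ball (0 : V) ρ, ContDiffAt ℝ ∞ (φ τ ∘ N) y := fun y hy =>
    fl.sm.at isOpen_ball hτ0 hy
  have s2 : ∀ y ∈ ball (0 : V) ρ, ContDiffAt ℝ ∞ G y := fun y hy =>
    hpb.sm.contDiffAt.comp y ((hn.sub_const b).sm.contDiffAt (isOpen_ball.mem_nhds hy))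
  have lb := ((key1.mono le_rfl le_rfl (ball_subset_ball (min_le_left r1 r2))).sub
    (key2.mono le_rfl le_rfl (ball_subset_ball (min_le_right r1 r2)))
    (fun y hy => s1 y (sub hy)) fun y hy => s2 y (sub hy)).const_mul P⁻¹
  have eb : |P⁻¹| * (B1 * P + B2 * P) = B1 + B2 := by
    rw [abs_of_pos (inv_pos.2 P0)]
    field_simp
  rw [eb] at lb
  have h0 : (0 : V) ∈ ball (0 : V) ρ := mem_ball_self hρ
  have hv := hCI _ (2 * η) (fun y hy => (contDiffAt_const.mul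
    ((s1 y (sub hy)).sub (s2 y (sub hy)))).contDiffWithinAt) lb fun y hy => by
      have a1 := abs_le.1 (hcl _ (hP.mem (sub hy)))
      have a2 := abs_le.1 (hcl _ (hP.mem h0))
      rw [← mul_sub, abs_mul, abs_of_pos (inv_pos.2 P0), inv_mul_le_iff₀ P0, abs_le]
      simp only [FF] at a1 a2
      simp only [Function.comp, hG]
      constructor <;> linarith [a1.1, a1.2, a2.1, a2.2]
  have hv2 := (pow_le_pow_iff_left₀ (norm_nonneg _) (div_pos hε hΛ).le three_ne_zero).1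
    (hv.trans hηδ)
  rw [lv_const_mul, lv_sub ((s1 0 h0).of_le two_le_inf) ((s2 0 h0).of_le two_le_inf),
    smul_sub] at hv2
  have c1 := ((cl_of_norm key4 hv2).mono key4.isPos.nn (d' := ε) (by
    have : ε / (6 * (|Λ| + 1)) * (6 * (|Λ| + 1)) = ε := div_mul_cancel₀ _ hΛ.ne'
    have := mul_le_mul_of_nonneg_left (show 6 * Λ ≤ 6 * (|Λ| + 1) by linarith [le_abs_self Λ])
      (div_pos hε hΛ).le
    linarith)).smul P0.le
  rw [smul_smul, smul_smul, mul_inv_cancel₀ P0.ne', one_smul, one_smul] at c1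
  refine XCl_of_at hc.geo.surf hP h0 ((s1 0 h0).of_le two_le_inf)
    (((s2 0 h0).sub contDiffAt_const).of_le two_le_inf) ?_
  rw [e]
  exact c1

end Pool.Agent.MP_67f0e4_gt.K
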