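import Pool.Agent.MP_67f0e4_gt.K.Spec
import Pool.Agent.MP_67f0e4_gt.K.Chain

/-! Row SYM: flows inherit the symmetries of the initial data. -/

set_option autoImplicit false

open scoped ContDiff Topology
open Set Metric Filter

namespace Pool.Agent.MP_67f0e4_gt.K

theorem sym : SYM := by
  intro X ψ F τ φ σ hτ hM _ hG hσ h0
  obtain ⟨hX, ⟨Λ, hΛ⟩, -⟩ := hG
  obtain ⟨s1, s2, s3⟩ := hσ
  have z2 : (0 : V) ∈ ball (0 : V) 2 := mem_ball_self two_pos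
  have z1 : (0 : V) ∈ ball (0 : V) 1 := mem_ball_self one_pos
  have n2 : ball (0 : V) 2 ∈ 𝓝 (0 : V) := ball_mem_nhds _ two_pos
  have o2 : (2 : WithTop ℕ∞) ≤ ∞ := WithTop.coe_le_coe.2 (le_top : (2 : ℕ∞) ≤ ⊤)
  -- the speed
  let r : ℝ → C3 → ℝ := fun s q => derivWithin (fun s => φ s q) (Icc 0 τ) s
  have hr : ∀ N U, Par X N U → ∀ x ∈ U, ∀ s ∈ Icc 0 τ, r s (N x) =
      Real.log (hdet (lv (φ s ∘ N) x)) - Real.log (hdet (lv (ψ ∘ N) x)) := fun N U hP x hx s hs =>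
    ((hX N U hP).eq s hs x hx).derivWithin (uniqueDiffOn_Icc hτ s hs)
  have hd : ∀ q ∈ X, ∀ s ∈ Icc 0 τ, HasDerivWithinAt (fun s => φ s q) (r s q) (Icc 0 τ) s := by
    intro q hq s hs
    obtain ⟨i, rfl⟩ := F.sur q hq
    rw [hr _ _ (F.par i) 0 z2 s hs]
    exact (hX _ _ (F.par i)).eq s hs 0 z2
  have hb : ∀ q ∈ X, ∀ s ∈ Icc 0 τ,
      |r s q - r 0 q| ≤ Real.log (Λ ^ 2) - Real.log ((4 * Λ ^ 2)⁻¹) := by
    intro q hq s hs
    obtain ⟨i, rfl⟩ := F.sur q hq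
    have h1 : ∀ s ∈ Icc 0 τ, Real.log ((4 * Λ ^ 2)⁻¹) ≤ Real.log (hdet (lv (φ s ∘ F.Φ i) 0)) ∧
        Real.log (hdet (lv (φ s ∘ F.Φ i) 0)) ≤ Real.log (Λ ^ 2) := fun s hs => by
      have h2 := hΛ s hs i 0 z1
      have h3 := h2.pos
      exact ⟨Real.log_le_log (by positivity) h2.det_ge, Real.log_le_log h2.isPos.det h2.det_le⟩
    have h4 := h1 s hs
    have h5 := h1 0 ⟨le_rfl, hτ.le⟩
    rw [hr _ _ (F.par i) 0 z2 s hs, hr _ _ (F.par i) 0 z2 0 ⟨le_rfl, hτ.le⟩, abs_le]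
    constructor <;> linarith [h4.1, h4.2, h5.1, h5.2]
  have hψ : ∀ i, lv (ψ ∘ σ ∘ F.Φ i) 0 = lv (ψ ∘ F.Φ i) 0 := fun i => by
    refine lv_congr ?_
    filter_upwards [n2] with y hy using s3 _ ((F.par i).mem hy)
  have hs0 : ∀ q ∈ X, r 0 (σ q) = r 0 q := by
    intro q hq
    obtain ⟨i, rfl⟩ := F.sur q hq
    have h1 : lv (φ 0 ∘ σ ∘ F.Φ i) 0 = lv (φ 0 ∘ F.Φ i) 0 := by
      refine lv_congr ?_
      filter_upwards [n2] with y hy using h0 _ ((F.par i).mem hy)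
    have h2 := hr _ _ (s2 _ _ (F.par i)) 0 z2 0 ⟨le_rfl, hτ.le⟩
    rw [hr _ _ (F.par i) 0 z2 0 ⟨le_rfl, hτ.le⟩, ← h1, ← hψ i]
    exact h2
  generalize Real.log (Λ ^ 2) - Real.log ((4 * Λ ^ 2)⁻¹) = B at hb
  have key := hM 0 τ (8 * Λ ^ 3) (2 * |B| * τ) (fun t p => φ t (σ p) - φ t p) hτ
    (fun N U hP => (hX _ _ (s2 N U hP)).sm.sub (hX N U hP).sm) (fun t ht p hp => ?_)
    (fun p hp => by rw [h0 p hp, sub_self]) fun t ht i _ => ?_
  · intro t ht p hp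
    exact sub_nonpos.1 (key t ht p hp)
  · have h1 := norm_image_sub_le_of_norm_deriv_le_segment' (C := 2 * |B|)
      (fun s hs => (hd _ (s1 hp) s hs).sub (hd p hp s hs)) (fun s hs => by
        have a1 := abs_le.1 (hb _ (s1 hp) s (Ico_subset_Icc_self hs))
        have a2 := abs_le.1 (hb p hp s (Ico_subset_Icc_self hs))
        have a3 := hs0 p hp
        have a4 := le_abs_self B
        rw [Real.norm_eq_abs, abs_le]
        constructor <;> linarith [a1.1, a1.2, a2.1, a2.2]) t ht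
    simp only [Pi.sub_apply, h0 p hp, sub_self, sub_zero, Real.norm_eq_abs] at h1
    refine (le_abs_self _).trans (h1.trans ?_)
    exact mul_le_mul_of_nonneg_left ht.2 (by positivity)
  · have ht' : t ∈ Icc 0 τ := Ioc_subset_Icc_self ht
    have hp := (F.par i).mem z2
    have e1 := hΛ t ht' i 0 z1
    have P1 := hX _ _ (s2 _ _ (F.par i))
    have P2 := hX _ _ (F.par i)
    have c : ContDiff ℝ ∞ fun x : V => (t, x) := by fun_prop
    have c1 : ContDiffAt ℝ ∞ (φ t ∘ σ ∘ F.Φ i) 0 :=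
      (P1.sm.comp c.contDiffOn fun x hx => ⟨ht', hx⟩).contDiffAt n2
    have c2 : ContDiffAt ℝ ∞ (φ t ∘ F.Φ i) 0 :=
      (P2.sm.comp c.contDiffOn fun x hx => ⟨ht', hx⟩).contDiffAt n2
    refine ⟨_, _, e1.isPos.inv_nn, e1.inv_le, (hd _ (s1 hp) t ht').sub (hd _ hp t ht'), ?_⟩
    have h1 := hr _ _ (s2 _ _ (F.par i)) 0 z2 t ht'
    have h2 := hr _ _ (F.par i) 0 z2 t ht'
    have h3 := log_hdet_le e1.isPos (P1.pos t ht' 0 z2)
    have h4 : lv ((fun p => φ t (σ p) - φ t p) ∘ F.Φ i) 0 =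
        lv (φ t ∘ σ ∘ F.Φ i) 0 - lv (φ t ∘ F.Φ i) 0 :=
      lv_sub (c1.of_le o2) (c2.of_le o2)
    rw [hψ i] at h1
    rw [h4, h2]
    erw [h1]
    linarith

end Pool.Agent.MP_67f0e4_gt.K
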