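import Pool.Agent.MP_67f0e4_gt.K.Spec
import Pool.Agent.MP_67f0e4_gt.K.Chart
import Pool.Agent.MP_67f0e4_gt.R48.Jets
import Pool.Agent.MP_67f0e4_gt.B.Kit
import Pool.Agent.MP_67f0e4_gt.B.RELL
import Pool.Agent.MP_67f0e4_gt.B.REXB
import Pool.Agent.MP_67f0e4_gt.B.REXD
import Pool.Agent.MP_67f0e4_gt.B.REQ0
import Pool.Agent.MP_67f0e4_gt.B.REQS
import Pool.Agent.MP_67f0e4_gt.B.RTIME

/-! Closeness moves slowly in time. -/

open Set Metric Filter Topology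
open scoped ContDiff

noncomputable section

namespace Pool.Agent.MP_67f0e4_gt.K

open R48 (E1 E2)

theorem rtlip_time : B.STIME :=
  B.time B.kit B.ell B.exb (B.exd B.kit B.ell) (B.eq_all (B.eq0 B.kit B.ell B.exb
    (B.exd B.kit B.ell)) (B.eqs B.kit B.exb (B.exd B.kit B.ell)))

theorem rtlip_mvt {f f' : ℝ → ℝ} {τ L t t' : ℝ}
    (h : ∀ s ∈ Icc 0 τ, HasDerivWithinAt f (f' s) (Icc 0 τ) s) (b : ∀ s ∈ Icc 0 τ, |f' s| ≤ L)
    (ht : t ∈ Icc 0 τ) (ht' : t' ∈ Icc 0 τ) : |f t' - f t| ≤ L * |t' - t| :=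
  (convex_Icc 0 τ).norm_image_sub_le_of_norm_hasDerivWithin_le h b ht ht'

/-- the metric of the flow is Lipschitz in time -/
theorem rtlip_flow {X : Set C3} {ψ : C3 → ℝ} {F : Fam X} {τ : ℝ} {φ : ℝ → C3 → ℝ} (hτ : 0 < τ)
    (G : F.GFlow ψ τ φ) : ∃ L, 0 ≤ L ∧ ∀ i, ∀ t ∈ Icc 0 τ, ∀ t' ∈ Icc 0 τ,
      ‖lv (φ t' ∘ F.Φ i) 0 - lv (φ t ∘ F.Φ i) 0‖ ≤ L * |t' - t| := by
  obtain ⟨k, hk⟩ := rtlip_time 1
  obtain ⟨hf, ⟨Λ, hΛ⟩, hb⟩ := G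
  obtain ⟨M, hM⟩ := hb k
  obtain ⟨C, hC⟩ := hk (max Λ 1) M (lt_max_of_lt_right one_pos)
  have hN := B.nice.1 0 τ hτ
  have h0 : (0 : V) ∈ ball (0 : V) 1 := mem_ball_self one_pos
  refine ⟨|C|, abs_nonneg C, fun i t ht t' ht' =>
    (pi_norm_le_iff_of_nonneg (by positivity)).2 fun α => ?_⟩
  have hP := hf _ _ (F.par i)
  refine rtlip_mvt (f := fun s => lv (φ s ∘ F.Φ i) 0 α) (fun s hs =>
    B.kit_has (B.kit_smGm hN isOpen_ball hP.sm α) hs Fam.zero_mem) (fun s hs => ?_) ht ht'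
  have h1 := (hC _ _ _ _ hN isOpen_ball hP s hs 0 Fam.zero_mem
    ((hΛ s hs i 0 h0).mono (le_max_left _ _)) (fun l hl β x hx => hM s hs i l hl β x
      (mem_singleton_iff.1 hx ▸ h0)) α).1
  rw [norm_iteratedFDerivWithin_one _ (B.kit_ud hN isOpen_ball (s, 0) ⟨hs, Fam.zero_mem⟩)] at h1
  exact (ContinuousLinearMap.le_of_opNorm_le _ (h1.trans (le_abs_self C)) (1, 0)).trans_eq (by simp)

theorem rtlip_alg {a b c d C A : ℝ} (hb : 0 < b) (ha : b ≤ a) (h3 : |c| * √(a / b) ≤ C * b)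
    (h4 : |d| * √(a / b) ^ 2 ≤ A * b) : |b / a + c / b - 2| ≤ C + 3 ∧
      |c / a - b ^ 2 / a ^ 2 + d / b - c ^ 2 / b ^ 2| ≤ (C + 1 + |A| + C ^ 2) * (b / a) := by
  have a0 := hb.trans_le ha
  have q0 : 0 < b / a := div_pos hb a0
  have q1 : b / a ≤ 1 := (div_le_one a0).2 ha
  have k1 : 1 ≤ √(a / b) := Real.one_le_sqrt.2 ((one_le_div hb).2 ha)
  have c1 : |c| ≤ C * b := (le_mul_of_one_le_right (abs_nonneg c) k1).trans h3
  have c2 := pow_le_pow_left₀ (by positivity) h3 2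
  rw [mul_pow, sq_abs, Real.sq_sqrt (div_pos a0 hb).le] at c2
  rw [Real.sq_sqrt (div_pos a0 hb).le] at h4
  have e1 : |c / b| ≤ C := by rwa [abs_div, abs_of_pos hb, div_le_iff₀ hb]
  have e2 : |c / a| ≤ C * (b / a) := by
    rw [abs_div, abs_of_pos a0, ← mul_div_assoc]
    exact div_le_div_of_nonneg_right c1 a0.le
  have e3 : b ^ 2 / a ^ 2 ≤ b / a := by rw [← div_pow]; nlinarith
  have e4 : |d / b| ≤ |A| * (b / a) := by
    have : |d / b| = |d| * (a / b) * (b / a) / b := by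
      rw [abs_div, abs_of_pos hb]
      field_simp
    rw [this, div_le_iff₀ hb, mul_right_comm |A|]
    exact mul_le_mul_of_nonneg_right (h4.trans
      (mul_le_mul_of_nonneg_right (le_abs_self A) hb.le)) q0.le
  have e5 : c ^ 2 / b ^ 2 ≤ C ^ 2 * (b / a) := by
    have : c ^ 2 / b ^ 2 = c ^ 2 * (a / b) * (b / a) / b ^ 2 := by field_simp
    rw [this, div_le_iff₀ (by positivity), mul_right_comm (C ^ 2), ← mul_pow]
    exact mul_le_mul_of_nonneg_right c2 q0.le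
  have e6 : 0 ≤ b ^ 2 / a ^ 2 := by positivity
  have e7 : 0 ≤ c ^ 2 / b ^ 2 := by positivity
  rw [abs_le] at e1 e2 e4
  constructor <;> rw [abs_le] <;> constructor <;>
    nlinarith [e1.1, e1.2, e2.1, e2.2, e4.1, e4.2, mul_nonneg (sq_nonneg C) q0.le]

/-- the profile is Lipschitz in time -/
theorem rtlip_prof {C : ℝ} {θf : ℝ → ℝ} {Kf : ℝ → ℝ → ℝ} {Cj : ℕ → ℝ} {u : ℝ → ℝ → ℝ}
    (P : Prof C θf Kf Cj u) {τ : ℝ} (hτ : τ ∈ Ioo (0 : ℝ) (1 / 2)) (s₀ : ℝ) :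
    ∃ L, 0 ≤ L ∧ ∀ s, s₀ ≤ s → ∀ t ∈ Icc 0 τ, ∀ t' ∈ Icc 0 τ,
      |UJ u 1 s t - UJ u 1 s t'| ≤ L * |t' - t| * UJ u 1 s t' ∧
      |UJ u 2 s t - UJ u 2 s t'| ≤ L * |t' - t| * UJ u 2 s t' := by
  obtain ⟨-, R, E⟩ := P.on τ hτ
  obtain ⟨-, J1, J2, -⟩ := R.jets (by norm_num) hτ.1.le
  obtain ⟨K, K1, hK⟩ := R.apr
  have C1 := P.cst.1
  have F1 := P.cst.2.2 τ s₀
  obtain ⟨A, hA, A0⟩ : ∃ A, A = C + 1 + |Cj 2| + C ^ 2 ∧ 0 ≤ A := ⟨_, rfl, by positivity⟩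
  refine ⟨(C + 3) * Kf τ s₀ + A * Kf τ s₀ * (K * K), by positivity, fun s hs t ht t' ht' => ?_⟩
  have lo : ∀ r ∈ Icc 0 τ, 1 ≤ Kf τ s₀ * UJ u 1 s r := fun r hr =>
    ((E.lo τ s₀ le_rfl hτ.2 r hr).2 s hs).1
  have al := fun r (hr : r ∈ Icc 0 τ) => rtlip_alg (E.pos s r hr).1 (E.pos s r hr).2.1 (E.yab s r hr)
    ((P.pb r ⟨hr.1, hr.2.trans_lt hτ.2⟩).bd 2 s)
  have p2 := (E.pos s t' ht').1
  have p1 := p2.trans_le (E.pos s t' ht').2.1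
  have d0 := abs_nonneg (t' - t)
  have h1 := rtlip_mvt (J1.dt s) (fun r hr => (al r hr).1) ht' ht
  have h2 := rtlip_mvt (L := A * Kf τ s₀ * (K * K) * UJ u 2 s t') (J2.dt s) (fun r hr => by
    have q2 := (E.pos s r hr).1
    have q1 := q2.trans_le (E.pos s r hr).2.1
    have a1 : UJ u 2 s r / UJ u 1 s r ≤ Kf τ s₀ * UJ u 2 s r := by
      rw [div_le_iff₀ q1, mul_right_comm]
      exact le_mul_of_one_le_left q2.le (lo r hr)
    have a2 : UJ u 2 s r ≤ K * (K * UJ u 2 s t') := (hK s r hr).2.2.2.1.trans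
      (mul_le_mul_of_nonneg_left (hK s t' ht').2.2.1 (by positivity))
    refine (al r hr).2.trans ?_
    rw [← hA]
    calc _ ≤ A * (Kf τ s₀ * (K * (K * UJ u 2 s t'))) := by
          refine mul_le_mul_of_nonneg_left (a1.trans ?_) A0
          gcongr
      _ = _ := by ring) ht' ht
  rw [abs_sub_comm t t'] at h1 h2
  have b1 : (C + 3) * |t' - t| ≤ (C + 3) * |t' - t| * (Kf τ s₀ * UJ u 1 s t') :=
    le_mul_of_one_le_right (by positivity) (lo t' ht')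
  have b2 : 0 ≤ A * Kf τ s₀ * (K * K) * |t' - t| * UJ u 1 s t' := by positivity
  have b3 : 0 ≤ (C + 3) * Kf τ s₀ * |t' - t| * UJ u 2 s t' := by positivity
  constructor <;> linarith

theorem rtlip : rTLIP := by
  intro hF X ψ F C θf Kf Cj u c b τ φ r
  obtain ⟨f1, -, ⟨Λ, hΛ⟩, -⟩ := hF X ψ F C θf Kf Cj u c b r.b0 τ r.τ0
  obtain ⟨L₁, l1, h1⟩ := rtlip_flow r.τ0.1 r.gf
  obtain ⟨L₂, l2, h2⟩ := rtlip_prof c.prof r.τ0 (-b)
  obtain ⟨M, ρ, K, ρ0, -, hN⟩ := c.geo.n1 1 one_pos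
  have R := (c.prof.on τ r.τ0).rad
  have h0 : (0 : V) ∈ ball (0 : V) 1 := mem_ball_self one_pos
  refine ⟨6 * L₁ * Λ + 2 * L₂, fun t ht t' ht' d hd p hp H => ?_⟩
  obtain ⟨i, rfl⟩ := F.sur p hp
  refine XCl_of_chart c.geo.surf (r.gf.1.xsm.slice ht') (f1.slice ht') (F.par i) Fam.zero_mem
    fun v => ?_
  have o := c.one _ hp
  obtain ⟨κ, -, n, -⟩ := hN i 0 h0 o
  have n1 := n.nn 0 (mem_ball_self ρ0) v
  simp only [zero_add] at n1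
  rw [← lv_sub_const _ b] at n1
  have s2 : ContDiffAt ℝ 2 (fun y => Real.log (ψ (F.Φ i y)) - b) 0 :=
    ((c.geo.pot.rf.1.at2 (F.par i) Fam.zero_mem).log (one_pos.trans_le o).ne').sub contDiffAt_const
  have e : ∀ s ∈ Icc 0 τ, qf (lv (FF ψ u b s ∘ F.Φ i) 0) v =
      UJ u 1 (Real.log (ψ (F.Φ i 0)) - b) s * qf (lv (fun y => Real.log (ψ (F.Φ i y)) - b) 0) v +
      UJ u 2 (Real.log (ψ (F.Φ i 0)) - b) s * qf (rk (fun y => Real.log (ψ (F.Φ i y)) - b) 0) v :=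
    fun s hs => by
      rw [← qf_smul, ← qf_smul, ← qf_add, ← lv_comp (u := fun x => UJ u 0 x s)
        (Eventually.of_forall fun x => R.ds 0 (by norm_num) x s hs) (R.ds 1 (by norm_num) _ s hs) s2,
        ← lv_sub_const (fun y => UJ u 0 _ s) (2 * b * s)]
      rfl
  obtain ⟨a1, a2⟩ := h2 (Real.log (ψ (F.Φ i 0)) - b) (by linarith [Real.log_nonneg o]) t ht t' ht'
  have n2 := nn_rk (fun y => Real.log (ψ (F.Φ i y)) - b) 0 v
  have a3 : |qf (lv (FF ψ u b t ∘ F.Φ i) 0) v - qf (lv (FF ψ u b t' ∘ F.Φ i) 0) v| ≤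
      L₂ * |t' - t| * qf (lv (FF ψ u b t' ∘ F.Φ i) 0) v := by
    have b1 := mul_le_mul_of_nonneg_right a1 n1
    have b2 := mul_le_mul_of_nonneg_right a2 n2
    rw [← abs_of_nonneg n1, ← abs_mul, abs_of_nonneg n1, abs_le] at b1
    rw [← abs_of_nonneg n2, ← abs_mul, abs_of_nonneg n2, abs_le] at b2
    rw [e t ht, e t' ht', abs_le]
    constructor <;> linarith [b1.1, b1.2, b2.1, b2.2]
  have a4 := H _ _ (F.par i) 0 Fam.zero_mem rfl v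
  have a5 := abs_qf_le (lv (φ t' ∘ F.Φ i) 0 - lv (φ t ∘ F.Φ i) 0) v
  have E := hΛ t' ht' i 0 h0
  have a6 : 6 * ‖lv (φ t' ∘ F.Φ i) 0 - lv (φ t ∘ F.Φ i) 0‖ * ‖v‖ ^ 2 ≤
      6 * (L₁ * |t' - t|) * (Λ * qf (lv (FF ψ u b t' ∘ F.Φ i) 0) v) :=
    mul_le_mul (by linarith [h1 i t ht t' ht']) (E.2 v).1 (by positivity) (by positivity)
  have a7 := mul_le_mul_of_nonneg_left (abs_le.1 a3).2 hd.1
  have a8 := mul_le_of_le_one_left ((abs_nonneg _).trans a3) hd.2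
  rw [qf_sub] at a5
  rw [abs_le] at a3 a4 a5 ⊢
  constructor <;> linarith [a3.1, a3.2, a4.1, a4.2, a5.1, a5.2]

end Pool.Agent.MP_67f0e4_gt.K
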