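import Pool.Agent.MP_67f0e4_gt.K.Main
import Pool.Agent.MP_67f0e4_gt.B.Main
import Pool.Agent.MP_67f0e4_gt.H71.Int4
import Pool.Agent.MP_67f0e4_gt.R48.Rest
import Pool.Agent.MP_67f0e4_gt.R48.Init
import Pool.Agent.MP_67f0e4_gt.R48.Rad1
import Pool.Agent.MP_67f0e4_gt.H73.HSym
import Pool.Agent.MP_67f0e4_gt.H73.Inner
import Pool.Agent.MP_67f0e4_gt.H.All
import Pool.Agent.MP_67f0e4_gt.AT.Main
import Pool.Agent.MP_67f0e4_gt.K.RSYM
import Pool.Agent.MP_67f0e4_gt.K.ROSC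
import Pool.Agent.MP_67f0e4_gt.K.RDER
import Pool.Agent.MP_67f0e4_gt.K.RFCL
import Pool.Agent.MP_67f0e4_gt.K.REXHS
import Pool.Agent.MP_67f0e4_gt.K.RD
import Pool.Agent.MP_67f0e4_gt.K.RNICE
import Pool.Agent.MP_67f0e4_gt.K.RLU
import Pool.Agent.MP_67f0e4_gt.K.RFCH
import Pool.Agent.MP_67f0e4_gt.K.RCMP
import Pool.Agent.MP_67f0e4_gt.K.ROUT
import Pool.Agent.MP_67f0e4_gt.K.RI1
import Pool.Agent.MP_67f0e4_gt.K.RTLIP
import Pool.Agent.MP_67f0e4_gt.K.RBOOT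
import Pool.Agent.MP_67f0e4_gt.K.RCHB
import Pool.Agent.MP_67f0e4_gt.K.RLIM
import Pool.Agent.MP_67f0e4_gt.K.RLIMB
import Pool.Agent.MP_67f0e4_gt.K.RCHB0
import Pool.Agent.MP_67f0e4_gt.K.RCHB1
import Pool.Agent.MP_67f0e4_gt.K.RHIGH

/-! All blocks together. -/

namespace Pool.Agent.MP_67f0e4_gt.K

theorem all : All where
  bern := B.bern
  int := H71.int
  rest := R48.rest
  initb := R48.initb
  init := R48.init
  sym := sym
  osc := osc
  der := der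
  fcl := fcl
  exhs := exhs
  surf := AT.surfX
  atl := AT.atlX
  pot := pot
  psi1 := psi1
  nice1 := nice1
  nice2 := nice2
  hsym := H73.hsym
  ale := ale
  roots := roots
  lu := lu
  fch := rfch
  cmp := rcmp
  out := rout
  i1 := ri1
  inner := H73.In.inner
  tlip := rtlip
  boot := rboot
  chb := rchb
  lim := rlim
  limb := limb
  rad1 := R48.rad1
  chb0 := rchb0
  chb1 := rchb1
  high := rhigh
  sh := H.stmtH
  slow := H.stmtSLOW

end Pool.Agent.MP_67f0e4_gt.K
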