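import Pool.Agent.MP_67f0e4_gt.K.Spec

/-! The final theorem from the statements of the blocks. -/

open Set Metric Filter Topology
open scoped ContDiff

noncomputable section

namespace Pool.Agent.MP_67f0e4_gt.K

theorem geo_of (hS : SURF) (hA : ATL) (hP : POT) (h1 : NICE1) (h2 : NICE2) (n : ℕ)
    (a : Fin n → ℂ) (hn : 1 ≤ n) (ha : Function.Injective a) :
    ∃ F : Fam (Xs a), Geo (Xs a) (psi a) F ∧ ∃ ρ ∈ Ioc (0 : ℝ) (1 / 8), ∃ Ξ, Fam.Shape a F ρ Ξ := by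
  have hs := hS n a hn ha
  obtain ⟨hp, he⟩ := hP n a hn ha hs
  obtain ⟨ρ, hρ, Ξ, F, hsh, hc, hm, hco⟩ := hA n a hn ha hs hp.rf
  obtain ⟨hn1, hfar⟩ := h1 n a hn hs hp he ρ hρ Ξ F hsh hc
  exact ⟨F, ⟨hs, hp, hm, hco, hc, hn1, h2 n a hn hs hp he F hn1, hfar⟩, ρ, hρ, Ξ, hsh⟩

theorem radex_of (hS : SURF) (hA : ATL) (hP : POT) (h1 : NICE1) (h2 : NICE2) (hp1 : PSI1)
    (hI : INIT) (c0 : CHB0) (c1 : CHB1) (hH : HIGH) : ∃ C θf Kf Cj u, Prof C θf Kf Cj u := by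
  obtain ⟨F, hG, hsh⟩ := geo_of hS hA hP h1 h2 1 a0 le_rfl
    (Function.injective_of_subsingleton _)
  obtain ⟨U0, hU⟩ := hI
  have hc : Ctx0 F U0 := ⟨hG, hsh, hp1, hU⟩
  obtain ⟨hsm, hel, hbd⟩ := c0 F U0 hc
  obtain ⟨φ, h0, -, hg⟩ := hG.cont (1 / 2) _ (by norm_num) hsm hel hbd (c1 F U0 hc)
  obtain ⟨C, θf, Kf, Cj, h⟩ := hH F U0 hc φ h0 hg
  exact ⟨C, θf, Kf, Cj, _, h⟩

theorem ct_small {C : ℝ} {θf : ℝ → ℝ} {Kf : ℝ → ℝ → ℝ} {Cj : ℕ → ℝ} {u : ℝ → ℝ → ℝ}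
    (h : Prof C θf Kf Cj u) {b : ℝ} (hb : 0 ≤ b) :
    Tendsto (fun t => ct u b t / (1 / 2 - t) ^ 2) (𝓝[<] (1 / 2)) (𝓝 0) := by
  have hlim : Tendsto (fun t : ℝ => 108 * (1 / 2 - t)) (𝓝[<] (1 / 2)) (𝓝 0) := by
    have : Tendsto (fun t : ℝ => 108 * (1 / 2 - t)) (𝓝 (1 / 2)) (𝓝 (108 * (1 / 2 - 1 / 2))) :=
      ((continuous_const.mul (continuous_const.sub continuous_id)).tendsto _)
    simpa using this.mono_left nhdsWithin_le_nhds
  have hev : ∀ᶠ t in 𝓝[<] (1 / 2 : ℝ), t ∈ Ioo (0 : ℝ) (1 / 2) :=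
    Ioo_mem_nhdsLT (by norm_num)
  refine squeeze_zero' ?_ ?_ hlim
  · filter_upwards [hev] with t ht
    have := ((h.on t ht).est.cpos t ⟨ht.1.le, le_rfl⟩).1
    exact div_nonneg (mul_pos this (Real.exp_pos _)).le (sq_nonneg _)
  · filter_upwards [hev] with t ht
    obtain ⟨h0, h1⟩ := (h.on t ht).est.cpos t ⟨ht.1.le, le_rfl⟩
    have ha : 0 < 1 - 2 * t := by linarith [ht.2]
    have ha' : 0 < 1 / 2 - t := by linarith [ht.2]
    have hb1 : Real.exp (-b) ≤ 1 := Real.exp_le_one_iff.2 (by linarith)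
    have h3 : (1 / (1 - 2 * t)) ^ 3 / 6 ≤ Real.exp (1 / (1 - 2 * t)) := by
      have := Real.pow_div_factorial_le_exp (1 / (1 - 2 * t)) (by positivity) 3
      simpa [Nat.factorial] using this
    have h4 : Real.exp (-1 / (1 - 2 * t)) ≤ 6 * (1 - 2 * t) ^ 3 := by
      have e1 : Real.exp (-1 / (1 - 2 * t)) * Real.exp (1 / (1 - 2 * t)) = 1 := by
        rw [← Real.exp_add, neg_div, neg_add_cancel, Real.exp_zero]
      have e2 : (1 / (1 - 2 * t)) ^ 3 / 6 * (6 * (1 - 2 * t) ^ 3) = 1 := by field_simp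
      have e3 := Real.exp_pos (-1 / (1 - 2 * t))
      have e4 : 0 < 6 * (1 - 2 * t) ^ 3 := by positivity
      have e5 := mul_le_mul_of_nonneg_left h3 e3.le
      rw [e1] at e5
      have e6 := mul_le_mul_of_nonneg_right e5 e4.le
      rw [mul_assoc, e2, mul_one, one_mul] at e6
      exact e6
    rw [div_le_iff₀ (by positivity), ct]
    have e7 : (1 - 2 * t) ^ 3 = 8 * (1 / 2 - t) ^ 3 := by ring
    have e8 : 0 < (1 / 2 - t) ^ 3 := by positivity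
    calc cc (UJ u) t * Real.exp (-b) ≤ cc (UJ u) t * 1 := mul_le_mul_of_nonneg_left hb1 h0.le
      _ ≤ 6 * (1 - 2 * t) ^ 3 := by rw [mul_one]; exact h1.trans h4
      _ ≤ 108 * (1 / 2 - t) * (1 / 2 - t) ^ 2 := by rw [e7]; nlinarith

theorem ana_of {X : Set C3} {ψ : C3 → ℝ} {F : Fam X} {C : ℝ} {θf : ℝ → ℝ} {Kf : ℝ → ℝ → ℝ}
    {Cj : ℕ → ℝ} {u : ℝ → ℝ → ℝ} (hc : Ctx X ψ F C θf Kf Cj u) (hs : HasSym X ψ)
    (fch : InCtx pFCH) (boot : InCtx pBOOT) (chb : InCtx pCHB) (lim : InCtx pLIM) (limb : LIMB)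
    (slow : H.StmtSLOW) : ∃ φ c, XFlow X ψ (Ico 0 (1 / 2)) φ ∧
      (∀ τ ∈ Ioo (0 : ℝ) (1 / 2), F.GFlow ψ τ φ) ∧ H.LimData X (1 / 2) φ c ψ := by
  obtain ⟨d1, hd1, h1⟩ := chb _ _ _ _ _ _ _ _ hc
  obtain ⟨d2, hd2, b2, h2⟩ := lim _ _ _ _ _ _ _ _ hc hs
  obtain ⟨b1, hb1⟩ := boot _ _ _ _ _ _ _ _ hc hs d1 hd1
  obtain ⟨b3, hb3⟩ := boot _ _ _ _ _ _ _ _ hc hs d2 hd2
  set b := max (max b1 b2) (max b3 0) with hb
  have hb0 : 0 ≤ b := (le_max_right _ _).trans (le_max_right _ _)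
  have hbb1 : b1 ≤ b := (le_max_left _ _).trans (le_max_left _ _)
  have hbb2 : b2 ≤ b := (le_max_right _ _).trans (le_max_left _ _)
  have hbb3 : b3 ≤ b := (le_max_left _ _).trans (le_max_right _ _)
  obtain ⟨f1, -, ⟨Λ0, f3⟩, f4⟩ := fch _ _ _ _ _ _ _ _ hc b hb0 (1 / 4) (by norm_num)
  have h04 : (0 : ℝ) ∈ Icc (0 : ℝ) (1 / 4) := by norm_num
  have hsm : XSm0 X (FF ψ u b 0) := by
    intro N U hN
    have := (f1 N U hN).comp (contDiffOn_const.prodMk contDiffOn_id)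
      (fun x hx => (⟨h04, hx⟩ : ((0 : ℝ), x) ∈ Icc (0 : ℝ) (1 / 4) ×ˢ U))
    exact this
  obtain ⟨φ, h0, hfl, hg⟩ := hc.geo.cont (1 / 2) (FF ψ u b 0) (by norm_num) hsm ⟨Λ0, f3 0 h04⟩
    (fun k => (f4 k).imp fun M hM => hM 0 h04) (by
      intro t1 ht1 k
      obtain ⟨Λ, M, hΛ⟩ := h1 b hb0 t1 ht1 k
      refine ⟨Λ, M, fun τ hτ φ h0 hg => ?_⟩
      have hr : Run X ψ F u b τ φ := ⟨hb0, ⟨hτ.1, hτ.2.trans_lt ht1⟩, hg, h0⟩
      exact hΛ τ φ hτ.2 hr (hb1 b τ φ hbb1 hr))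
  have hrun : ∀ τ ∈ Ioo (0 : ℝ) (1 / 2), Run X ψ F u b τ φ := fun τ hτ => ⟨hb0, hτ, hg τ hτ, h0⟩
  have hl := h2 b φ hbb2 fun τ hτ => ⟨hrun τ hτ, hb3 b τ φ hbb3 (hrun τ hτ)⟩
  have hpos : ∀ t ∈ Ioo (0 : ℝ) (1 / 2), 0 < ct u b t := fun t ht =>
    mul_pos ((hc.prof.on t ht).est.cpos t ⟨ht.1.le, le_rfl⟩).1 (Real.exp_pos _)
  obtain ⟨hsm1, hsl⟩ := slow (1 / 2) C (ct u b) (by norm_num) hpos (ct_small hc.prof hb0) (by
    intro t ht t' ht' htt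
    have E := (hc.prof.on t' ht').est
    have p1 := (E.cpos t ⟨ht.1.le, htt⟩).1
    have p2 := (E.cpos t' ⟨ht'.1.le, le_rfl⟩).1
    have := E.clip t' ⟨ht'.1.le, le_rfl⟩ t ⟨ht.1.le, htt⟩ htt
    rw [ct, ct, Real.log_mul p1.ne' (Real.exp_pos _).ne', Real.log_mul p2.ne' (Real.exp_pos _).ne',
      add_sub_add_right_eq_sub]
    refine this.trans ?_
    have ha : 0 < 1 / 2 - t' := by linarith [ht'.2]
    have hC : 0 ≤ C * (t' - t) := mul_nonneg (by linarith [hc.prof.cst.1]) (by linarith)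
    refine div_le_div_of_nonneg_left hC (by positivity) ?_
    nlinarith)
  have hlim : ∀ K : Set C3, IsCompact K → K ⊆ X → ∀ d : ℝ, 0 < d → ∀ᶠ t in 𝓝[<] (1 / 2 : ℝ),
      ∀ p ∈ K, XCl X d (φ t) (fun q => ct u b t * ψ q) p := by
    intro K hK hKX d hd
    have hcont : ContinuousOn ψ X := by
      intro p hp
      obtain ⟨i, rfl⟩ := F.sur p hp
      have h02 : (0 : V) ∈ ball (0 : V) 2 := mem_ball_self (by norm_num)
      obtain ⟨R, hR, hR1, hR2⟩ := hc.geo.surf.2 _ _ (F.par i) 0 h02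
      have hR0 : R (F.Φ i 0) = 0 := hR1.self_of_nhds
      have c1 : ContinuousAt (ψ ∘ F.Φ i) (R (F.Φ i 0)) := by
        rw [hR0]
        exact ((hc.geo.pot.rf.1 _ _ (F.par i)).continuousOn.continuousAt
          (isOpen_ball.mem_nhds h02))
      have c2 : ContinuousWithinAt ((ψ ∘ F.Φ i) ∘ R) X (F.Φ i 0) :=
        (c1.comp hR.continuousAt).continuousWithinAt
      refine c2.congr_of_eventuallyEq ?_ ?_
      · filter_upwards [hR2] with q hq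
        simp [hq]
      · simp [hR0]
    obtain ⟨R, hR⟩ := (hK.image_of_continuousOn (hcont.mono hKX)).bddAbove
    filter_upwards [hl R d hd] with t ht p hp
    exact ht p (hKX hp) (hR (mem_image_of_mem _ hp))
  exact ⟨φ, ct u b, hfl, hg, hpos, hsm1, hsl, hlim,
    limb X ψ (1 / 2) φ (ct u b) (by norm_num) hc.geo.pot.rf hfl hpos hsm1 hsl hlim⟩

/-- all statements of the blocks -/
structure All : Prop where
  bern : BERN
  int : INT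
  rest : REST
  initb : INITB
  init : INIT
  sym : SYM
  osc : OSC
  der : DER
  fcl : FCL
  exhs : EXHS
  surf : SURF
  atl : ATL
  pot : POT
  psi1 : PSI1
  nice1 : NICE1
  nice2 : NICE2
  hsym : HSYM
  ale : ALE
  roots : ROOTS
  lu : rLU
  fch : rFCH
  cmp : rCMP
  out : rOUT
  i1 : rI1
  inner : rINNER
  tlip : rTLIP
  boot : rBOOT
  chb : rCHB
  lim : rLIM
  limb : rLIMB
  rad1 : rRAD1
  chb0 : rCHB0
  chb1 : rCHB1
  high : rHIGH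
  sh : H.StmtH
  slow : H.StmtSLOW

theorem main_of (A : All) (n : ℕ) (hn : 3 ≤ n) :
    ∃ _ : ChartedSpace (EuclideanSpace ℝ (Fin 4)) (H.surf n),
      H.IsSubmfd (EuclideanSpace ℝ (Fin 4)) (H.surf n) ∧
      H.HasALEBlowup (EuclideanSpace ℝ (Fin 4)) (H.surf n) n ∧
      IsEmpty (H.surf n ≃ₜ H.tangentS2) := by
  have lu := A.lu A.bern A.osc A.der A.initb
  have fch := A.fch A.der
  have cmp := A.cmp fch
  have out := A.out lu A.der A.int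
  have i1 := A.i1 A.fcl
  have inner := A.inner lu A.der A.fcl A.sym
  have boot := A.boot A.fcl cmp out i1 inner (A.tlip fch)
  have chb0 := A.chb0 A.der A.initb
  have rad1 := A.rad1 A.sym chb0
  obtain ⟨C, θf, Kf, Cj, u, hu⟩ := radex_of A.surf A.atl A.pot A.nice1 A.nice2 A.psi1 A.init chb0
    (A.chb1 A.bern lu A.osc A.fcl A.rest rad1 chb0) (A.high lu A.initb A.rest rad1)
  obtain ⟨hinj, hX⟩ := A.roots n (by omega)
  obtain ⟨F, hG, -⟩ := geo_of A.surf A.atl A.pot A.nice1 A.nice2 n (an n) (by omega) hinj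
  obtain ⟨hale, hconn, hemp, hone⟩ := A.ale n hn hG.surf hG.pot
  obtain ⟨φ, c, hfl, hg, hl⟩ := ana_of ⟨hG, hone, hu⟩ (A.hsym n hn F hG) fch boot (A.chb lu fch)
    (A.lim A.fcl cmp out i1 inner) (A.limb A.bern) A.slow
  have hex := A.exhs _ _ F hG hone
  have hs := hG.surf
  clear hG hone
  generalize Xs (an n) = X at *
  subst hX
  obtain ⟨cs, h1, h2⟩ := A.sh _ n F (1 / 2) φ c _ hs hconn hex (by norm_num) hfl hg hl hale
  exact ⟨cs, h1, h2, hemp⟩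

end Pool.Agent.MP_67f0e4_gt.K
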