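import Pool.Agent.MP_67f0e4_gt.K.WB
import Pool.Agent.MP_67f0e4_gt.K.Spec
import Pool.Agent.MP_67f0e4_gt.B.Aff

/-! The logarithm of the potential in stretched charts of the cover. -/

open Set Metric Filter Topology
open scoped ContDiff

noncomputable section

namespace Pool.Agent.MP_67f0e4_gt.K

theorem nc_unif {P : List (Fin 4) → ℝ → Prop} (hm : ∀ l M M', M ≤ M' → P l M → P l M')
    (h : ∀ l, ∃ M, P l M) (k : ℕ) : ∃ M, 0 ≤ M ∧ ∀ l : List (Fin 4), l.length ≤ k → P l M := by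
  choose B hB using h
  obtain ⟨M, hM⟩ := ((List.finite_length_le (Fin 4) k).image B).bddAbove
  exact ⟨max M 0, le_max_right _ _, fun l hl =>
    hm l _ _ ((hM (mem_image_of_mem B hl)).trans (le_max_left _ _)) (hB l)⟩

/-- diagonal scaling -/
def dgl (d1 d2 : ℝ) : V →L[ℂ] V :=
  ((d1 : ℂ) • ContinuousLinearMap.fst ℂ ℂ ℂ).prod ((d2 : ℂ) • ContinuousLinearMap.snd ℂ ℂ ℂ)

theorem dgl_apply (d1 d2 : ℝ) (y : V) : dgl d1 d2 y = ((d1 : ℂ) * y.1, (d2 : ℂ) * y.2) := rfl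

theorem dgl_le {d1 d2 L : ℝ} (h1 : |d1| ≤ L) (h2 : |d2| ≤ L) (v : V) :
    ‖dgl d1 d2 v‖ ≤ L * ‖v‖ := by
  have hL : 0 ≤ L := (abs_nonneg _).trans h1
  rw [dgl_apply, Prod.norm_def]
  refine max_le ?_ ?_
  · simp only [norm_mul, Complex.norm_real, Real.norm_eq_abs]
    exact mul_le_mul h1 (norm_fst_le v) (norm_nonneg _) hL
  · simp only [norm_mul, Complex.norm_real, Real.norm_eq_abs]
    exact mul_le_mul h2 (norm_snd_le v) (norm_nonneg _) hL

theorem dgl_inj {d1 d2 : ℝ} (h1 : d1 ≠ 0) (h2 : d2 ≠ 0) : Function.Injective (dgl d1 d2) := by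
  intro v w h
  rw [dgl_apply, dgl_apply, Prod.mk.injEq] at h
  exact Prod.ext (mul_left_cancel₀ (by exact_mod_cast h1) h.1)
    (mul_left_cancel₀ (by exact_mod_cast h2) h.2)

variable {n : ℕ}

theorem nc_cov_mem (a : Fin n → ℂ) (q : V) : cov a q ∈ Xs a := by
  change Complex.exp (n * q.1) * (Pz a _ * Complex.exp (-(n * q.1))) = Pz a _
  rw [mul_left_comm, ← Complex.exp_add, add_neg_cancel, Complex.exp_zero, mul_one]
  rfl

theorem nc_cov_cd (a : Fin n → ℂ) : ContDiff ℂ ∞ (cov a) := by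
  unfold cov Pz
  refine ContDiff.prodMk (by fun_prop) (ContDiff.prodMk (ContDiff.mul ?_ (by fun_prop))
    (by fun_prop))
  exact contDiff_prod fun j _ => by fun_prop

theorem nc_cov_inj (hn : 1 ≤ n) (a : Fin n → ℂ) (q v : V) (h1 : (fderiv ℂ (cov a) q v).1 = 0)
    (h2 : (fderiv ℂ (cov a) q v).2.2 = 0) : v = 0 := by
  have hd := ((nc_cov_cd a).differentiable (by simp) q).hasFDerivAt
  have e1 : HasFDerivAt (fun q : V => Complex.exp (n * q.1))
      (Complex.exp (n * q.1) • ((n : ℂ) • ContinuousLinearMap.fst ℂ ℂ ℂ)) q :=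
    (hasFDerivAt_fst.const_mul (n : ℂ)).cexp
  have e2 : HasFDerivAt (fun q : V => q.2 * Complex.exp (2 * q.1))
      (q.2 • (Complex.exp (2 * q.1) • ((2 : ℂ) • ContinuousLinearMap.fst ℂ ℂ ℂ)) +
        Complex.exp (2 * q.1) • ContinuousLinearMap.snd ℂ ℂ ℂ) q :=
    hasFDerivAt_snd.mul (hasFDerivAt_fst.const_mul (2 : ℂ)).cexp
  have f1 := congrArg (fun L => L v) (hd.fst.unique e1)
  have f2 := congrArg (fun L => L v) (hd.snd.snd.unique e2)
  simp only [ContinuousLinearMap.comp_apply, ContinuousLinearMap.coe_fst',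
    ContinuousLinearMap.coe_snd', ContinuousLinearMap.smul_apply, ContinuousLinearMap.add_apply,
    smul_eq_mul, h1, h2] at f1 f2
  have hn' : (n : ℂ) ≠ 0 := by exact_mod_cast (by omega : n ≠ 0)
  have v1 : v.1 = 0 := by
    rcases mul_eq_zero.1 f1.symm with h | h
    · exact absurd h (Complex.exp_ne_zero _)
    · exact (mul_eq_zero.1 h).resolve_left hn'
  have v2 : v.2 = 0 := by
    rw [v1] at f2
    simp only [mul_zero, zero_add] at f2
    exact (mul_eq_zero.1 f2.symm).resolve_left (Complex.exp_ne_zero _)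
  exact Prod.ext v1 v2

theorem nc_par_cov (hn : 1 ≤ n) (a : Fin n → ℂ) : Par (Xs a) (cov a) univ :=
  ⟨isOpen_univ, (nc_cov_cd a).contDiffOn, fun q _ => nc_cov_mem a q, fun q _ =>
    (injective_iff_map_eq_zero _).2 fun v hv =>
      nc_cov_inj hn a q v (by rw [hv]; rfl) (by rw [hv]; rfl)⟩

theorem nc_swap_mem {a : Fin n → ℂ} {p : C3} (hp : p ∈ Xs a) : swap p ∈ Xs a := by
  change p.2.1 * p.1 = Pz a p.2.2
  rw [mul_comm]; exact hp

theorem nc_par_swap (hn : 1 ≤ n) (a : Fin n → ℂ) : Par (Xs a) (fun q => swap (cov a q)) univ := by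
  have hd := fun q => ((nc_cov_cd a).differentiable (by simp) q).hasFDerivAt
  refine ⟨isOpen_univ, ?_, fun q _ => nc_swap_mem (nc_cov_mem a q), fun q _ =>
    (injective_iff_map_eq_zero _).2 fun v hv => ?_⟩
  · have := nc_cov_cd a
    exact (this.snd.fst.prodMk (this.fst.prodMk this.snd.snd)).contDiffOn
  · have e := ((hd q).snd.fst.prodMk ((hd q).fst.prodMk (hd q).snd.snd)).fderiv
    have e' : fderiv ℂ (fun q => swap (cov a q)) q v = ((fderiv ℂ (cov a) q v).2.1,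
        (fderiv ℂ (cov a) q v).1, (fderiv ℂ (cov a) q v).2.2) := congrArg (fun L => L v) e
    rw [hv] at e'
    exact nc_cov_inj hn a q v (congrArg (fun p : C3 => p.2.1) e').symm
      (congrArg (fun p : C3 => p.2.2) e').symm

/-- the logarithm of the potential is plurisubharmonic -/
theorem nc_nn {X : Set C3} {ψ : C3 → ℝ} (hP : Pot X ψ) {N : V → C3} {U : Set V} (P : Par X N U)
    {x : V} (hx : x ∈ U) (h0 : 0 < ψ (N x)) : NN (lv (fun y => Real.log (ψ (N y))) x) := by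
  obtain ⟨Cq, hq⟩ := hP.qb
  have hp := (hP.rf.2 N U P x hx).1
  have e := lv_log (f := ψ ∘ N) (hP.rf.1.at2 P hx) h0.ne'
  intro v
  have e' : lv (fun y => Real.log (ψ (N y))) x = _ := e
  rw [e', qf_sub, qf_smul, qf_smul]
  have h1 := qf_le_tr hp (nn_rk (ψ ∘ N) x) v
  have h2 : hmix (lv (ψ ∘ N) x) (rk (ψ ∘ N) x) / hdet (lv (ψ ∘ N) x) ≤ ψ (N x) :=
    (div_le_iff₀ hp.det).2 (hq N U P x hx).2
  have h3 := h1.trans (mul_le_mul_of_nonneg_right h2 (hp.nn v))
  have h4 : (ψ (N x))⁻¹ ^ 2 * (ψ (N x) * qf (lv (ψ ∘ N) x) v) =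
      (ψ (N x))⁻¹ * qf (lv (ψ ∘ N) x) v := by field_simp
  have h5 := mul_le_mul_of_nonneg_left h3 (sq_nonneg (ψ (N x))⁻¹)
  simp only [Function.comp] at *
  linarith

/-- the Fubini-Study potential -/
def fsp (n : ℕ) (q : V) : ℝ := Real.log (n * (1 + ‖q.2‖ ^ 2))

/-- its argument in coordinates -/
def fsg (q : V) : ℝ := 1 + q.2.re ^ 2 + q.2.im ^ 2

theorem fsg_eq (q : V) : fsg q = 1 + ‖q.2‖ ^ 2 := by
  rw [fsg, Complex.sq_norm, Complex.normSq_apply]; ring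

theorem fsg_pos (q : V) : 0 < fsg q := by rw [fsg]; positivity

theorem fsg_cd : ContDiff ℝ ∞ fsg := by
  have h1 : ContDiff ℝ ∞ fun q : V => q.2.re := Complex.reCLM.contDiff.comp contDiff_snd
  have h2 : ContDiff ℝ ∞ fun q : V => q.2.im := Complex.imCLM.contDiff.comp contDiff_snd
  exact (contDiff_const.add (h1.pow 2)).add (h2.pow 2)

theorem fsp_eq (hn : 1 ≤ n) : fsp n = fun q => Real.log (fsg q) + Real.log n := by
  funext q
  have : (n : ℝ) ≠ 0 := by exact_mod_cast (by omega : n ≠ 0)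
  rw [fsp, ← fsg_eq, Real.log_mul this (fsg_pos q).ne', add_comm]

theorem fsp_cd (hn : 1 ≤ n) : ContDiff ℝ ∞ (fsp n) := by
  rw [fsp_eq hn]
  exact (fsg_cd.log fun q => (fsg_pos q).ne').add contDiff_const

theorem fs_re (q : V) : HasFDerivAt (fun q : V => q.2.re)
    (Complex.reCLM.comp (ContinuousLinearMap.snd ℝ ℂ ℂ)) q :=
  (Complex.reCLM.comp (ContinuousLinearMap.snd ℝ ℂ ℂ)).hasFDerivAt

theorem fs_im (q : V) : HasFDerivAt (fun q : V => q.2.im)
    (Complex.imCLM.comp (ContinuousLinearMap.snd ℝ ℂ ℂ)) q :=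
  (Complex.imCLM.comp (ContinuousLinearMap.snd ℝ ℂ ℂ)).hasFDerivAt

theorem fsg_D (v : V) : D v fsg = fun q => 2 * v.2.re * q.2.re + 2 * v.2.im * q.2.im := by
  funext q
  have h := ((hasFDerivAt_const (1 : ℝ) q).add ((fs_re q).pow 2)).add ((fs_im q).pow 2)
  have e : D v fsg q = _ := D_of_has h v
  rw [e]
  simp
  ring

theorem fsg_DD (v w q : V) : D w (D v fsg) q = 2 * v.2.re * w.2.re + 2 * v.2.im * w.2.im := by
  rw [fsg_D]
  have h := ((fs_re q).const_mul (2 * v.2.re)).add ((fs_im q).const_mul (2 * v.2.im))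
  have e : D w (fun q : V => 2 * v.2.re * q.2.re + 2 * v.2.im * q.2.im) q = _ := D_of_has h w
  rw [e]
  simp

theorem fsp_D (hn : 1 ≤ n) (q v : V) : |D v (fsp n) q| ≤ ‖v.2‖ := by
  rw [fsp_eq hn, D_add_const, D_comp (Real.hasDerivAt_log (fsg_pos q).ne')
    (fsg_cd.differentiable (by simp) q), fsg_D]
  have hg := fsg_pos q
  rw [abs_mul, abs_of_pos (inv_pos.2 hg), inv_mul_le_iff₀ hg]
  refine abs_le_of_sq_le_sq ?_ (by positivity)
  rw [mul_pow, Complex.sq_norm, Complex.normSq_apply, fsg]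
  have h1 : (2 * v.2.re * q.2.re + 2 * v.2.im * q.2.im) ^ 2 ≤
      4 * (q.2.re ^ 2 + q.2.im ^ 2) * (v.2.re * v.2.re + v.2.im * v.2.im) := by
    nlinarith [sq_nonneg (v.2.re * q.2.im - v.2.im * q.2.re)]
  refine h1.trans (mul_le_mul_of_nonneg_right ?_ (add_nonneg (mul_self_nonneg _) (mul_self_nonneg _)))
  nlinarith [sq_nonneg (1 - q.2.re ^ 2 - q.2.im ^ 2)]

theorem fsp_lv (hn : 1 ≤ n) (q v : V) : qf (lv (fsp n) q) v = 4 * ‖v.2‖ ^ 2 / fsg q ^ 2 := by
  have hc : ContDiffAt ℝ 2 fsg q := fsg_cd.contDiffAt.of_le two_le_inf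
  have hg := fsg_pos q
  rw [fsp_eq hn, lv_add_const, lv_log hc hg.ne', qf_sub, qf_smul, qf_smul, qf_lv hc, qf_rk, lev,
    fsg_DD, fsg_DD, fsg_D, fsg_D, Complex.sq_norm, Complex.normSq_apply]
  simp only [Prod.smul_snd, smul_eq_mul, Complex.mul_re, Complex.mul_im, Complex.I_re,
    Complex.I_im]
  field_simp
  rw [fsg]
  ring

end Pool.Agent.MP_67f0e4_gt.K
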