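import Pool.Agent.MP_67f0e4_gt.K.NiceA

/-! The core estimate for stretched charts far out on the cover. -/

open Set Metric Filter Topology
open scoped ContDiff

noncomputable section

namespace Pool.Agent.MP_67f0e4_gt.K

theorem nb_alg {a b N P Q ε δ c : ℝ} (hδ : 0 < δ) (hc : 0 < c) (hN : N ≤ a + b) (hN0 : 0 ≤ N)
    (hP : 2 * a - 4 * (b + 16 * ε ^ 2 * N) / δ ^ 2 ≤ P) (hQ : c * b - 12 * ε * N ≤ Q)
    (hP0 : 0 ≤ P) (hQ0 : 0 ≤ Q) (h1 : (1 + 2 / δ ^ 2) * 12 * ε ≤ c / 4)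
    (h2 : 32 * ε ^ 2 ≤ δ ^ 2 / 4) :
    N ≤ (1 + 2 * (1 + 2 / δ ^ 2) / c) * (P + Q) := by
  set k := 1 + 2 / δ ^ 2 with hk
  have hk0 : 0 < k := by positivity
  have hd2 : 0 < δ ^ 2 := by positivity
  have e1 : 4 * (b + 16 * ε ^ 2 * N) / δ ^ 2 = 2 * (k - 1) * b + 2 * (32 * ε ^ 2 / δ ^ 2) * N := by
    rw [hk]; field_simp; ring
  have e2 : 32 * ε ^ 2 / δ ^ 2 ≤ 1 / 4 := by rw [div_le_iff₀ hd2]; linarith
  have e3 : b ≤ (Q + 12 * ε * N) / c := by rw [le_div_iff₀ hc]; linarith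
  have e4 : k * b ≤ k * Q / c + k * 12 * ε / c * N := by
    have := mul_le_mul_of_nonneg_left e3 hk0.le
    refine this.trans (le_of_eq ?_)
    field_simp
  have e5 : k * 12 * ε / c ≤ 1 / 4 := by rw [div_le_iff₀ hc]; linarith
  have e6 := mul_le_mul_of_nonneg_right e5 hN0
  have e7 := mul_le_mul_of_nonneg_right e2 hN0
  have e8 : N ≤ P + 2 * (k * Q / c) := by rw [e1] at hP; nlinarith
  have e9 : (1 + 2 * k / c) * (P + Q) = P + 2 * (k * Q / c) + (Q + 2 * k / c * P) := by ring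
  have e10 : 0 ≤ 2 * k / c * P := by positivity
  linarith

theorem nb_const (l : List (Fin 4)) (c : ℝ) (x : V) : |DL l (fun _ => c) x| ≤ |c| := by
  rcases List.eq_nil_or_concat l with rfl | ⟨l', j, rfl⟩
  · exact le_rfl
  · rw [List.concat_eq_append, wb_DL_concat, D_const, wb_DL_zero]
    simp

theorem nb_lin_D (c d : ℝ) (v : V) :
    D v (fun y : V => c + 2 * d * y.1.re) = fun _ => 2 * d * v.1.re := by
  funext q
  have h := (((Complex.reCLM.comp (ContinuousLinearMap.fst ℝ ℂ ℂ)).hasFDerivAt (x := q)).const_mul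
    (2 * d)).const_add c
  have e : D v (fun y : V => c + 2 * d * y.1.re) q = _ := D_of_has h v
  rw [e]
  simp

theorem nb_lin_cd (c d : ℝ) : ContDiff ℝ ∞ fun y : V => c + 2 * d * y.1.re :=
  contDiff_const.add (contDiff_const.mul (Complex.reCLM.contDiff.comp contDiff_fst))

theorem nb_lin1 (c : ℝ) {d : ℝ} (hd : 0 ≤ d) {l : List (Fin 4)} (hl : 1 ≤ l.length) (x : V) :
    |DL l (fun y : V => c + 2 * d * y.1.re) x| ≤ 2 * d := by
  rcases List.eq_nil_or_concat l with rfl | ⟨l', j, rfl⟩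
  · simp at hl
  · rw [List.concat_eq_append, wb_DL_concat, nb_lin_D]
    refine (nb_const _ _ _).trans ?_
    have : |(e j).1.re| ≤ 1 :=
      (Complex.abs_re_le_norm _).trans ((norm_fst_le _).trans (norm_e j).le)
    rw [abs_mul, abs_of_nonneg (by positivity : 0 ≤ 2 * d)]
    nlinarith

theorem nb_lin2 (c d : ℝ) {l : List (Fin 4)} (hl : 2 ≤ l.length) (x : V) :
    DL l (fun y : V => c + 2 * d * y.1.re) x = 0 := by
  rcases List.eq_nil_or_concat l with rfl | ⟨l', j, rfl⟩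
  · simp at hl
  · rcases List.eq_nil_or_concat l' with rfl | ⟨l'', j', rfl⟩
    · simp at hl
    · simp only [List.concat_eq_append]
      rw [wb_DL_concat, wb_DL_concat, nb_lin_D, D_const, wb_DL_zero]

theorem nb_D_le {f : V → ℝ} {x : V} {M : ℝ} (h : ∀ j, |D (e j) f x| ≤ M) (v : V) :
    |D v f x| ≤ 4 * M * ‖v‖ := by
  rw [D, cov_eq]
  have hM : 0 ≤ M := (abs_nonneg _).trans (h 0)
  have a1 : |v.1.re| ≤ ‖v‖ := (Complex.abs_re_le_norm _).trans (norm_fst_le v)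
  have a2 : |v.1.im| ≤ ‖v‖ := (Complex.abs_im_le_norm _).trans (norm_fst_le v)
  have a3 : |v.2.re| ≤ ‖v‖ := (Complex.abs_re_le_norm _).trans (norm_snd_le v)
  have a4 : |v.2.im| ≤ ‖v‖ := (Complex.abs_im_le_norm _).trans (norm_snd_le v)
  have b : ∀ (c : ℝ) (j : Fin 4), |c| ≤ ‖v‖ → |c * fderiv ℝ f x (e j)| ≤ M * ‖v‖ := by
    intro c j hc
    rw [abs_mul, mul_comm]
    exact mul_le_mul (h j) hc (abs_nonneg _) hM
  have := b _ 0 a1
  have := b _ 1 a2
  have := b _ 2 a3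
  have := b _ 3 a4
  refine (abs_add_le _ _).trans ?_
  refine (add_le_add_left (abs_add_three _ _ _) _).trans ?_
  linarith

theorem nb_exp {R : ℝ} (hR : 1 ≤ R) {j k : ℕ} (hj : j ≤ k) :
    R ^ j * Real.exp (-R) ≤ (k + 1).factorial / R := by
  have h0 : 0 < R := by linarith
  have h1 := Real.pow_div_factorial_le_exp R h0.le (k + 1)
  have hf : (0 : ℝ) < (k + 1).factorial := by exact_mod_cast Nat.factorial_pos _
  rw [div_le_iff₀ hf] at h1
  rw [le_div_iff₀ h0, Real.exp_neg]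
  have h2 : R ^ j * R ≤ R ^ (k + 1) := by
    rw [← pow_succ]; exact pow_le_pow_right₀ hR (by omega)
  have he := Real.exp_pos R
  rw [mul_right_comm, ← div_eq_mul_inv, div_le_iff₀ he]
  linarith

variable {n : ℕ}

theorem nb_fs_words (hn : 1 ≤ n) (Ξ : ℝ) (k : ℕ) : ∃ B, 0 ≤ B ∧ ∀ (ξ : ℂ) (d : ℝ), ‖ξ‖ ≤ Ξ →
    |d| ≤ 1 → ∀ l : List (Fin 4), l.length ≤ k → ∀ y ∈ ball (0 : V) 1,
      |DL l (fun y => fsp n ((0, ξ) + dgl 0 d y)) y| ≤ B := by
  obtain ⟨M, hM0, hM⟩ := nc_unif (P := fun l M => ∀ q ∈ closedBall (0 : V) (Ξ + 1),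
    |DL l (fsp n) q| ≤ M) (fun _ _ _ h H q hq => (H q hq).trans h) (fun l => by
      have : Continuous (DL l (fsp n)) := continuous_iff_continuousAt.2 fun q =>
        (DL_smooth (fsp_cd hn).contDiffAt l).continuousAt
      exact (isCompact_closedBall _ _).exists_bound_of_continuousOn this.continuousOn) k
  refine ⟨4 ^ k * M, by positivity, fun ξ d hξ hd l hl y hy => ?_⟩
  have hA := dgl_le (d1 := 0) (d2 := d) (L := 1) (by simp) hd
  have hq : ((0, ξ) : V) + dgl 0 d y ∈ closedBall (0 : V) (Ξ + 1) := by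
    rw [mem_closedBall_zero_iff]
    refine (norm_add_le _ _).trans (add_le_add ?_ ?_)
    · simpa [Prod.norm_def] using hξ
    · have := hA y
      rw [mem_ball_zero_iff] at hy
      linarith
  refine (B.aff_words _ _ y hA M l _ (fsp_cd hn).contDiffAt fun w hw =>
    hM w (hw.trans_le hl) _ hq).trans ?_
  rw [mul_one]
  exact mul_le_mul_of_nonneg_right (pow_le_pow_right₀ (by norm_num) hl) hM0

theorem nb_err_words {a : Fin n → ℂ} (hE : ERR a) (Ξ L : ℝ) (k : ℕ) : ∃ B, 0 ≤ B ∧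
    ∀ (w ξ : ℂ) (d1 d2 ρ : ℝ), 1 ≤ w.re → ‖ξ‖ ≤ Ξ → 0 ≤ d1 → d1 ≤ L * w.re → ρ ≤ 1 →
      d1 * ρ ≤ w.re / 2 → |d2| ≤ 1 → ∀ l : List (Fin 4), l.length ≤ k → ∀ y ∈ ball (0 : V) ρ,
      |DL l (fun y => err a ((w, ξ) + dgl d1 d2 y)) y| ≤ B / w.re := by
  obtain ⟨M, hM0, hM⟩ := nc_unif (P := fun l M => ∀ q : V, -0 ≤ q.1.re → ‖q.2‖ ≤ Ξ + 1 →
    |DL l (err a) q| ≤ M * Real.exp (-2 * q.1.re)) (fun _ _ _ h H q h1 h2 => (H q h1 h2).trans
      (mul_le_mul_of_nonneg_right h (Real.exp_pos _).le)) (hE.2.2.2 0 (Ξ + 1)) k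
  set L' := max L 1 with hL'
  have hL1 : 1 ≤ L' := le_max_right _ _
  refine ⟨(4 * L') ^ k * M * (k + 1).factorial, by positivity,
    fun w ξ d1 d2 ρ hw hξ h0 h1 hρ h2 hd l hl y hy => ?_⟩
  have hA := dgl_le (d1 := d1) (d2 := d2) (L := L' * w.re)
    (by rw [abs_of_nonneg h0]
        exact h1.trans (mul_le_mul_of_nonneg_right (le_max_left _ _) (by linarith)))
    (hd.trans (by nlinarith))
  rw [mem_ball_zero_iff] at hy
  have hy1 : |y.1.re| ≤ ρ := (Complex.abs_re_le_norm _).trans ((norm_fst_le y).trans hy.le)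
  have hre : w.re / 2 ≤ (((w, ξ) : V) + dgl d1 d2 y).1.re := by
    rw [dgl_apply]
    simp only [Prod.fst_add, Complex.add_re, Complex.re_ofReal_mul]
    have := mul_le_mul_of_nonneg_left (neg_abs_le y.1.re) h0
    have := mul_le_mul_of_nonneg_left hy1 h0
    nlinarith
  have hn2 : ‖(((w, ξ) : V) + dgl d1 d2 y).2‖ ≤ Ξ + 1 := by
    rw [dgl_apply]
    refine (norm_add_le _ _).trans (add_le_add hξ ?_)
    simp only [norm_mul, Complex.norm_real, Real.norm_eq_abs]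
    have := (norm_snd_le y).trans (hy.le.trans hρ)
    nlinarith [norm_nonneg y.2, abs_nonneg d2]
  have hexp : Real.exp (-2 * (((w, ξ) : V) + dgl d1 d2 y).1.re) ≤ Real.exp (-w.re) :=
    Real.exp_le_exp.2 (by linarith)
  refine (B.aff_words _ _ y hA (M * Real.exp (-w.re)) l _ hE.1.contDiffAt fun u hu =>
    (hM u (hu.trans_le hl) _ (by linarith) hn2).trans
      (mul_le_mul_of_nonneg_left hexp hM0)).trans ?_
  have e1 := nb_exp hw hl
  have e2 : (4 * L') ^ l.length ≤ (4 * L') ^ k := pow_le_pow_right₀ (by linarith) hl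
  calc (4 * (L' * w.re)) ^ l.length * (M * Real.exp (-w.re))
      = (4 * L') ^ l.length * M * (w.re ^ l.length * Real.exp (-w.re)) := by
        rw [← mul_assoc 4, mul_pow]; ring
    _ ≤ (4 * L') ^ k * M * ((k + 1).factorial / w.re) :=
        mul_le_mul (mul_le_mul_of_nonneg_right e2 hM0) e1 (by positivity) (by positivity)
    _ = _ := by ring

theorem nb_core (hn : 1 ≤ n) {a : Fin n → ℂ} (hP : Pot (Xs a) (psi a)) (hE : ERR a)
    (Ξ L δ : ℝ) (hδ : 0 < δ) : ∃ (R0 : ℝ) (M : ℕ → ℝ), 1 ≤ R0 ∧ ∀ Ψ : V → C3,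
      Par (Xs a) Ψ univ → (∀ q, psi a (Ψ q) = psi a (cov a q)) →
      ∀ (w ξ : ℂ) (d1 d2 ρ : ℝ), R0 ≤ w.re → ‖ξ‖ ≤ Ξ → δ ≤ d1 → d1 ≤ L * w.re → ρ ≤ 1 →
        d1 * ρ ≤ w.re / 2 → δ ≤ d2 → d2 ≤ 1 →
        Nice M d1 ρ (fun y => Real.log (psi a (Ψ ((w, ξ) + dgl d1 d2 y)))) := by
  choose Bh hBh0 hBh using nb_fs_words hn Ξ
  choose Be hBe0 hBe using nb_err_words hE Ξ L
  set c := 4 * δ ^ 2 / (1 + (Ξ + 1) ^ 2) ^ 2 with hc
  have hc0 : 0 < c := by positivity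
  set ε0 := min (c / (48 * (1 + 2 / δ ^ 2))) (δ / 12) with hε0
  have hε0' : 0 < ε0 := by positivity
  set M0 := 1 + 2 * (1 + 2 / δ ^ 2) / c with hM0
  have hM0' : 0 < M0 := by positivity
  refine ⟨max 1 (Be 2 / ε0), fun k => M0 + 2 + (Bh k + Be k) / δ + 2 * (Bh (k + 2) + Be (k + 2)),
    le_max_left _ _, fun Ψ hΨ hψ w ξ d1 d2 ρ hw hξ h1 h2 hρ h3 h4 h5 => ?_⟩
  have hw1 : 1 ≤ w.re := (le_max_left _ _).trans hw
  have hd1 : 0 < d1 := hδ.trans_le h1
  have hd2 : 0 < d2 := hδ.trans_le h4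
  have hd2' : |d2| ≤ 1 := by rwa [abs_of_pos hd2]
  set H : V → ℝ := fun y => fsp n ((0, ξ) + dgl 0 d2 y) with hH
  set E : V → ℝ := fun y => err a ((w, ξ) + dgl d1 d2 y) with hEE
  have cH : ContDiff ℝ ∞ H := (fsp_cd hn).comp (B.aff_cd _ _)
  have cE : ContDiff ℝ ∞ E := hE.1.comp (B.aff_cd _ _)
  have cL := nb_lin_cd (2 * w.re) d1
  have hσ : (fun y => Real.log (psi a (Ψ ((w, ξ) + dgl d1 d2 y)))) =
      fun y => (2 * w.re + 2 * d1 * y.1.re) + (H y + E y) := by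
    funext y
    simp only [hψ, hH, hEE, err, fsp, dgl_apply, Prod.fst_add, Prod.snd_add, Complex.add_re,
      Complex.re_ofReal_mul]
    ring
  have hnn : ∀ x, NN (lv (fun y => Real.log (psi a (Ψ ((w, ξ) + dgl d1 d2 y)))) x) := fun x =>
    nc_nn hP (hΨ.affine (dgl d1 d2) (w, ξ) (dgl_inj hd1.ne' hd2.ne') isOpen_univ
      fun _ _ => mem_univ _) (mem_univ x) (by rw [hψ]; exact hE.2.1 _)
  rw [hσ] at hnn ⊢
  have bE : ∀ k, ∀ l : List (Fin 4), l.length ≤ k → ∀ y ∈ ball (0 : V) ρ,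
      |DL l E y| ≤ Be k / w.re := fun k => hBe k w ξ d1 d2 ρ hw1 hξ hd1.le h2 hρ h3 hd2'
  have bS : ∀ k, ∀ l : List (Fin 4), l.length ≤ k → ∀ y ∈ ball (0 : V) ρ,
      |DL l (fun y => H y + E y) y| ≤ Bh k + Be k := by
    intro k l hl y hy
    rw [(wb_DL_add cH.contDiffAt cE.contDiffAt l).self_of_nhds]
    refine (abs_add_le _ _).trans (add_le_add
      (hBh k ξ d2 hξ hd2' l hl y (ball_subset_ball hρ hy)) ((bE k l hl y hy).trans ?_))
    exact div_le_self (hBe0 k) hw1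
  have sp : ∀ (l : List (Fin 4)) (y : V), DL l (fun y => (2 * w.re + 2 * d1 * y.1.re) +
      (H y + E y)) y = DL l (fun y : V => 2 * w.re + 2 * d1 * y.1.re) y +
        DL l (fun y => H y + E y) y := fun l y =>
    (wb_DL_add cL.contDiffAt (cH.add cE).contDiffAt l).self_of_nhds
  refine ⟨(cL.add (cH.add cE)).contDiffOn, fun l hl x hx => ?_, fun k => ?_, fun x _ => hnn x,
    fun x hx v => ?_⟩
  · rw [sp]
    refine (abs_add_le _ _).trans ((add_le_add (nb_lin1 _ hd1.le hl x) (bS _ l le_rfl x hx)).trans ?_)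
    have p1 := add_nonneg (hBh0 l.length) (hBe0 l.length)
    have p2 := add_nonneg (hBh0 (l.length + 2)) (hBe0 (l.length + 2))
    have p3 : Bh l.length + Be l.length ≤ (Bh l.length + Be l.length) / δ * d1 := by
      rw [div_mul_eq_mul_div, le_div_iff₀ hδ]
      exact mul_le_mul_of_nonneg_left h1 p1
    nlinarith
  · intro l hl α x hx
    refine (wb_LB isOpen_ball (cL.add (cH.add cE)).contDiffOn (M := Bh (k + 2) + Be (k + 2))
      (fun l h2 hl y hy => by rw [sp, nb_lin2 _ _ h2, zero_add]; exact bS _ l hl y hy)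
      l hl α x hx).trans ?_
    have p1 := div_nonneg (add_nonneg (hBh0 k) (hBe0 k)) hδ.le
    linarith
  · set ε := Be 2 / w.re with hε
    have hε1 : ε ≤ ε0 := by
      have := (le_max_right _ _).trans hw
      rw [div_le_iff₀ hε0'] at this
      rw [hε, div_le_iff₀ (by linarith)]
      linarith
    have hε2 : 0 ≤ ε := div_nonneg (hBe0 2) (by linarith)
    have c2 : ∀ {f : V → ℝ}, ContDiff ℝ ∞ f → ContDiffAt ℝ 2 f x := fun h =>
      h.contDiffAt.of_le two_le_inf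
    have c1 : ∀ {f : V → ℝ}, ContDiff ℝ ∞ f → DifferentiableAt ℝ f x := fun h =>
      h.differentiable (by simp) x
    have dE : ∀ u, |D u E x| ≤ 4 * ε * ‖u‖ := nb_D_le fun j => bE 2 [j] (by simp) x hx
    have dH : ∀ u : V, |D u H x| ≤ ‖u.2‖ := by
      intro u
      have := D_hol (T := fun y => ((0, ξ) : V) + dgl 0 d2 y) (f := fsp n) (x := x)
        ((dgl 0 d2).differentiableAt.const_add _) ((fsp_cd hn).differentiable (by simp) _) u
      rw [((dgl 0 d2).hasFDerivAt.const_add _).fderiv] at this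
      have e : D u H x = _ := this
      rw [e]
      refine (fsp_D hn _ _).trans ?_
      rw [dgl_apply, norm_mul, Complex.norm_real, Real.norm_eq_abs]
      nlinarith [norm_nonneg u.2, abs_nonneg d2]
    have dS : ∀ u : V, 2 * d1 ^ 2 * u.1.re ^ 2 - 2 * (‖u.2‖ ^ 2 + 16 * ε ^ 2 * ‖u‖ ^ 2) ≤
        D u (fun y => (2 * w.re + 2 * d1 * y.1.re) + (H y + E y)) x ^ 2 := by
      intro u
      rw [D_add (c1 cL) (c1 (cH.add cE)), D_add (c1 cH) (c1 cE), nb_lin_D]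
      have q1 : D u H x ^ 2 ≤ ‖u.2‖ ^ 2 := sq_le_sq' (abs_le.1 (dH u)).1 (abs_le.1 (dH u)).2
      have q2 : D u E x ^ 2 ≤ (4 * ε * ‖u‖) ^ 2 :=
        sq_le_sq' (abs_le.1 (dE u)).1 (abs_le.1 (dE u)).2
      nlinarith [sq_nonneg (d1 * u.1.re + (D u H x + D u E x)), sq_nonneg (D u H x - D u E x)]
    have lE : |qf (lv E x) v| ≤ 12 * ε * ‖v‖ ^ 2 := by
      have := wb_LB isOpen_ball cE.contDiffOn (k := 0) (M := ε) fun l _ hl y hy => bE 2 l hl y hy
      have hn : ‖lv E x‖ ≤ 2 * ε :=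
        (pi_norm_le_iff_of_nonneg (by positivity)).2 fun α => this [] le_rfl α x hx
      refine (abs_qf_le _ _).trans (mul_le_mul_of_nonneg_right (by linarith) (sq_nonneg _))
    have lH : c * ‖v.2‖ ^ 2 ≤ qf (lv H x) v := by
      rw [hH, lv_affine _ _ ((fsp_cd hn).contDiffAt.of_le two_le_inf), qf_pb, fsp_lv hn, dgl_apply,
        norm_mul, Complex.norm_real, Real.norm_eq_abs, mul_pow, sq_abs, hc, div_mul_eq_mul_div]
      have hg := fsg_pos (((0, ξ) : V) + dgl 0 d2 x)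
      have hg2 : fsg (((0, ξ) : V) + dgl 0 d2 x) ≤ 1 + (Ξ + 1) ^ 2 := by
        rw [fsg_eq]
        have : ‖(((0, ξ) : V) + dgl 0 d2 x).2‖ ≤ Ξ + 1 := by
          rw [dgl_apply]
          refine (norm_add_le _ _).trans (add_le_add hξ ?_)
          simp only [norm_mul, Complex.norm_real, Real.norm_eq_abs]
          have := (norm_snd_le x).trans ((mem_ball_zero_iff.1 hx).le.trans hρ)
          nlinarith [norm_nonneg x.2, abs_nonneg d2]
        have := pow_le_pow_left₀ (norm_nonneg _) this 2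
        linarith
      refine div_le_div₀ (by positivity) ?_ (by positivity) (pow_le_pow_left₀ hg.le hg2 2)
      have := mul_le_mul_of_nonneg_right (pow_le_pow_left₀ hδ.le h4 2) (sq_nonneg ‖v.2‖)
      linarith
    have lL : lv (fun y : V => 2 * w.re + 2 * d1 * y.1.re) x = 0 := by
      refine Hm_ext ?_ ?_ ?_ ?_ <;> simp [lv, lev, nb_lin_D, D_const]
    have hQ : c * ‖v.2‖ ^ 2 - 12 * ε * ‖v‖ ^ 2 ≤
        qf (lv (fun y => (2 * w.re + 2 * d1 * y.1.re) + (H y + E y)) x) v := by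
      rw [lv_add (c2 cL) (c2 (cH.add cE)), lv_add (c2 cH) (c2 cE), lL, zero_add, qf_add]
      linarith [(abs_le.1 lE).1]
    have hN : ‖v‖ ^ 2 ≤ ‖v.1‖ ^ 2 + ‖v.2‖ ^ 2 := by rw [← qf_one]; exact qf_one_ge v
    have hPP : 2 * ‖v.1‖ ^ 2 - 4 * (‖v.2‖ ^ 2 + 16 * ε ^ 2 * ‖v‖ ^ 2) / δ ^ 2 ≤
        qf (rk (fun y => (2 * w.re + 2 * d1 * y.1.re) + (H y + E y)) x) v / d1 ^ 2 := by
      rw [le_div_iff₀ (by positivity), qf_rk]
      have s1 := dS v
      have s2 := dS (Complex.I • v)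
      have n1 : ‖Complex.I • v‖ = ‖v‖ := by rw [norm_smul, Complex.norm_I, one_mul]
      have n2 : ‖(Complex.I • v).2‖ = ‖v.2‖ := by
        rw [Prod.smul_snd, norm_smul, Complex.norm_I, one_mul]
      have n3 : (Complex.I • v).1.re ^ 2 = v.1.im ^ 2 := by simp
      have n4 : ‖v.1‖ ^ 2 = v.1.re ^ 2 + v.1.im ^ 2 := by
        rw [Complex.sq_norm, Complex.normSq_apply]; ring
      rw [n1, n2, n3] at s2
      have t0 : 0 ≤ 4 * (‖v.2‖ ^ 2 + 16 * ε ^ 2 * ‖v‖ ^ 2) := by positivity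
      have t1 : 4 * (‖v.2‖ ^ 2 + 16 * ε ^ 2 * ‖v‖ ^ 2) ≤
          4 * (‖v.2‖ ^ 2 + 16 * ε ^ 2 * ‖v‖ ^ 2) / δ ^ 2 * d1 ^ 2 := by
        rw [div_mul_eq_mul_div, le_div_iff₀ (by positivity)]
        exact mul_le_mul_of_nonneg_left (pow_le_pow_left₀ hδ.le h1 2) t0
      rw [n4]
      nlinarith
    have P0 := div_nonneg (nn_rk (fun y => (2 * w.re + 2 * d1 * y.1.re) + (H y + E y)) x v)
      (sq_nonneg d1)
    have k1 : (1 + 2 / δ ^ 2) * 12 * ε ≤ c / 4 := by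
      have := hε1.trans (min_le_left _ _)
      rw [le_div_iff₀ (by positivity)] at this
      linarith
    have k2 : 32 * ε ^ 2 ≤ δ ^ 2 / 4 := by
      have := pow_le_pow_left₀ hε2 (hε1.trans (min_le_right _ _)) 2
      nlinarith [sq_nonneg δ]
    refine (nb_alg hδ hc0 hN (sq_nonneg _) hPP hQ P0 (hnn x v) k1 k2).trans
      (mul_le_mul_of_nonneg_right ?_ (add_nonneg P0 (hnn x v)))
    have p1 := div_nonneg (add_nonneg (hBh0 0) (hBe0 0)) hδ.le
    have p2 := add_nonneg (hBh0 (0 + 2)) (hBe0 (0 + 2))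
    linarith

end Pool.Agent.MP_67f0e4_gt.K
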