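import Pool.Agent.MP_67f0e4_gt.I89.Step

/-! Row BOOT: the bootstrap closes. -/

open Set Metric Filter Topology
open scoped ContDiff

noncomputable section

namespace Pool.Agent.MP_67f0e4_gt.K

open I89

theorem rboot : rBOOT := by
  intro hF cmp out i1 inn tl X ψ F C θf Kf Cj u hc hs d' hd'
  obtain ⟨C2, hC2, fcl⟩ := hF C θf Kf hc.prof.cst
  obtain ⟨d1, D, hd1, hd4, hD, st⟩ := step hF hc (out _ _ _ _ _ _ _ _ hc) (i1 _ _ _ _ _ _ _ _ hc)
    (inn _ _ _ _ _ _ _ _ hc) hs
  obtain ⟨C1, b1, cm⟩ := cmp _ _ _ _ _ _ _ _ hc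
  obtain ⟨d, ⟨a1, a2⟩, hd⟩ := (((ev_le hd1).and (ev_le hd')).and ev_pos).exists
  obtain ⟨η, hη, st⟩ := st (d / 8) (by positivity)
  obtain ⟨th, ⟨⟨c1, c2⟩, c3⟩, hth⟩ := ((((ev_le hη).and (ev_mul_le (4 * C2) hη)).and
    (ev_mul_le (8 * C2) hd)).and ev_pos).exists
  obtain ⟨e, c4, he⟩ := ((ev_mul_le (|C1| + 6) (mul_pos hη hth)).and ev_pos).exists
  refine ⟨max b1 (-Real.log e), fun b τ φ hb R => ?_⟩
  have hb1 : b1 ≤ b := (le_max_left _ _).trans hb
  have hbe : Real.exp (-b) ≤ e := by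
    rw [← Real.exp_log he]
    exact Real.exp_le_exp.2 (by linarith [(le_max_right _ _).trans hb])
  have RO := hc.prof.on τ R.τ0
  have E := RO.est
  have h0 : (0 : ℝ) ∈ Icc 0 τ := left_mem_Icc.2 R.τ0.1.le
  have ha : ∀ t ∈ Icc 0 τ, 0 < 1 - 2 * t := fun t ht => by linarith [ht.2, R.τ0.2]
  have k3 : 0 < C2 * th := by positivity
  have sm : ∀ K : ℝ, K ≤ |C1| + 6 → ∀ t ∈ Icc 0 τ,
      K * Real.exp (-b) * (1 - 2 * t) ^ 3 ≤ η * (th * (1 - 2 * t) ^ 2) := by
    intro K hK t ht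
    have p1 := ha t ht
    have p2 := Real.exp_pos (-b)
    have p3 : 0 < |C1| + 6 := by positivity
    have q1 : K * Real.exp (-b) ≤ η * th :=
      (mul_le_mul hK hbe p2.le p3.le).trans c4
    have q2 : (1 - 2 * t) ^ 3 ≤ (1 - 2 * t) ^ 2 :=
      pow_le_pow_of_le_one p1.le (by linarith [ht.1]) (by norm_num)
    rw [← mul_assoc]
    exact mul_le_mul q1 q2 (by positivity) (by positivity)
  have imp : ∀ t ∈ Icc 0 τ, BS X ψ u b d t φ → ∀ p ∈ X, XCl X (d / 2) (φ t) (FF ψ u b t) p := by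
    intro t ht hB p hp
    rcases ht.1.eq_or_lt with rfl | ht0
    · exact xcl_init R (by positivity) p
    obtain ⟨s1, s2⟩ := st b t φ (run_mono R ⟨ht0, ht.2⟩) (bs_mono hB hd a1) th 0 (4 * (C2 * th))
      hth c1 (by positivity) ⟨le_rfl, ht0⟩ (fun s hs q hq => by
        have hs' : s ∈ Icc 0 τ := ⟨hs.1, hs.2.trans ht.2⟩
        obtain ⟨m1, m2⟩ := cm b τ φ hb1 R s hs' q hq
        rw [abs_of_nonneg m1]
        exact m2.trans (sm C1 (by linarith [le_abs_self C1]) s hs'))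
      ((ct_le E b ht (ha t ht)).trans
        (le_of_eq_of_le (by ring) (sm 6 (by linarith [abs_nonneg C1]) t ht)))
      (fun q hq h => yb_of_xcl hc.geo.pot.rf (ct_pos E b h0)
        (((fcl X ψ τ u b hc.geo.pot RO 0 h0 th hth (by linarith)).1 q hq
          (by linarith [hc.one q hq]) h).congr R.init fun _ _ => rfl) k3.le (by linarith)) (by
        have p1 := ha t ht
        have q1 : 1 / (1 - 2 * 0) ≤ 1 / (1 - 2 * t) :=
          one_div_le_one_div_of_le p1 (by linarith)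
        have q2 : Real.exp (-((1 / (1 - 2 * t) - 1 / (1 - 2 * 0)) / (D * th))) ≤ 1 :=
          Real.exp_le_one_iff.2 (neg_nonpos.2 (div_nonneg (sub_nonneg.2 q1) (by positivity)))
        refine (mul_le_of_le_one_right (by positivity) q2).trans ?_
        linarith)
    rcases le_total (ct u b t * ψ p) (th * (1 - 2 * t) ^ 2) with h | h
    · have f1 := (fcl X ψ τ u b hc.geo.pot RO t ht th hth (by linarith)).1 p hp
        (by linarith [hc.one p hp]) h
      exact xcl_mono (xcl_two (s1 p hp h) f1 (by positivity) k3.le (by linarith)) (by positivity)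
        (by linarith)
    · have p1 : 0 ≤ th * (1 - 2 * t) ^ 2 := by positivity
      exact xcl_mono (s2 p hp (by linarith)) (by positivity) (by linarith)
  obtain ⟨L, hL⟩ := tl _ _ _ _ _ _ _ _ hc b τ φ R
  obtain ⟨h, c5, hh⟩ := ((ev_mul_le (4 * |L|) hd).and ev_pos).exists
  have ind : ∀ k : ℕ, ∀ s ∈ Icc 0 τ, s ≤ k * h → ∀ p ∈ X, XCl X d (φ s) (FF ψ u b s) p := by
    intro k
    induction k with
    | zero =>
      intro s hs hk p _
      have : s = 0 := le_antisymm (by simpa using hk) hs.1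
      subst this
      exact xcl_init R hd.le p
    | succ k ih =>
      intro s hs hk p hp
      rcases le_total s (k * h) with h1 | h1
      · exact ih s hs h1 p hp
      have hk' : (k : ℝ) * h ∈ Icc 0 τ := ⟨by positivity, h1.trans hs.2⟩
      have h2 := hL _ hk' s hs (d / 2) ⟨by positivity, by linarith⟩ p hp
        (imp _ hk' (fun r hr => ih r ⟨hr.1, hr.2.trans hk'.2⟩ hr.2) p hp)
      have h3 : |s - k * h| ≤ h := by
        rw [abs_of_nonneg (sub_nonneg.2 h1)]
        push_cast at hk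
        linarith
      have h4 : |L * (|s - k * h|)| ≤ d / 4 := by
        rw [abs_mul, abs_abs]
        linarith [mul_le_mul_of_nonneg_left h3 (abs_nonneg L)]
      exact xcl_mono h2 (by linarith [(abs_le.1 h4).1]) (by linarith [(abs_le.1 h4).2])
  obtain ⟨k, hk⟩ := exists_nat_ge (τ / h)
  exact bs_mono (fun s hs => ind k s hs (hs.2.trans ((div_le_iff₀ hh).1 hk))) hd a2

end Pool.Agent.MP_67f0e4_gt.K
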