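import Pool.Agent.MP_67f0e4_gt.K.Spec
import Pool.Agent.MP_67f0e4_gt.K.Chart

/-! Row CHB1: elementary tools. -/

open Set Metric Filter Topology
open scoped ContDiff

noncomputable section

namespace Pool.Agent.MP_67f0e4_gt.K

theorem rchb1_D (v x : V) (f : V → ℝ) : D v (fun y => f (x + y)) = fun y => D v f (x + y) :=
  funext fun y => by simp only [D, fderiv_comp_add_left]

theorem rchb1_DL (l : List (Fin 4)) (x : V) (f : V → ℝ) :
    DL l (fun y => f (x + y)) = fun y => DL l f (x + y) := by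
  induction l with
  | nil => rfl
  | cons i l ih => rw [DL, ih, rchb1_D]; rfl

theorem rchb1_lv (x : V) (f : V → ℝ) (y : V) : lv (fun y => f (x + y)) y = lv f (x + y) := by
  simp only [lv, lev, rchb1_D]

theorem rchb1_DLlv (l : List (Fin 4)) (α : Fin 4) (x : V) (f : V → ℝ) (y : V) :
    DL l (fun y => lv (fun y => f (x + y)) y α) y = DL l (fun z => lv f z α) (x + y) := by
  simp only [rchb1_lv]
  exact congrFun (rchb1_DL l x fun z => lv f z α) y

theorem rchb1_LB_congr {k : ℕ} {M : ℝ} {f g : V → ℝ} {U : Set V} (hU : IsOpen U)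
    (h : ∀ y ∈ U, g y = f y) (H : LB k M f U) : LB k M g U := fun l hl α x hx => by
  have e : g =ᶠ[𝓝 x] f := (hU.eventually_mem hx).mono h
  have e2 : (fun y => lv g y α) =ᶠ[𝓝 x] fun y => lv f y α :=
    (lv_congr_ev e).mono fun y hy => congrFun hy α
  rw [(DL_congr_ev e2 l).self_of_nhds]
  exact H l hl α x hx

theorem rchb1_append (l l' : List (Fin 4)) (f : V → ℝ) : DL (l ++ l') f = DL l (DL l' f) := by
  induction l with
  | nil => rfl
  | cons i l ih => rw [List.cons_append, DL, DL, ih]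

theorem rchb1_cmul (l : List (Fin 4)) (c : ℝ) (f : V → ℝ) :
    DL l (fun y => c * f y) = fun y => c * DL l f y := by
  induction l with
  | nil => rfl
  | cons i l ih => rw [DL, ih, D_const_mul]; rfl

theorem rchb1_add (l : List (Fin 4)) {f g : V → ℝ} {W : Set V} (hW : IsOpen W)
    (hf : ∀ x ∈ W, ContDiffAt ℝ ∞ f x) (hg : ∀ x ∈ W, ContDiffAt ℝ ∞ g x) :
    ∀ x ∈ W, DL l (fun y => f y + g y) x = DL l f x + DL l g x := by
  induction l with
  | nil => exact fun _ _ => rfl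
  | cons i l ih =>
    intro x hx
    have e : DL l (fun y => f y + g y) =ᶠ[𝓝 x] fun y => DL l f y + DL l g y :=
      (hW.eventually_mem hx).mono ih
    rw [DL, D_congr e, D_add ((DL_smooth (hf x hx) l).differentiableAt (by simp))
      ((DL_smooth (hg x hx) l).differentiableAt (by simp))]
    rfl

theorem rchb1_entry (α : Fin 4) : ∃ (a b : List (Fin 4)) (c : ℝ), a.length = 2 ∧ b.length = 2 ∧
    |c| = 1 ∧ ∀ f : V → ℝ, (fun y => lv f y α) = fun y => DL a f y + c * DL b f y := by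
  fin_cases α
  · exact ⟨[0, 0], [1, 1], 1, rfl, rfl, abs_one, fun f => funext fun y => by
      simp only [lv, lev, I_e0, DL, one_mul]; rfl⟩
  · exact ⟨[2, 2], [3, 3], 1, rfl, rfl, abs_one, fun f => funext fun y => by
      simp only [lv, lev, I_e2, DL, one_mul]; rfl⟩
  · exact ⟨[0, 2], [1, 3], 1, rfl, rfl, abs_one, fun f => funext fun y => by
      simp only [lv, lev, I_e0, I_e2, DL, one_mul]; rfl⟩
  · refine ⟨[0, 3], [1, 2], -1, rfl, rfl, by simp, fun f => funext fun y => ?_⟩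
    have h : D (-e 2) f = fun y => -1 * D (e 2) f y := funext fun y => by
      simp only [D, map_neg, neg_mul, one_mul]
    simp only [lv, lev, I_e0, I_e3, DL, h, D_const_mul]
    rfl

theorem rchb1_LB_of {k : ℕ} {M : ℝ} {f : V → ℝ} {W : Set V} (hW : IsOpen W)
    (hf : ∀ x ∈ W, ContDiffAt ℝ ∞ f x)
    (h : ∀ l : List (Fin 4), l.length ≤ k + 2 → ∀ x ∈ W, |DL l f x| ≤ M) : LB k (2 * M) f W := by
  intro l hl α x hx
  obtain ⟨a, b, c, ha, hb, hc, e⟩ := rchb1_entry α
  rw [e, rchb1_add l hW (fun y hy => DL_smooth (hf y hy) a)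
    (fun y hy => contDiffAt_const.mul (DL_smooth (hf y hy) b)) x hx, rchb1_cmul, ← rchb1_append,
    ← rchb1_append]
  refine (abs_add_le _ _).trans ?_
  rw [abs_mul, hc, one_mul, two_mul]
  exact add_le_add (h _ (by rw [List.length_append]; omega) x hx)
    (h _ (by rw [List.length_append]; omega) x hx)

theorem rchb1_cpt {X : Set C3} {F : Fam X} (hF : F.CPT) {K : Set C3} (hK : IsCompact K)
    (hX : K ⊆ X) {f : C3 → ℝ} (hf : XSm0 X f) (n : ℕ) : ∃ M : ℝ, 0 < M ∧ ∀ i, F.Φ i 0 ∈ K →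
      ∀ l : List (Fin 4), l.length ≤ n → ∀ x ∈ ball (0 : V) (3 / 2), |DL l (f ∘ F.Φ i) x| ≤ M := by
  choose M hM using (hF K 0 1 (fun _ => f) hK hX one_pos (hf.toXSm _)).1
  obtain ⟨B, hB⟩ := ((List.finite_length_le (Fin 4) n).image M).bddAbove
  exact ⟨max B 1, lt_max_of_lt_right one_pos, fun i hi l hl x hx =>
    ((hM l i hi 0 ⟨le_rfl, zero_le_one⟩ x hx).trans (hB ⟨l, hl, rfl⟩)).trans (le_max_left _ _)⟩

theorem rchb1_lip {g : V → ℝ} {M R : ℝ} (hg : ∀ z ∈ ball (0 : V) R, DifferentiableAt ℝ g z)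
    (h : ∀ z ∈ ball (0 : V) R, ∀ j, |D (e j) g z| ≤ M) {z z' : V} (hz : z ∈ ball (0 : V) R)
    (hz' : z' ∈ ball (0 : V) R) : |g z' - g z| ≤ 4 * M * ‖z' - z‖ := by
  have hM : 0 ≤ M := (abs_nonneg _).trans (h z hz 0)
  refine (convex_ball (0 : V) R).norm_image_sub_le_of_norm_fderiv_le hg (fun w hw => ?_) hz hz'
  refine ContinuousLinearMap.opNorm_le_bound _ (by positivity) fun v => ?_
  have m : ∀ (t : ℝ) (j : Fin 4), |t| ≤ ‖v‖ → |t * fderiv ℝ g w (e j)| ≤ ‖v‖ * M := fun t j ht => by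
    rw [abs_mul]
    exact mul_le_mul ht (h w hw j) (abs_nonneg _) (norm_nonneg _)
  have b0 := abs_le.1 (m _ 0 ((Complex.abs_re_le_norm _).trans (norm_fst_le v)))
  have b1 := abs_le.1 (m _ 1 ((Complex.abs_im_le_norm _).trans (norm_fst_le v)))
  have b2 := abs_le.1 (m _ 2 ((Complex.abs_re_le_norm _).trans (norm_snd_le v)))
  have b3 := abs_le.1 (m _ 3 ((Complex.abs_im_le_norm _).trans (norm_snd_le v)))
  rw [cov_eq, Real.norm_eq_abs, abs_le]
  constructor <;> linarith [b0.1, b0.2, b1.1, b1.2, b2.1, b2.2, b3.1, b3.2]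

theorem rchb1_ell {Λ K c : ℝ} {g : Hm} (h : EllH Λ g) (h1 : 1 ≤ K * c) (h2 : c ≤ K)
    (hc : 0 < c) : EllH (Λ * K) (c • g) := by
  have hK := hc.trans_le h2
  refine ⟨mul_pos h.1 hK, fun v => ?_⟩
  have n := h.isPos.nn v
  have a := h.2 v
  rw [qf_smul]
  constructor
  · nlinarith [mul_le_mul_of_nonneg_left h1 (mul_nonneg h.1.le n), a.1]
  · nlinarith [mul_le_mul h2 a.2 n hK.le]

theorem rchb1_nice {M : ℕ → ℝ} {κ κ' ρ L : ℝ} {σ : V → ℝ} (h : Nice M κ ρ σ) (hκ : 0 < κ)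
    (hκ' : 0 < κ') (hL : 1 ≤ L) (h1 : κ ≤ L * κ') (h2 : κ' ≤ L * κ) :
    Nice (fun n => |M n| * L ^ 2) κ' ρ σ := by
  have hL2 : L ≤ L ^ 2 := by nlinarith
  refine ⟨h.sm, fun l hl x hx => (h.d1 l hl x hx).trans ?_,
    fun k l hl α x hx => (h.d2 k l hl α x hx).trans ?_, h.nn, fun x hx v => (h.ell x hx v).trans ?_⟩
  · calc _ ≤ |M l.length| * (L * κ') := mul_le_mul (le_abs_self _) h1 hκ.le (abs_nonneg _)
      _ ≤ |M l.length| * (L ^ 2 * κ') := by gcongr
      _ = _ := by ring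
  · exact (le_abs_self _).trans (le_mul_of_one_le_right (abs_nonneg _) (hL.trans hL2))
  · have a := nn_rk σ x v
    have b := h.nn x hx v
    have c : qf (rk σ x) v / κ ^ 2 ≤ L ^ 2 * (qf (rk σ x) v / κ' ^ 2) := by
      rw [← mul_div_assoc, div_le_div_iff₀ (by positivity) (by positivity)]
      have := mul_le_mul_of_nonneg_left (pow_le_pow_left₀ hκ'.le h2 2) a
      nlinarith
    have d := le_mul_of_one_le_left b (hL.trans hL2)
    calc _ ≤ |M 0| * (L ^ 2 * (qf (rk σ x) v / κ' ^ 2) + L ^ 2 * qf (lv σ x) v) :=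
          mul_le_mul (le_abs_self _) (add_le_add c d) (by positivity) (abs_nonneg _)
      _ = _ := by ring

theorem rchb1_par {X : Set C3} (F : Fam X) (i : F.ι) {x : V} (hx : x ∈ ball (0 : V) 1) {r : ℝ}
    (hr : r ≤ 1 / 2) : (∀ y ∈ ball (0 : V) r, x + y ∈ ball (0 : V) (3 / 2)) ∧
      Par X (fun y => F.Φ i (x + y)) (ball 0 r) := by
  have h : ∀ y ∈ ball (0 : V) r, x + y ∈ ball (0 : V) (3 / 2) := fun y hy => by
    rw [mem_ball_zero_iff] at *
    linarith [norm_add_le x y]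
  exact ⟨h, (F.par i).affine (ContinuousLinearMap.id ℂ V) x (fun _ _ h => h) isOpen_ball
    fun y hy => ball_subset_ball (by norm_num) (h y hy)⟩

/-- closeness passes to the zero set of the potential -/
theorem rchb1_dense {f g : V → ℝ} {U : Set V} {x : V} {d c : ℝ} (hU : IsOpen U) (hx : x ∈ U)
    (hf : ContDiffAt ℝ ∞ f x) (hg : ContDiffAt ℝ ∞ g x) (hp : Pos (lv g x))
    (h0 : ∀ y ∈ U, 0 ≤ g y) (h : ∀ y ∈ U, 0 < g y → Cl d (lv f y) (c • lv g y)) :
    Cl d (lv f x) (c • lv g x) := by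
  have h1 : ∃ᶠ y in 𝓝 x, 0 < g y := by
    intro h2
    have e : g =ᶠ[𝓝 x] fun _ => 0 := (h2.and (hU.eventually_mem hx)).mono fun y hy =>
      le_antisymm (not_lt.1 hy.1) (h0 y hy.2)
    have := hp.g0
    rw [lv_congr e, lv_const] at this
    exact lt_irrefl _ this
  intro v
  have q : Continuous fun G : Hm => qf G v := by
    unfold qf bf
    fun_prop
  have a := q.continuousAt.comp (lv_smooth hf).continuousAt
  have b := q.continuousAt.comp ((lv_smooth hg).continuousAt.const_smul c)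
  exact le_of_tendsto_of_tendsto_of_frequently (a.sub b).abs (b.const_mul d)
    ((h1.and_eventually (hU.eventually_mem hx)).mono fun y hy => h y hy.2 hy.1 v)

theorem rchb1_scale {a b η : ℝ} {g : Hm} (hg : NN g) (ha : 0 < a) (hb : 0 < b) (hη : η ≤ 1)
    (h : |Real.log a - Real.log b| ≤ η / 2) : Cl η (a • g) (b • g) := fun v => by
  have h1 := Real.abs_exp_sub_one_le (h.trans (by linarith))
  rw [Real.exp_sub, Real.exp_log ha, Real.exp_log hb] at h1
  have h2 : |a - b| ≤ η * b := by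
    have e : a - b = (a / b - 1) * b := by field_simp
    rw [e, abs_mul, abs_of_pos hb]
    exact mul_le_mul_of_nonneg_right (by linarith) hb.le
  rw [qf_smul, qf_smul, ← sub_mul, abs_mul, abs_of_nonneg (hg v), ← mul_assoc]
  exact mul_le_mul_of_nonneg_right h2 (hg v)

theorem rchb1_ev (a : ℝ) {b : ℝ} (hb : 0 < b) : ∀ᶠ r in 𝓝[>] (0 : ℝ), a * r ≤ b := by
  have h : Tendsto (fun r : ℝ => a * r) (𝓝 0) (𝓝 0) := by
    simpa using (continuous_const_mul a).tendsto 0
  exact (h.eventually (ge_mem_nhds hb)).filter_mono nhdsWithin_le_nhds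

end Pool.Agent.MP_67f0e4_gt.K
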