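import Pool.Agent.MP_67f0e4_gt.K.Spec
import Pool.Agent.MP_67f0e4_gt.K.Kit
import Pool.Agent.MP_67f0e4_gt.K.WB

/-! Oscillation of the comparison metric on parabolic cylinders. -/

open Set Metric Filter Topology
open scoped ContDiff

namespace Pool.Agent.MP_67f0e4_gt.K

lemma osc_small (A : ℝ) {δ : ℝ} (hδ : 0 < δ) : ∀ᶠ η in 𝓝[>] (0 : ℝ), η * A ≤ δ := by
  have h : Tendsto (fun η : ℝ => η * A) (𝓝 0) (𝓝 (0 * A)) := tendsto_id.mul_const A
  rw [zero_mul] at h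
  exact (h.eventually (ge_mem_nhds hδ)).filter_mono nhdsWithin_le_nhds

lemma osc_mul {a b a' b' m l : ℝ} (h1 : |a| ≤ m) (h2 : |b'| ≤ m) (h3 : |a - a'| ≤ l)
    (h4 : |b - b'| ≤ l) : |a * b - a' * b'| ≤ 2 * (m * l) := by
  rw [show a * b - a' * b' = a * (b - b') + b' * (a - a') by ring]
  refine (abs_add_le _ _).trans ?_
  rw [abs_mul, abs_mul]
  have m0 := (abs_nonneg _).trans h1
  linarith [mul_le_mul h1 h4 (abs_nonneg _) m0, mul_le_mul h2 h3 (abs_nonneg _) m0]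

/-- the rank one form with given first derivatives -/
def oscR (T : Fin 4 → ℝ) : Hm :=
  ![T 0 * T 0 + T 1 * T 1, T 2 * T 2 + T 3 * T 3, T 0 * T 2 + T 1 * T 3, T 0 * T 3 - T 1 * T 2]

lemma oscR_sub {T T' : Fin 4 → ℝ} {m l : ℝ} (h : ∀ i, |T i| ≤ m) (h' : ∀ i, |T' i| ≤ m)
    (hl : ∀ i, |T i - T' i| ≤ l) : ‖oscR T - oscR T'‖ ≤ 4 * (m * l) := by
  have k := fun i j => abs_le.1 (osc_mul (h i) (h' j) (hl i) (hl j))
  have h0 : 0 ≤ m * l := mul_nonneg ((abs_nonneg _).trans (h 0)) ((abs_nonneg _).trans (hl 0))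
  refine (pi_norm_le_iff_of_nonneg (by positivity)).2 fun α => ?_
  rw [Real.norm_eq_abs, abs_le]
  fin_cases α <;> simp only [oscR, Pi.sub_apply, Fin.reduceFinMk, Matrix.cons_val]
  · exact ⟨by linarith [k 0 0, k 1 1], by linarith [k 0 0, k 1 1]⟩
  · exact ⟨by linarith [k 2 2, k 3 3], by linarith [k 2 2, k 3 3]⟩
  · exact ⟨by linarith [k 0 2, k 1 3], by linarith [k 0 2, k 1 3]⟩
  · exact ⟨by linarith [k 0 3, k 1 2], by linarith [k 0 3, k 1 2]⟩

lemma oscR_le {T : Fin 4 → ℝ} {m : ℝ} (h : ∀ i, |T i| ≤ m) : ‖oscR T‖ ≤ 4 * (m * m) := by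
  have := oscR_sub (T' := fun _ => 0) h (fun i => by simpa using (abs_nonneg _).trans (h i))
    fun i => by simpa using h i
  rwa [show oscR (fun _ => 0) = 0 from Hm_ext (by simp [oscR]) (by simp [oscR]) (by simp [oscR])
    (by simp [oscR]), sub_zero] at this

lemma oscR_eq (c : ℝ) (σ : V → ℝ) (x : V) : oscR (fun i => c * D (e i) σ x) = c ^ 2 • rk σ x := by
  refine Hm_ext ?_ ?_ ?_ ?_ <;>
    simp only [oscR, rk, Matrix.cons_val, Pi.smul_apply, smul_eq_mul] <;> ring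

theorem osc : OSC := by
  intro C θf Kf cst M ρ hρ
  obtain ⟨Λ, hΛ⟩ : ∃ Λ : ℝ, Λ = |M 0| + 6 * (|M 0| + 4 * (M 1 * M 1)) + 1 := ⟨_, rfl⟩
  refine ⟨Λ, fun ε hε => ?_⟩
  obtain ⟨η, m1, hη⟩ := ((osc_small (6 * Λ * (M 0 + 4 * (M 1 * M 1))) (half_pos hε)).and
    self_mem_nhdsWithin).exists
  have hη : 0 < η := hη
  have hθ := cst.2.1 η hη
  obtain ⟨r, ⟨⟨m2, m3⟩, m4, m5⟩, hr⟩ :=
    ((((osc_small (6 * Λ * (4 * M 1 + 16 * (M 1 * M 2))) (half_pos hε)).and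
      (osc_small (4 * M 1) hθ)).and ((osc_small 1 hθ).and (osc_small 2 hρ))).and
      self_mem_nhdsWithin).exists
  have hr : 0 < r := hr
  refine ⟨r, ⟨hr, by linarith⟩, fun τ u σ b R t ht nc => ?_⟩
  have z : (0 : V) ∈ ball (0 : V) ρ := mem_ball_self hρ
  have M0 := nc.nonneg hρ
  obtain ⟨q0, q1, -⟩ := R.est.pos (σ 0 - b) t ht
  have hp := q0.trans_le q1
  obtain ⟨κ, hκ⟩ : ∃ κ, κ = kap (UJ u) (σ 0 - b) t := ⟨_, rfl⟩
  have k0 : 0 < κ := hκ ▸ Real.sqrt_pos.2 (div_pos hp q0)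
  have k2 : κ ^ 2 = UJ u 1 (σ 0 - b) t / UJ u 2 (σ 0 - b) t :=
    hκ ▸ Real.sq_sqrt (div_pos hp q0).le
  have hosc := R.est.osc η hη (σ 0 - b)
  rw [← hκ] at nc
  have hG : ∀ x ∈ ball (0 : V) ρ, ∀ t' ∈ Icc 0 τ,
      (UJ u 1 (σ 0 - b) t)⁻¹ • lv (fun y => u (σ y - b) t') x =
        (UJ u 1 (σ x - b) t' / UJ u 1 (σ 0 - b) t) • lv σ x +
          (UJ u 2 (σ x - b) t' / UJ u 2 (σ 0 - b) t) • oscR fun i => κ⁻¹ * D (e i) σ x := by
    intro x hx t' ht'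
    have a := lv_comp (u := fun s => u s t') (u' := fun s => UJ u 1 s t') (f := fun y => σ y - b)
      (x := x) (Eventually.of_forall fun s => R.rad.ds 0 (by norm_num) s t' ht')
      (R.rad.ds 1 (by norm_num) _ t' ht')
      (((nc.sm.contDiffAt (isOpen_ball.mem_nhds hx)).of_le two_le_inf).sub contDiffAt_const)
    rw [a, lv_sub_const, rk_sub_const, oscR_eq, smul_add, smul_smul, smul_smul, smul_smul, inv_pow,
      k2]
    congr 2
    · ring
    · field_simp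
  have hT : ∀ x ∈ ball (0 : V) ρ, ∀ i, |κ⁻¹ * D (e i) σ x| ≤ M 1 := fun x hx i => by
    rw [abs_mul, abs_of_pos (inv_pos.2 k0), inv_mul_le_iff₀ k0, mul_comm]
    exact nc.d1 [i] le_rfl x hx
  have h0 := hG 0 z t ht
  rw [div_self hp.ne', div_self q0.ne', one_smul, one_smul] at h0
  have el : EllH Λ ((UJ u 1 (σ 0 - b) t)⁻¹ • lv (fun y => u (σ y - b) t) 0) := by
    have a1 := nc.nn 0 z
    have a2 := nn_rk σ 0
    have a3 := norm_add_le_of_le ((nc.d2 0).norm_le z) (oscR_le (hT 0 z))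
    rw [abs_of_nonneg (M0 0)] at hΛ
    have a4 := mul_nonneg (M0 1) (M0 1)
    refine ⟨by linarith [M0 0], fun v => ⟨?_, ?_⟩⟩
    · have a5 := nc.ell 0 z v
      have a6 : 0 ≤ qf (rk σ 0) v / κ ^ 2 + qf (lv σ 0) v :=
        add_nonneg (div_nonneg (a2 v) (sq_nonneg _)) (a1 v)
      rw [h0, qf_add, oscR_eq, qf_smul, inv_pow, ← div_eq_inv_mul, add_comm]
      exact a5.trans (mul_le_mul_of_nonneg_right (by linarith [M0 0]) a6)
    · rw [h0]
      exact ((le_abs_self _).trans (abs_qf_le _ v)).trans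
        (mul_le_mul_of_nonneg_right (by linarith [M0 0]) (sq_nonneg _))
  refine ⟨el, fun x hx t' ht' htt => ?_⟩
  have hx' : x ∈ ball (0 : V) ρ := ball_subset_ball (by linarith) hx
  have xr : ‖x - 0‖ ≤ r := (mem_ball_iff_norm.1 hx).le
  have lip : ∀ {f : V → ℝ} {m : ℝ}, ContDiffOn ℝ ∞ f (ball 0 ρ) → 0 ≤ m →
      (∀ j, ∀ y ∈ ball (0 : V) ρ, |D (e j) f y| ≤ m) → |f x - f 0| ≤ 4 * m * r :=
    fun hf hm h => (wb_lip isOpen_ball (convex_ball 0 ρ) hf h z hx').trans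
      (mul_le_mul_of_nonneg_left xr (by positivity))
  have l1 := lip nc.sm (mul_nonneg (M0 1) k0.le) fun j y hy => nc.d1 [j] le_rfl y hy
  obtain ⟨o2, o1⟩ := hosc (σ x - b) t ht t' ht' (by
    rw [sub_sub_sub_cancel_right, ← hκ]
    exact l1.trans (by nlinarith)) (htt.trans (mul_le_mul_of_nonneg_right
      (pow_le_pow_left₀ hr.le (by linarith) 2) hp.le))
  have l2 : ‖lv σ x - lv σ 0‖ ≤ 4 * M 1 * r :=
    (pi_norm_le_iff_of_nonneg (by have := M0 1; positivity)).2 fun α =>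
      lip (f := fun y => lv σ y α) (fun y hy =>
        (lv_entry (nc.sm.contDiffAt (isOpen_ball.mem_nhds hy)) α).contDiffWithinAt) (M0 1)
        fun j y hy => nc.d2 1 [j] le_rfl α y hy
  have l3 := oscR_sub (hT x hx') (hT 0 z) (l := 4 * M 2 * r) fun i =>
    lip (f := fun y => κ⁻¹ * D (e i) σ y)
      (contDiffOn_const.mul (D_smoothOn isOpen_ball nc.sm _)) (M0 2) fun j y hy => by
        rw [D_const_mul]
        simp only
        rw [abs_mul, abs_of_pos (inv_pos.2 k0), inv_mul_le_iff₀ k0, mul_comm]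
        exact nc.d1 [j, i] (by simp) y hy
  have rel : ∀ {a c : ℝ}, 0 < c → |a - c| ≤ η * c → |a / c - 1| ≤ η := fun hc h => by
    rwa [div_sub_one hc.ne', abs_div, abs_of_pos hc, div_le_iff₀ hc]
  have nrm : ‖(UJ u 1 (σ 0 - b) t)⁻¹ • lv (fun y => u (σ y - b) t') x -
      (UJ u 1 (σ 0 - b) t)⁻¹ • lv (fun y => u (σ y - b) t) 0‖ ≤
      η * M 0 + 4 * M 1 * r + (η * (4 * (M 1 * M 1)) + 4 * (M 1 * (4 * M 2 * r))) := by
    have split : ∀ (a c : ℝ) (L L' S S' : Hm), a • L + c • S - (L' + S') =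
        (a - 1) • L + (L - L') + ((c - 1) • S + (S - S')) := fun a c L L' S S' => by
      simp only [sub_smul, one_smul]
      abel
    rw [hG x hx' t' ht', h0, split]
    refine norm_add_le_of_le (norm_add_le_of_le ?_ l2) (norm_add_le_of_le ?_ l3)
    · rw [norm_smul]
      exact mul_le_mul (rel hp o1) ((nc.d2 0).norm_le hx') (norm_nonneg _) hη.le
    · rw [norm_smul]
      exact mul_le_mul (rel q0 o2) (oscR_le (hT x hx')) (norm_nonneg _) hη.le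
  have fin := ((cl_of_norm el nrm).mono el.isPos.nn (d' := ε) (by linarith)).smul hp.le
  rwa [smul_inv_smul₀ hp.ne', smul_inv_smul₀ hp.ne'] at fin

end Pool.Agent.MP_67f0e4_gt.K
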